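import Pool.Agent.L0h47.CG.Hecke

/-!
# Cohomology of the locally symmetric spaces of `GL_n`, Hecke algebra, Galois representations
-/

set_option autoImplicit false

namespace Pool.Agent.L0h47.CG

open Matrix NumberField

variable {n : ℕ} {Sg : Finset Pr} {L : Level n Sg} {p : Pr} {O : Type} [CommRing O] {W : Type}
  [AddCommGroup W] [Module O W]

/-- The indices of the Hecke operators: a prime `l` outside of `Sg` and a matrix in
`GL_n(Q_l)`. -/
abbrev HI (n : ℕ) (Sg : Finset Pr) : Type := Σ l : {l : Pr // l ∉ Sg}, LG n l.1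

/-- The cohomology group `H^i(Y(K_f), W)`, as the cohomology of `GL_n(Q)⁺` with values in the
functions on `GL_n(A_f)`. -/
noncomputable abbrev Coef.H (C : Coef L p O W) (i : ℕ) : ModuleCat O :=
  groupCohomology (Rep.of C.rep) i

/-- The Hecke operator on cohomology. -/
noncomputable def Coef.T (C : Coef L p O W) (hp : p ∈ Sg) (i : ℕ) (a : HI n Sg) :
    Module.End O (C.H i) :=
  (groupCohomology.map (MonoidHom.id (GQ n)) (C.heckeRep a.1.1 a.1.2 hp a.2) i).hom

/-- The action of the Hecke algebra on cohomology. -/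
noncomputable def Coef.hAct (C : Coef L p O W) (hp : p ∈ Sg) (i : ℕ) :
    FreeAlgebra O (HI n Sg) →ₐ[O] Module.End O (C.H i) :=
  FreeAlgebra.lift O (C.T hp i)

/-- `H^i(Y(K_f), W)_m ≠ 0` for the kernel `m` of the system of Hecke eigenvalues `θ`: there is a
class whose annihilator in the Hecke algebra is contained in `m`. -/
def Coef.LocNe (C : Coef L p O W) (hp : p ∈ Sg) (i : ℕ) {k : Type} [Field k] [Algebra O k]
    (θ : FreeAlgebra O (HI n Sg) →ₐ[O] k) : Prop :=
  ∃ h : C.H i, ∀ P : FreeAlgebra O (HI n Sg), C.hAct hp i P h = 0 → θ P = 0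

/-- the matrix `diag(l, …, l, 1, …, 1)` with `k` entries `l` -/
noncomputable def td (n : ℕ) (l : Pr) (k : ℕ) : LG n l where
  val := diagonal (fun i => if (i : ℕ) < k then ((l : ℕ) : ℚ_[(l : ℕ)]) else 1)
  inv := diagonal (fun i => if (i : ℕ) < k then (((l : ℕ) : ℚ_[(l : ℕ)]))⁻¹ else 1)
  val_inv := by
    have hl : ((l : ℕ) : ℚ_[(l : ℕ)]) ≠ 0 := by exact_mod_cast l.2.ne_zero
    rw [diagonal_mul_diagonal, ← diagonal_one]
    congr 1
    funext i
    split_ifs
    · exact mul_inv_cancel₀ hl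
    · exact mul_one _
  inv_val := by
    have hl : ((l : ℕ) : ℚ_[(l : ℕ)]) ≠ 0 := by exact_mod_cast l.2.ne_zero
    rw [diagonal_mul_diagonal, ← diagonal_one]
    congr 1
    funext i
    split_ifs
    · exact inv_mul_cancel₀ hl
    · exact mul_one _

/-- The Satake polynomial at `l` of a system of Hecke eigenvalues `θ`, twisted by the `t`-th power
of the cyclotomic character:
`∑_j (-1)^j l^{j(j-1)/2 + t j} θ(T_{l,j}) X^{n-j}`,
with `T_{l,j}` the double coset operator of `diag(l, …, l, 1, …, 1)` (`j` entries `l`). -/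
noncomputable def satake {k : Type} [Field k] [Algebra O k]
    (θ : FreeAlgebra O (HI n Sg) →ₐ[O] k) (t : ℤ) (l : {l : Pr // l ∉ Sg}) : Polynomial k :=
  ∑ j ∈ Finset.range (n + 1),
    Polynomial.C ((-1) ^ j * (((l.1 : ℕ) : k)) ^ (((j * (j - 1) / 2 : ℕ) : ℤ) + t * j) *
      θ (FreeAlgebra.ι O ⟨l, td n l.1 j⟩)) * Polynomial.X ^ (n - j)

/-- The representation `ρ` of the Galois group of the finite Galois extension `F` of the rational
numbers is attached to `θ`: it is unramified outside of `Sg` and for `l` outside of `Sg` the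
characteristic polynomial of the (arithmetic for `e = 1`, geometric for `e = -1`) Frobenius
elements at `l` is the Satake polynomial. -/
structure Attached {k : Type} [Field k] [Algebra O k] (θ : FreeAlgebra O (HI n Sg) →ₐ[O] k)
    (e t : ℤ) {F : Type} [Field F] [NumberField F] (ρ : Gal(F/ℚ) →* GL (Fin n) k) : Prop where
  unram : ∀ l : Pr, l ∉ Sg → ∀ P : Ideal (𝓞 F), P.IsPrime → ((l : ℕ) : 𝓞 F) ∈ P →
    ∀ σ : Gal(F/ℚ), (∀ x : 𝓞 F, σ • x - x ∈ P) → ρ σ = 1
  frob : ∀ l : {l : Pr // l ∉ Sg}, ∀ P : Ideal (𝓞 F), P.IsPrime → ((l.1 : ℕ) : 𝓞 F) ∈ P →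
    ∀ σ : Gal(F/ℚ), (∀ x : 𝓞 F, σ • x - x ^ (l.1 : ℕ) ∈ P) →
      ((ρ (σ ^ e)).1).charpoly = satake θ t l

/-- `ρ` is absolutely irreducible: after a finite extension of `k` there is no proper nonzero
invariant subspace. -/
def AbsIrr {k : Type} [Field k] {Γ : Type} [Group Γ] (ρ : Γ →* GL (Fin n) k) : Prop :=
  ∀ (k' : Type) [Field k'] [Algebra k k'] [FiniteDimensional k k']
    (S : Submodule k' (Fin n → k')),
    (∀ σ, ∀ v ∈ S, ((ρ σ).1.map (algebraMap k k')) *ᵥ v ∈ S) → S = ⊥ ∨ S = ⊤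

end Pool.Agent.L0h47.CG
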