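import Pool.Agent.L0h47.CG.Am
import Pool.Agent.L0h47.CG.Stmt

/-!
# The cohomological dimension of the torsion free arithmetic subgroups of `GL_3(Q)`
-/

set_option autoImplicit false

namespace Pool.Agent.L0h47.CG

open Matrix CategoryTheory

section Cochains

variable {O : Type} [CommRing O] {G : Type} [Group G] {A : Type} [AddCommGroup A] [Module O A]
  {B : Type} [AddCommGroup B] [Module O B]

/-- the differential of inhomogeneous cochains -/
noncomputable def cd (ρ : Representation O G A) {j : ℕ} (f : (Fin j → G) → A) :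
    (Fin (j + 1) → G) → A :=
  fun g => ρ (g 0) (f fun i => g i.succ) +
    ∑ i : Fin (j + 1), (-1 : O) ^ ((i : ℕ) + 1) • f (Fin.contractNth i (· * ·) g)

lemma cd_eq (ρ : Representation O G A) {j : ℕ} (f : (Fin j → G) → A) :
    (inhomogeneousCochains.d (Rep.of ρ) j).hom f = cd ρ f := rfl

lemma cd_cd (ρ : Representation O G A) {j : ℕ} (f : (Fin j → G) → A) : cd ρ (cd ρ f) = 0 := by
  rw [← cd_eq, ← cd_eq, ← LinearMap.comp_apply, ← ModuleCat.hom_comp,
    groupCohomology.inhomogeneousCochains.d_comp_d]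
  rfl

lemma cd_sub (ρ : Representation O G A) {j : ℕ} (f f' : (Fin j → G) → A) :
    cd ρ (f - f') = cd ρ f - cd ρ f' := by
  rw [← cd_eq, ← cd_eq, ← cd_eq]
  exact map_sub _ f f'

lemma cd_map (ρ : Representation O G A) (ρ' : Representation O G B) (φ : A →ₗ[O] B)
    (hφ : ∀ γ a, φ (ρ γ a) = ρ' γ (φ a)) {j : ℕ} (f : (Fin j → G) → A) :
    cd ρ' (fun g => φ (f g)) = fun g => φ (cd ρ f g) := by
  funext g
  unfold cd
  rw [map_add, map_sum, hφ]
  congr 1
  apply Finset.sum_congr rfl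
  intro i _
  rw [map_smul]

lemma contract_zero {j : ℕ} (a : G) (g : Fin (j + 1) → G) :
    Fin.contractNth 0 (· * ·) (Fin.cons a g : Fin (j + 2) → G) =
      (Fin.cons (a * g 0) (fun i => g i.succ) : Fin (j + 1) → G) := by
  funext i
  refine Fin.cases ?_ (fun i => ?_) i
  · rw [Fin.contractNth_apply_of_eq _ _ _ _ rfl]
    rfl
  · rw [Fin.contractNth_apply_of_gt _ _ _ _ (by simp)]
    rfl

lemma contract_succ {j : ℕ} (a : G) (g : Fin (j + 1) → G) (k : Fin (j + 1)) :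
    Fin.contractNth k.succ (· * ·) (Fin.cons a g : Fin (j + 2) → G) =
      (Fin.cons a (Fin.contractNth k (· * ·) g) : Fin (j + 1) → G) := by
  funext i
  refine Fin.cases ?_ (fun i => ?_) i
  · rw [Fin.contractNth_apply_of_lt _ _ _ _ (by simp)]
    rfl
  · rw [Fin.cons_succ]
    rcases lt_trichotomy (i : ℕ) (k : ℕ) with h | h | h
    · rw [Fin.contractNth_apply_of_lt _ _ _ _ (by simpa using h),
        Fin.contractNth_apply_of_lt _ _ _ _ h]
      rfl
    · rw [Fin.contractNth_apply_of_eq _ _ _ _ (by simpa using h),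
        Fin.contractNth_apply_of_eq _ _ _ _ h]
      rfl
    · rw [Fin.contractNth_apply_of_gt _ _ _ _ (by simpa using h),
        Fin.contractNth_apply_of_gt _ _ _ _ h]
      rfl

/-- the cocycle condition at `(a, g)` -/
lemma cd_cons (ρ : Representation O G A) {j : ℕ} {c : (Fin (j + 1) → G) → A} (hc : cd ρ c = 0)
    (a : G) (g : Fin (j + 1) → G) :
    ρ a (c g) = c (Fin.cons (a * g 0) (fun i => g i.succ) : Fin (j + 1) → G) +
      ∑ i : Fin (j + 1), (-1 : O) ^ ((i : ℕ) + 1) •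
        c (Fin.cons a (Fin.contractNth i (· * ·) g) : Fin (j + 1) → G) := by
  have h := congrFun hc (Fin.cons a g)
  unfold cd at h
  rw [Fin.sum_univ_succ, contract_zero] at h
  simp only [contract_succ, Fin.val_succ, Fin.val_zero] at h
  have e1 : (fun i : Fin (j + 1) => (Fin.cons a g : Fin (j + 2) → G) i.succ) = g := rfl
  rw [e1, Fin.cons_zero, Pi.zero_apply] at h
  rw [← sub_eq_zero, ← h, ← sub_sub, sub_eq_add_neg, sub_eq_add_neg, add_assoc]
  congr 1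
  congr 1
  · rw [zero_add, pow_one, neg_smul, one_smul]
  · rw [← Finset.sum_neg_distrib]
    apply Finset.sum_congr rfl
    intro i _
    rw [pow_succ _ ((i : ℕ) + 1), mul_neg_one, neg_smul]

end Cochains

variable {Sg : Finset Pr} {L : Level 3 Sg} {p : Pr} {O : Type} [CommRing O] {W : Type}
  [AddCommGroup W] [Module O W]

/-- **Acyclicity.** -/
theorem Coef.acyc (hTF : L.TorsionFree) (C : Coef L p O W) (m : ℕ) {j : ℕ}
    (c : (Fin (j + 1) → GQ 3) → C.Am m) (hc : cd (C.repA m) c = 0) :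
    ∃ y : (Fin j → GQ 3) → C.Am m, cd (C.repA m) y = c := by
  obtain ⟨s, hs1, hs2, hs3⟩ := exists_sec hTF m
  let Φ : (Fin j → GQ 3) → AG 3 → (Fin m → Ray) → W := fun x g v =>
    (c (Fin.cons (s g v)⁻¹ x)).1 ((dg 3 (s g v))⁻¹ * g) (ac (s g v)⁻¹ ∘ v)
  -- off the cells
  have h0 : ∀ (F : C.Am m) (g : AG 3) (v : Fin m → Ray), ¬ OCg g v → F.1 g v = 0 :=
    fun F g v h => (F.2.2 g).2 v h
  have hΦ0 : ∀ x g v, ¬ OCg g v → Φ x g v = 0 := by
    intro x g v h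
    exact h0 _ _ _ (fun h' => h ((OCg_left' (s g v) g v).mp h'))
  have hΦ : ∀ x, Φ x ∈ C.Am m := by
    intro x
    refine ⟨fun g κ v => ?_, fun g => ⟨fun v σ => ?_, fun v hv => hΦ0 x g v hv⟩⟩
    · by_cases hv : OCg g v
      · show (c (Fin.cons (s (g * κ) v)⁻¹ x)).1 ((dg 3 (s (g * κ) v))⁻¹ * (g * κ))
          (ac (s (g * κ) v)⁻¹ ∘ v) = C.ka κ ((c (Fin.cons (s g v)⁻¹ x)).1 ((dg 3 (s g v))⁻¹ * g)
            (ac (s g v)⁻¹ ∘ v))
        rw [hs2 g v κ hv, ← mul_assoc, (c _).2.1]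
      · rw [hΦ0 x g v hv, hΦ0 x (g * κ) v (fun h => hv ((OCg_K L g κ m v).mp h)), map_zero]
    · by_cases hv : OCg g v
      · show (c (Fin.cons (s g (v ∘ σ))⁻¹ x)).1 ((dg 3 (s g (v ∘ σ)))⁻¹ * g)
          (ac (s g (v ∘ σ))⁻¹ ∘ (v ∘ σ)) = (Equiv.Perm.sign σ : ℤ) •
            (c (Fin.cons (s g v)⁻¹ x)).1 ((dg 3 (s g v))⁻¹ * g) (ac (s g v)⁻¹ ∘ v)
        rw [hs3 g v σ hv, ← Function.comp_assoc]
        exact ((c _).2.2 _).1 _ σ
      · rw [hΦ0 x g v hv, hΦ0 x g (v ∘ σ) (fun h => hv ((OCg_perm σ).mp h)), smul_zero]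
  refine ⟨fun x => ⟨Φ x, hΦ x⟩, ?_⟩
  funext x
  apply Subtype.ext
  funext g v
  by_cases hv : OCg g v
  swap
  · rw [h0 _ _ _ hv, h0 _ _ _ hv]
  -- evaluation
  let ev : AG 3 → (Fin m → Ray) → C.Am m →ₗ[O] W := fun g v =>
    (LinearMap.proj v).comp ((LinearMap.proj g).comp (C.Am m).subtype)
  have hev : ∀ g v (F : C.Am m), ev g v F = F.1 g v := fun _ _ _ => rfl
  have key := congrArg (ev ((dg 3 (s g v))⁻¹ * g) (ac (s g v)⁻¹ ∘ v))
    (cd_cons (C.repA m) hc (s g v)⁻¹ x)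
  rw [map_add, map_sum] at key
  simp only [hev] at key
  have e1 : (C.repA m (s g v)⁻¹ (c x)).1 ((dg 3 (s g v))⁻¹ * g) (ac (s g v)⁻¹ ∘ v) =
      (c x).1 g v := by
    rw [C.repA_apply, map_inv, inv_inv, mul_inv_cancel_left, inv_inv]
    have e5 : ac (s g v) ∘ ac (s g v)⁻¹ ∘ v = v := by
      funext i
      exact ac_inv' _ _
    rw [e5]
  rw [e1] at key
  rw [key, ← hev]
  unfold cd
  rw [map_add, map_sum]
  simp only [hev]
  congr 1
  show Φ (fun i => x i.succ) ((dg 3 (x 0))⁻¹ * g) (ac (x 0)⁻¹ ∘ v) = _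
  have e2 : s ((dg 3 (x 0))⁻¹ * g) (ac (x 0)⁻¹ ∘ v) = (x 0)⁻¹ * s g v := by
    rw [← map_inv]
    exact hs1 g v _ hv
  show (c (Fin.cons (s ((dg 3 (x 0))⁻¹ * g) (ac (x 0)⁻¹ ∘ v))⁻¹ (fun i => x i.succ))).1
    ((dg 3 (s ((dg 3 (x 0))⁻¹ * g) (ac (x 0)⁻¹ ∘ v)))⁻¹ * ((dg 3 (x 0))⁻¹ * g))
    (ac (s ((dg 3 (x 0))⁻¹ * g) (ac (x 0)⁻¹ ∘ v))⁻¹ ∘ (ac (x 0)⁻¹ ∘ v)) = _
  rw [e2, _root_.mul_inv_rev, inv_inv]
  have e3 : (dg 3 ((x 0)⁻¹ * s g v))⁻¹ * ((dg 3 (x 0))⁻¹ * g) = (dg 3 (s g v))⁻¹ * g := by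
    rw [map_mul, map_inv]; group
  have e4 : ac ((s g v)⁻¹ * x 0) ∘ (ac (x 0)⁻¹ ∘ v) = ac (s g v)⁻¹ ∘ v := by
    funext i
    show ac ((s g v)⁻¹ * x 0) (ac (x 0)⁻¹ (v i)) = ac (s g v)⁻¹ (v i)
    rw [ac_mul, ac_inv']
  rw [e3, e4]

/-- vanishing for the kernel of the differential -/
def Coef.VanZ (C : Coef L p O W) (m j : ℕ) : Prop :=
  ∀ x : (Fin (j + 1) → GQ 3) → C.Am (m + 1), cd (C.repA (m + 1)) x = 0 →
    (∀ g, C.dd m (x g) = 0) → ∃ y : (Fin j → GQ 3) → C.Am (m + 1),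
      cd (C.repA (m + 1)) y = x ∧ ∀ g, C.dd m (y g) = 0

lemma Coef.vanZ_two (hTF : L.TorsionFree) (C : Coef L p O W) (j : ℕ) : C.VanZ 2 j := by
  intro x hx _
  obtain ⟨y, hy⟩ := C.acyc hTF 3 x hx
  exact ⟨y, hy, fun g => C.Am_two _⟩

lemma Coef.vanZ_succ (hTF : L.TorsionFree) (C : Coef L p O W) {m j : ℕ} (hm : m + 1 < 6)
    (h : C.VanZ m j) : C.VanZ (m + 1) (j + 1) := by
  intro x hx hx'
  obtain ⟨y, hy⟩ := C.acyc hTF (m + 2) x hx
  have e1 : cd (C.repA (m + 1)) (fun g => C.dd (m + 1) (y g)) = 0 := by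
    rw [cd_map (C.repA (m + 2)) (C.repA (m + 1)) (C.dd (m + 1)) (fun γ a => C.dd_rep γ a), hy]
    funext g
    exact hx' g
  obtain ⟨w, hw, hw'⟩ := h (fun g => C.dd (m + 1) (y g)) e1 (fun g => C.dd_dd _)
  have h2 : ∀ g, ∃ u, C.dd (m + 1) u = w g := fun g => C.dd_exact hm (hw' g)
  choose u hu using h2
  refine ⟨y - cd (C.repA (m + 2)) u, ?_, ?_⟩
  · rw [cd_sub, cd_cd, hy, sub_zero]
  · intro g
    have e2 : C.dd (m + 1) (cd (C.repA (m + 2)) u g) = C.dd (m + 1) (y g) := by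
      have e3 := congrFun (cd_map (C.repA (m + 2)) (C.repA (m + 1)) (C.dd (m + 1))
        (fun γ a => C.dd_rep γ a) u) g
      rw [← e3]
      have e4 : (fun g => C.dd (m + 1) (u g)) = w := funext hu
      rw [e4, hw]
    show C.dd (m + 1) (y g - cd (C.repA (m + 2)) u g) = 0
    rw [map_sub, e2, sub_self]

lemma Coef.vanZ_five (hTF : L.TorsionFree) (C : Coef L p O W) (j : ℕ) : C.VanZ 5 (j + 3) :=
  C.vanZ_succ hTF (by norm_num) (C.vanZ_succ hTF (by norm_num) (C.vanZ_succ hTF (by norm_num)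
    (C.vanZ_two hTF j)))

/-- **Vanishing of the cocycles modulo coboundaries above degree three.** -/
theorem Coef.van_coc (hTF : L.TorsionFree) (C : Coef L p O W) {j : ℕ}
    (f : (Fin (j + 4) → GQ 3) → C.Fn) (hf : cd C.rep f = 0) :
    ∃ h : (Fin (j + 3) → GQ 3) → C.Fn, cd C.rep h = f := by
  have e1 : cd (C.repA 6) (fun g => C.orr (f g)) = 0 := by
    rw [cd_map C.rep (C.repA 6) C.orr (fun γ a => C.orr_rep γ a), hf]
    funext g
    exact map_zero _
  obtain ⟨y, hy, hy'⟩ := C.vanZ_five hTF j (fun g => C.orr (f g)) e1 (fun g => C.orr_dd _)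
  have h2 : ∀ g, ∃ u, C.orr u = y g := fun g => C.orr_surj (hy' g)
  choose u hu using h2
  refine ⟨u, ?_⟩
  funext g
  have e2 := congrFun (cd_map C.rep (C.repA 6) C.orr (fun γ a => C.orr_rep γ a) u) g
  have e3 : (fun g => C.orr (u g)) = y := funext hu
  rw [e3, hy] at e2
  have e4 : C.orr (cd C.rep u g - f g) = 0 := by
    rw [map_sub, ← e2, sub_self]
  exact sub_eq_zero.mp (C.orr_inj e4)

/-- **Vanishing of the cohomology above degree three.** -/
theorem Coef.van_H (hTF : L.TorsionFree) (C : Coef L p O W) {i : ℕ} (hi : 4 ≤ i) (h : C.H i) :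
    h = 0 := by
  obtain ⟨j, rfl⟩ := Nat.exists_eq_add_of_le' hi
  induction h using groupCohomology_induction_on with
  | h x =>
    let K := groupCohomology.inhomogeneousCochains (Rep.of C.rep)
    let f : (Fin (j + 4) → GQ 3) → C.Fn := ModuleCat.Hom.hom (K.iCycles (j + 4)) x
    have hf : cd C.rep f = 0 := by
      have h1 : ModuleCat.Hom.hom (K.iCycles (j + 4) ≫ K.d (j + 4) (j + 5)) x = 0 := by
        rw [K.iCycles_d]
        rfl
      rw [ModuleCat.hom_comp, LinearMap.comp_apply,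
        groupCohomology.inhomogeneousCochains.d_def] at h1
      exact h1
    obtain ⟨u, hu⟩ := C.van_coc hTF f hf
    have h2 : x = ModuleCat.Hom.hom (K.toCycles (j + 3) (j + 4)) u := by
      apply (ModuleCat.mono_iff_injective (K.iCycles (j + 4))).mp inferInstance
      have h1 : ModuleCat.Hom.hom (K.toCycles (j + 3) (j + 4) ≫ K.iCycles (j + 4)) u = f := by
        rw [K.toCycles_i, groupCohomology.inhomogeneousCochains.d_def]
        exact hu
      exact h1.symm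
    rw [h2]
    have h3 : ModuleCat.Hom.hom (K.toCycles (j + 3) (j + 4) ≫ K.homologyπ (j + 4)) u = 0 := by
      rw [K.toCycles_comp_homologyπ]
      rfl
    exact h3

/-- **No system of Hecke eigenvalues occurs above degree three.** -/
theorem Coef.high (hTF : L.TorsionFree) (C : Coef L p O W) (hp : p ∈ Sg) {k : Type} [Field k]
    [Algebra O k] (θ : FreeAlgebra O (HI 3 Sg) →ₐ[O] k) {i : ℕ} (h : C.LocNe hp i θ) : i ≤ 3 := by
  by_contra hi
  obtain ⟨x, hx⟩ := h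
  have h1 := hx 1 (by rw [C.van_H hTF (by omega) x, map_zero])
  rw [map_one] at h1
  exact one_ne_zero h1

end Pool.Agent.L0h47.CG
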