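import Pool.Agent.L0h47.CG.ShellEx

/-!
# Alternating functions on the ordered cells
-/

set_option autoImplicit false

namespace Pool.Agent.L0h47.CG

namespace Shell

section
variable {R : Type} [DecidableEq R] {N : ℕ} (S : Shell R N) {W : Type} [AddCommGroup W]

/-- the tuple is an ordered cell -/
def OC {m : ℕ} (v : Fin m → R) : Prop := Function.Injective v ∧ S.Cell (Finset.univ.image v)

/-- alternating functions on the ordered cells -/
def IsAlt (m : ℕ) (f : (Fin m → R) → W) : Prop :=
  (∀ (v : Fin m → R) (σ : Equiv.Perm (Fin m)), f (v ∘ σ) = (Equiv.Perm.sign σ : ℤ) • f v) ∧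
    ∀ v, ¬ S.OC v → f v = 0

open scoped Classical in
/-- the differential -/
noncomputable def dA {m : ℕ} (f : (Fin (m + 1) → R) → W) (v : Fin m → R) : W :=
  if Function.Injective v then ∑ r ∈ S.cof (Finset.univ.image v), f (Fin.cons r v : Fin (m + 1) → R)
  else 0

end

section
variable {R : Type} [LinearOrder R] {N : ℕ} {S : Shell R N} {W : Type} [AddCommGroup W]

lemma image_comp_perm {m : ℕ} (v : Fin m → R) (σ : Equiv.Perm (Fin m)) :
    Finset.univ.image (v ∘ σ) = Finset.univ.image v := by
  ext r
  simp only [Finset.mem_image, Finset.mem_univ, true_and, Function.comp]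
  constructor
  · rintro ⟨a, h⟩; exact ⟨σ a, h⟩
  · rintro ⟨a, h⟩; exact ⟨σ.symm a, by simpa using h⟩

lemma image_cons {m : ℕ} (r : R) (v : Fin m → R) :
    Finset.univ.image (Fin.cons r v : Fin (m + 1) → R) = insert r (Finset.univ.image v) := by
  ext s
  simp only [Finset.mem_image, Finset.mem_univ, true_and, Finset.mem_insert, Fin.exists_fin_succ,
    Fin.cons_zero, Fin.cons_succ, eq_comm]

lemma cons_comp_perm {m : ℕ} (r : R) (v : Fin m → R) (σ : Equiv.Perm (Fin m)) :
    (Fin.cons r (v ∘ σ) : Fin (m + 1) → R) =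
      (Fin.cons r v : Fin (m + 1) → R) ∘ (Equiv.Perm.decomposeFin.symm (0, σ)) := by
  funext i
  refine Fin.cases ?_ (fun j => ?_) i
  · simp [Equiv.Perm.decomposeFin_symm_apply_zero]
  · simp [Equiv.Perm.decomposeFin_symm_apply_succ]

lemma sign_decomp {m : ℕ} (σ : Equiv.Perm (Fin m)) :
    Equiv.Perm.sign (Equiv.Perm.decomposeFin.symm ((0 : Fin (m + 1)), σ)) = Equiv.Perm.sign σ := by
  rw [Equiv.Perm.decomposeFin.symm_sign]; simp

lemma dA_alt {m : ℕ} {f : (Fin (m + 1) → R) → W} (hf : S.IsAlt (m + 1) f) :
    S.IsAlt m (S.dA f) := by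
  constructor
  · intro v σ
    unfold dA
    by_cases hv : Function.Injective v
    · rw [if_pos hv, if_pos (hv.comp σ.injective), image_comp_perm, Finset.smul_sum]
      apply Finset.sum_congr rfl
      intro r _
      rw [cons_comp_perm, hf.1, sign_decomp]
    · rw [if_neg hv, if_neg, smul_zero]
      intro h
      apply hv
      have := h.comp σ.symm.injective
      rwa [Function.comp_assoc, Equiv.self_comp_symm, Function.comp_id] at this
  · intro v hv
    unfold dA
    by_cases hi : Function.Injective v
    · rw [if_pos hi, cof_eq_empty (fun hc => hv ⟨hi, hc⟩), Finset.sum_empty]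
    · rw [if_neg hi]

/-- the function on the sets -/
def tS {m : ℕ} (f : (Fin m → R) → W) (G : Finset R) : W :=
  if h : G.card = m then f (G.orderEmbOfFin h) else 0

lemma tS_supp {m : ℕ} {f : (Fin m → R) → W} (hf : S.IsAlt m f) : S.Supp m (tS f) := by
  intro G hG
  unfold tS
  split_ifs with h
  · apply hf.2
    rintro ⟨-, hc⟩
    apply hG
    rw [Finset.image_orderEmbOfFin_univ] at hc
    exact ⟨hc, h⟩
  · rfl

lemma sorted_eq {m : ℕ} {v : Fin m → R} (hv : Function.Injective v) :
    v ∘ Tuple.sort v = (Finset.univ.image v).orderEmbOfFin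
      (by rw [Finset.card_image_of_injective _ hv, Finset.card_fin]) := by
  apply Finset.orderEmbOfFin_unique
  · intro i
    simp
  · exact (Tuple.monotone_sort v).strictMono_of_injective (hv.comp (Tuple.sort v).injective)

lemma alt_sorted {m : ℕ} {f : (Fin m → R) → W} (hf : S.IsAlt m f) {v : Fin m → R}
    (hv : Function.Injective v) :
    f v = (Equiv.Perm.sign (Tuple.sort v) : ℤ) • tS f (Finset.univ.image v) := by
  unfold tS
  rw [dif_pos (by rw [Finset.card_image_of_injective _ hv, Finset.card_fin]), ← sorted_eq hv, hf.1,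
    smul_smul]
  rcases Int.units_eq_one_or (Equiv.Perm.sign (Tuple.sort v)) with h | h <;> rw [h] <;> simp

lemma alt_ext {m : ℕ} {f g : (Fin m → R) → W} (hf : S.IsAlt m f) (hg : S.IsAlt m g)
    (h : tS f = tS g) : f = g := by
  funext v
  by_cases hv : Function.Injective v
  · rw [alt_sorted hf hv, alt_sorted hg hv, h]
  · rw [hf.2 v fun h => hv h.1, hg.2 v fun h => hv h.1]

lemma cons_sorted {m : ℕ} {f : (Fin (m + 1) → R) → W} (hf : S.IsAlt (m + 1) f) {G : Finset R}
    (hG : G.card = m) {r : R} (hr : r ∉ G) :
    f (Fin.cons r (G.orderEmbOfFin hG) : Fin (m + 1) → R) = sg r G • tS f (insert r G) := by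
  have hcard : (insert r G).card = m + 1 := by rw [Finset.card_insert_of_notMem hr, hG]
  set u := (insert r G).orderEmbOfFin hcard with hu
  obtain ⟨i, hi⟩ : ∃ i, u i = r := by
    have : r ∈ Set.range u := by
      rw [Finset.range_orderEmbOfFin]; simp
    exact this
  have h1 : (fun j => u (i.succAbove j)) = G.orderEmbOfFin hG := by
    apply Finset.orderEmbOfFin_unique
    · intro j
      have h2 : u (i.succAbove j) ∈ insert r G := Finset.orderEmbOfFin_mem _ _ _
      rw [Finset.mem_insert] at h2
      rcases h2 with h2 | h2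
      · exfalso
        rw [← hi] at h2
        exact Fin.succAbove_ne i j (u.injective h2)
      · exact h2
    · intro a b hab
      exact u.strictMono (Fin.strictMono_succAbove i hab)
  have h3 : (Fin.cons r (G.orderEmbOfFin hG) : Fin (m + 1) → R) ∘ i.cycleRange = u := by
    rw [Fin.cons_comp_cycleRange, ← h1]
    funext k
    refine Fin.succAboveCases i ?_ (fun j => ?_) k
    · rw [Fin.insertNth_apply_same, hi]
    · rw [Fin.insertNth_apply_succAbove]
  have h4 : tS f (insert r G) = f u := by unfold tS; rw [dif_pos hcard]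
  rw [h4, ← h3, hf.1, smul_smul, Fin.sign_cycleRange]
  have h5 : below r G = i := by
    unfold below
    have : G.filter (fun s => s < r) = (Finset.univ.filter fun j : Fin (m + 1) => j < i).image u := by
      ext s
      simp only [Finset.mem_filter, Finset.mem_image, Finset.mem_univ, true_and]
      constructor
      · rintro ⟨hs, hsr⟩
        have : s ∈ Set.range u := by
          rw [Finset.range_orderEmbOfFin]; simp [hs]
        obtain ⟨j, rfl⟩ := this
        rw [← hi] at hsr
        exact ⟨j, u.lt_iff_lt.mp hsr, rfl⟩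
      · rintro ⟨j, hj, rfl⟩
        have h2 : u j ∈ insert r G := Finset.orderEmbOfFin_mem _ _ _
        rw [Finset.mem_insert] at h2
        refine ⟨?_, ?_⟩
        · rcases h2 with h2 | h2
          · exfalso
            rw [← hi] at h2
            exact (ne_of_lt hj) (u.injective h2)
          · exact h2
        · rw [← hi]; exact u.strictMono hj
    rw [this, Finset.card_image_of_injective _ u.injective]
    have h7 : (Finset.univ.filter fun j : Fin (m + 1) => j < i) = Finset.Iio i := by
      ext j; simp
    rw [h7, Fin.card_Iio]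
  unfold sg
  rw [h5]
  push_cast
  rw [← mul_pow]
  simp

lemma tS_dA {m : ℕ} {f : (Fin (m + 1) → R) → W} (hf : S.IsAlt (m + 1) f) :
    tS (S.dA f) = S.df (tS f) := by
  funext G
  by_cases hG : G.card = m
  · unfold tS
    rw [dif_pos hG]
    unfold dA df
    rw [if_pos (G.orderEmbOfFin hG).injective, Finset.image_orderEmbOfFin_univ]
    apply Finset.sum_congr rfl
    intro r hr
    have hc : S.Cell G := by
      by_contra h
      rw [cof_eq_empty h] at hr
      simp at hr
    rw [mem_cof hc] at hr
    rw [cons_sorted hf hG hr.1]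
    rfl
  · rw [df_supp (tS_supp hf) G fun h => hG h.2]
    unfold tS
    rw [dif_neg hG]

open scoped Classical in
/-- the function on the tuples -/
noncomputable def fS (m : ℕ) (h : Finset R → W) (v : Fin m → R) : W :=
  if Function.Injective v then (Equiv.Perm.sign (Tuple.sort v) : ℤ) • h (Finset.univ.image v) else 0

lemma fS_alt {m : ℕ} {h : Finset R → W} (hh : S.Supp m h) : S.IsAlt m (fS m h) := by
  constructor
  · intro v σ
    unfold fS
    by_cases hv : Function.Injective v
    · have hv' := hv.comp σ.injective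
      rw [if_pos hv, if_pos hv', image_comp_perm, smul_smul]
      have h1 : σ * Tuple.sort (v ∘ σ) = Tuple.sort v := by
        have := Tuple.comp_perm_comp_sort_eq_comp_sort (f := v) (σ := σ)
        ext i
        have h2 := congrFun this i
        simp only [Function.comp] at h2
        have h3 := hv h2
        rw [Equiv.Perm.mul_apply, h3]
      rw [← h1, Equiv.Perm.sign_mul]
      congr 1
      push_cast
      rw [← mul_assoc, ← Units.val_mul, ← Units.val_mul]
      rcases Int.units_eq_one_or (Equiv.Perm.sign σ) with h | h <;> rw [h] <;> simp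
    · rw [if_neg hv, if_neg, smul_zero]
      intro h
      apply hv
      have := h.comp σ.symm.injective
      rwa [Function.comp_assoc, Equiv.self_comp_symm, Function.comp_id] at this
  · intro v hv
    unfold fS
    by_cases hi : Function.Injective v
    · rw [if_pos hi, hh _ fun hc => hv ⟨hi, hc.1⟩, smul_zero]
    · rw [if_neg hi]

lemma tS_fS {m : ℕ} {h : Finset R → W} (hh : S.Supp m h) : tS (fS m h) = h := by
  funext G
  unfold tS
  split_ifs with hG
  · unfold fS
    rw [if_pos (G.orderEmbOfFin hG).injective, Finset.image_orderEmbOfFin_univ]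
    have : Tuple.sort (G.orderEmbOfFin hG) = Equiv.refl _ :=
      Tuple.sort_eq_refl_iff_monotone.mpr (G.orderEmbOfFin hG).monotone
    rw [this]
    simp
  · exact (hh G fun h => hG h.2).symm

lemma exact_aux {m : ℕ} (hm : m < N) {f : (Fin m → R) → W} (hf : S.IsAlt m f)
    (hd : S.df (tS f) = 0) : ∃ h : (Fin (m + 1) → R) → W, S.IsAlt (m + 1) h ∧ S.dA h = f := by
  obtain ⟨h, h1, h2⟩ := exists_sol hm (tS_supp hf) hd
  refine ⟨fS (m + 1) h, fS_alt h1, ?_⟩
  apply alt_ext (dA_alt (fS_alt h1)) hf
  rw [tS_dA (fS_alt h1), tS_fS h1, h2]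

lemma inj_aux {f : (Fin N → R) → W} (hf : S.IsAlt N f) (hd : S.df (tS f) = 0)
    {v : Fin N → R} (hv : Function.Injective v) (hv0 : Finset.univ.image v = S.F0) (h0 : f v = 0) :
    f = 0 := by
  have h1 : tS f = 0 := by
    apply eq_zero_of_F0 (tS_supp hf) hd
    rw [alt_sorted hf hv, hv0] at h0
    rcases Int.units_eq_one_or (Equiv.Perm.sign (Tuple.sort v)) with h | h <;> rw [h] at h0 <;>
      simpa using h0
  have h2 : S.IsAlt N (0 : (Fin N → R) → W) := ⟨fun _ _ => by simp, fun _ _ => rfl⟩
  apply alt_ext hf h2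
  rw [h1]
  funext G
  unfold tS
  split_ifs <;> rfl

end

section
variable {R : Type} [inst : DecidableEq R] {N : ℕ} (S : Shell R N) {W : Type} [AddCommGroup W]

/-- **Exactness in the middle.** -/
theorem exact_mid {m : ℕ} (hm : m + 1 < N) {f : (Fin (m + 1) → R) → W} (hf : S.IsAlt (m + 1) f)
    (hd : S.dA f = 0) :
    ∃ h : (Fin (m + 2) → R) → W, S.IsAlt (m + 2) h ∧ S.dA h = f := by
  let lo : LinearOrder R := IsWellOrder.linearOrder WellOrderingRel
  have h : inst = (fun a b => lo.toDecidableEq a b) := Subsingleton.elim _ _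
  subst h
  apply exact_aux hm hf
  rw [← tS_dA hf, hd]
  funext G
  unfold tS
  split_ifs <;> rfl

/-- **Exactness at the end.** -/
theorem exact_end {m : ℕ} (hm : m < N) (hmin : ∀ G, S.Cell G → m ≤ G.card)
    {f : (Fin m → R) → W} (hf : S.IsAlt m f) :
    ∃ h : (Fin (m + 1) → R) → W, S.IsAlt (m + 1) h ∧ S.dA h = f := by
  let lo : LinearOrder R := IsWellOrder.linearOrder WellOrderingRel
  have h : inst = (fun a b => lo.toDecidableEq a b) := Subsingleton.elim _ _
  subst h
  apply exact_aux hm hf
  funext G
  by_cases hG : S.Cell G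
  · unfold df
    apply Finset.sum_eq_zero
    intro r hr
    rw [mem_cof hG] at hr
    rw [tS_supp hf, smul_zero]
    rintro ⟨-, h⟩
    rw [Finset.card_insert_of_notMem hr.1] at h
    have := hmin G hG
    omega
  · exact df_not hG

/-- **Exactness at the beginning.** -/
theorem exact_beg {m : ℕ} (hm : N = m + 1) {f : (Fin (m + 1) → R) → W} (hf : S.IsAlt (m + 1) f)
    (hd : S.dA f = 0) {v : Fin (m + 1) → R} (hv : Function.Injective v)
    (hv0 : Finset.univ.image v = S.F0) (h0 : f v = 0) : f = 0 := by
  let lo : LinearOrder R := IsWellOrder.linearOrder WellOrderingRel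
  have h : inst = (fun a b => lo.toDecidableEq a b) := Subsingleton.elim _ _
  subst h
  subst hm
  apply inj_aux hf _ hv hv0 h0
  rw [← tS_dA hf, hd]
  funext G
  unfold tS
  split_ifs <;> rfl

end

end Shell

end Pool.Agent.L0h47.CG
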