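import Pool.Agent.L0h47.CG.Free

/-!
# The complex of functions on the cells
-/

set_option autoImplicit false

namespace Pool.Agent.L0h47.CG

open Matrix

section Fibre

variable {W : Type} [AddCommGroup W] {W' : Type} [AddCommGroup W']

lemma IsAltB.map {β : Ray} (φ : W →+ W') {m : ℕ} {f : (Fin m → Ray) → W} (hf : IsAltB β m f) :
    IsAltB β m (fun v => φ (f v)) := by
  constructor
  · intro v σ
    show φ (f (v ∘ σ)) = _
    rw [hf.1, map_zsmul]
  · intro v hv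
    show φ (f v) = 0
    rw [hf.2 v hv, map_zero]

lemma IsAltB.add {β : Ray} {m : ℕ} {f f' : (Fin m → Ray) → W} (hf : IsAltB β m f)
    (hf' : IsAltB β m f') : IsAltB β m (f + f') := by
  constructor
  · intro v σ
    rw [Pi.add_apply, Pi.add_apply, hf.1, hf'.1, smul_add]
  · intro v hv
    rw [Pi.add_apply, hf.2 v hv, hf'.2 v hv, add_zero]

lemma IsAltB.zero {β : Ray} {m : ℕ} : IsAltB β m (0 : (Fin m → Ray) → W) := by
  constructor
  · intro v σ
    rw [Pi.zero_apply, Pi.zero_apply, smul_zero]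
  · intro v hv
    rfl

lemma dB_map {β : Ray} (hβ : IsUnit β) (φ : W →+ W') {m : ℕ} {f : (Fin (m + 1) → Ray) → W}
    (hf : IsAltB β (m + 1) f) : dB β (fun v => φ (f v)) = fun v => φ (dB β f v) := by
  classical
  obtain ⟨S, hS⟩ := exists_gen
  rw [← dA_eq hβ hS hf, ← dA_eq hβ hS (hf.map φ)]
  funext v
  unfold Shell.dA
  split_ifs with h
  · rw [map_sum]
  · rw [map_zero]

lemma dB_add {β : Ray} (hβ : IsUnit β) {m : ℕ} {f f' : (Fin (m + 1) → Ray) → W}
    (hf : IsAltB β (m + 1) f) (hf' : IsAltB β (m + 1) f') :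
    dB β (f + f') = dB β f + dB β f' := by
  classical
  obtain ⟨S, hS⟩ := exists_gen
  rw [← dA_eq hβ hS hf, ← dA_eq hβ hS hf', ← dA_eq hβ hS (hf.add hf')]
  funext v
  rw [Pi.add_apply]
  unfold Shell.dA
  split_ifs with h
  · rw [← Finset.sum_add_distrib]
    rfl
  · rw [add_zero]

lemma ori_map {β : Ray} (φ : W →+ W') (w : W) : ori β (φ w) = fun v => φ (ori β w v) := by
  classical
  funext v
  unfold ori
  split_ifs with h
  · rw [map_zsmul]
  · rw [map_zero]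

lemma ori_add {β : Ray} (w w' : W) : ori β (w + w') = ori β w + ori β w' := by
  classical
  funext v
  rw [Pi.add_apply]
  unfold ori
  split_ifs with h
  · rw [smul_add]
  · rw [add_zero]

end Fibre

variable {Sg : Finset Pr} {L : Level 3 Sg} {p : Pr} {O : Type} [CommRing O] {W : Type}
  [AddCommGroup W] [Module O W]

/-- multiplication by a scalar -/
def sc (O : Type) [CommRing O] (W : Type) [AddCommGroup W] [Module O W] (c : O) : W →+ W :=
  (LinearMap.lsmul O W c).toAddMonoidHom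

lemma sc_apply (c : O) (w : W) : sc O W c w = c • w := rfl

/-- the action of `K_f` -/
noncomputable def Coef.ka (C : Coef L p O W) (κ : L.Kf) : W →+ W := (C.act (L.pc p κ)⁻¹).toAddMonoidHom

lemma Coef.ka_apply (C : Coef L p O W) (κ : L.Kf) (w : W) : C.ka κ w = C.act (L.pc p κ)⁻¹ w := rfl

lemma Coef.ka_smul (C : Coef L p O W) (κ : L.Kf) (c : O) (w : W) : C.ka κ (c • w) = c • C.ka κ w :=
  (C.act (L.pc p κ)⁻¹).map_smul c w

lemma Coef.ka_mul (C : Coef L p O W) (κ κ' : L.Kf) (w : W) : C.ka (κ * κ') w = C.ka κ' (C.ka κ w) := by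
  have e3 : L.pc p (κ * κ') = L.pc p κ * L.pc p κ' := rfl
  rw [C.ka_apply, C.ka_apply, C.ka_apply, e3, _root_.mul_inv_rev, map_mul]
  rfl

/-- functions on the cells with `m` rays -/
noncomputable def Coef.Am (C : Coef L p O W) (m : ℕ) : Submodule O (AG 3 → (Fin m → Ray) → W) where
  carrier := {f | (∀ g (κ : L.Kf) v, f (g * κ) v = C.ka κ (f g v)) ∧ ∀ g, IsAltG g m (f g)}
  add_mem' := by
    rintro f f' ⟨h1, h2⟩ ⟨h1', h2'⟩
    refine ⟨fun g κ v => ?_, fun g => ?_⟩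
    · show f (g * κ) v + f' (g * κ) v = C.ka κ (f g v + f' g v)
      rw [h1, h1', map_add]
    · exact IsAltB.add (h2 g) (h2' g)
  zero_mem' := by
    refine ⟨fun g κ v => ?_, fun g => ?_⟩
    · show (0 : W) = C.ka κ 0
      rw [map_zero]
    · exact IsAltB.zero
  smul_mem' := by
    rintro c f ⟨h1, h2⟩
    refine ⟨fun g κ v => ?_, fun g => ?_⟩
    · show c • f (g * κ) v = C.ka κ (c • f g v)
      rw [h1, C.ka_smul]
    · exact IsAltB.map (sc O W c) (h2 g)

/-- the action on the functions on the cells -/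
noncomputable def Coef.repA (C : Coef L p O W) (m : ℕ) : Representation O (GQ 3) (C.Am m) where
  toFun γ :=
    { toFun f := ⟨fun g => tr γ (f.1 ((dg 3 γ)⁻¹ * g)), by
        refine ⟨fun g κ v => ?_, fun g => ?_⟩
        · show f.1 ((dg 3 γ)⁻¹ * (g * κ)) (ac γ⁻¹ ∘ v) = C.ka κ (f.1 ((dg 3 γ)⁻¹ * g) (ac γ⁻¹ ∘ v))
          rw [← mul_assoc, f.2.1]
        · exact tr_alt γ g (f.2.2 _)⟩
      map_add' f f' := rfl
      map_smul' c f := rfl }
  map_one' := by
    apply LinearMap.ext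
    intro f
    apply Subtype.ext
    funext g v
    show f.1 ((dg 3 1)⁻¹ * g) (ac 1⁻¹ ∘ v) = f.1 g v
    rw [map_one, inv_one, one_mul, inv_one]
    have e : ac 1 ∘ v = v := by
      funext i
      exact ac_one _
    rw [e]
  map_mul' a b := by
    apply LinearMap.ext
    intro f
    apply Subtype.ext
    funext g v
    show f.1 ((dg 3 (a * b))⁻¹ * g) (ac (a * b)⁻¹ ∘ v) =
      f.1 ((dg 3 b)⁻¹ * ((dg 3 a)⁻¹ * g)) (ac b⁻¹ ∘ (ac a⁻¹ ∘ v))
    rw [map_mul, _root_.mul_inv_rev, mul_assoc, _root_.mul_inv_rev]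
    have e : ac (b⁻¹ * a⁻¹) ∘ v = ac b⁻¹ ∘ (ac a⁻¹ ∘ v) := by
      funext i
      exact ac_mul _ _ _
    rw [e]

lemma Coef.repA_apply (C : Coef L p O W) {m : ℕ} (γ : GQ 3) (f : C.Am m) (g : AG 3)
    (v : Fin m → Ray) : (C.repA m γ f).1 g v = f.1 ((dg 3 γ)⁻¹ * g) (ac γ⁻¹ ∘ v) := rfl

lemma OCg_K (L : Level 3 Sg) (g : AG 3) (κ : L.Kf) (m : ℕ) (v : Fin m → Ray) :
    OCg (g * κ) v ↔ OCg g v := OCg_right (Kf_le L κ.2) v

/-- the differential -/
noncomputable def Coef.dd (C : Coef L p O W) (m : ℕ) : C.Am (m + 1) →ₗ[O] C.Am m where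
  toFun f := ⟨fun g => dG g (f.1 g), by
    refine ⟨fun g κ v => ?_, fun g => ?_⟩
    · show dG (g * κ) (f.1 (g * κ)) v = C.ka κ (dG g (f.1 g) v)
      rw [dG_congr (OCg_K L g κ)]
      have e : f.1 (g * κ) = fun v => C.ka κ (f.1 g v) := by
        funext v
        exact f.2.1 g κ v
      rw [e]
      exact congrFun (dB_map (mat_unit _) (C.ka κ) (f.2.2 g)) v
    · exact dB_alt (mat_unit _) (f.2.2 g)⟩
  map_add' f f' := by
    apply Subtype.ext
    funext g
    exact dB_add (mat_unit _) (f.2.2 g) (f'.2.2 g)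
  map_smul' c f := by
    apply Subtype.ext
    funext g
    exact dB_map (mat_unit _) (sc O W c) (f.2.2 g)

lemma Coef.dd_apply (C : Coef L p O W) {m : ℕ} (f : C.Am (m + 1)) (g : AG 3) :
    (C.dd m f).1 g = dG g (f.1 g) := rfl

lemma Coef.dd_dd (C : Coef L p O W) {m : ℕ} (f : C.Am (m + 2)) : C.dd m (C.dd (m + 1) f) = 0 := by
  apply Subtype.ext
  funext g
  exact dB_dB (mat_unit _) (f.2.2 g)

lemma Coef.dd_rep (C : Coef L p O W) {m : ℕ} (γ : GQ 3) (f : C.Am (m + 1)) :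
    C.dd m (C.repA (m + 1) γ f) = C.repA m γ (C.dd m f) := by
  apply Subtype.ext
  funext g
  exact tr_d γ g _

/-- the orientation map -/
noncomputable def Coef.orr (C : Coef L p O W) : C.Fn →ₗ[O] C.Am 6 where
  toFun F := ⟨fun g => oriG g (F.1 g), by
    refine ⟨fun g κ v => ?_, fun g => ?_⟩
    · show oriG (g * κ) (F.1 (g * κ)) v = C.ka κ (oriG g (F.1 g) v)
      rw [oriG_congr (OCg_K L g κ), F.2 g κ]
      exact congrFun (ori_map (C.ka κ) (F.1 g)) v
    · exact ori_alt _ _⟩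
  map_add' F F' := by
    apply Subtype.ext
    funext g
    exact ori_add _ _
  map_smul' c F := by
    apply Subtype.ext
    funext g
    exact ori_map (sc O W c) (F.1 g)

lemma Coef.orr_inj (C : Coef L p O W) {F : C.Fn} (h : C.orr F = 0) : F = 0 := by
  apply Subtype.ext
  funext g
  apply ori_inj (mat_unit (fr g))
  exact congrFun (congrArg Subtype.val h) g

lemma Coef.orr_dd (C : Coef L p O W) (F : C.Fn) : C.dd 5 (C.orr F) = 0 := by
  apply Subtype.ext
  funext g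
  exact ori_d (mat_unit (fr g)) _

lemma Coef.orr_rep (C : Coef L p O W) (γ : GQ 3) (F : C.Fn) :
    C.orr (C.rep γ F) = C.repA 6 γ (C.orr F) := by
  apply Subtype.ext
  funext g
  exact (tr_ori γ g _).symm

lemma Coef.orr_surj (C : Coef L p O W) {f : C.Am 6} (h : C.dd 5 f = 0) : ∃ F, C.orr F = f := by
  have h1 : ∀ g, ∃ w, f.1 g = oriG g w := by
    intro g
    apply fiber_beg (mat_unit (fr g)) (f.2.2 g)
    exact congrFun (congrArg Subtype.val h) g
  choose w hw using h1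
  refine ⟨⟨w, fun g κ => ?_⟩, ?_⟩
  · have h2 : oriG g (w (g * κ) + -(C.ka κ (w g))) = 0 := by
      have e1 : oriG g (w (g * κ)) = f.1 (g * κ) := by
        rw [hw, oriG_congr (OCg_K L g κ)]
      have e2 : oriG g (-(C.ka κ (w g))) = fun v => -(f.1 (g * κ) v) := by
        have e3 : oriG g (-(C.ka κ (w g))) = fun v => -(C.ka κ (oriG g (w g) v)) :=
          ori_map (-(C.ka κ)) (w g)
        rw [e3]
        funext v
        rw [f.2.1 g κ v, ← hw]
      have e4 : oriG g (w (g * κ) + -(C.ka κ (w g))) =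
          oriG g (w (g * κ)) + oriG g (-(C.ka κ (w g))) := ori_add _ _
      rw [e4, e1, e2]
      funext v
      show f.1 (g * κ) v + -(f.1 (g * κ) v) = 0
      rw [add_neg_cancel]
    have h3 := ori_inj (mat_unit (fr g)) h2
    rw [← sub_eq_add_neg, sub_eq_zero] at h3
    exact h3
  · apply Subtype.ext
    funext g
    exact (hw g).symm

/-- **Exactness.** -/
theorem Coef.dd_exact (C : Coef L p O W) {m : ℕ} (hm : m + 1 < 6) {f : C.Am (m + 1)}
    (h : C.dd m f = 0) : ∃ u : C.Am (m + 2), C.dd (m + 1) u = f := by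
  have h1 : ∀ g, ∃ u : (Fin (m + 2) → Ray) → W, IsAltG g (m + 2) u ∧ dG g u = f.1 g := by
    intro g
    exact fiber_mid (mat_unit (fr g)) hm (f.2.2 g) (congrFun (congrArg Subtype.val h) g)
  choose ψ hψ hψ' using h1
  have hk : ∀ g : AG 3, (((g : AG 3 ⧸ L.Kf).out)⁻¹ * g) ∈ L.Kf := by
    intro g
    rw [← QuotientGroup.eq, QuotientGroup.out_eq']
  let κ : AG 3 → L.Kf := fun g => ⟨_, hk g⟩
  have hgκ : ∀ g : AG 3, ((g : AG 3 ⧸ L.Kf).out) * (κ g : AG 3) = g := by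
    intro g
    show (g : AG 3 ⧸ L.Kf).out * (((g : AG 3 ⧸ L.Kf).out)⁻¹ * g) = g
    group
  have hOC : ∀ (g : AG 3) (m : ℕ) (v : Fin m → Ray), OCg g v ↔ OCg ((g : AG 3 ⧸ L.Kf).out) v := by
    intro g m v
    conv_lhs => rw [← hgκ g]
    exact OCg_K L _ (κ g) m v
  have halt : ∀ g, IsAltG g (m + 2) (fun v => C.ka (κ g) (ψ ((g : AG 3 ⧸ L.Kf).out) v)) := by
    intro g
    rw [IsAltG_congr (hOC g)]
    exact IsAltB.map (C.ka (κ g)) (hψ _)
  refine ⟨⟨fun g v => C.ka (κ g) (ψ ((g : AG 3 ⧸ L.Kf).out) v), fun g κ' v => ?_, halt⟩, ?_⟩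
  · have e1 : ((g * κ'.1 : AG 3) : AG 3 ⧸ L.Kf) = (g : AG 3 ⧸ L.Kf) := by
      rw [QuotientGroup.eq]
      have : (g * κ'.1)⁻¹ * g = κ'.1⁻¹ := by group
      rw [this]
      exact inv_mem κ'.2
    have e2 : κ (g * κ'.1) = κ g * κ' := by
      apply Subtype.ext
      show (((g * κ'.1 : AG 3) : AG 3 ⧸ L.Kf).out)⁻¹ * (g * κ'.1) =
        ((g : AG 3 ⧸ L.Kf).out)⁻¹ * g * κ'.1
      rw [e1, mul_assoc]
    show C.ka (κ (g * κ'.1)) (ψ (((g * κ'.1 : AG 3) : AG 3 ⧸ L.Kf).out) v) =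
      C.ka κ' (C.ka (κ g) (ψ ((g : AG 3 ⧸ L.Kf).out) v))
    rw [e1, e2, C.ka_mul]
  · apply Subtype.ext
    funext g
    show dG g (fun v => C.ka (κ g) (ψ ((g : AG 3 ⧸ L.Kf).out) v)) = f.1 g
    rw [dG_congr (hOC g)]
    have e1 : dG ((g : AG 3 ⧸ L.Kf).out) (fun v => C.ka (κ g) (ψ ((g : AG 3 ⧸ L.Kf).out) v)) =
      fun v => C.ka (κ g) (dG ((g : AG 3 ⧸ L.Kf).out) (ψ ((g : AG 3 ⧸ L.Kf).out)) v) :=
      dB_map (mat_unit _) (C.ka (κ g)) (hψ _)
    rw [e1, hψ']
    funext v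
    rw [← f.2.1, hgκ]

/-- there are no cells with two rays -/
lemma Coef.Am_two (C : Coef L p O W) (f : C.Am 2) : f = 0 := by
  apply Subtype.ext
  funext g v
  apply (f.2.2 g).2
  rintro ⟨h1, h2, δ, h3⟩
  have h4 := spn_card (mat_unit (fr g)) h2 h3
  rw [Finset.card_image_of_injective _ h1, Finset.card_fin] at h4
  omega

end Pool.Agent.L0h47.CG
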