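import Mathlib

/-!
# Generation of the special linear group by transvections, over fields and over the integers
-/

set_option autoImplicit false

namespace Pool.Agent.L0h47.CG

open Matrix

variable {R : Type*} [CommRing R] {n : ℕ}

/-- The matrix with the first row `(1, u)`, the first column `(1, 0)` and the block `B`. -/
def TM (u : Fin n → R) (B : Matrix (Fin n) (Fin n) R) : Matrix (Fin (n + 1)) (Fin (n + 1)) R :=
  fun i j => Fin.cases (Fin.cases 1 u j) (fun i' => Fin.cases 0 (fun j' => B i' j') j) i

@[simp] lemma TM_00 (u : Fin n → R) (B : Matrix (Fin n) (Fin n) R) : TM u B 0 0 = 1 := rfl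
@[simp] lemma TM_0s (u : Fin n → R) (B : Matrix (Fin n) (Fin n) R) (j : Fin n) :
    TM u B 0 j.succ = u j := rfl
@[simp] lemma TM_s0 (u : Fin n → R) (B : Matrix (Fin n) (Fin n) R) (i : Fin n) :
    TM u B i.succ 0 = 0 := rfl
@[simp] lemma TM_ss (u : Fin n → R) (B : Matrix (Fin n) (Fin n) R) (i j : Fin n) :
    TM u B i.succ j.succ = B i j := rfl

omit [CommRing R] in
lemma ext4 {A B : Matrix (Fin (n + 1)) (Fin (n + 1)) R} (h1 : A 0 0 = B 0 0)
    (h2 : ∀ j : Fin n, A 0 j.succ = B 0 j.succ) (h3 : ∀ i : Fin n, A i.succ 0 = B i.succ 0)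
    (h4 : ∀ i j : Fin n, A i.succ j.succ = B i.succ j.succ) : A = B := by
  ext i j
  refine Fin.cases ?_ (fun i' => ?_) i
  · refine Fin.cases ?_ (fun j' => ?_) j
    · exact h1
    · exact h2 j'
  · refine Fin.cases ?_ (fun j' => ?_) j
    · exact h3 i'
    · exact h4 i' j'

lemma TM_mul (u u' : Fin n → R) (B B' : Matrix (Fin n) (Fin n) R) :
    TM u B * TM u' B' = TM (u' + u ᵥ* B') (B * B') := by
  apply ext4
  · rw [Matrix.mul_apply, Fin.sum_univ_succ]; simp
  · intro j
    rw [Matrix.mul_apply, Fin.sum_univ_succ]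
    simp [vecMul, dotProduct]
  · intro i
    rw [Matrix.mul_apply, Fin.sum_univ_succ]; simp
  · intro i j
    rw [Matrix.mul_apply, Fin.sum_univ_succ]
    simp [Matrix.mul_apply]

lemma TM_one : TM (0 : Fin n → R) 1 = 1 := by
  apply ext4
  · simp
  · intro j; simp [(Fin.succ_ne_zero j).symm]
  · intro i; simp [Fin.succ_ne_zero i]
  · intro i j; simp [Matrix.one_apply]

lemma det_TM (u : Fin n → R) (B : Matrix (Fin n) (Fin n) R) : (TM u B).det = B.det := by
  rw [Matrix.det_succ_column_zero, Fin.sum_univ_succ]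
  simp only [TM_00, TM_s0, mul_zero, zero_mul, Finset.sum_const_zero, add_zero]
  simp only [Fin.val_zero, pow_zero, one_mul]
  congr 1

/-- The element with the first row `(1, u)`, the first column `(1, 0)` and the block `B`. -/
def TS (u : Fin n → R) (B : SpecialLinearGroup (Fin n) R) : SpecialLinearGroup (Fin (n + 1)) R :=
  ⟨TM u B.1, by rw [det_TM]; exact B.2⟩

/-- The embedding. -/
def emb : SpecialLinearGroup (Fin n) R →* SpecialLinearGroup (Fin (n + 1)) R where
  toFun := fun B => TS 0 B
  map_one' := Subtype.ext TM_one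
  map_mul' := fun A B => Subtype.ext (by
    show TM 0 (A.1 * B.1) = TM 0 A.1 * TM 0 B.1
    rw [TM_mul, zero_vecMul, add_zero])

lemma TS_eq (u : Fin n → R) (B : SpecialLinearGroup (Fin n) R) : TS u B = emb B * TS u 1 :=
  Subtype.ext (by
    show TM u B.1 = TM 0 B.1 * TM u (1 : Matrix _ _ R)
    rw [TM_mul, zero_vecMul, add_zero, mul_one])

lemma TS_add (u u' : Fin n → R) : TS (u + u') 1 = TS u 1 * TS u' 1 :=
  Subtype.ext (by
    show TM (u + u') (1 : Matrix _ _ R) = TM u (1 : Matrix _ _ R) * TM u' (1 : Matrix _ _ R)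
    rw [TM_mul, vecMul_one, mul_one, add_comm u' u])

/-- The elementary matrix with `t` at the place `(i, j)`. -/
def tvr (i j : Fin n) (h : i ≠ j) (t : R) : SpecialLinearGroup (Fin n) R :=
  ⟨transvection i j t, det_transvection_of_ne i j h t⟩

lemma TS_single (j : Fin n) (t : R) :
    TS (Pi.single j t) 1 = tvr 0 j.succ (Fin.succ_ne_zero j).symm t := by
  apply Subtype.ext
  show TM (Pi.single j t) 1 = transvection 0 j.succ t
  apply ext4
  · simp [transvection, Matrix.single, Fin.succ_ne_zero]
  · intro k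
    rw [TM_0s]
    simp only [transvection, Matrix.add_apply, Matrix.one_apply, (Fin.succ_ne_zero k).symm,
      if_false, zero_add, Matrix.single_apply, Fin.succ_inj, true_and, Pi.single_apply]
    by_cases h : k = j
    · rw [if_pos h, if_pos h.symm]
    · rw [if_neg h, if_neg (Ne.symm h)]
  · intro i; simp [transvection, Matrix.single, Fin.succ_ne_zero]
  · intro i k
    simp only [TM_ss, transvection, Matrix.add_apply, Matrix.one_apply, Fin.succ_inj,
      Matrix.single_apply, (Fin.succ_ne_zero i).symm, false_and, if_false, add_zero]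

lemma TS_zero : TS (0 : Fin n → R) 1 = 1 := Subtype.ext TM_one

/-- the group generated by the elementary matrices -/
def Ele (n : ℕ) (R : Type*) [CommRing R] : Subgroup (SpecialLinearGroup (Fin n) R) :=
  Subgroup.closure {x | ∃ (i j : Fin n) (h : i ≠ j) (t : R), x = tvr i j h t}

lemma tvr_mem (i j : Fin n) (h : i ≠ j) (t : R) : tvr i j h t ∈ Ele n R :=
  Subgroup.subset_closure ⟨i, j, h, t, rfl⟩

lemma TS_mem (u : Fin n → R) : TS u 1 ∈ Ele (n + 1) R := by
  have h : ∀ s : Finset (Fin n), TS (∑ j ∈ s, Pi.single j (u j)) 1 ∈ Ele (n + 1) R := by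
    intro s
    induction s using Finset.induction_on with
    | empty => rw [Finset.sum_empty, TS_zero]; exact one_mem _
    | insert a s ha ih =>
      rw [Finset.sum_insert ha, TS_add]
      refine mul_mem ?_ ih
      rw [TS_single]
      exact tvr_mem _ _ _ _
  have h2 := h Finset.univ
  rwa [Finset.univ_sum_single] at h2

lemma emb_tvr (i j : Fin n) (h : i ≠ j) (t : R) :
    emb (tvr i j h t) = tvr i.succ j.succ (fun h' => h (Fin.succ_inj.1 h')) t := by
  apply Subtype.ext
  show TM 0 (transvection i j t) = transvection i.succ j.succ t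
  apply ext4
  · simp [transvection, Matrix.single, Fin.succ_ne_zero]
  · intro k; simp [transvection, Matrix.single, Fin.succ_ne_zero, (Fin.succ_ne_zero k).symm]
  · intro k; simp [transvection, Matrix.single, Fin.succ_ne_zero]
  · intro r s; simp [transvection, Matrix.single, Matrix.one_apply]

lemma emb_mem {B : SpecialLinearGroup (Fin n) R} (h : B ∈ Ele n R) : emb B ∈ Ele (n + 1) R := by
  have h1 : Ele n R ≤ (Ele (n + 1) R).comap emb := by
    unfold Ele
    rw [Subgroup.closure_le]
    rintro _ ⟨i, j, hij, t, rfl⟩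
    show emb (tvr i j hij t) ∈ Ele (n + 1) R
    rw [emb_tvr]
    exact tvr_mem _ _ _ _
  exact h1 h

lemma tvr_apply (i j : Fin n) (h : i ≠ j) (t : R) (v : Fin n → R) (k : Fin n) :
    ((tvr i j h t).1 *ᵥ v) k = v k + if k = i then t * v j else 0 := by
  show ((transvection i j t) *ᵥ v) k = _
  unfold transvection
  rw [add_mulVec, one_mulVec, single_mulVec]
  show v k + Function.update (0 : Fin n → R) i (t * v j) k = _
  by_cases hk : k = i
  · subst hk; simp
  · simp [hk]

/-- the vector can be moved to the first basis vector by elementary matrices -/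
def Movable (v : Fin (n + 1) → R) : Prop :=
  ∃ g ∈ Ele (n + 1) R, g.1 *ᵥ v = Pi.single 0 1

lemma Movable.of {v : Fin (n + 1) → R} {g : SpecialLinearGroup (Fin (n + 1)) R}
    (hg : g ∈ Ele (n + 1) R) (h : Movable (g.1 *ᵥ v)) : Movable v := by
  obtain ⟨g', hg', e⟩ := h
  refine ⟨g' * g, mul_mem hg' hg, ?_⟩
  rw [← e, mulVec_mulVec]
  rfl

lemma movable_clear {v : Fin (n + 1) → R} (h : v 0 = 1) : Movable v := by
  have key : ∀ s : Finset (Fin (n + 1)), 0 ∉ s → ∃ g ∈ Ele (n + 1) R, (g.1 *ᵥ v) 0 = 1 ∧
      ∀ k ∈ s, (g.1 *ᵥ v) k = 0 := by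
    intro s
    induction s using Finset.induction_on with
    | empty =>
      intro _
      refine ⟨1, one_mem _, ?_, by simp⟩
      show ((1 : Matrix _ _ R) *ᵥ v) 0 = 1
      rw [one_mulVec, h]
    | insert a s ha ih =>
      intro h0
      rw [Finset.mem_insert, not_or] at h0
      obtain ⟨g, hg, hg0, hgs⟩ := ih h0.2
      refine ⟨tvr a 0 (Ne.symm h0.1) (-((g.1 *ᵥ v) a)) * g, mul_mem (tvr_mem _ _ _ _) hg, ?_, ?_⟩
      · show (((tvr a 0 (Ne.symm h0.1) (-((g.1 *ᵥ v) a))).1 * g.1 : Matrix _ _ R) *ᵥ v) 0 = 1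
        rw [← mulVec_mulVec, tvr_apply, if_neg h0.1, hg0, add_zero]
      · intro k hk
        show (((tvr a 0 (Ne.symm h0.1) (-((g.1 *ᵥ v) a))).1 * g.1 : Matrix _ _ R) *ᵥ v) k = 0
        rw [← mulVec_mulVec, tvr_apply]
        by_cases hka : k = a
        · rw [if_pos hka, hka, hg0, mul_one, add_neg_cancel]
        · rw [if_neg hka, add_zero]
          exact hgs k ((Finset.mem_insert.mp hk).resolve_left hka)
  obtain ⟨g, hg, h0, hs⟩ := key (Finset.univ.erase 0) (Finset.notMem_erase _ _)
  refine ⟨g, hg, ?_⟩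
  funext k
  by_cases hk : k = 0
  · rw [hk, h0, Pi.single_eq_same]
  · rw [Pi.single_eq_of_ne hk]
    exact hs k (Finset.mem_erase.mpr ⟨hk, Finset.mem_univ _⟩)

/-- all unimodular vectors of length at least two are movable -/
def EV (R : Type*) [CommRing R] : Prop :=
  ∀ (n : ℕ) (v r : Fin (n + 2) → R), ∑ k, r k * v k = 1 → Movable v

lemma ev_field (F : Type*) [Field F] : EV F := by
  have key : ∀ (n : ℕ) (v : Fin (n + 2) → F) (i : Fin (n + 2)), i ≠ 0 → v i ≠ 0 → Movable v := by
    intro n v i hi hv
    apply Movable.of (tvr_mem 0 i (Ne.symm hi) ((1 - v 0) / v i))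
    apply movable_clear
    rw [tvr_apply, if_pos rfl, div_mul_cancel₀ _ hv]
    ring
  intro n v r h
  have hne : ∃ i, v i ≠ 0 := by
    by_contra hcon
    push Not at hcon
    rw [Finset.sum_eq_zero (fun k _ => by rw [hcon k, mul_zero])] at h
    exact zero_ne_one h
  obtain ⟨i, hi⟩ := hne
  by_cases h1 : ∃ i, i ≠ 0 ∧ v i ≠ 0
  · obtain ⟨i, h0, h1⟩ := h1
    exact key n v i h0 h1
  · push Not at h1
    have hi0 : i = 0 := by
      by_contra h2
      exact hi (h1 i h2)
    subst hi0
    have h10 : (1 : Fin (n + 2)) ≠ 0 := (by simp)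
    apply Movable.of (tvr_mem 1 0 h10 1)
    apply key n _ 1 h10
    rw [tvr_apply, if_pos rfl, h1 1 h10, zero_add, one_mul]
    exact hi

lemma ev_int : EV ℤ := by
  intro n
  have key : ∀ (m : ℕ) (v r : Fin (n + 2) → ℤ), ∑ k, (v k).natAbs = m →
      ∑ k, r k * v k = 1 → Movable v := by
    intro m
    induction m using Nat.strong_induction_on with
    | _ m ih =>
      intro v r hm h
      by_cases h2 : ∃ i j, i ≠ j ∧ v i ≠ 0 ∧ v j ≠ 0
      · -- reduce
        have h3 : ∃ i j, i ≠ j ∧ v i ≠ 0 ∧ v j ≠ 0 ∧ (v j).natAbs ≤ (v i).natAbs := by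
          obtain ⟨i, j, hij, hi, hj⟩ := h2
          rcases le_total (v j).natAbs (v i).natAbs with h4 | h4
          · exact ⟨i, j, hij, hi, hj, h4⟩
          · exact ⟨j, i, hij.symm, hj, hi, h4⟩
        obtain ⟨i, j, hij, hi, hj, hle⟩ := h3
        obtain ⟨t, ht⟩ : ∃ t : ℤ, (v i + t * v j).natAbs < (v i).natAbs := by
          rcases lt_or_gt_of_ne hi with a | a <;> rcases lt_or_gt_of_ne hj with b | b
          · exact ⟨-1, by omega⟩
          · exact ⟨1, by omega⟩
          · exact ⟨1, by omega⟩
          · exact ⟨-1, by omega⟩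
        apply Movable.of (tvr_mem i j hij t)
        refine ih (∑ k, (((tvr i j hij t).1 *ᵥ v) k).natAbs) ?_ _
          (fun k => r k - if k = j then t * r i else 0) rfl ?_
        · rw [← hm]
          apply Finset.sum_lt_sum
          · intro k _
            rw [tvr_apply]
            by_cases hk : k = i
            · rw [if_pos hk, hk]; exact ht.le
            · rw [if_neg hk, add_zero]
          · exact ⟨i, Finset.mem_univ _, by rw [tvr_apply, if_pos rfl]; exact ht⟩
        · have e : ∀ k, (r k - if k = j then t * r i else 0) * ((tvr i j hij t).1 *ᵥ v) k =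
              r k * v k + ((if k = i then r k * (t * v j) else 0) -
                (if k = j then t * r i * v k else 0)) := by
            intro k
            rw [tvr_apply]
            by_cases hk : k = i
            · subst hk
              rw [if_neg hij, if_pos rfl, if_pos rfl, if_neg hij]
              ring
            · rw [if_neg hk, if_neg hk]
              by_cases hk2 : k = j
              · rw [if_pos hk2, if_pos hk2]; ring
              · rw [if_neg hk2, if_neg hk2]; ring
          rw [Finset.sum_congr rfl (fun k _ => e k), Finset.sum_add_distrib,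
            Finset.sum_sub_distrib, Finset.sum_ite_eq' Finset.univ i,
            Finset.sum_ite_eq' Finset.univ j, if_pos (Finset.mem_univ _),
            if_pos (Finset.mem_univ _), h]
          ring
      · push Not at h2
        have hne : ∃ i, v i ≠ 0 := by
          by_contra hcon
          push Not at hcon
          rw [Finset.sum_eq_zero (fun k _ => by rw [hcon k, mul_zero])] at h
          exact zero_ne_one h
        obtain ⟨i, hi⟩ := hne
        have hz : ∀ j, j ≠ i → v j = 0 := fun j hj => h2 i j (Ne.symm hj) hi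
        have hu : r i * v i = 1 := by
          rw [← h]
          symm
          apply Finset.sum_eq_single i
          · intro b _ hb
            rw [hz b hb, mul_zero]
          · intro h; exact absurd (Finset.mem_univ _) h
        have hsq : v i * v i = 1 := by
          rcases Int.isUnit_iff.mp (IsUnit.of_mul_eq_one_right _ hu) with e | e <;> rw [e] <;> norm_num
        by_cases hi0 : i = 0
        · subst hi0
          have h10 : (1 : Fin (n + 2)) ≠ 0 := (by simp)
          apply Movable.of (tvr_mem 1 0 h10 (v 0))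
          apply Movable.of (tvr_mem 0 1 h10.symm (1 - v 0))
          apply movable_clear
          rw [tvr_apply, if_pos rfl, tvr_apply, if_neg h10.symm, tvr_apply, if_pos rfl, hz 1 h10,
            hsq]
          ring
        · apply Movable.of (tvr_mem 0 i (Ne.symm hi0) (v i))
          apply movable_clear
          rw [tvr_apply, if_pos rfl, hz 0 (Ne.symm hi0), hsq, zero_add]
  intro v r h
  exact key _ v r rfl h

/-- the underlying matrix -/
def mtr (A : SpecialLinearGroup (Fin n) R) : Matrix (Fin n) (Fin n) R := A.1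

lemma mtr_mul (A B : SpecialLinearGroup (Fin n) R) : mtr (A * B) = mtr A * mtr B := rfl

lemma mtr_one : mtr (1 : SpecialLinearGroup (Fin n) R) = 1 := rfl

lemma mtr_inj {A B : SpecialLinearGroup (Fin n) R} (h : mtr A = mtr B) : A = B := Subtype.ext h

lemma mat_block (M : Matrix (Fin (n + 1)) (Fin (n + 1)) R)
    (h : ∀ k, M k 0 = (Pi.single 0 1 : Fin (n + 1) → R) k) :
    M = TM (fun j => M 0 j.succ) (M.submatrix Fin.succ Fin.succ) := by
  apply ext4
  · rw [h]; rfl
  · intro j; rfl
  · intro i
    rw [h]
    rfl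
  · intro i j; rfl

lemma block (M : SpecialLinearGroup (Fin (n + 1)) R)
    (h : ∀ k, mtr M k 0 = (Pi.single 0 1 : Fin (n + 1) → R) k) :
    ∃ (u : Fin n → R) (B : SpecialLinearGroup (Fin n) R), M = TS u B := by
  have h1 := mat_block (mtr M) h
  have h2 : ((mtr M).submatrix Fin.succ Fin.succ).det = 1 := by
    rw [← det_TM (fun j => mtr M 0 (Fin.succ j)), ← h1]
    exact M.2
  exact ⟨fun j => mtr M 0 (Fin.succ j), ⟨_, h2⟩, Subtype.ext h1⟩

/-- the elementary matrices generate the special linear group -/
theorem ele_top (h : EV R) : ∀ n : ℕ, ∀ A : SpecialLinearGroup (Fin n) R, A ∈ Ele n R := by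
  intro n
  induction n with
  | zero =>
    intro A
    have : A = 1 := Subtype.ext (Subsingleton.elim _ _)
    rw [this]; exact one_mem _
  | succ n ih =>
    intro A
    rcases n with - | n
    · have : A = 1 := by
        apply Subtype.ext
        ext i j
        have h1 : (A.1 : Matrix (Fin 1) (Fin 1) R).det = 1 := A.2
        rw [Matrix.det_fin_one] at h1
        have hi : i = 0 := Subsingleton.elim (α := Fin 1) i 0
        have hj : j = 0 := Subsingleton.elim (α := Fin 1) j 0
        rw [hi, hj, h1]
        rfl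
      rw [this]; exact one_mem _
    · have h1 : ∑ k, mtr A⁻¹ 0 k * mtr A k 0 = 1 := by
        have h2 : (mtr A⁻¹ * mtr A) 0 0 = 1 := by
          rw [← mtr_mul, inv_mul_cancel, mtr_one]
          exact Matrix.one_apply_eq 0
        exact h2
      obtain ⟨g, hg, e⟩ := h n (fun k => mtr A k 0) (fun k => mtr A⁻¹ 0 k) h1
      have hcol : ∀ k, mtr (g * A) k 0 = (Pi.single 0 1 : Fin (n + 2) → R) k := by
        intro k
        rw [← e]
        rfl
      obtain ⟨u, B, hTS⟩ := block _ hcol
      have hmem : g * A ∈ Ele (n + 2) R := by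
        rw [hTS, TS_eq]
        exact mul_mem (emb_mem (ih _)) (TS_mem _)
      have := mul_mem (inv_mem hg) hmem
      rwa [inv_mul_cancel_left] at this

end Pool.Agent.L0h47.CG
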