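import Pool.Agent.L0h47.CG.Stmt
import Pool.Agent.L0h47.CG.Elem

/-!
# Strong approximation for `GL_n` over the rationals
-/

set_option autoImplicit false

namespace Pool.Agent.L0h47.CG

open Matrix

variable {n : ℕ} {l : Pr}

lemma norm_nat_le {m : Pr} {v N : ℕ} (h : (m : ℕ) ^ v ∣ N) :
    ‖(N : ℚ_[(m : ℕ)])‖ ≤ ((m : ℕ) : ℝ) ^ (-(v : ℤ)) := by
  have h1 := (Padic.norm_int_le_pow_iff_dvd (p := (m : ℕ)) (N : ℤ) v).mpr (by exact_mod_cast h)
  exact_mod_cast h1

lemma norm_nat_dvd {m : Pr} {a b : ℕ} (h : a ∣ b) :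
    ‖(b : ℚ_[(m : ℕ)])‖ ≤ ‖(a : ℚ_[(m : ℕ)])‖ := by
  obtain ⟨c, rfl⟩ := h
  push_cast
  rw [norm_mul]
  have : ‖(c : ℚ_[(m : ℕ)])‖ ≤ 1 := by
    have := Padic.norm_int_le_one (p := (m : ℕ)) (c : ℤ)
    exact_mod_cast this
  exact mul_le_of_le_one_right (norm_nonneg _) this

lemma rat_approx (l : Pr) (c : ℚ_[(l : ℕ)]) (N : ℕ) (hN : N ≠ 0) :
    ∃ q : ℚ, ‖(q : ℚ_[(l : ℕ)]) - c‖ ≤ ((l : ℕ) : ℝ) ^ (-(N.factorization l : ℤ)) ∧
      ∀ m : Pr, m ≠ l → ‖(q : ℚ_[(m : ℕ)])‖ ≤ ((m : ℕ) : ℝ) ^ (-(N.factorization m : ℤ)) := by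
  have hl : (0 : ℝ) < ((l : ℕ) : ℝ) := by exact_mod_cast l.2.pos
  obtain ⟨q0, hq0⟩ := Padic.rat_dense (l : ℕ) c
    (show (0 : ℝ) < ((l : ℕ) : ℝ) ^ (-(N.factorization l : ℤ)) by positivity)
  obtain ⟨a, ha⟩ := pow_unbounded_of_one_lt ‖(q0 : ℚ_[(l : ℕ)])‖
    (show (1 : ℝ) < ((l : ℕ) : ℝ) by exact_mod_cast l.2.one_lt)
  set r := N.factorization l with hr
  have hD : N * q0.den ≠ 0 := mul_ne_zero hN q0.den_nz
  set D := N * q0.den with hDdef
  have hco : Nat.Coprime ((l : ℕ) ^ (a + r)) (ordCompl[(l : ℕ)] D) :=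
    Nat.Coprime.pow_left _ (Nat.coprime_ordCompl l.2 hD)
  obtain ⟨z, hz1, hz2⟩ := Nat.chineseRemainder hco 1 0
  refine ⟨q0 * z, ?_, ?_⟩
  · have e : (((q0 * z : ℚ)) : ℚ_[(l : ℕ)]) - c =
        (q0 : ℚ_[(l : ℕ)]) * ((z : ℚ_[(l : ℕ)]) - 1) + (-(c - (q0 : ℚ_[(l : ℕ)]))) := by
      push_cast; ring
    rw [e]
    refine (IsUltrametricDist.norm_add_le_max _ _).trans (max_le ?_ ?_)
    · rw [norm_mul]
      have h1 : ‖(z : ℚ_[(l : ℕ)]) - 1‖ ≤ ((l : ℕ) : ℝ) ^ (-((a + r : ℕ) : ℤ)) := by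
        have h2 := (Padic.norm_int_le_pow_iff_dvd (p := (l : ℕ)) ((z : ℤ) - 1) (a + r)).mpr
          (by
            have h3 := (Nat.modEq_iff_dvd.mp hz1.symm)
            push_cast at h3 ⊢
            exact h3)
        push_cast at h2 ⊢
        exact h2
      calc ‖(q0 : ℚ_[(l : ℕ)])‖ * ‖(z : ℚ_[(l : ℕ)]) - 1‖
          ≤ ((l : ℕ) : ℝ) ^ (a : ℤ) * ((l : ℕ) : ℝ) ^ (-((a + r : ℕ) : ℤ)) := by
            apply mul_le_mul _ h1 (norm_nonneg _) (by positivity)
            rw [zpow_natCast]; exact ha.le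
        _ = ((l : ℕ) : ℝ) ^ (-(r : ℤ)) := by
            rw [← zpow_add₀ hl.ne']
            congr 1
            push_cast
            ring
    · rw [norm_neg]; exact hq0.le
  · intro m hm
    have hml : ‖((l : ℕ) : ℚ_[(m : ℕ)])‖ = 1 := by
      rw [Padic.norm_natCast_eq_one_iff]
      exact (Nat.coprime_primes m.2 l.2).mpr (fun e => hm (Subtype.ext e))
    have hzD : D ∣ (l : ℕ) ^ (D.factorization l) * z := by
      obtain ⟨w, hw⟩ := (Nat.modEq_zero_iff_dvd.mp hz2)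
      rw [hw, ← mul_assoc, Nat.ordProj_mul_ordCompl_eq_self]
      exact dvd_mul_right _ _
    have h1 := norm_nat_dvd (m := m) hzD
    push_cast at h1
    rw [norm_mul, norm_pow, hml, one_pow, one_mul] at h1
    have h2 : ‖(D : ℚ_[(m : ℕ)])‖ = ‖(N : ℚ_[(m : ℕ)])‖ * ‖((q0.den : ℕ) : ℚ_[(m : ℕ)])‖ := by
      rw [hDdef]; push_cast; rw [norm_mul]
    have hden : (0 : ℝ) < ‖((q0.den : ℕ) : ℚ_[(m : ℕ)])‖ := by
      rw [norm_pos_iff]
      exact_mod_cast q0.den_nz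
    have h3 : ‖(((q0 * z : ℚ)) : ℚ_[(m : ℕ)])‖ * ‖((q0.den : ℕ) : ℚ_[(m : ℕ)])‖ ≤
        ‖(z : ℚ_[(m : ℕ)])‖ := by
      rw [← norm_mul]
      have e : (((q0 * z : ℚ)) : ℚ_[(m : ℕ)]) * ((q0.den : ℕ) : ℚ_[(m : ℕ)]) =
          ((q0.num : ℤ) : ℚ_[(m : ℕ)]) * (z : ℚ_[(m : ℕ)]) := by
        have h4 : q0 * z * (q0.den : ℚ) = (q0.num : ℚ) * (z : ℚ) := by
          have := Rat.mul_den_eq_num q0
          calc q0 * z * (q0.den : ℚ) = (q0 * q0.den) * z := by ring
            _ = _ := by rw [this]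
        exact_mod_cast congrArg (fun x : ℚ => (x : ℚ_[(m : ℕ)])) h4
      rw [e, norm_mul]
      exact mul_le_of_le_one_left (norm_nonneg _) (Padic.norm_int_le_one _)
    have h4 : ‖(((q0 * z : ℚ)) : ℚ_[(m : ℕ)])‖ ≤ ‖(N : ℚ_[(m : ℕ)])‖ := by
      have h5 := h3.trans (h1.trans h2.le)
      exact le_of_mul_le_mul_right h5 hden
    exact h4.trans (norm_nat_le (Nat.ordProj_dvd N m))

lemma Cg_anti {r s : ℕ} (h : r ≤ s) : Cg n l s ≤ Cg n l r := by
  rintro g ⟨hg, hg'⟩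
  refine ⟨hg, ?_⟩
  rw [near_iff] at *
  apply hg'.mono
  apply zpow_le_zpow_right₀
  · exact_mod_cast l.2.one_lt.le
  · omega

lemma Cg_conj {r : ℕ} {u g : LG n l} (hu : u ∈ U n l) (hg : g ∈ Cg n l r) :
    u⁻¹ * g * u ∈ Cg n l r := by
  refine ⟨mul_mem (mul_mem (inv_mem hu) hg.1) hu, ?_⟩
  have h := hg.2
  rw [near_iff] at *
  have e : (u⁻¹ * g * u).1 - 1 = (u⁻¹).1 * (g.1 - 1) * u.1 := by
    rw [Units.val_mul, Units.val_mul, Matrix.mul_sub, Matrix.sub_mul, Matrix.mul_one,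
      ← Units.val_mul u⁻¹ u, inv_mul_cancel, Units.val_one]
  rw [e]
  have h1 := ((mem_U.mp hu).2.mul h zero_le_one (lr_pos r).le).mul (mem_U.mp hu).1
    (by rw [one_mul]; exact (lr_pos r).le) zero_le_one
  rwa [one_mul, mul_one] at h1

lemma Cg_zero : Cg n l 0 = U n l := by
  apply le_antisymm
  · rintro g ⟨hg, -⟩; exact hg
  · intro g hg
    refine ⟨hg, ?_⟩
    rw [near_iff]
    simp only [Nat.cast_zero, neg_zero, zpow_zero]
    exact (mem_U.mp hg).1.sub Bd.one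

/-- The principal congruence subgroup of level `N` of `GL_n(A_f)`. -/
def KN (n N : ℕ) : Subgroup (AG n) where
  carrier := {g | ∀ l : Pr, g.1 l ∈ Cg n l (N.factorization l)}
  one_mem' _ := one_mem _
  mul_mem' ha hb l := mul_mem (ha l) (hb l)
  inv_mem' ha l := inv_mem (ha l)

lemma KN_anti {N M : ℕ} (hM : M ≠ 0) (h : N ∣ M) : KN n M ≤ KN n N := by
  intro g hg l
  have hN : N ≠ 0 := fun e => hM (by rw [e] at h; exact Nat.eq_zero_of_zero_dvd h)
  exact Cg_anti ((Nat.factorization_le_iff_dvd hN hM).mpr h l) (hg l)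

lemma KN_conj {N : ℕ} {u g : AG n} (hu : u ∈ KN n 1) (hg : g ∈ KN n N) :
    u⁻¹ * g * u ∈ KN n N := by
  intro l
  have h := hu l
  rw [Nat.factorization_one, Finsupp.coe_zero, Pi.zero_apply, Cg_zero] at h
  exact Cg_conj h (hg l)

lemma mem_KN_one {u : AG n} : u ∈ KN n 1 ↔ ∀ l, u.1 l ∈ U n l := by
  have : ∀ l : Pr, Cg n l ((1 : ℕ).factorization l) = U n l := by
    intro l
    rw [Nat.factorization_one, Finsupp.coe_zero, Pi.zero_apply, Cg_zero]
  constructor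
  · intro h l; rw [← this l]; exact h l
  · intro h l; rw [this l]; exact h l

/-- there are integers with prescribed lower bounds of finitely many exponents -/
lemma exists_level {B : Set Pr} (hB : B.Finite) (r : Pr → ℕ) :
    ∃ N : ℕ, N ≠ 0 ∧ ∀ l ∈ B, r l ≤ N.factorization l := by
  refine ⟨∏ l ∈ hB.toFinset, (l : ℕ) ^ r l, ?_, ?_⟩
  · rw [Finset.prod_ne_zero_iff]
    intro l _
    exact pow_ne_zero _ l.2.ne_zero
  · intro l hl
    rw [← l.2.pow_dvd_iff_le_factorization (by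
      rw [Finset.prod_ne_zero_iff]
      intro l _
      exact pow_ne_zero _ l.2.ne_zero)]
    exact Finset.dvd_prod_of_mem (fun l : Pr => (l : ℕ) ^ r l) (hB.mem_toFinset.mpr hl)

lemma finite_primes {N : ℕ} (_hN : N ≠ 0) : {l : Pr | N.factorization l ≠ 0}.Finite := by
  have h : {l : Pr | N.factorization l ≠ 0} ⊆
      (fun l : Pr => (l : ℕ)) ⁻¹' (↑(N.primeFactors) : Set ℕ) := by
    intro l hl
    simp only [Set.mem_preimage, Finset.mem_coe]
    rw [← Nat.support_factorization]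
    exact Finsupp.mem_support_iff.mpr hl
  apply Set.Finite.subset _ h
  apply Set.Finite.preimage
  · intro a _ b _ hab
    exact Subtype.ext hab
  · exact Finset.finite_toSet _

lemma exists_conj_KN (x : AG n) {N : ℕ} (hN : N ≠ 0) :
    ∃ M : ℕ, M ≠ 0 ∧ ∀ g ∈ KN n M, x⁻¹ * g * x ∈ KN n N := by
  choose r hr using fun l : Pr => exists_conj (x.1 l) (N.factorization l)
  obtain ⟨M, hM, h⟩ := exists_level (B := {l | x.1 l ∉ U n l} ∪ {l : Pr | N.factorization l ≠ 0})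
    (x.2.union (finite_primes hN)) r
  refine ⟨M, hM, fun g hg l => ?_⟩
  by_cases hl : l ∈ {l | x.1 l ∉ U n l} ∪ {l : Pr | N.factorization l ≠ 0}
  · exact hr l _ (Cg_anti (h l hl) (hg l))
  · simp only [Set.mem_union, Set.mem_ofPred_eq, not_or, not_not] at hl
    rw [hl.2, Cg_zero]
    exact mul_mem (mul_mem (inv_mem hl.1) (hg l).1) hl.1

/-- special linear elements in `GL_n(Q_l)` -/
noncomputable def sL (l : Pr) : SpecialLinearGroup (Fin n) ℚ_[(l : ℕ)] →* LG n l := SpecialLinearGroup.toGL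

/-- special linear elements in `GL_n(Q)⁺` -/
def sQ : SpecialLinearGroup (Fin n) ℚ →* GQ n := SpecialLinearGroup.toGLPos

lemma tvr_inv {R : Type*} [CommRing R] (i j : Fin n) (h : i ≠ j) (t : R) :
    (tvr i j h t)⁻¹ = tvr i j h (-t) := by
  rw [inv_eq_iff_mul_eq_one]
  apply mtr_inj
  rw [mtr_mul, mtr_one]
  show transvection i j t * transvection i j (-t) = 1
  rw [transvection_mul_transvection_same i j h, add_neg_cancel, transvection_zero]

lemma sL_mem (i j : Fin n) (h : i ≠ j) {c : ℚ_[(l : ℕ)]} {r : ℕ}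
    (hc : ‖c‖ ≤ ((l : ℕ) : ℝ) ^ (-(r : ℤ))) : sL l (tvr i j h c) ∈ Cg n l r := by
  have key : ∀ c : ℚ_[(l : ℕ)], ‖c‖ ≤ ((l : ℕ) : ℝ) ^ (-(r : ℤ)) →
      Bd ((sL l (tvr i j h c)).1 - 1) (((l : ℕ) : ℝ) ^ (-(r : ℤ))) := by
    intro c hc a b
    have e : ((sL l (tvr i j h c)).1 - 1) a b = Matrix.single i j c a b := by
      show (transvection i j c - 1) a b = _
      unfold transvection
      rw [add_sub_cancel_left]
    rw [e, Matrix.single_apply]
    split_ifs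
    · exact hc
    · rw [norm_zero]; exact (lr_pos r).le
  have key2 : ∀ c : ℚ_[(l : ℕ)], ‖c‖ ≤ ((l : ℕ) : ℝ) ^ (-(r : ℤ)) →
      Bd (sL l (tvr i j h c)).1 1 := by
    intro c hc
    have e : (sL l (tvr i j h c)).1 = ((sL l (tvr i j h c)).1 - 1) + 1 := by abel
    rw [e]
    exact ((key c hc).mono (lr_le r)).add Bd.one
  refine ⟨mem_U.mpr ⟨key2 c hc, ?_⟩, key c hc⟩
  rw [← map_inv, tvr_inv]
  exact key2 _ (by rw [norm_neg]; exact hc)

/-- the closure of `GL_n(Q)⁺` in `GL_n(A_f)` -/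
def Hc (n : ℕ) : Submonoid (AG n) where
  carrier := {g | ∀ N : ℕ, N ≠ 0 → ∃ γ : GQ n, (dg n γ)⁻¹ * g ∈ KN n N}
  one_mem' N _ := ⟨1, by rw [map_one, inv_one, one_mul]; exact one_mem _⟩
  mul_mem' := by
    intro g g' hg hg' N hN
    obtain ⟨γ', h'⟩ := hg' N hN
    obtain ⟨M, hM, hc⟩ := exists_conj_KN (dg n γ') hN
    obtain ⟨γ, h⟩ := hg M hM
    refine ⟨γ * γ', ?_⟩
    have e : (dg n (γ * γ'))⁻¹ * (g * g') =
        ((dg n γ')⁻¹ * ((dg n γ)⁻¹ * g) * dg n γ') * ((dg n γ')⁻¹ * g') := by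
      rw [map_mul]; group
    rw [e]
    exact mul_mem (hc _ h) h'

lemma loc_sQ (l : Pr) (i j : Fin n) (h : i ≠ j) (q : ℚ) :
    (dg n (sQ (tvr i j h q))).1 l = sL l (tvr i j h (q : ℚ_[(l : ℕ)])) := by
  apply Units.ext
  show (transvection i j q).map (algebraMap ℚ ℚ_[(l : ℕ)]) = transvection i j (q : ℚ_[(l : ℕ)])
  unfold transvection
  rw [Matrix.map_add _ (fun a b => map_add _ a b), Matrix.map_one _ (map_zero _) (map_one _),
    Matrix.map_single]
  rfl

lemma inc_tv_mem (l : Pr) (i j : Fin n) (h : i ≠ j) (c : ℚ_[(l : ℕ)]) :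
    inc n l (sL l (tvr i j h c)) ∈ Hc n := by
  intro N hN
  obtain ⟨q, hq, hq'⟩ := rat_approx l c N hN
  refine ⟨sQ (tvr i j h q), fun m => ?_⟩
  rw [mul_apply', inv_apply', loc_sQ, ← map_inv, tvr_inv]
  by_cases hm : m = l
  · subst hm
    rw [inc_same, ← map_mul]
    have e : tvr i j h (-(q : ℚ_[(m : ℕ)])) * tvr i j h c = tvr i j h (c - q) := by
      apply mtr_inj
      rw [mtr_mul]
      show transvection i j (-(q : ℚ_[(m : ℕ)])) * transvection i j c = transvection i j (c - q)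
      rw [transvection_mul_transvection_same i j h]
      congr 1
      ring
    rw [e]
    apply sL_mem
    rw [← norm_neg, neg_sub]
    exact hq
  · rw [inc_ne hm, mul_one]
    apply sL_mem
    rw [norm_neg]
    exact hq' m hm

lemma inc_sL_mem (l : Pr) (A : SpecialLinearGroup (Fin n) ℚ_[(l : ℕ)]) :
    inc n l (sL l A) ∈ Hc n := by
  have h := ele_top (ev_field ℚ_[(l : ℕ)]) n A
  unfold Ele at h
  induction h using Subgroup.closure_induction'' with
  | mem x hx =>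
    obtain ⟨i, j, hij, t, rfl⟩ := hx
    exact inc_tv_mem l i j hij t
  | inv_mem x hx =>
    obtain ⟨i, j, hij, t, rfl⟩ := hx
    rw [tvr_inv]
    exact inc_tv_mem l i j hij _
  | one => rw [map_one, map_one]; exact one_mem _
  | mul x y _ _ hx hy => rw [map_mul, map_mul]; exact mul_mem hx hy

lemma exists_sL {g : LG n l} (h : g.1.det = 1) : ∃ A, g = sL l A :=
  ⟨⟨g.1, h⟩, Units.ext rfl⟩

/-- **Strong approximation.** -/
theorem strong_approx {g : AG n} (hg : ∀ l, (g.1 l).1.det = 1) : g ∈ Hc n := by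
  have key : ∀ (s : Finset Pr) (g : AG n), (∀ l, (g.1 l).1.det = 1) → (∀ l, l ∉ s → g.1 l = 1) →
      g ∈ Hc n := by
    intro s
    induction s using Finset.induction_on with
    | empty =>
      intro g _ hg
      have : g = 1 := AG_ext (fun l => hg l (Finset.notMem_empty l))
      rw [this]; exact one_mem _
    | insert a s ha ih =>
      intro g hd hg
      rw [← offl_mul a g]
      apply mul_mem
      · apply ih
        · intro l
          by_cases hl : l = a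
          · subst hl; rw [offl_same]; exact Matrix.det_one
          · rw [offl_ne hl]; exact hd l
        · intro l hl
          by_cases hla : l = a
          · subst hla; rw [offl_same]
          · rw [offl_ne hla]
            apply hg
            rw [Finset.mem_insert, not_or]
            exact ⟨hla, hl⟩
      · obtain ⟨A, hA⟩ := exists_sL (hd a)
        rw [hA]
        exact inc_sL_mem a A
  intro N hN
  classical
  have hfin := g.2.union (finite_primes hN)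
  let f : ∀ l : Pr, LG n l := fun l =>
    if l ∈ {l | g.1 l ∉ U n l} ∪ {l : Pr | N.factorization l ≠ 0} then g.1 l else 1
  have hf : f ∈ AG n := by
    apply Set.Finite.subset hfin
    intro l hl
    by_contra h
    apply hl
    show (if _ then _ else _) ∈ _
    rw [if_neg h]
    exact one_mem _
  obtain ⟨γ, h⟩ := key hfin.toFinset ⟨f, hf⟩
    (by
      intro l
      show (if _ then _ else _ : LG n l).1.det = 1
      split_ifs
      · exact hg l
      · exact Matrix.det_one)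
    (by
      intro l hl
      rw [Set.Finite.mem_toFinset] at hl
      show (if _ then _ else _ : LG n l) = 1
      rw [if_neg hl]) N hN
  refine ⟨γ, ?_⟩
  have e : (dg n γ)⁻¹ * g = ((dg n γ)⁻¹ * ⟨f, hf⟩) * ((⟨f, hf⟩ : AG n)⁻¹ * g) := by group
  rw [e]
  refine mul_mem h ?_
  intro l
  rw [mul_apply', inv_apply']
  show (if _ then _ else _ : LG n l)⁻¹ * g.1 l ∈ _
  split_ifs with hl
  · rw [inv_mul_cancel]; exact one_mem _
  · rw [inv_one, one_mul]
    simp only [Set.mem_union, Set.mem_ofPred_eq, not_or, not_not] at hl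
    rw [hl.2, Cg_zero]
    exact hl.1

end Pool.Agent.L0h47.CG
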