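import Pool.Agent.L0h47.CG.Fg

/-!
# From functions and cocycles to group cohomology in degrees zero and one
-/

set_option autoImplicit false

namespace Pool.Agent.L0h47.CG

open Matrix CategoryTheory

variable {n : ℕ} {Sg : Finset Pr} {L : Level n Sg} {p : Pr} {O : Type} [CommRing O] {W : Type}
  [AddCommGroup W] [Module O W]

/-- a module that is the image of a module mapping to a noetherian module, with a bigger kernel -/
lemma fin_of {Z V H : Type*} [AddCommGroup Z] [Module O Z] [AddCommGroup V] [Module O V]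
    [AddCommGroup H] [Module O H] [IsNoetherian O V] (f : Z →ₗ[O] V) (π : Z →ₗ[O] H)
    (hπ : Function.Surjective π) (h : LinearMap.ker f ≤ LinearMap.ker π) : Module.Finite O H := by
  have h1 : Module.Finite O (LinearMap.range f) := inferInstance
  have h2 : Module.Finite O (Z ⧸ LinearMap.ker f) :=
    Module.Finite.equiv f.quotKerEquivRange.symm
  refine Module.Finite.of_surjective ((LinearMap.ker f).liftQ π h) ?_
  intro x
  obtain ⟨z, rfl⟩ := hπ x
  exact ⟨Submodule.mkQ _ z, rfl⟩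

/-- the functions given by a cocycle -/
noncomputable def ev (C : Coef L p O W) (z : groupCohomology.cocycles₁ (Rep.of C.rep)) : GQ n → AG n → W :=
  fun γ => (show C.Fn from z γ).1

lemma ev_mem (C : Coef L p O W) (z : groupCohomology.cocycles₁ (Rep.of C.rep)) (γ : GQ n) :
    ev C z γ ∈ C.Fn := (show C.Fn from z γ).2

lemma ev_coc (C : Coef L p O W) (z : groupCohomology.cocycles₁ (Rep.of C.rep)) :
    IsCoc (ev C z) := by
  intro γ δ x
  have h := (groupCohomology.mem_cocycles₁_iff (A := Rep.of C.rep) z).mp z.2 γ δ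
  have h2 := congrArg (fun F : C.Fn => F.1 x) h
  show (show C.Fn from z (γ * δ)).1 x = _
  rw [add_comm]
  exact h2

/-- cocycles from functions -/
noncomputable def mkZ (C : Coef L p O W) (c : GQ n → AG n → W) (hc : IsCoc c) (hF : ∀ γ, c γ ∈ C.Fn) :
    groupCohomology.cocycles₁ (Rep.of C.rep) :=
  ⟨fun γ => (⟨c γ, hF γ⟩ : C.Fn), by
    rw [groupCohomology.mem_cocycles₁_iff]
    intro γ δ
    apply Subtype.ext
    funext x
    rw [add_comm]
    exact hc γ δ x⟩

lemma ev_ext (C : Coef L p O W) {z z' : groupCohomology.cocycles₁ (Rep.of C.rep)}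
    (h : ∀ γ x, ev C z γ x = ev C z' γ x) : z = z' := by
  apply groupCohomology.cocycles₁_ext
  intro γ
  apply Subtype.ext
  funext x
  exact h γ x

lemma pi_zero (C : Coef L p O W) (z : groupCohomology.cocycles₁ (Rep.of C.rep))
    (F : AG n → W) (hF : F ∈ C.Fn) (h : ∀ γ x, ev C z γ x = F ((dg n γ)⁻¹ * x) - F x) :
    (groupCohomology.H1π (Rep.of C.rep)).hom z = 0 := by
  have h1 := (groupCohomology.H1π_eq_zero_iff (A := Rep.of C.rep) z).mpr
  apply h1
  refine ⟨(⟨F, hF⟩ : C.Fn), ?_⟩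
  funext γ
  apply Subtype.ext
  funext x
  exact (h γ x).symm

/-- the action on the coefficients as additive maps -/
noncomputable def sig (C : Coef L p O W) : L.Kf →* AddMonoid.End W where
  toFun κ := (C.act (L.pc p κ)).toAddMonoidHom
  map_one' := by
    have : L.pc p (1 : L.Kf) = 1 := rfl
    rw [this, map_one]; rfl
  map_mul' a b := by
    have : L.pc p (a * b) = L.pc p a * L.pc p b := rfl
    rw [this, map_mul]; rfl

/-- **`H^1` is finitely generated.** -/
theorem finite_one [NeZero n] (C : Coef L p O W) [IsNoetherian O W] :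
    Module.Finite O (C.H 1) := by
  obtain ⟨N, hN, hle, -⟩ := exists_triv C 0
  obtain ⟨R, hRf, hR, hR'⟩ := exists_finite_rep L hN hle
  choose S hS using fun r : AG n => Ar_fg L hN hle r
  have : Finite R := hRf
  have : IsNoetherian O (∀ q : Σ r : R, {s // s ∈ S r.1}, W) := inferInstance
  let f : groupCohomology.cocycles₁ (Rep.of C.rep) →ₗ[O] (∀ q : Σ r : R, {s // s ∈ S r.1}, W) :=
    { toFun z q := ev C z q.2.1 q.1.1
      map_add' z z' := rfl
      map_smul' a z := rfl }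
  refine fin_of f (groupCohomology.H1π (Rep.of C.rep)).hom ?_ ?_
  · exact (ModuleCat.epi_iff_surjective _).mp inferInstance
  · intro z hz
    rw [LinearMap.mem_ker] at hz ⊢
    have hc := ev_coc C z
    have hσ : ∀ γ x (κ : L.Kf), ev C z γ (x * κ) = sig C κ⁻¹ (ev C z γ x) :=
      fun γ x κ => ev_mem C z γ x κ
    have hzero : ∀ r ∈ R, ∀ γ ∈ Ar L.Kf r, ev C z γ r = 0 := by
      intro r hr γ hγ
      have hst : ∀ γ ∈ Ar L.Kf r, ∃ κ : L.Kf, (dg n γ)⁻¹ * r = r * κ := by
        intro γ hγ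
        refine ⟨⟨(r⁻¹ * dg n γ * r)⁻¹, inv_mem hγ⟩, ?_⟩
        show _ = r * (r⁻¹ * dg n γ * r)⁻¹
        group
      rw [← hS r] at hγ
      have hle' : ∀ γ ∈ Subgroup.closure (S r : Set (GQ n)), γ ∈ Ar L.Kf r := by
        intro γ hγ; rw [← hS r]; exact hγ
      induction hγ using Subgroup.closure_induction with
      | mem x hx => exact congrFun hz ⟨⟨r, hr⟩, ⟨x, hx⟩⟩
      | one => exact hc.one r
      | mul x y hx _ ihx ihy =>
        obtain ⟨κ, e⟩ := hst x (hle' x hx)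
        rw [hc, ihx, e, hσ, ihy, map_zero, add_zero]
      | inv x hx ihx =>
        obtain ⟨κ, e⟩ := hst x (hle' x hx)
        have h1 := hc x x⁻¹ r
        rw [mul_inv_cancel, hc.one, ihx, zero_add, e, hσ] at h1
        have h2 := congrArg (sig C κ) h1
        rw [map_zero] at h2
        have h3 : sig C κ (sig C κ⁻¹ (ev C z x⁻¹ r)) = ev C z x⁻¹ r := by
          have : sig C κ * sig C κ⁻¹ = 1 := by rw [← map_mul, mul_inv_cancel, map_one]
          calc sig C κ (sig C κ⁻¹ (ev C z x⁻¹ r)) = (sig C κ * sig C κ⁻¹) (ev C z x⁻¹ r) := rfl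
            _ = _ := by rw [this]; rfl
        rw [h3] at h2
        exact h2.symm
    obtain ⟨F, hF, hF'⟩ := coc_cob (K' := L.Kf) (sig C) hc hσ R hR hR' (by
      intro r hr γ κ h
      apply hzero r hr γ
      rw [mem_Ar, mul_assoc, h, inv_mul_cancel_left]
      exact κ.2)
    exact pi_zero C z F hF hF'

/-- **`H^0` is finitely generated.** -/
theorem finite_zero [NeZero n] (C : Coef L p O W) [IsNoetherian O W] :
    Module.Finite O (C.H 0) := by
  obtain ⟨N, hN, hle, -⟩ := exists_triv C 0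
  obtain ⟨R, hRf, hR, hR'⟩ := exists_finite_rep L hN hle
  have : Finite R := hRf
  have : IsNoetherian O (∀ r : R, W) := inferInstance
  let f : C.rep.invariants →ₗ[O] (∀ r : R, W) :=
    { toFun z r := z.1.1 r.1
      map_add' z z' := rfl
      map_smul' a z := rfl }
  have hinj : Function.Injective f := by
    rw [injective_iff_map_eq_zero]
    intro z hz
    apply Subtype.ext
    apply Subtype.ext
    funext x
    obtain ⟨γ, r, hr, κ, hx⟩ := hR x
    have h1 : z.1.1 x = C.act (L.pc p κ)⁻¹ (z.1.1 (dg n γ * r)) := by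
      rw [hx]
      exact z.1.2 (dg n γ * r) κ
    have h2 : z.1.1 (dg n γ * r) = z.1.1 r := by
      have h3 := congrArg (fun F : C.Fn => F.1 (dg n γ * r)) (z.2 γ)
      have h4 : z.1.1 ((dg n γ)⁻¹ * (dg n γ * r)) = z.1.1 (dg n γ * r) := h3
      rw [inv_mul_cancel_left] at h4
      exact h4.symm
    have h3 : z.1.1 r = 0 := congrFun hz ⟨r, hr⟩
    rw [h1, h2, h3, map_zero]
    rfl
  have h2 : Module.Finite O C.rep.invariants := Module.Finite.of_injective f hinj
  exact Module.Finite.equiv (groupCohomology.H0Iso (Rep.of C.rep)).toLinearEquiv.symm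

lemma T_pi (C : Coef L p O W) (hp : p ∈ Sg) (a : HI n Sg)
    (z z' : groupCohomology.cocycles₁ (Rep.of C.rep))
    (h : ∀ γ x, ev C z' γ x = hecke a.1.1 a.2 (ev C z γ) x) :
    C.T hp 1 a ((groupCohomology.H1π (Rep.of C.rep)).hom z) =
      (groupCohomology.H1π (Rep.of C.rep)).hom z' := by
  have h1 := groupCohomology.H1π_comp_map_apply (MonoidHom.id (GQ n))
    (C.heckeRep a.1.1 a.1.2 hp a.2) z
  refine h1.trans ?_
  congr 1
  apply ev_ext
  intro γ x
  rw [h]
  rfl

/-- **Hecke operators on `H^1`.** -/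
theorem H_one_div (hn : 3 ≤ n) (hp : p ∈ Sg) (C : Coef L p O W) [IsNoetherian O W] :
    ∃ N : ℕ, N ≠ 0 ∧ ∀ l : {l : Pr // l ∉ Sg}, ((N : ℕ) : ℤ) ∣ (l.1 : ℕ) - 1 → ∀ k : ℕ,
      ∀ h : C.H 1, ∃ h' : C.H 1,
        C.T hp 1 ⟨l, td n l.1 k⟩ h - deg n l.1 k • h = ((p : ℕ) : O) • h' := by
  obtain ⟨N, hN, H⟩ := one_div hn hp C
  refine ⟨N, hN, ?_⟩
  intro l hl k h
  have hsurj : Function.Surjective (groupCohomology.H1π (Rep.of C.rep)).hom :=
    (ModuleCat.epi_iff_surjective _).mp inferInstance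
  obtain ⟨z, rfl⟩ := hsurj h
  obtain ⟨F, hF, c', hc', hc'F, e⟩ := H l.1 l.2 hl k (ev C z) (ev_coc C z) (ev_mem C z)
  let z₁ := mkZ C (fun γ => hecke l.1 (td n l.1 k) (ev C z γ)) (hecke_coc _ (ev_coc C z))
    (fun γ => hecke_mem l.2 hp _ (ev_mem C z γ))
  have h1 := T_pi C hp ⟨l, td n l.1 k⟩ z z₁ (fun _ _ => rfl)
  refine ⟨(groupCohomology.H1π (Rep.of C.rep)).hom (mkZ C c' hc' hc'F), ?_⟩
  rw [h1, ← map_nsmul, ← map_sub, ← map_smul, ← sub_eq_zero, ← map_sub]
  apply pi_zero C _ F hF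
  intro γ x
  have h2 := e γ x
  show (hecke l.1 (td n l.1 k) (ev C z γ) x - deg n l.1 k • ev C z γ x) -
    ((p : ℕ) : O) • c' γ x = _
  rw [h2]
  abel

/-- **Hecke operators on `H^0`.** -/
theorem H_zero_div (hn : 3 ≤ n) (hp : p ∈ Sg) (C : Coef L p O W) [IsNoetherian O W] :
    ∃ N : ℕ, N ≠ 0 ∧ ∀ l : {l : Pr // l ∉ Sg}, ((N : ℕ) : ℤ) ∣ (l.1 : ℕ) - 1 → ∀ k : ℕ,
      ∀ h : C.H 0, ∃ h' : C.H 0,
        C.T hp 0 ⟨l, td n l.1 k⟩ h - deg n l.1 k • h = ((p : ℕ) : O) • h' := by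
  obtain ⟨N, hN, H⟩ := zero_div hn hp C
  refine ⟨N, hN, ?_⟩
  intro l hl k h
  let E := (groupCohomology.H0Iso (Rep.of C.rep)).toLinearEquiv
  have hT : ∀ h : C.H 0, ∀ x : AG n, (E (C.T hp 0 ⟨l, td n l.1 k⟩ h)).1.1 x =
      hecke l.1 (td n l.1 k) (E h).1.1 x := by
    intro h x
    have h1 := groupCohomology.map_id_comp_H0Iso_hom_apply (C.heckeRep l.1 l.2 hp (td n l.1 k)) h
    have h2 := congrArg (fun F : C.rep.invariants => F.1.1 x) h1
    exact h2
  obtain ⟨F', hF', hG', e⟩ := H l.1 l.2 hl k (E h).1.1 (E h).1.2 (by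
    intro γ g
    have h3 := congrArg (fun F : C.Fn => F.1 (dg n γ * g)) ((E h).2 γ)
    have h4 : (E h).1.1 ((dg n γ)⁻¹ * (dg n γ * g)) = (E h).1.1 (dg n γ * g) := h3
    rw [inv_mul_cancel_left] at h4
    exact h4.symm)
  let z' : C.rep.invariants := ⟨⟨F', hF'⟩, by
    intro γ
    apply Subtype.ext
    funext x
    show F' ((dg n γ)⁻¹ * x) = F' x
    rw [← map_inv]
    exact hG' γ⁻¹ x⟩
  refine ⟨E.symm z', ?_⟩
  apply E.injective
  rw [map_sub, map_nsmul, map_smul, E.apply_symm_apply]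
  apply Subtype.ext
  apply Subtype.ext
  funext x
  have h5 := e x
  have h6 := hT h x
  show (E (C.T hp 0 ⟨l, td n l.1 k⟩ h)).1.1 x - deg n l.1 k • (E h).1.1 x = ((p : ℕ) : O) • F' x
  rw [h6, h5]

end Pool.Agent.L0h47.CG
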