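import Pool.Agent.L0h47.CG.Coc

/-!
# Hecke operators in degrees zero and one, torsion coefficients
-/

set_option autoImplicit false

namespace Pool.Agent.L0h47.CG

open Matrix

variable {n : ℕ} {Sg : Finset Pr} {L : Level n Sg} {p : Pr} {O : Type} [CommRing O] {W : Type}
  [AddCommGroup W] [Module O W]

/-- the degree of a Hecke operator -/
noncomputable def deg (n : ℕ) (l : Pr) (k : ℕ) : ℕ := Nat.card (HC n l (td n l k))

lemma Kf_le (L : Level n Sg) {κ : AG n} (h : κ ∈ L.Kf) : κ ∈ KN n 1 := by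
  rw [mem_KN_one]
  intro l
  exact L.le l (h l)

/-- a principal congruence subgroup in the level that acts trivially -/
lemma exists_triv (C : Coef L p O W) (r : ℕ) : ∃ N : ℕ, N ≠ 0 ∧
    ∃ hle : KN n N ≤ L.Kf, ∀ κ (hκ : κ ∈ KN n N) (w : W), ∃ w',
      C.act (L.pc p ⟨κ, hle hκ⟩) w - w = ((p : ℕ) : O) ^ r • w' := by
  obtain ⟨s, hs⟩ := C.cont r
  choose e he using L.isOpen
  obtain ⟨N, hN, h⟩ := exists_level (B := (↑Sg : Set Pr) ∪ {p})
    (Sg.finite_toSet.union (Set.finite_singleton p)) (fun l => max (e l) s)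
  have hle : KN n N ≤ L.Kf := by
    intro g hg l
    by_cases hl : l ∈ Sg
    · have h1 := Cg_anti ((le_max_left _ _).trans (h l (Or.inl hl))) (hg l)
      exact he l _ h1.1 h1.2
    · rw [L.full l hl]
      exact (hg l).1
  refine ⟨N, hN, hle, fun κ hκ w => ?_⟩
  have h1 := Cg_anti ((le_max_right _ _).trans (h p (Or.inr rfl))) (hκ p)
  exact hs (L.pc p ⟨κ, hle hκ⟩) h1.2 w

/-- translating the argument of a Hecke operator by an element of `GL_n(\hat Z)` -/
lemma hecke_right {A : Type} [AddCommGroup A] {l : Pr} {F : AG n → A} (h : RU l F) (x : LG n l)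
    {κ : AG n} (hκ : κ ∈ KN n 1) (g : AG n) :
    hecke l x (fun g => F (g * κ)) g = hecke l x F (g * κ) := by
  rw [mem_KN_one] at hκ
  rw [hecke_shift h x κ (hκ l)]
  congr 1
  funext g
  conv_lhs => rw [← offl_mul l κ]
  rw [← mul_assoc, h _ _ (hκ l)]

lemma RU_of_KN {A : Type} {N : ℕ} {l : Pr} (hl : (N : ℤ) ∣ (l : ℕ) - 1) {F : AG n → A}
    (hF : ∀ x, ∀ κ ∈ KN n N, F (x * κ) = F x) : RU l F := by
  intro g u hu
  apply hF
  intro m
  by_cases hm : m = l
  · subst hm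
    rw [inc_same]
    have h0 : N.factorization m = 0 := by
      apply Nat.factorization_eq_zero_of_not_dvd
      intro h
      have h1 : ((m : ℕ) : ℤ) ∣ (m : ℕ) - 1 := dvd_trans (by exact_mod_cast h) hl
      have h2 : ((m : ℕ) : ℤ) ∣ 1 := by
        have := dvd_sub (dvd_refl ((m : ℕ) : ℤ)) h1
        rwa [sub_sub_cancel] at this
      have h3 := Int.eq_one_of_dvd_one (by positivity) h2
      exact m.2.one_lt.ne' (by exact_mod_cast h3)
    rw [h0, Cg_zero]
    exact hu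
  · rw [inc_ne hm]
    exact one_mem _

/-- **The Hecke operators in degree one, torsion coefficients.** -/
theorem tors_one (hn : 3 ≤ n) (C : Coef L p O W) {N w : ℕ} (hN : N ≠ 0) (hw0 : w ≠ 0)
    (hw : ∀ a : W, w • a = 0) (hle : KN n N ≤ L.Kf)
    (htr : ∀ κ (hκ : κ ∈ KN n N) (w : W), C.act (L.pc p ⟨κ, hle hκ⟩) w = w)
    {c : GQ n → AG n → W} (hc : IsCoc c) (hcF : ∀ γ, c γ ∈ C.Fn)
    (l : Pr) (hl : ((N * w : ℕ) : ℤ) ∣ (l : ℕ) - 1) (k : ℕ) :
    ∃ F ∈ C.Fn, ∀ γ x, hecke l (td n l k) (c γ) x - deg n l k • c γ x =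
      F ((dg n γ)⁻¹ * x) - F x := by
  have : NeZero n := ⟨by omega⟩
  have hNw : N * w ≠ 0 := mul_ne_zero hN hw0
  obtain ⟨F₀, hF₀, hcF₀⟩ := tors_cob hn hN hw0 hw hc (by
    intro γ x κ hκ
    have h1 := hcF γ x ⟨κ, hle hκ⟩
    rw [h1]
    have h2 := htr κ⁻¹ (inv_mem hκ) (c γ x)
    exact h2)
  have hRU := RU_of_KN hl hF₀
  refine ⟨fun g => hecke l (td n l k) F₀ g - deg n l k • F₀ g, ?_, ?_⟩
  · intro g κ
    let Φ : AG n → W := fun g => C.act (L.pc p κ) (F₀ (g * κ.1)) - F₀ g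
    have hΦG : ∀ γ g, Φ (dg n γ * g) = Φ g := by
      intro γ g
      have e1 := hcF₀ γ⁻¹ g
      have e2 := hcF₀ γ⁻¹ (g * κ.1)
      have e3 := hcF γ⁻¹ g κ
      rw [map_inv, inv_inv] at e1 e2
      rw [e3, ← mul_assoc] at e2
      show C.act (L.pc p κ) (F₀ (dg n γ * g * κ.1)) - F₀ (dg n γ * g) =
        C.act (L.pc p κ) (F₀ (g * κ.1)) - F₀ g
      have e4 := congrArg (C.act (L.pc p κ)) e2
      rw [map_sub, ← Module.End.mul_apply, ← map_mul, mul_inv_cancel, map_one,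
        Module.End.one_apply] at e4
      rw [e4] at e1
      rw [sub_eq_sub_iff_add_eq_add] at e1 ⊢
      rw [add_comm (F₀ _)] at e1
      rw [e1, add_comm]
    have hΦK : ∀ g, ∀ κ' ∈ KN n (N * w), Φ (g * κ') = Φ g := by
      intro g κ' hκ'
      show C.act (L.pc p κ) (F₀ (g * κ' * κ.1)) - F₀ (g * κ') = _
      rw [hF₀ _ _ hκ']
      have e1 : g * κ' * κ.1 = g * κ.1 * (κ.1⁻¹ * κ' * κ.1) := by group
      rw [e1, hF₀ _ _ (KN_conj (Kf_le L κ.2) hκ')]
    have h1 := hecke_inv hNw hΦG hΦK l hl k g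
    have h2 : hecke l (td n l k) Φ g = C.act (L.pc p κ) (hecke l (td n l k) F₀ (g * κ.1)) -
        hecke l (td n l k) F₀ g := by
      have e0 : Φ = (fun g => (C.act (L.pc p κ)).toAddMonoidHom (F₀ (g * κ.1))) +
          (fun g => (-AddMonoidHom.id W) (F₀ g)) := by
        funext g
        show C.act (L.pc p κ) (F₀ (g * κ.1)) - F₀ g = C.act (L.pc p κ) (F₀ (g * κ.1)) + -(F₀ g)
        rw [sub_eq_add_neg]
      rw [e0, hecke_add, hecke_map, hecke_map, hecke_right hRU _ (Kf_le L κ.2)]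
      show C.act (L.pc p κ) (hecke l (td n l k) F₀ (g * κ.1)) + -(hecke l (td n l k) F₀ g) = _
      rw [sub_eq_add_neg]
    rw [h2] at h1
    show hecke l (td n l k) F₀ (g * κ.1) - deg n l k • F₀ (g * κ.1) =
      C.act (L.pc p κ)⁻¹ (hecke l (td n l k) F₀ g - deg n l k • F₀ g)
    have e5 : hecke l (td n l k) F₀ g - deg n l k • F₀ g =
        C.act (L.pc p κ) (hecke l (td n l k) F₀ (g * κ.1) - deg n l k • F₀ (g * κ.1)) := by
      rw [map_sub, map_nsmul]
      have h3 : C.act (L.pc p κ) (hecke l (td n l k) F₀ (g * κ.1)) - hecke l (td n l k) F₀ g =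
        deg n l k • C.act (L.pc p κ) (F₀ (g * κ.1)) - deg n l k • F₀ g := by
        rw [h1]
        show deg n l k • (C.act (L.pc p κ) (F₀ (g * κ.1)) - F₀ g) = _
        rw [smul_sub]
      rw [sub_eq_sub_iff_add_eq_add] at h3 ⊢
      rw [add_comm, ← h3, add_comm]
    rw [e5, ← Module.End.mul_apply, ← map_mul, inv_mul_cancel, map_one, Module.End.one_apply]
  · intro γ x
    have e0 : c γ = (fun g => F₀ ((dg n γ)⁻¹ * g)) + (fun g => (-AddMonoidHom.id W) (F₀ g)) := by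
      funext g
      show c γ g = F₀ ((dg n γ)⁻¹ * g) + -(F₀ g)
      rw [hcF₀, sub_eq_add_neg]
    have e1 : hecke l (td n l k) (c γ) x = hecke l (td n l k) F₀ ((dg n γ)⁻¹ * x) -
        hecke l (td n l k) F₀ x := by
      rw [e0, hecke_add, hecke_map, hecke_left]
      show _ + -(hecke l (td n l k) F₀ x) = _
      rw [sub_eq_add_neg]
    rw [e1, hcF₀, smul_sub]
    exact sub_sub_sub_comm _ _ _ _

/-- **The Hecke operators in degree zero, torsion coefficients.** -/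
theorem tors_zero (hn : 3 ≤ n) (C : Coef L p O W) {N : ℕ} (hN : N ≠ 0) (hle : KN n N ≤ L.Kf)
    (htr : ∀ κ (hκ : κ ∈ KN n N) (w : W), C.act (L.pc p ⟨κ, hle hκ⟩) w = w)
    {F : AG n → W} (hF : F ∈ C.Fn) (hG : ∀ γ g, F (dg n γ * g) = F g)
    (l : Pr) (hl : ((N : ℕ) : ℤ) ∣ (l : ℕ) - 1) (k : ℕ) (x : AG n) :
    hecke l (td n l k) F x = deg n l k • F x := by
  have : NeZero n := ⟨by omega⟩
  apply hecke_inv hN hG _ l hl k x
  intro g κ hκ
  have h1 := hF g ⟨κ, hle hκ⟩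
  rw [h1]
  exact htr κ⁻¹ (inv_mem hκ) (F g)

end Pool.Agent.L0h47.CG
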