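import Pool.Agent.L0h47.CG.Fiber
import Pool.Agent.L0h47.CG.Low

/-!
# The cells at an adelic matrix
-/

set_option autoImplicit false

namespace Pool.Agent.L0h47.CG

open Matrix

/-- `d ∘ d = 0` for alternating functions -/
theorem Shell.dA_dA {R : Type} [inst : DecidableEq R] {N : ℕ} (S : Shell R N) {W : Type}
    [AddCommGroup W] {m : ℕ} {f : (Fin (m + 2) → R) → W} (hf : S.IsAlt (m + 2) f) :
    S.dA (S.dA f) = 0 := by
  let lo : LinearOrder R := IsWellOrder.linearOrder WellOrderingRel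
  have h : inst = (fun a b => lo.toDecidableEq a b) := Subsingleton.elim _ _
  subst h
  have h0 : S.IsAlt m (0 : (Fin m → R) → W) := ⟨fun _ _ => by simp, fun _ _ => rfl⟩
  apply alt_ext (dA_alt (dA_alt hf)) h0
  rw [tS_dA (dA_alt hf), tS_dA hf, df_df]
  funext G
  unfold tS
  split_ifs <;> rfl

theorem dB_dB {W : Type} [AddCommGroup W] {β : Ray} (hβ : IsUnit β) {m : ℕ}
    {f : (Fin (m + 2) → Ray) → W} (hf : IsAltB β (m + 2) f) : dB β (dB β f) = 0 := by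
  obtain ⟨S, hS⟩ := exists_gen
  rw [← dA_eq hβ hS (dB_alt hβ hf), ← dA_eq hβ hS hf]
  exact Shell.dA_dA _ ((alt_iff hβ hS f).mpr hf)

/-! ### Frames -/

/-- the matrix of an element of `GL_3(Q)⁺` -/
def mat (γ : GQ 3) : Ray := γ.1.1

lemma mat_mul (γ δ : GQ 3) : mat (γ * δ) = mat γ * mat δ := rfl

lemma mat_one : mat 1 = 1 := rfl

lemma mat_unit (γ : GQ 3) : IsUnit (mat γ) := γ.1.isUnit

lemma mat_inj {γ δ : GQ 3} (h : mat γ = mat δ) : γ = δ := Subtype.ext (Units.ext h)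

/-- the action on the rays -/
def ac (γ : GQ 3) (r : Ray) : Ray := mat γ * r * (mat γ)ᵀ

lemma ac_one (r : Ray) : ac 1 r = r := by
  unfold ac
  rw [mat_one, transpose_one, Matrix.one_mul, Matrix.mul_one]

lemma ac_mul (γ δ : GQ 3) (r : Ray) : ac (γ * δ) r = ac γ (ac δ r) := by
  unfold ac
  rw [mat_mul, transpose_mul]
  simp only [Matrix.mul_assoc]

lemma ac_inv (γ : GQ 3) (r : Ray) : ac γ⁻¹ (ac γ r) = r := by
  rw [← ac_mul, inv_mul_cancel, ac_one]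

lemma ac_inv' (γ : GQ 3) (r : Ray) : ac γ (ac γ⁻¹ r) = r := by
  rw [← ac_mul, mul_inv_cancel, ac_one]

/-- the action on the rays as a bijection -/
def acE (γ : GQ 3) : Ray ≃ Ray where
  toFun := ac γ
  invFun := ac γ⁻¹
  left_inv := ac_inv γ
  right_inv := ac_inv' γ

lemma ac_inj (γ : GQ 3) : Function.Injective (ac γ) := (acE γ).injective

lemma ac_vr (γ : GQ 3) (β : Ray) (v : Fin 3 → ℤ) : ac γ (vr β v) = vr (mat γ * β) v :=
  vr_act _ _ _

lemma tl_ac (γ : GQ 3) (β : Ray) (δ : GL (Fin 3) ℤ) :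
    (tl β δ).image (ac γ) = tl (mat γ * β) δ := by
  unfold tl
  rw [Finset.image_image]
  apply Finset.image_congr
  intro e _
  exact ac_vr γ β _

lemma Spn_ac (γ : GQ 3) {G : Finset Ray} (h : Spn G) : Spn (G.image (ac γ)) := by
  intro x hx
  have h1 : x ᵥ* mat γ = 0 := by
    apply h
    intro r hr
    have h2 := hx (ac γ r) (Finset.mem_image_of_mem _ hr)
    unfold ac at h2
    rw [← Matrix.mulVec_mulVec, ← Matrix.mulVec_mulVec, dotProduct_mulVec, Matrix.mulVec_transpose] at h2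
    exact h2
  have h3 : (x ᵥ* mat γ) ᵥ* mat γ⁻¹ = x := by
    rw [vecMul_vecMul, ← mat_mul, mul_inv_cancel, mat_one, vecMul_one]
  rw [← h3, h1, zero_vecMul]

lemma image_ac {m : ℕ} (γ : GQ 3) (v : Fin m → Ray) :
    Finset.univ.image (ac γ ∘ v) = (Finset.univ.image v).image (ac γ) := by
  rw [Finset.image_image]

lemma OCb_ac' (γ : GQ 3) {β : Ray} {m : ℕ} {v : Fin m → Ray} (h : OCb β v) :
    OCb (mat γ * β) (ac γ ∘ v) := by
  obtain ⟨h1, h2, δ, h3⟩ := h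
  refine ⟨(ac_inj γ).comp h1, ?_, δ, ?_⟩
  · rw [image_ac]; exact Spn_ac γ h2
  · rw [image_ac, ← tl_ac]
    exact Finset.image_subset_image h3

lemma OCb_ac (γ : GQ 3) {β : Ray} {m : ℕ} {v : Fin m → Ray} :
    OCb (mat γ * β) (ac γ ∘ v) ↔ OCb β v := by
  constructor
  · intro h
    have h1 := OCb_ac' γ⁻¹ h
    rw [← Matrix.mul_assoc, ← mat_mul, inv_mul_cancel, mat_one, Matrix.one_mul] at h1
    have e : ac γ⁻¹ ∘ (ac γ ∘ v) = v := by
      funext i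
      exact ac_inv γ (v i)
    rwa [e] at h1
  · exact OCb_ac' γ

/-- an integral matrix as an element of `GL_3(Z)` -/
def sG (a : SpecialLinearGroup (Fin 3) ℤ) : GL (Fin 3) ℤ := SpecialLinearGroup.toGL a

lemma mat_sZ (a : SpecialLinearGroup (Fin 3) ℤ) :
    mat (sZ a) = (sG a).1.map (fun z => (z : ℚ)) := rfl

lemma OCb_sZ' (β : Ray) (a : SpecialLinearGroup (Fin 3) ℤ) {m : ℕ} {v : Fin m → Ray}
    (h : OCb (β * mat (sZ a)) v) : OCb β v := by
  obtain ⟨h1, h2, δ, h3⟩ := h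
  refine ⟨h1, h2, sG a * δ, ?_⟩
  intro r hr
  obtain ⟨e, he, rfl⟩ := Finset.mem_image.mp (h3 hr)
  refine Finset.mem_image.mpr ⟨e, he, ?_⟩
  rw [mat_sZ, ← vr_comp, Units.val_mul, mulVec_mulVec]

lemma OCb_sZ (β : Ray) (a : SpecialLinearGroup (Fin 3) ℤ) {m : ℕ} {v : Fin m → Ray} :
    OCb (β * mat (sZ a)) v ↔ OCb β v := by
  constructor
  · exact OCb_sZ' β a
  · intro h
    apply OCb_sZ' _ a⁻¹
    rw [Matrix.mul_assoc, ← mat_mul, ← map_mul, mul_inv_cancel, map_one, mat_one, Matrix.mul_one]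
    exact h

/-- frames of an adelic matrix -/
def IsFr (γ : GQ 3) (g : AG 3) : Prop := (dg 3 γ)⁻¹ * g ∈ KN 3 1

lemma exists_fr (g : AG 3) : ∃ γ, IsFr γ g := by
  obtain ⟨γ, u, hu, h⟩ := class_one g
  refine ⟨γ, ?_⟩
  unfold IsFr
  rw [h, inv_mul_cancel_left]
  exact hu

/-- a frame -/
noncomputable def fr (g : AG 3) : GQ 3 := (exists_fr g).choose

lemma fr_spec (g : AG 3) : IsFr (fr g) g := (exists_fr g).choose_spec

/-- ordered cells at an adelic matrix -/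
def OCg (g : AG 3) {m : ℕ} (v : Fin m → Ray) : Prop := OCb (mat (fr g)) v

lemma OCg_iff {γ : GQ 3} {g : AG 3} (h : IsFr γ g) {m : ℕ} (v : Fin m → Ray) :
    OCb (mat γ) v ↔ OCg g v := by
  have h2 := fr_spec g
  unfold IsFr at h h2
  have h3 : dg 3 ((fr g)⁻¹ * γ) ∈ KN 3 1 := by
    have e : dg 3 ((fr g)⁻¹ * γ) = ((dg 3 (fr g))⁻¹ * g) * ((dg 3 γ)⁻¹ * g)⁻¹ := by
      rw [map_mul, map_inv]; group
    rw [e]
    exact mul_mem h2 (inv_mem h)
  obtain ⟨a, ha⟩ := exists_sZ h3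
  have e : γ = fr g * sZ a := by rw [← ha]; group
  rw [e, mat_mul]
  exact OCb_sZ _ a

lemma OCg_right {g κ : AG 3} (hκ : κ ∈ KN 3 1) {m : ℕ} (v : Fin m → Ray) :
    OCg (g * κ) v ↔ OCg g v := by
  symm
  apply OCg_iff
  unfold IsFr
  rw [← mul_assoc]
  exact mul_mem (fr_spec g) hκ

lemma OCg_left (γ : GQ 3) (g : AG 3) {m : ℕ} (v : Fin m → Ray) :
    OCg (dg 3 γ * g) (ac γ ∘ v) ↔ OCg g v := by
  have h : IsFr (γ * fr g) (dg 3 γ * g) := by
    unfold IsFr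
    have e : (dg 3 (γ * fr g))⁻¹ * (dg 3 γ * g) = (dg 3 (fr g))⁻¹ * g := by
      rw [map_mul]; group
    rw [e]
    exact fr_spec g
  rw [← OCg_iff h, mat_mul]
  exact OCb_ac γ

lemma OCg_perm {g : AG 3} {m : ℕ} {v : Fin m → Ray} (σ : Equiv.Perm (Fin m)) :
    OCg g (v ∘ σ) ↔ OCg g v := OCb_perm σ

variable {W : Type} [AddCommGroup W]

/-- alternating functions on the cells at `g` -/
def IsAltG (g : AG 3) (m : ℕ) (f : (Fin m → Ray) → W) : Prop := IsAltB (mat (fr g)) m f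

/-- the differential at `g` -/
noncomputable def dG (g : AG 3) {m : ℕ} (f : (Fin (m + 1) → Ray) → W) : (Fin m → Ray) → W :=
  dB (mat (fr g)) f

/-- the orientation at `g` -/
noncomputable def oriG (g : AG 3) (w : W) : (Fin 6 → Ray) → W := ori (mat (fr g)) w

lemma IsAltG_congr {g h : AG 3} (H : ∀ (m : ℕ) (v : Fin m → Ray), OCg g v ↔ OCg h v) {m : ℕ}
    (f : (Fin m → Ray) → W) : IsAltG g m f ↔ IsAltG h m f := by
  unfold IsAltG IsAltB
  have H' : ∀ v : Fin m → Ray, OCb (mat (fr g)) v ↔ OCb (mat (fr h)) v := H m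
  simp only [H']

lemma dG_congr {g h : AG 3} (H : ∀ (m : ℕ) (v : Fin m → Ray), OCg g v ↔ OCg h v) {m : ℕ}
    (f : (Fin (m + 1) → Ray) → W) : dG g f = dG h f := by
  classical
  funext v
  unfold dG dB
  have H' : OCb (mat (fr g)) v ↔ OCb (mat (fr h)) v := H m v
  by_cases hv : OCb (mat (fr g)) v
  · rw [if_pos hv, if_pos (H'.mp hv)]
  · rw [if_neg hv, if_neg (fun h => hv (H'.mpr h))]

lemma oriG_congr {g h : AG 3} (H : ∀ (m : ℕ) (v : Fin m → Ray), OCg g v ↔ OCg h v) (w : W) :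
    oriG g w = oriG h w := by
  classical
  funext v
  unfold oriG ori
  have H' : OCb (mat (fr g)) v ↔ OCb (mat (fr h)) v := H 6 v
  by_cases hv : OCb (mat (fr g)) v
  · rw [if_pos hv, if_pos (H'.mp hv)]
  · rw [if_neg hv, if_neg (fun h => hv (H'.mpr h))]

/-- translation of functions on tuples of rays -/
def tr (γ : GQ 3) {m : ℕ} (f : (Fin m → Ray) → W) : (Fin m → Ray) → W :=
  fun v => f (ac γ⁻¹ ∘ v)

lemma OCg_left' (γ : GQ 3) (g : AG 3) {m : ℕ} (v : Fin m → Ray) :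
    OCg ((dg 3 γ)⁻¹ * g) (ac γ⁻¹ ∘ v) ↔ OCg g v := by
  rw [← map_inv]
  exact OCg_left γ⁻¹ g v

lemma tr_alt (γ : GQ 3) (g : AG 3) {m : ℕ} {f : (Fin m → Ray) → W}
    (hf : IsAltG ((dg 3 γ)⁻¹ * g) m f) : IsAltG g m (tr γ f) := by
  constructor
  · intro v σ
    exact hf.1 (ac γ⁻¹ ∘ v) σ
  · intro v hv
    apply hf.2
    intro h
    exact hv ((OCg_left' γ g v).mp h)

lemma dB_pos {β : Ray} {m : ℕ} (f : (Fin (m + 1) → Ray) → W) {v : Fin m → Ray} (hv : OCb β v) :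
    dB β f v = ∑ᶠ r, f (Fin.cons r v : Fin (m + 1) → Ray) := if_pos hv

lemma dB_neg {β : Ray} {m : ℕ} (f : (Fin (m + 1) → Ray) → W) {v : Fin m → Ray} (hv : ¬ OCb β v) :
    dB β f v = 0 := if_neg hv

lemma tr_d (γ : GQ 3) (g : AG 3) {m : ℕ} (f : (Fin (m + 1) → Ray) → W) :
    dG g (tr γ f) = tr γ (dG ((dg 3 γ)⁻¹ * g) f) := by
  funext v
  have H : OCb (mat (fr ((dg 3 γ)⁻¹ * g))) (ac γ⁻¹ ∘ v) ↔ OCb (mat (fr g)) v := OCg_left' γ g v
  show dB (mat (fr g)) (tr γ f) v = dB (mat (fr ((dg 3 γ)⁻¹ * g))) f (ac γ⁻¹ ∘ v)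
  by_cases hv : OCb (mat (fr g)) v
  · rw [dB_pos _ hv, dB_pos _ (H.mpr hv), ← finsum_comp_equiv (acE γ⁻¹)
      (f := fun r => f (Fin.cons r (ac γ⁻¹ ∘ v) : Fin (m + 1) → Ray))]
    apply finsum_congr
    intro r
    show f _ = f _
    congr 1
    funext i
    refine Fin.cases ?_ (fun j => ?_) i
    · rfl
    · rfl
  · rw [dB_neg _ hv, dB_neg _ (fun h => hv (H.mp h))]

lemma eps_ac (γ : GQ 3) {β : Ray} (hβ : IsUnit β) {v : Fin 6 → Ray} (hv : OCb β v) :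
    eps (ac γ ∘ v) = eps v := by
  have hs : ∀ i, (v i)ᵀ = v i := by
    intro i
    obtain ⟨δ, hδ⟩ := OCb_six hβ hv
    have h4 : v i ∈ tl β δ := by
      rw [← hδ]; exact Finset.mem_image_of_mem _ (Finset.mem_univ _)
    obtain ⟨e, -, he⟩ := Finset.mem_image.mp h4
    rw [← he, vr_symm]
  have h1 : DD (ac γ ∘ v) = LinearMap.det (Lg (mat γ)) * DD v := DD_act hs
  have h2 : 0 < LinearMap.det (Lg (mat γ)) := by
    apply det_Lg_pos
    exact ((Matrix.isUnit_iff_isUnit_det _).mp (mat_unit γ)).ne_zero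
  unfold eps
  rw [h1, sign_mul, sign_pos h2, one_mul]

lemma tr_ori (γ : GQ 3) (g : AG 3) (w : W) :
    tr γ (oriG ((dg 3 γ)⁻¹ * g) w) = oriG g w := by
  classical
  funext v
  unfold tr oriG ori
  have H : OCb (mat (fr ((dg 3 γ)⁻¹ * g))) (ac γ⁻¹ ∘ v) ↔ OCb (mat (fr g)) v := OCg_left' γ g v
  by_cases hv : OCb (mat (fr g)) v
  · rw [if_pos hv, if_pos (H.mpr hv), eps_ac γ⁻¹ (mat_unit _) hv]
  · rw [if_neg hv, if_neg (fun h => hv (H.mp h))]

end Pool.Agent.L0h47.CG
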