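import Pool.Agent.L0h47.CG.Approx

/-!
# Classes of adelic matrices and determinants
-/

set_option autoImplicit false

namespace Pool.Agent.L0h47.CG

open Matrix

variable {n : ℕ} {l : Pr}

/-- a positive rational number with prescribed `l`-adic norms -/
lemma exists_pos_rat (d : ∀ l : Pr, ℚ_[(l : ℕ)]) (hd : ∀ l, d l ≠ 0)
    (hfin : {l : Pr | ‖d l‖ ≠ 1}.Finite) :
    ∃ q : ℚ, 0 < q ∧ ∀ l : Pr, ‖(q : ℚ_[(l : ℕ)])‖ = ‖d l‖ := by
  refine ⟨∏ l ∈ hfin.toFinset, ((l : ℕ) : ℚ) ^ (d l).valuation, ?_, ?_⟩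
  · apply Finset.prod_pos
    intro l _
    have : (0 : ℚ) < ((l : ℕ) : ℚ) := by exact_mod_cast l.2.pos
    positivity
  · intro m
    push_cast
    rw [norm_prod]
    by_cases hm : m ∈ hfin.toFinset
    · rw [Finset.prod_eq_single_of_mem m hm]
      · rw [norm_zpow, Padic.norm_p, Padic.norm_eq_zpow_neg_valuation (hd m), _root_.inv_zpow, _root_.zpow_neg]
      · intro b _ hb
        have hml : ‖((b : ℕ) : ℚ_[(m : ℕ)])‖ = 1 := by
          rw [Padic.norm_natCast_eq_one_iff]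
          exact (Nat.coprime_primes m.2 b.2).mpr (fun e => hb (Subtype.ext e.symm))
        rw [norm_zpow, hml, _root_.one_zpow]
    · rw [Finset.prod_eq_one]
      · rw [Set.Finite.mem_toFinset, Set.mem_ofPred_eq, not_not] at hm
        exact hm.symm
      · intro b hb
        have hne : b ≠ m := fun e => hm (e ▸ hb)
        have hml : ‖((b : ℕ) : ℚ_[(m : ℕ)])‖ = 1 := by
          rw [Padic.norm_natCast_eq_one_iff]
          exact (Nat.coprime_primes m.2 b.2).mpr (fun e => hne (Subtype.ext e.symm))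
        rw [norm_zpow, hml, _root_.one_zpow]

lemma det_norm_one {g : LG n l} (h : g ∈ U n l) : ‖g.1.det‖ = 1 := by
  have key : ∀ g : LG n l, g ∈ U n l → ‖g.1.det‖ ≤ 1 := by
    intro g hg
    have e : g.1.det = ((Matrix.det (pin ⟨g, hg⟩) : ℤ_[(l : ℕ)]) : ℚ_[(l : ℕ)]) := by
      have := RingHom.map_det (PadicInt.Coe.ringHom (p := (l : ℕ))) (pin ⟨g, hg⟩)
      exact this.symm
    rw [e]
    exact PadicInt.norm_le_one _
  apply le_antisymm (key g h)
  have h1 := key g⁻¹ (inv_mem h)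
  have h2 : ‖g.1.det‖ * ‖(g⁻¹).1.det‖ = 1 := by
    rw [← norm_mul, ← Matrix.det_mul, ← Units.val_mul, mul_inv_cancel, Units.val_one,
      Matrix.det_one, norm_one]
  have h3 : 0 ≤ ‖g.1.det‖ := norm_nonneg _
  nlinarith

lemma det_ne {K : Type*} [Field K] (g : GL (Fin n) K) : g.1.det ≠ 0 := by
  have h2 : g.1.det * (g⁻¹).1.det = 1 := by
    rw [← Matrix.det_mul, ← Units.val_mul, mul_inv_cancel, Units.val_one, Matrix.det_one]
  exact left_ne_zero_of_mul_eq_one h2

/-- the local determinants -/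
noncomputable def ldet (g : AG n) (l : Pr) : ℚ_[(l : ℕ)] := (g.1 l).1.det

lemma ldet_mul (g h : AG n) (l : Pr) : ldet (g * h) l = ldet g l * ldet h l := by
  unfold ldet
  rw [mul_apply', Units.val_mul, Matrix.det_mul]

lemma det_dg (γ : GQ n) (l : Pr) : ((dg n γ).1 l).1.det = ((γ.1.1.det : ℚ) : ℚ_[(l : ℕ)]) := by
  show (γ.1.1.map (algebraMap ℚ ℚ_[(l : ℕ)])).det = _
  rw [← RingHom.mapMatrix_apply, ← RingHom.map_det]
  rfl

section
variable [NeZero n]

lemma norm_sub_le_one {x y : ℚ_[(l : ℕ)]} (hx : ‖x‖ ≤ 1) (hy : ‖y‖ ≤ 1) : ‖x - y‖ ≤ 1 := by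
  rw [sub_eq_add_neg]
  refine (IsUltrametricDist.norm_add_le_max _ _).trans (max_le hx ?_)
  rw [norm_neg]; exact hy

lemma ne_of_norm {x : ℚ_[(l : ℕ)]} (hx : ‖x‖ = 1) : x ≠ 0 := by
  rw [← norm_ne_zero_iff, hx]; exact one_ne_zero

/-- the matrix `diag(x, 1, …, 1)` -/
def du {K : Type*} [Field K] (x : K) (hx : x ≠ 0) : GL (Fin n) K where
  val := diagonal (fun i => if i = 0 then x else 1)
  inv := diagonal (fun i => if i = 0 then x⁻¹ else 1)
  val_inv := by
    rw [diagonal_mul_diagonal, ← diagonal_one]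
    congr 1
    funext i
    split_ifs
    · exact mul_inv_cancel₀ hx
    · exact mul_one _
  inv_val := by
    rw [diagonal_mul_diagonal, ← diagonal_one]
    congr 1
    funext i
    split_ifs
    · exact inv_mul_cancel₀ hx
    · exact mul_one _

lemma det_du {K : Type*} [Field K] (x : K) (hx : x ≠ 0) : (du (n := n) x hx).1.det = x := by
  show (diagonal (fun i : Fin n => if i = 0 then x else 1)).det = x
  rw [det_diagonal, Finset.prod_ite_eq' Finset.univ (0 : Fin n), if_pos (Finset.mem_univ _)]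

lemma du_mem {x : ℚ_[(l : ℕ)]} (hx : x ≠ 0) {r : ℕ} (h1 : ‖x‖ = 1)
    (h : ‖x - 1‖ ≤ ((l : ℕ) : ℝ) ^ (-(r : ℤ))) : du x hx ∈ Cg n l r := by
  have key : ∀ x : ℚ_[(l : ℕ)], ‖x‖ = 1 → Bd (diagonal (fun i : Fin n => if i = 0 then x else 1)) 1 := by
    intro x hx i j
    rw [diagonal_apply]
    split_ifs
    · exact hx.le
    · exact norm_one.le
    · rw [norm_zero]; exact zero_le_one
  refine ⟨mem_U.mpr ⟨key x h1, key x⁻¹ (by rw [norm_inv, h1, inv_one])⟩, ?_⟩
  intro i j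
  show ‖diagonal (fun i : Fin n => if i = 0 then x else 1) i j - _‖ ≤ _
  rw [diagonal_apply, Matrix.one_apply]
  split_ifs
  · exact h
  · rw [sub_self, norm_zero]; exact (lr_pos r).le
  · rw [sub_self, norm_zero]; exact (lr_pos r).le

/-- `diag(q, 1, …, 1)` for a positive rational number `q` -/
noncomputable def dq (n : ℕ) [NeZero n] (q : ℚ) (hq : 0 < q) : GQ n :=
  ⟨du q hq.ne', by
    show 0 < (du (n := n) q hq.ne').1.det
    rw [det_du]
    exact hq⟩

/-- **Adelic matrices with the same determinant are in the same class.** -/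
theorem same_class {N : ℕ} (hN : N ≠ 0) (g g' : AG n) (q : ℚ) (hq : 0 < q)
    (s : ∀ l : Pr, ℚ_[(l : ℕ)]) (hs : ∀ l, ‖s l‖ = 1)
    (hs' : ∀ l : Pr, ‖s l - 1‖ ≤ ((l : ℕ) : ℝ) ^ (-(N.factorization l : ℤ)))
    (hdet : ∀ l, (g'.1 l).1.det = (q : ℚ_[(l : ℕ)]) * s l * (g.1 l).1.det) :
    ∃ γ : GQ n, ∃ κ ∈ KN n N, g' = dg n γ * g * κ := by
  have hs0 : ∀ l, s l ≠ 0 := fun l => by
    rw [← norm_ne_zero_iff, hs l]; exact one_ne_zero
  have hDmem : ∀ l, du (s l) (hs0 l) ∈ Cg n l (N.factorization l) := fun l =>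
    du_mem (hs0 l) (hs l) (hs' l)
  let D : AG n := ⟨fun l => du (s l) (hs0 l), by
    have : {l | (fun l => du (s l) (hs0 l) : ∀ l : Pr, LG n l) l ∉ U n l} = ∅ := by
      apply Set.eq_empty_of_forall_notMem
      intro l hl
      exact hl (hDmem l).1
    show {l | (fun l => du (s l) (hs0 l) : ∀ l : Pr, LG n l) l ∉ U n l}.Finite
    rw [this]; exact Set.finite_empty⟩
  have hD : D ∈ KN n N := hDmem
  have hh : ∀ l, (((dg n (dq n q hq))⁻¹ * g' * (g * D)⁻¹).1 l).1.det = 1 := by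
    intro l
    have e1 : (dg n (dq n q hq) * ((dg n (dq n q hq))⁻¹ * g' * (g * D)⁻¹) * (g * D)) = g' := by
      group
    generalize (dg n (dq n q hq))⁻¹ * g' * (g * D)⁻¹ = h at e1
    have e2 := congrArg (fun x : AG n => ldet x l) e1
    simp only [ldet_mul] at e2
    have e3 : ldet (dg n (dq n q hq)) l = q := by
      unfold ldet
      rw [det_dg]
      congr 1
      exact det_du q hq.ne'
    have e4 : ldet D l = s l := det_du _ (hs0 l)
    have e5 : ldet g' l = (q : ℚ_[(l : ℕ)]) * s l * ldet g l := hdet l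
    rw [e3, e4, e5] at e2
    have hne : (q : ℚ_[(l : ℕ)]) * s l * ldet g l ≠ 0 := by
      apply mul_ne_zero (mul_ne_zero _ (hs0 l)) (det_ne _)
      exact_mod_cast hq.ne'
    show ldet h l = 1
    apply mul_left_cancel₀ hne
    rw [mul_one]
    linear_combination e2
  obtain ⟨M, hM, hc⟩ := exists_conj_KN g hN
  obtain ⟨γ, hγ⟩ := strong_approx hh M hM
  refine ⟨dq n q hq * γ, g⁻¹ * ((dg n γ)⁻¹ * ((dg n (dq n q hq))⁻¹ * g' * (g * D)⁻¹)) * g * D,
    mul_mem (hc _ hγ) hD, ?_⟩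
  rw [map_mul]
  group

lemma du_mem_U {x : ℚ_[(l : ℕ)]} (hx : x ≠ 0) (h1 : ‖x‖ = 1) : du x hx ∈ U n l := by
  have h : du x hx ∈ Cg n l 0 := by
    apply du_mem hx h1
    simp only [Nat.cast_zero, neg_zero, zpow_zero]
    exact norm_sub_le_one h1.le norm_one.le
  exact h.1

/-- adelic diagonal matrices -/
noncomputable def DU (t : ∀ l : Pr, ℚ_[(l : ℕ)]) (ht : ∀ l, ‖t l‖ = 1) : AG n :=
  ⟨fun l => du (t l) (ne_of_norm (ht l)), by
    have : {l | (fun l => du (t l) (ne_of_norm (ht l)) : ∀ l : Pr, LG n l) l ∉ U n l} = ∅ := by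
      apply Set.eq_empty_of_forall_notMem
      intro l hl
      exact hl (du_mem_U _ (ht l))
    show {l | (fun l => du (t l) (ne_of_norm (ht l)) : ∀ l : Pr, LG n l) l ∉ U n l}.Finite
    rw [this]; exact Set.finite_empty⟩

lemma DU_mem (t : ∀ l : Pr, ℚ_[(l : ℕ)]) (ht : ∀ l, ‖t l‖ = 1) : DU t ht ∈ KN n 1 := by
  rw [mem_KN_one]
  intro l
  exact du_mem_U (ne_of_norm (ht l)) (ht l)

theorem class_dec {N : ℕ} (hN : N ≠ 0) (g : AG n) :
    ∃ (γ : GQ n) (t : ∀ l : Pr, ℚ_[(l : ℕ)]) (ht : ∀ l, ‖t l‖ = 1),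
      ∃ κ ∈ KN n N, g = dg n γ * DU t ht * κ := by
  obtain ⟨q, hq, hn⟩ := exists_pos_rat (fun l => ldet g l) (fun l => det_ne _)
    (by
      apply Set.Finite.subset g.2
      intro l hl h
      exact hl (det_norm_one h))
  have hq0 : ∀ l : Pr, (q : ℚ_[(l : ℕ)]) ≠ 0 := fun l => by exact_mod_cast hq.ne'
  have ht : ∀ l : Pr, ‖ldet g l / (q : ℚ_[(l : ℕ)])‖ = 1 := by
    intro l
    rw [norm_div, hn l, div_self]
    rw [norm_ne_zero_iff]
    exact det_ne _
  obtain ⟨γ, κ, hκ, e⟩ := same_class hN (DU _ ht) g q hq (fun _ => 1) (fun _ => norm_one)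
    (fun l => by rw [sub_self, norm_zero]; exact (lr_pos _).le)
    (fun l => by
      have e4 : ldet (DU (n := n) _ ht) l = ldet g l / (q : ℚ_[(l : ℕ)]) :=
        det_du _ (ne_of_norm (ht l))
      show ldet g l = _ * ldet (DU _ ht) l
      rw [e4, mul_one, mul_div_cancel₀ _ (hq0 l)])
  exact ⟨γ, _, ht, κ, hκ, e⟩

/-- the class number is one -/
theorem class_one (g : AG n) : ∃ γ : GQ n, ∃ u ∈ KN n 1, g = dg n γ * u := by
  obtain ⟨γ, t, ht, κ, hκ, e⟩ := class_dec one_ne_zero g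
  exact ⟨γ, _, mul_mem (DU_mem t ht) hκ, by rw [e, mul_assoc]⟩

end

lemma det_td (l : Pr) (k : ℕ) : ∃ a : ℕ, (td n l k).1.det = ((l : ℕ) : ℚ_[(l : ℕ)]) ^ a := by
  refine ⟨(Finset.univ.filter fun i : Fin n => (i : ℕ) < k).card, ?_⟩
  show (diagonal (fun i : Fin n => if (i : ℕ) < k then ((l : ℕ) : ℚ_[(l : ℕ)]) else 1)).det = _
  rw [det_diagonal, Finset.prod_ite, Finset.prod_const, Finset.prod_const_one, mul_one]

/-- Hecke operators at the primes congruent to one act through the degree on the functions that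
are invariant on both sides. -/
theorem hecke_inv [NeZero n] {A : Type} [AddCommGroup A] {N : ℕ} (hN : N ≠ 0) {Φ : AG n → A}
    (hG : ∀ γ g, Φ (dg n γ * g) = Φ g) (hK : ∀ g, ∀ κ ∈ KN n N, Φ (g * κ) = Φ g)
    (l : Pr) (hl : (N : ℤ) ∣ (l : ℕ) - 1) (k : ℕ) (g : AG n) :
    hecke l (td n l k) Φ g = (Nat.card (HC n l (td n l k)) : ℕ) • Φ g := by
  obtain ⟨a, ha⟩ := det_td (n := n) l k
  have key : ∀ c : HC n l (td n l k), Φ (g * inc n l c.1.out) = Φ g := by
    intro c
    obtain ⟨u, hu, hc⟩ := c.2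
    have hv : (c.1.out)⁻¹ * (u * td n l k) ∈ U n l := by
      rw [← QuotientGroup.eq, QuotientGroup.out_eq']
      exact hc
    set y := c.1.out with hy
    set v := y⁻¹ * (u * td n l k) with hvdef
    have hyv : y * v = u * td n l k := by rw [hvdef]; group
    have hdet : y.1.det * v.1.det = u.1.det * ((l : ℕ) : ℚ_[(l : ℕ)]) ^ a := by
      rw [← ha, ← Matrix.det_mul, ← Matrix.det_mul, ← Units.val_mul, ← Units.val_mul, hyv]
    have hlpos : (0 : ℚ) < ((l : ℕ) : ℚ) := by exact_mod_cast l.2.pos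
    have hl0 : ∀ m : Pr, ((l : ℕ) : ℚ_[(m : ℕ)]) ≠ 0 := fun m => by exact_mod_cast l.2.ne_zero
    have hlm : ∀ m : Pr, m ≠ l → ‖((l : ℕ) : ℚ_[(m : ℕ)])‖ = 1 := by
      intro m hm
      rw [Padic.norm_natCast_eq_one_iff]
      exact (Nat.coprime_primes m.2 l.2).mpr (fun e => hm (Subtype.ext e))
    let s : ∀ m : Pr, ℚ_[(m : ℕ)] := fun m =>
      ldet (inc n l y) m / ((l : ℕ) : ℚ_[(m : ℕ)]) ^ a
    have hsl : s l = u.1.det / v.1.det := by
      show ldet (inc n l y) l / _ = _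
      unfold ldet
      rw [inc_same, div_eq_div_iff (pow_ne_zero _ (hl0 l)) (det_ne v), hdet]
    have hsm : ∀ m : Pr, m ≠ l → s m = (((l : ℕ) : ℚ_[(m : ℕ)]) ^ a)⁻¹ := by
      intro m hm
      show ldet (inc n l y) m / _ = _
      unfold ldet
      rw [inc_ne hm, Units.val_one, Matrix.det_one, one_div]
    have hs : ∀ m, ‖s m‖ = 1 := by
      intro m
      by_cases hm : m = l
      · subst hm
        rw [hsl, norm_div, det_norm_one hu, det_norm_one hv, div_one]
      · rw [hsm m hm, norm_inv, norm_pow, hlm m hm, one_pow, inv_one]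
    have hs' : ∀ m : Pr, ‖s m - 1‖ ≤ ((m : ℕ) : ℝ) ^ (-(N.factorization m : ℤ)) := by
      intro m
      by_cases hm : m = l
      · subst hm
        have h0 : N.factorization m = 0 := by
          apply Nat.factorization_eq_zero_of_not_dvd
          intro h
          have h1 : ((m : ℕ) : ℤ) ∣ (m : ℕ) - 1 := dvd_trans (by exact_mod_cast h) hl
          have h2 : ((m : ℕ) : ℤ) ∣ 1 := by
            have := dvd_sub (dvd_refl ((m : ℕ) : ℤ)) h1
            rwa [sub_sub_cancel] at this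
          have h3 := Int.eq_one_of_dvd_one (by positivity) h2
          exact m.2.one_lt.ne' (by exact_mod_cast h3)
        rw [h0]
        simp only [Nat.cast_zero, neg_zero, zpow_zero]
        exact norm_sub_le_one (hs m).le norm_one.le
      · have e : s m - 1 = (((l : ℕ) : ℚ_[(m : ℕ)]) ^ a)⁻¹ * (1 - ((l : ℕ) : ℚ_[(m : ℕ)]) ^ a) := by
          rw [hsm m hm, mul_sub, mul_one, inv_mul_cancel₀ (pow_ne_zero _ (hl0 m))]
        rw [e, norm_mul, norm_inv, norm_pow, hlm m hm, one_pow, inv_one, one_mul, ← norm_neg,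
          neg_sub]
        have h1 : ((m : ℕ) : ℤ) ^ (N.factorization m) ∣ (((l : ℕ) : ℤ) ^ a - 1) := by
          refine dvd_trans ?_ (dvd_trans hl (sub_one_dvd_pow_sub_one _ a))
          exact_mod_cast Nat.ordProj_dvd N m
        have h2 := (Padic.norm_int_le_pow_iff_dvd (p := (m : ℕ)) _ _).mpr h1
        push_cast at h2
        exact h2
    obtain ⟨γ, κ, hκ, e⟩ := same_class hN g (g * inc n l y) (((l : ℕ) : ℚ) ^ a) (by positivity) s
      hs hs' (by
        intro m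
        show ldet (g * inc n l y) m = _ * s m * ldet g m
        rw [ldet_mul]
        show _ = _ * (ldet (inc n l y) m / ((l : ℕ) : ℚ_[(m : ℕ)]) ^ a) * _
        push_cast
        rw [mul_div_cancel₀ _ (pow_ne_zero _ (hl0 m))]
        ring)
    rw [e, hK _ _ hκ, hG]
  unfold hecke
  rw [finsum_congr key]
  have : Fintype (HC n l (td n l k)) := Fintype.ofFinite _
  rw [finsum_eq_sum_of_fintype, Finset.sum_const, Finset.card_univ, Nat.card_eq_fintype_card]

end Pool.Agent.L0h47.CG
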