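import Pool.Agent.L0h47.CG.Class
import Pool.Agent.Helper460_CSP.Bls

/-!
# Cocycles with values in functions on adelic matrices
-/

set_option autoImplicit false

namespace Pool.Agent.L0h47.CG

open Matrix

variable {n : ℕ} {A : Type} [AddCommGroup A]

/-- one-cocycles with values in the functions on the adelic matrices -/
def IsCoc (c : GQ n → AG n → A) : Prop :=
  ∀ γ δ x, c (γ * δ) x = c γ x + c δ ((dg n γ)⁻¹ * x)

lemma IsCoc.one {c : GQ n → AG n → A} (h : IsCoc c) (x : AG n) : c 1 x = 0 := by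
  have := h 1 1 x
  rw [mul_one, map_one, inv_one, one_mul] at this
  exact left_eq_add.mp this

/-- **A cocycle that vanishes on the stabilisers of representatives of the double cosets is a
coboundary.** -/
theorem coc_cob {K' : Subgroup (AG n)} (σ : K' →* AddMonoid.End A) {c : GQ n → AG n → A}
    (hc : IsCoc c) (hσ : ∀ γ x (κ : K'), c γ (x * κ) = σ κ⁻¹ (c γ x)) (R : Set (AG n))
    (hR : ∀ x, ∃ γ, ∃ r ∈ R, ∃ κ : K', x = dg n γ * r * κ)
    (hR' : ∀ r ∈ R, ∀ r' ∈ R, ∀ γ, ∀ κ : K', r' = dg n γ * r * κ → r' = r)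
    (hz : ∀ r ∈ R, ∀ γ, ∀ κ : K', dg n γ * r = r * κ → c γ r = 0) :
    ∃ F : AG n → A, (∀ x (κ : K'), F (x * κ) = σ κ⁻¹ (F x)) ∧
      ∀ γ x, c γ x = F ((dg n γ)⁻¹ * x) - F x := by
  choose γ₀ r₀ hr₀ κ₀ h₀ using hR
  have hcomp : ∀ (a b : K') (y : A), σ a (σ b y) = σ (a * b) y := by
    intro a b y
    rw [map_mul]; rfl
  let F : AG n → A := fun x => σ (κ₀ x)⁻¹ (c (γ₀ x)⁻¹ (r₀ x))
  have key : ∀ x γ, ∀ r ∈ R, ∀ κ : K', x = dg n γ * r * κ → F x = σ κ⁻¹ (c γ⁻¹ r) := by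
    intro x γ r hr κ hx
    show σ (κ₀ x)⁻¹ (c (γ₀ x)⁻¹ (r₀ x)) = _
    have e1 := h₀ x
    have e2 : r = dg n (γ⁻¹ * γ₀ x) * r₀ x * ((κ₀ x * κ⁻¹ : K') : AG n) := by
      rw [map_mul, map_inv, Subgroup.coe_mul, Subgroup.coe_inv]
      have : dg n (γ₀ x) * r₀ x * (κ₀ x : AG n) = dg n γ * r * (κ : AG n) := by rw [← hx, ← e1]
      calc r = (dg n γ)⁻¹ * (dg n γ * r * (κ : AG n)) * (κ : AG n)⁻¹ := by group
        _ = _ := by rw [← this]; group
    have e3 : r = r₀ x := hR' _ (hr₀ x) _ hr _ _ e2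
    rw [← e3]
    set η := γ⁻¹ * γ₀ x with hη
    have e2' : r = dg n η * r * ((κ₀ x * κ⁻¹ : K') : AG n) := by
      rw [hη]
      conv_rhs => rw [e3]
      exact e2
    have e4 : dg n η * r = r * ((κ * (κ₀ x)⁻¹ : K') : AG n) := by
      calc dg n η * r = (dg n η * r * ((κ₀ x * κ⁻¹ : K') : AG n)) *
            ((κ₀ x * κ⁻¹ : K') : AG n)⁻¹ := by group
        _ = r * ((κ₀ x * κ⁻¹ : K') : AG n)⁻¹ := by rw [← e2']
        _ = _ := by rw [Subgroup.coe_mul, Subgroup.coe_mul, Subgroup.coe_inv, Subgroup.coe_inv]; group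
    have e5 : dg n η⁻¹ * r = r * ((κ₀ x * κ⁻¹ : K') : AG n) := by
      rw [map_inv, inv_mul_eq_iff_eq_mul, ← mul_assoc, e4, mul_assoc, ← Subgroup.coe_mul]
      have : κ * (κ₀ x)⁻¹ * (κ₀ x * κ⁻¹) = (1 : K') := by group
      rw [this, Subgroup.coe_one, mul_one]
    have e6 : (γ₀ x)⁻¹ = η⁻¹ * γ⁻¹ := by rw [hη]; group
    rw [e6, hc, hz r hr _ _ e5, zero_add]
    have e7 : (dg n η⁻¹)⁻¹ * r = r * ((κ * (κ₀ x)⁻¹ : K') : AG n) := by
      rw [map_inv, inv_inv, e4]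
    rw [e7, hσ, hcomp]
    congr 2
    group
  have hF : ∀ x (κ : K'), F (x * κ) = σ κ⁻¹ (F x) := by
    intro x κ
    rw [key (x * κ) (γ₀ x) (r₀ x) (hr₀ x) (κ₀ x * κ) (by
      rw [Subgroup.coe_mul, ← mul_assoc, ← h₀ x])]
    rw [_root_.mul_inv_rev, map_mul, AddMonoid.End.coe_mul]
    rfl
  refine ⟨F, hF, ?_⟩
  intro γ x
  have e1 : (dg n γ)⁻¹ * x = dg n (γ⁻¹ * γ₀ x) * r₀ x * (κ₀ x) := by
    conv_lhs => rw [h₀ x]
    rw [map_mul, map_inv]
    group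
  rw [key _ _ _ (hr₀ x) _ e1]
  have e2 : (γ⁻¹ * γ₀ x)⁻¹ = (γ₀ x)⁻¹ * γ := by group
  rw [e2, hc, map_add]
  show _ = _ - F x
  have e3 : (dg n (γ₀ x)⁻¹)⁻¹ * r₀ x = x * ((κ₀ x)⁻¹ : K') := by
    rw [map_inv, inv_inv, Subgroup.coe_inv]
    calc dg n (γ₀ x) * r₀ x = (dg n (γ₀ x) * r₀ x * (κ₀ x : AG n)) * (κ₀ x : AG n)⁻¹ := by group
      _ = _ := by rw [← h₀ x]
  rw [e3, hσ, hcomp, inv_inv, inv_mul_cancel, map_one]
  show _ = σ (κ₀ x)⁻¹ (c (γ₀ x)⁻¹ (r₀ x)) + c γ x - σ (κ₀ x)⁻¹ (c (γ₀ x)⁻¹ (r₀ x))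
  abel

/-- representatives of the double cosets -/
theorem exists_rep (K' : Subgroup (AG n)) : ∃ R : Set (AG n),
    (∀ x, ∃ γ, ∃ r ∈ R, ∃ κ : K', x = dg n γ * r * κ) ∧
    (∀ r ∈ R, ∀ r' ∈ R, ∀ γ, ∀ κ : K', r' = dg n γ * r * κ → r' = r) := by
  let s : Setoid (AG n) :=
    { r := fun x y => ∃ γ : GQ n, ∃ κ : K', y = dg n γ * x * κ
      iseqv := by
        refine ⟨fun x => ⟨1, 1, by simp⟩, ?_, ?_⟩
        · rintro x y ⟨γ, κ, rfl⟩
          refine ⟨γ⁻¹, κ⁻¹, ?_⟩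
          rw [map_inv, Subgroup.coe_inv]
          group
        · rintro x y z ⟨γ, κ, rfl⟩ ⟨γ', κ', rfl⟩
          refine ⟨γ' * γ, κ * κ', ?_⟩
          rw [map_mul, Subgroup.coe_mul]
          group }
  refine ⟨Set.range (Quotient.out : Quotient s → AG n), ?_, ?_⟩
  · intro x
    have h : s.r (Quotient.mk s x).out x := Quotient.exact (Quotient.out_eq _)
    obtain ⟨γ, κ, h⟩ := h
    exact ⟨γ, _, ⟨_, rfl⟩, κ, h⟩
  · rintro _ ⟨a, rfl⟩ _ ⟨b, rfl⟩ γ κ h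
    have h1 : s.r a.out b.out := ⟨γ, κ, h⟩
    have h2 : Quotient.mk s a.out = Quotient.mk s b.out := Quotient.sound h1
    rw [Quotient.out_eq, Quotient.out_eq] at h2
    rw [h2]

open Pool.Agent.Helper460_CSP in
/-- **Homomorphisms on congruence subgroups.** -/
theorem hom_vanish (hn : 3 ≤ n) {M w : ℕ} (hM : M ≠ 0) (hw0 : w ≠ 0)
    (φ : SpecialLinearGroup (Fin n) ℤ → A)
    (hφ : ∀ a b, Cgr (M : ℤ) a → Cgr (M : ℤ) b → φ (a * b) = φ a + φ b)
    (hw : ∀ a : A, w • a = 0) (a : SpecialLinearGroup (Fin n) ℤ) (ha : Cgr ((M * w : ℕ) : ℤ) a) :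
    φ a = 0 := by
  obtain ⟨m, rfl⟩ : ∃ m, n = m + 3 := ⟨n - 3, by omega⟩
  have h1 := bls (M := ((M * w : ℕ) : ℤ)) (by exact_mod_cast mul_ne_zero hM hw0) m a ha
  have hone : φ 1 = 0 := by
    have h2 : Cgr (M : ℤ) (1 : SpecialLinearGroup (Fin (m + 3)) ℤ) := by
      intro i j
      rw [mt_one, sub_self]
      exact dvd_zero _
    have := hφ 1 1 h2 h2
    rw [mul_one] at this
    exact left_eq_add.mp this
  have key : Cgr (M : ℤ) a ∧ φ a = 0 := by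
    clear ha
    unfold El Subgroup.normalClosure at h1
    induction h1 using Subgroup.closure_induction with
    | mem x hx =>
      rw [Group.mem_conjugatesOfSet_iff] at hx
      obtain ⟨y, ⟨i, j, h, rfl⟩, hconj⟩ := hx
      rw [isConj_iff] at hconj
      obtain ⟨g, rfl⟩ := hconj
      have e : tv i j h ((M * w : ℕ) : ℤ) = tv i j h (M : ℤ) ^ w := by
        push_cast
        rw [tv_mul_zpow, zpow_natCast]
      have hb : ∀ k : ℕ, Cgr (M : ℤ) ((g * tv i j h (M : ℤ) * g⁻¹) ^ k) := by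
        intro k
        rw [cgr_iff]
        apply Subgroup.pow_mem
        apply Subgroup.Normal.conj_mem inferInstance
        rw [← cgr_iff]
        exact El_cgr (tv_El i j h (dvd_refl _))
      have hpow : ∀ k : ℕ, φ ((g * tv i j h (M : ℤ) * g⁻¹) ^ k) =
          k • φ (g * tv i j h (M : ℤ) * g⁻¹) := by
        intro k
        induction k with
        | zero => rw [pow_zero, zero_smul]; exact hone
        | succ k ih =>
          rw [pow_succ, hφ _ _ (hb k) (by have := hb 1; rwa [pow_one] at this), ih, succ_nsmul]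
      rw [e, ← conj_pow]
      exact ⟨hb w, by rw [hpow, hw]⟩
    | one =>
      refine ⟨?_, hone⟩
      intro i j
      rw [mt_one, sub_self]
      exact dvd_zero _
    | mul x y _ _ hx hy =>
      exact ⟨hx.1.mul hy.1, by rw [hφ _ _ hx.1 hy.1, hx.2, hy.2, add_zero]⟩
    | inv x _ hx =>
      refine ⟨hx.1.inv, ?_⟩
      have := hφ _ _ hx.1 hx.1.inv
      rw [mul_inv_cancel, hone, hx.2, zero_add] at this
      exact this.symm
  exact key.2

/-- integral matrices -/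
def sZ : SpecialLinearGroup (Fin n) ℤ →* GQ n :=
  sQ.comp (SpecialLinearGroup.map (Int.castRingHom ℚ))

lemma sZ_entry (a : SpecialLinearGroup (Fin n) ℤ) (l : Pr) (i j : Fin n) :
    ((dg n (sZ a)).1 l).1 i j = ((mtr a i j : ℤ) : ℚ_[(l : ℕ)]) := by
  show ((algebraMap ℚ ℚ_[(l : ℕ)]) ((Int.castRingHom ℚ) (mtr a i j))) = _
  simp

lemma sZ_near (a : SpecialLinearGroup (Fin n) ℤ) (l : Pr) (r : ℕ) :
    Near n l r ((dg n (sZ a)).1 l) ↔
      ∀ i j, ((l : ℕ) : ℤ) ^ r ∣ mtr a i j - (1 : Matrix (Fin n) (Fin n) ℤ) i j := by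
  unfold Near
  apply forall_congr'; intro i
  apply forall_congr'; intro j
  rw [sZ_entry]
  have e : ((mtr a i j : ℤ) : ℚ_[(l : ℕ)]) - (1 : Matrix (Fin n) (Fin n) ℚ_[(l : ℕ)]) i j =
      ((mtr a i j - (1 : Matrix (Fin n) (Fin n) ℤ) i j : ℤ) : ℚ_[(l : ℕ)]) := by
    rw [Matrix.one_apply, Matrix.one_apply]
    split_ifs <;> push_cast <;> rfl
  rw [e, Padic.norm_int_le_pow_iff_dvd]

lemma sZ_U (a : SpecialLinearGroup (Fin n) ℤ) (l : Pr) : (dg n (sZ a)).1 l ∈ U n l := by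
  have key : ∀ a : SpecialLinearGroup (Fin n) ℤ, Bd ((dg n (sZ a)).1 l).1 1 := by
    intro a i j
    rw [sZ_entry]
    exact Padic.norm_int_le_one _
  refine mem_U.mpr ⟨key a, ?_⟩
  have := key a⁻¹
  rw [map_inv, map_inv] at this
  exact this

open Pool.Agent.Helper460_CSP in
lemma sZ_mem {N : ℕ} (hN : N ≠ 0) (a : SpecialLinearGroup (Fin n) ℤ) :
    dg n (sZ a) ∈ KN n N ↔ Cgr (N : ℤ) a := by
  have h1 : dg n (sZ a) ∈ KN n N ↔
      ∀ l : Pr, ∀ i j, ((l : ℕ) : ℤ) ^ (N.factorization l) ∣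
        mtr a i j - (1 : Matrix (Fin n) (Fin n) ℤ) i j := by
    constructor
    · intro h l
      exact (sZ_near a l _).mp (h l).2
    · intro h l
      exact ⟨sZ_U a l, (sZ_near a l _).mpr (h l)⟩
  rw [h1]
  constructor
  · intro h i j
    show (N : ℤ) ∣ mtr a i j - (1 : Matrix (Fin n) (Fin n) ℤ) i j
    rw [Int.natCast_dvd]
    by_cases h0 : (mtr a i j - (1 : Matrix (Fin n) (Fin n) ℤ) i j).natAbs = 0
    · rw [h0]; exact dvd_zero _
    · rw [← Nat.factorization_prime_le_iff_dvd hN h0]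
      intro q hq
      rw [← hq.pow_dvd_iff_le_factorization h0]
      have := h ⟨q, hq⟩ i j
      rw [← Int.natCast_dvd]
      push_cast
      exact this
  · intro h l i j
    have h2 : (N : ℤ) ∣ mtr a i j - (1 : Matrix (Fin n) (Fin n) ℤ) i j := h i j
    refine dvd_trans ?_ h2
    exact_mod_cast Nat.ordProj_dvd N l

lemma int_of_norm {q : ℚ} (h : ∀ l : Pr, ‖(q : ℚ_[(l : ℕ)])‖ ≤ 1) : ∃ z : ℤ, q = z := by
  have hden : q.den = 1 := by
    by_contra hne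
    obtain ⟨p, hp, hd⟩ := Nat.exists_prime_and_dvd hne
    have : Fact p.Prime := ⟨hp⟩
    have h1 := h ⟨p, hp⟩
    have h2 : (q : ℚ_[p]) * ((q.den : ℕ) : ℚ_[p]) = ((q.num : ℤ) : ℚ_[p]) := by
      exact_mod_cast congrArg (fun x : ℚ => (x : ℚ_[p])) (Rat.mul_den_eq_num q)
    have h3 : ‖((q.num : ℤ) : ℚ_[p])‖ < 1 := by
      rw [← h2, norm_mul]
      have h4 : ‖((q.den : ℕ) : ℚ_[p])‖ < 1 := by
        have := (Padic.norm_intCast_lt_one_iff (p := p) (k := (q.den : ℤ))).mpr (by exact_mod_cast hd)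
        exact_mod_cast this
      calc ‖(q : ℚ_[p])‖ * ‖((q.den : ℕ) : ℚ_[p])‖ ≤ 1 * ‖((q.den : ℕ) : ℚ_[p])‖ :=
            mul_le_mul_of_nonneg_right h1 (norm_nonneg _)
        _ < 1 := by rw [one_mul]; exact h4
    rw [Padic.norm_intCast_lt_one_iff] at h3
    have h5 : p ∣ q.num.natAbs := Int.natCast_dvd.mp h3
    have h6 := Nat.dvd_gcd h5 hd
    rw [q.reduced] at h6
    exact hp.one_lt.ne' (Nat.dvd_one.mp h6)
  exact ⟨q.num, (Rat.den_eq_one_iff q).mp hden |>.symm⟩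

lemma exists_sZ {γ : GQ n} (h : dg n γ ∈ KN n 1) : ∃ a, γ = sZ a := by
  rw [mem_KN_one] at h
  have hent : ∀ γ : GQ n, (∀ l, (dg n γ).1 l ∈ U n l) → ∀ i j, ∃ z : ℤ, γ.1.1 i j = z := by
    intro γ h i j
    apply int_of_norm
    intro l
    exact (h l).1 i j
  choose z hz using hent γ h
  choose z' hz' using hent γ⁻¹ (by
    intro l
    rw [map_inv]
    exact inv_mem (h l))
  let Z : Matrix (Fin n) (Fin n) ℤ := z
  let Z' : Matrix (Fin n) (Fin n) ℤ := z'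
  have e1 : γ.1.1 = Z.map (Int.castRingHom ℚ) := by
    ext i j
    exact hz i j
  have e2 : (γ⁻¹).1.1 = Z'.map (Int.castRingHom ℚ) := by
    ext i j
    exact hz' i j
  have hd : Z.det * Z'.det = 1 := by
    have h3 : (γ.1.1 * (γ⁻¹).1.1).det = 1 := by
      have : γ.1.1 * (γ⁻¹).1.1 = (γ * γ⁻¹).1.1 := rfl
      rw [this, mul_inv_cancel]
      exact Matrix.det_one
    rw [Matrix.det_mul, e1, e2, ← RingHom.mapMatrix_apply, ← RingHom.mapMatrix_apply,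
      ← RingHom.map_det, ← RingHom.map_det, ← map_mul, eq_intCast] at h3
    exact_mod_cast h3
  have hpos : 0 < Z.det := by
    have h3 : 0 < γ.1.1.det := γ.2
    rw [e1, ← RingHom.mapMatrix_apply, ← RingHom.map_det, eq_intCast] at h3
    exact_mod_cast h3
  have hone : Z.det = 1 := by
    rcases Int.isUnit_iff.mp (IsUnit.of_mul_eq_one _ hd) with e | e
    · exact e
    · omega
  refine ⟨⟨Z, hone⟩, ?_⟩
  apply Subtype.ext
  apply Units.ext
  exact e1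

/-- **Cocycles with torsion values become coboundaries at a deeper level.** -/
theorem tors_cob (hn : 3 ≤ n) {M w : ℕ} (hM : M ≠ 0) (hw0 : w ≠ 0) (hw : ∀ a : A, w • a = 0)
    {c : GQ n → AG n → A} (hc : IsCoc c) (hinv : ∀ γ x, ∀ κ ∈ KN n M, c γ (x * κ) = c γ x) :
    ∃ F : AG n → A, (∀ x, ∀ κ ∈ KN n (M * w), F (x * κ) = F x) ∧
      ∀ γ x, c γ x = F ((dg n γ)⁻¹ * x) - F x := by
  have : NeZero n := ⟨by omega⟩
  have hMw : M * w ≠ 0 := mul_ne_zero hM hw0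
  obtain ⟨R, hR, hR'⟩ := exists_rep (KN n (M * w))
  have hle : KN n (M * w) ≤ KN n M := KN_anti hMw (dvd_mul_right _ _)
  have hle1 : KN n M ≤ KN n 1 := KN_anti hM (one_dvd _)
  obtain ⟨F, hF, hF'⟩ := coc_cob (K' := KN n (M * w)) 1 hc (fun γ x κ => hinv γ x κ.1 (hle κ.2))
    R hR hR' (by
      intro r hr γ κ hγ
      obtain ⟨γ₀, u, hu, hru⟩ := class_one r
      let φ : SpecialLinearGroup (Fin n) ℤ → A := fun a => c (γ₀ * sZ a * γ₀⁻¹) r
      have hst : ∀ a, Pool.Agent.Helper460_CSP.Cgr (M : ℤ) a →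
          ∃ κ ∈ KN n M, (dg n (γ₀ * sZ a * γ₀⁻¹))⁻¹ * r = r * κ := by
        intro a ha
        rw [← sZ_mem hM] at ha
        refine ⟨u⁻¹ * (dg n (sZ a))⁻¹ * u, KN_conj hu (inv_mem ha), ?_⟩
        rw [hru, map_mul, map_mul, map_inv]
        group
      have h1 : φ = φ := rfl
      have hφ : ∀ a b, Pool.Agent.Helper460_CSP.Cgr (M : ℤ) a →
          Pool.Agent.Helper460_CSP.Cgr (M : ℤ) b → φ (a * b) = φ a + φ b := by
        intro a b ha hb
        show c (γ₀ * sZ (a * b) * γ₀⁻¹) r = _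
        have e : γ₀ * sZ (a * b) * γ₀⁻¹ = (γ₀ * sZ a * γ₀⁻¹) * (γ₀ * sZ b * γ₀⁻¹) := by
          rw [map_mul]; group
        rw [e, hc]
        obtain ⟨κ', hκ', e'⟩ := hst a ha
        rw [e', hinv _ _ _ hκ']
      have e3 : dg n (γ₀⁻¹ * γ * γ₀) = u * κ * u⁻¹ := by
        rw [hru] at hγ
        rw [map_mul, map_mul, map_inv]
        calc (dg n γ₀)⁻¹ * dg n γ * dg n γ₀ = (dg n γ₀)⁻¹ * (dg n γ * (dg n γ₀ * u)) * u⁻¹ := by group
          _ = _ := by rw [hγ]; group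
      have e4 : dg n (γ₀⁻¹ * γ * γ₀) ∈ KN n (M * w) := by
        rw [e3]
        have := KN_conj (N := M * w) (inv_mem hu) κ.2
        rwa [inv_inv] at this
      obtain ⟨a, ha⟩ := exists_sZ (hle1 (hle e4))
      rw [ha, sZ_mem hMw] at e4
      have := hom_vanish hn hM hw0 φ hφ hw a e4
      show c γ r = 0
      rw [← this]
      show _ = c (γ₀ * sZ a * γ₀⁻¹) r
      rw [← ha]
      congr 1
      group)
  exact ⟨F, fun x κ hκ => hF x ⟨κ, hκ⟩, hF'⟩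

end Pool.Agent.L0h47.CG
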