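import Pool.Agent.L0h47.CG.Defs

/-!
# Congruence subgroups of `GL_n(Z_l)`, finiteness of the double cosets
-/

set_option autoImplicit false

namespace Pool.Agent.L0h47.CG

open Matrix

variable {n : ℕ} {l : Pr}

/-- all entries are bounded -/
def Bd (A : Matrix (Fin n) (Fin n) ℚ_[(l : ℕ)]) (c : ℝ) : Prop := ∀ i j, ‖A i j‖ ≤ c

lemma Bd.mul {A B : Matrix (Fin n) (Fin n) ℚ_[(l : ℕ)]} {c d : ℝ} (hA : Bd A c) (hB : Bd B d)
    (hc : 0 ≤ c) (hd : 0 ≤ d) : Bd (A * B) (c * d) := by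
  intro i j
  rw [Matrix.mul_apply]
  apply IsUltrametricDist.norm_sum_le_of_forall_le_of_nonneg (mul_nonneg hc hd)
  intro k _
  rw [norm_mul]
  exact mul_le_mul (hA i k) (hB k j) (norm_nonneg _) hc

lemma Bd.add {A B : Matrix (Fin n) (Fin n) ℚ_[(l : ℕ)]} {c : ℝ} (hA : Bd A c) (hB : Bd B c) :
    Bd (A + B) c := by
  intro i j
  exact (IsUltrametricDist.norm_add_le_max _ _).trans (max_le (hA i j) (hB i j))

lemma Bd.neg {A : Matrix (Fin n) (Fin n) ℚ_[(l : ℕ)]} {c : ℝ} (hA : Bd A c) : Bd (-A) c := by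
  intro i j
  rw [Matrix.neg_apply, norm_neg]
  exact hA i j

lemma Bd.sub {A B : Matrix (Fin n) (Fin n) ℚ_[(l : ℕ)]} {c : ℝ} (hA : Bd A c) (hB : Bd B c) :
    Bd (A - B) c := by
  rw [sub_eq_add_neg]; exact hA.add hB.neg

lemma Bd.mono {A : Matrix (Fin n) (Fin n) ℚ_[(l : ℕ)]} {c d : ℝ} (hA : Bd A c) (h : c ≤ d) :
    Bd A d := fun i j => (hA i j).trans h

lemma Bd.one : Bd (1 : Matrix (Fin n) (Fin n) ℚ_[(l : ℕ)]) 1 := by
  intro i j
  rw [Matrix.one_apply]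
  split_ifs <;> simp

lemma mem_U {g : LG n l} : g ∈ U n l ↔ Bd g.1 1 ∧ Bd (g⁻¹).1 1 := Iff.rfl

lemma near_iff {r : ℕ} {g : LG n l} :
    Near n l r g ↔ Bd (g.1 - 1) (((l : ℕ) : ℝ) ^ (-(r : ℤ))) := Iff.rfl

lemma lr_pos (r : ℕ) : 0 < (((l : ℕ) : ℝ) ^ (-(r : ℤ))) := by
  have := l.2.pos
  positivity

lemma lr_le (r : ℕ) : (((l : ℕ) : ℝ) ^ (-(r : ℤ))) ≤ 1 := by
  apply zpow_le_one_of_nonpos₀
  · exact_mod_cast l.2.one_lt.le
  · omega

variable (n l) in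
/-- the principal congruence subgroup of level `l ^ r` -/
def Cg (r : ℕ) : Subgroup (LG n l) where
  carrier := {g | g ∈ U n l ∧ Near n l r g}
  one_mem' := by
    refine ⟨one_mem _, ?_⟩
    rw [near_iff]
    intro i j
    simp only [Units.val_one, sub_self, Matrix.zero_apply, norm_zero]
    exact (lr_pos r).le
  mul_mem' := by
    rintro a b ⟨ha, ha'⟩ ⟨hb, hb'⟩
    refine ⟨mul_mem ha hb, ?_⟩
    rw [near_iff] at *
    have h : (a * b).1 - 1 = a.1 * (b.1 - 1) + (a.1 - 1) := by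
      rw [Units.val_mul, Matrix.mul_sub, Matrix.mul_one]; abel
    rw [h]
    apply Bd.add _ ha'
    have := (mem_U.mp ha).1.mul hb' zero_le_one (lr_pos r).le
    rwa [one_mul] at this
  inv_mem' := by
    rintro a ⟨ha, ha'⟩
    refine ⟨inv_mem ha, ?_⟩
    rw [near_iff] at *
    have h : (a⁻¹).1 - 1 = -((a⁻¹).1 * (a.1 - 1)) := by
      rw [Matrix.mul_sub, Matrix.mul_one, ← Units.val_mul, inv_mul_cancel, Units.val_one]; abel
    rw [h]
    apply Bd.neg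
    have := (mem_U.mp ha).2.mul ha' zero_le_one (lr_pos r).le
    rwa [one_mul] at this

lemma exists_bd (A : Matrix (Fin n) (Fin n) ℚ_[(l : ℕ)]) :
    ∃ a : ℕ, Bd A (((l : ℕ) : ℝ) ^ (a : ℤ)) := by
  have h : ∀ i j, ∃ a : ℕ, ‖A i j‖ ≤ ((l : ℕ) : ℝ) ^ (a : ℤ) := by
    intro i j
    obtain ⟨a, ha⟩ := pow_unbounded_of_one_lt ‖A i j‖
      (show (1 : ℝ) < ((l : ℕ) : ℝ) by exact_mod_cast l.2.one_lt)
    exact ⟨a, by rw [zpow_natCast]; exact ha.le⟩
  choose a ha using h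
  refine ⟨∑ i, ∑ j, a i j, fun i j => (ha i j).trans ?_⟩
  apply zpow_le_zpow_right₀
  · exact_mod_cast l.2.one_lt.le
  · have h1 : a i j ≤ ∑ j, a i j := Finset.single_le_sum (fun _ _ => Nat.zero_le _) (Finset.mem_univ j)
    have h2 : ∑ j, a i j ≤ ∑ i, ∑ j, a i j :=
      Finset.single_le_sum (f := fun i => ∑ j, a i j) (fun _ _ => Nat.zero_le _) (Finset.mem_univ i)
    exact_mod_cast h1.trans h2

/-- conjugation moves deep congruence subgroups into congruence subgroups -/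
lemma exists_conj (x : LG n l) (s : ℕ) : ∃ r : ℕ, ∀ g ∈ Cg n l r, x⁻¹ * g * x ∈ Cg n l s := by
  obtain ⟨a, ha⟩ := exists_bd x.1
  obtain ⟨b, hb⟩ := exists_bd (x⁻¹).1
  have hl : (0 : ℝ) < ((l : ℕ) : ℝ) := by exact_mod_cast l.2.pos
  have key : ∀ g ∈ Cg n l (a + b + s), Near n l s (x⁻¹ * g * x) := by
    rintro g ⟨-, hg⟩
    rw [near_iff] at *
    have h : (x⁻¹ * g * x).1 - 1 = (x⁻¹).1 * (g.1 - 1) * x.1 := by
      rw [Units.val_mul, Units.val_mul, Matrix.mul_sub, Matrix.sub_mul, Matrix.mul_one,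
        ← Units.val_mul x⁻¹ x, inv_mul_cancel, Units.val_one]
    rw [h]
    have h1 := (hb.mul hg (by positivity) (by positivity)).mul ha (by positivity) (by positivity)
    apply h1.mono
    rw [← zpow_add₀ hl.ne', ← zpow_add₀ hl.ne']
    apply le_of_eq
    congr 1
    push_cast
    ring
  have hint : ∀ g ∈ Cg n l (a + b + s), Bd (x⁻¹ * g * x).1 1 := by
    intro g hg
    have h1 := key g hg
    rw [near_iff] at h1
    have h2 : (x⁻¹ * g * x).1 = ((x⁻¹ * g * x).1 - 1) + 1 := by abel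
    rw [h2]
    exact (h1.mono (lr_le s)).add Bd.one
  refine ⟨a + b + s, fun g hg => ⟨mem_U.mpr ⟨hint g hg, ?_⟩, key g hg⟩⟩
  have h3 := hint g⁻¹ (inv_mem hg)
  have h4 : (x⁻¹ * g * x)⁻¹ = x⁻¹ * g⁻¹ * x := by group
  rw [h4]; exact h3

/-- an integral matrix -/
def pin (g : U n l) : Matrix (Fin n) (Fin n) ℤ_[(l : ℕ)] := fun i j => ⟨g.1.1 i j, g.2.1 i j⟩

lemma coe_pin (g : U n l) (i j : Fin n) : ((pin g i j : ℤ_[(l : ℕ)]) : ℚ_[(l : ℕ)]) = g.1.1 i j := rfl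

/-- the reduction of an integral matrix -/
noncomputable def rd (r : ℕ) (g : U n l) : Matrix (Fin n) (Fin n) (ZMod ((l : ℕ) ^ r)) :=
  fun i j => PadicInt.toZModPow r (pin g i j)

lemma rd_eq {r : ℕ} {g h : U n l} (he : rd r g = rd r h) : (g⁻¹ * h).1 ∈ Cg n l r := by
  refine ⟨(g⁻¹ * h).2, ?_⟩
  rw [near_iff]
  have h1 : (g⁻¹ * h).1.1 - 1 = (g.1⁻¹).1 * (h.1.1 - g.1.1) := by
    rw [Matrix.mul_sub, ← Units.val_mul, ← Units.val_mul, inv_mul_cancel, Units.val_one]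
    rfl
  rw [h1]
  have h2 : Bd (h.1.1 - g.1.1) (((l : ℕ) : ℝ) ^ (-(r : ℤ))) := by
    intro i j
    have h3 := congrFun (congrFun he i) j
    unfold rd at h3
    have h4 : pin h i j - pin g i j ∈ RingHom.ker (PadicInt.toZModPow (p := (l : ℕ)) r) := by
      rw [RingHom.mem_ker, map_sub, ← h3, sub_self]
    rw [PadicInt.ker_toZModPow, ← PadicInt.norm_le_pow_iff_mem_span_pow] at h4
    exact h4
  have := (mem_U.mp g.2).2.mul h2 zero_le_one (lr_pos r).le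
  rwa [one_mul] at this

instance finite_HC (x : LG n l) : Finite (HC n l x) := by
  obtain ⟨r, hr⟩ := exists_conj x 0
  have hch : ∀ c : HC n l x, ∃ u : U n l, c.1 = ((u.1 * x : LG n l) : LG n l ⧸ U n l) := by
    rintro ⟨c, u, hu, hc⟩
    exact ⟨⟨u, hu⟩, hc⟩
  choose u hu using hch
  have : NeZero ((l : ℕ) ^ r) := ⟨pow_ne_zero _ l.2.ne_zero⟩
  apply Finite.of_injective (fun c => rd r (u c))
  intro c c' h
  have h1 := hr _ (rd_eq h)
  apply Subtype.ext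
  rw [hu c, hu c']
  rw [QuotientGroup.eq]
  have h2 : ((u c).1 * x)⁻¹ * ((u c').1 * x) = x⁻¹ * ((u c)⁻¹ * u c').1 * x := by
    simp only [Subgroup.coe_mul, Subgroup.coe_inv]; group
  rw [h2]
  exact h1.1

end Pool.Agent.L0h47.CG
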