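import Mathlib

/-!
# The number of subspaces of a vector space over a finite field modulo a divisor of `q - 1`
-/

set_option autoImplicit false

namespace Pool.Agent.L0h47.CG

open Module

variable {F : Type} [Field F] {n : ℕ}

/-- coordinate subspaces -/
def CS (S : Finset (Fin n)) : Submodule F (Fin n → F) where
  carrier := {v | ∀ i, i ∉ S → v i = 0}
  add_mem' := by
    intro v w hv hw i hi
    rw [Pi.add_apply, hv i hi, hw i hi, add_zero]
  zero_mem' := fun i _ => rfl
  smul_mem' := by
    intro c v hv i hi
    rw [Pi.smul_apply, hv i hi, smul_zero]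

lemma mem_CS {S : Finset (Fin n)} {v : Fin n → F} : v ∈ CS S ↔ ∀ i, i ∉ S → v i = 0 := Iff.rfl

lemma finrank_CS (S : Finset (Fin n)) : finrank F (CS (F := F) S) = S.card := by
  let f : CS (F := F) S →ₗ[F] (S → F) :=
    { toFun v i := v.1 i.1
      map_add' v w := rfl
      map_smul' c v := rfl }
  have hf : Function.Bijective f := by
    constructor
    · rw [injective_iff_map_eq_zero]
      intro v hv
      apply Subtype.ext
      funext i
      by_cases hi : i ∈ S
      · exact congrFun hv ⟨i, hi⟩
      · exact v.2 i hi
    · intro w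
      classical
      refine ⟨⟨fun i => if h : i ∈ S then w ⟨i, h⟩ else 0, ?_⟩, ?_⟩
      · intro i hi
        show (if h : i ∈ S then w ⟨i, h⟩ else 0) = 0
        rw [dif_neg hi]
      · funext i
        show (if h : i.1 ∈ S then w ⟨i.1, h⟩ else 0) = w i
        rw [dif_pos i.2]
  rw [(LinearEquiv.ofBijective f hf).finrank_eq, finrank_pi]
  simp

/-- diagonal automorphisms -/
def dE (t : Fin n → Fˣ) : (Fin n → F) ≃ₗ[F] (Fin n → F) :=
  LinearEquiv.piCongrRight (fun i => LinearEquiv.smulOfUnit (t i))

lemma dE_apply (t : Fin n → Fˣ) (v : Fin n → F) (i : Fin n) : dE t v i = (t i : F) * v i := rfl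

/-- the torsion of the torus acts on the subspaces of a given dimension -/
instance subAct (H : Subgroup Fˣ) (d : ℕ) :
    MulAction (Fin n → H) {V : Submodule F (Fin n → F) // finrank F V = d} where
  smul t V := ⟨V.1.map (dE (fun i => (t i).1)).toLinearMap, by
    have h : finrank F (V.1.map (dE (fun i => (t i).1)).toLinearMap) = finrank F V.1 :=
      LinearEquiv.finrank_map_eq _ _
    rw [h]; exact V.2⟩
  one_smul V := by
    apply Subtype.ext
    show V.1.map (dE (fun i => ((1 : Fin n → H) i).1)).toLinearMap = V.1
    have : (dE (fun i => ((1 : Fin n → H) i).1)).toLinearMap = (LinearMap.id : (Fin n → F) →ₗ[F] _) := by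
      apply LinearMap.ext
      intro v
      funext i
      show ((1 : Fˣ) : F) * v i = v i
      rw [Units.val_one, one_mul]
    rw [this, Submodule.map_id]
  mul_smul s t V := by
    apply Subtype.ext
    show V.1.map (dE (fun i => ((s * t) i).1)).toLinearMap =
      (V.1.map (dE (fun i => (t i).1)).toLinearMap).map (dE (fun i => (s i).1)).toLinearMap
    rw [← Submodule.map_comp]
    congr 1
    apply LinearMap.ext
    intro v
    funext i
    show (((s i).1 * (t i).1 : Fˣ) : F) * v i = ((s i).1 : F) * (((t i).1 : F) * v i)
    rw [Units.val_mul, mul_assoc]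

lemma smul_coe {H : Subgroup Fˣ} {d : ℕ} (t : Fin n → H)
    (V : {V : Submodule F (Fin n → F) // finrank F V = d}) :
    (t • V).1 = V.1.map (dE (fun i => (t i).1)).toLinearMap := rfl

theorem card_subspaces [Finite F] {p : ℕ} [Fact p.Prime] {ζ : Fˣ} (hζ : orderOf ζ = p) (d : ℕ) :
    Nat.card {V : Submodule F (Fin n → F) // finrank F V = d} ≡ n.choose d [MOD p] := by
  have hζp : ∀ x : Subgroup.zpowers ζ, x ^ p = 1 := by
    rintro ⟨x, k, rfl⟩
    apply Subtype.ext
    show (ζ ^ k) ^ p = 1
    rw [← zpow_natCast, ← zpow_mul, mul_comm, zpow_mul, zpow_natCast, ← hζ, pow_orderOf_eq_one,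
      one_zpow]
  have hP : IsPGroup p (Fin n → Subgroup.zpowers ζ) := by
    intro t
    refine ⟨1, ?_⟩
    rw [pow_one]
    funext i
    exact hζp (t i)
  have hζ1 : (ζ : F) - 1 ≠ 0 := by
    intro h
    have h1 : ζ = 1 := Units.ext (by rw [Units.val_one]; exact sub_eq_zero.mp h)
    rw [h1, orderOf_one] at hζ
    exact (Fact.out (p := p.Prime)).one_lt.ne hζ
  have hfin : Finite {V : Submodule F (Fin n → F) // finrank F V = d} := by
    have : Finite (Submodule F (Fin n → F)) :=
      Finite.of_injective (fun V : Submodule F (Fin n → F) => (V : Set (Fin n → F)))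
        SetLike.coe_injective
    exact Subtype.finite
  refine (hP.card_modEq_card_fixedPoints _).trans ?_
  have hcard : Nat.card (MulAction.fixedPoints (Fin n → Subgroup.zpowers ζ)
      {V : Submodule F (Fin n → F) // finrank F V = d}) = n.choose d := by
    have e : Nat.card {S : Finset (Fin n) // S.card = d} = n.choose d := by
      rw [Nat.card_eq_fintype_card, Fintype.card_finset_len, Fintype.card_fin]
    rw [← e]
    symm
    have hfix : ∀ S : Finset (Fin n), ∀ t : Fin n → Subgroup.zpowers ζ,
        (CS (F := F) S).map (dE (fun i => (t i).1)).toLinearMap = CS S := by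
      intro S t
      apply le_antisymm
      · rintro _ ⟨v, hv, rfl⟩ i hi
        show ((t i).1 : F) * v i = 0
        rw [hv i hi, mul_zero]
      · intro v hv
        refine ⟨fun i => (((t i).1⁻¹ : Fˣ) : F) * v i, ?_, ?_⟩
        · intro i hi
          show (((t i).1⁻¹ : Fˣ) : F) * v i = 0
          rw [hv i hi, mul_zero]
        · funext i
          show ((t i).1 : F) * ((((t i).1⁻¹ : Fˣ) : F) * v i) = v i
          rw [← mul_assoc, ← Units.val_mul, mul_inv_cancel, Units.val_one, one_mul]
    apply Nat.card_congr
    apply Equiv.ofBijective (fun S : {S : Finset (Fin n) // S.card = d} =>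
      (⟨⟨CS S.1, by rw [finrank_CS, S.2]⟩, fun t => Subtype.ext (hfix S.1 t)⟩ :
        MulAction.fixedPoints (Fin n → Subgroup.zpowers ζ)
          {V : Submodule F (Fin n → F) // finrank F V = d}))
    classical
    constructor
    · intro S S' h
      have h1 : CS (F := F) S.1 = CS S'.1 := congrArg (fun x => x.1.1) h
      apply Subtype.ext
      have key : ∀ (S : Finset (Fin n)) (i : Fin n), i ∈ S ↔ Pi.single i (1 : F) ∈ CS (F := F) S := by
        intro S i
        constructor
        · intro hi j hj
          rw [Pi.single_eq_of_ne]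
          rintro rfl
          exact hj hi
        · intro h
          by_contra hi
          have := h i hi
          rw [Pi.single_eq_same] at this
          exact one_ne_zero this
      ext i
      rw [key, key, h1]
    · rintro ⟨⟨V, hV⟩, hfV⟩
      have h1 : ∀ t : Fin n → Subgroup.zpowers ζ, ∀ v ∈ V, dE (fun i => (t i).1) v ∈ V := by
        intro t v hv
        have h2 := congrArg (fun x => x.1) (hfV t)
        rw [smul_coe] at h2
        have h3 : dE (fun i => (t i).1) v ∈ V.map (dE (fun i => (t i).1)).toLinearMap :=
          ⟨v, hv, rfl⟩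
        simp only at h2
        rw [h2] at h3
        exact h3
      have h2 : ∀ v ∈ V, ∀ i, v i ≠ 0 → Pi.single i (1 : F) ∈ V := by
        intro v hv i hi
        have h3 := V.sub_mem (h1 (Function.update 1 i ⟨ζ, Subgroup.mem_zpowers ζ⟩) v hv) hv
        have h4 := V.smul_mem (((ζ : F) - 1) * v i)⁻¹ h3
        convert h4 using 1
        funext j
        rw [Pi.smul_apply, Pi.sub_apply, dE_apply]
        by_cases hj : j = i
        · subst hj
          rw [Pi.single_eq_same, Function.update_self]
          show 1 = (((ζ : F) - 1) * v j)⁻¹ • ((ζ : F) * v j - v j)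
          rw [smul_eq_mul]
          have : (ζ : F) * v j - v j = ((ζ : F) - 1) * v j := by ring
          rw [this, inv_mul_cancel₀ (mul_ne_zero hζ1 hi)]
        · rw [Pi.single_eq_of_ne hj, Function.update_of_ne hj]
          show 0 = (((ζ : F) - 1) * v i)⁻¹ • (((1 : Fˣ) : F) * v j - v j)
          rw [Units.val_one, one_mul, sub_self, smul_zero]
      let S : Finset (Fin n) := Finset.univ.filter (fun i => Pi.single i (1 : F) ∈ V)
      have hVS : V = CS S := by
        apply le_antisymm
        · intro v hv i hi
          by_contra h3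
          apply hi
          rw [Finset.mem_filter]
          exact ⟨Finset.mem_univ _, h2 v hv i h3⟩
        · intro v hv
          have h3 : v = ∑ i, v i • (Pi.single i (1 : F) : Fin n → F) := by
            funext j
            rw [Finset.sum_apply]
            simp [Pi.single_apply]
          rw [h3]
          apply V.sum_mem
          intro i _
          by_cases hi : i ∈ S
          · exact V.smul_mem _ (Finset.mem_filter.mp hi).2
          · rw [hv i hi, zero_smul]
            exact V.zero_mem
      refine ⟨⟨S, ?_⟩, ?_⟩
      · rw [← finrank_CS (F := F), ← hVS, hV]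
      · apply Subtype.ext
        apply Subtype.ext
        exact hVS.symm
  rw [hcard]

end Pool.Agent.L0h47.CG
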