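import Pool.Agent.L0h47.CG.Low
import Pool.Agent.L0h47.CG.Subsp

/-!
# The degrees of the Hecke operators modulo a divisor of `l - 1`
-/

set_option autoImplicit false

namespace Pool.Agent.L0h47.CG

open Matrix Module

variable {n : ℕ} {l : Pr}

lemma pin_mul (g h : U n l) : pin (g * h) = pin g * pin h := by
  ext i j
  rw [Matrix.mul_apply]
  apply PadicInt.ext
  rw [PadicInt.coe_sum]
  show ((g.1 * h.1 : LG n l)).1 i j = _
  rw [Units.val_mul, Matrix.mul_apply]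
  apply Finset.sum_congr rfl
  intro k _
  rw [PadicInt.coe_mul, coe_pin, coe_pin]

lemma pin_one : pin (1 : U n l) = 1 := by
  ext i j
  apply PadicInt.ext
  show (1 : Matrix (Fin n) (Fin n) ℚ_[(l : ℕ)]) i j = _
  rw [Matrix.one_apply, Matrix.one_apply]
  split_ifs <;> simp

/-- reduction modulo `l` -/
noncomputable def red (g : U n l) : Matrix (Fin n) (Fin n) (ZMod (l : ℕ)) :=
  (pin g).map (PadicInt.toZMod (p := (l : ℕ)))

lemma red_mul (g h : U n l) : red (g * h) = red g * red h := by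
  unfold red
  rw [pin_mul, Matrix.map_mul]

lemma red_one : red (1 : U n l) = 1 := by
  unfold red
  rw [pin_one, Matrix.map_one _ (map_zero _) (map_one _)]

lemma red_zero_iff (g : U n l) (a b : Fin n) :
    red g a b = 0 ↔ ‖g.1.1 a b‖ ≤ (((l : ℕ) : ℝ))⁻¹ := by
  have h1 : red g a b = 0 ↔ pin g a b ∈ RingHom.ker (PadicInt.toZMod (p := (l : ℕ))) := by
    rw [RingHom.mem_ker]; rfl
  rw [h1, PadicInt.ker_toZMod, PadicInt.maximalIdeal_eq_span_p]
  have h2 := PadicInt.norm_le_pow_iff_mem_span_pow (p := (l : ℕ)) (pin g a b) 1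
  rw [pow_one] at h2
  rw [← h2]
  have e : (((l : ℕ) : ℝ)) ^ (-((1 : ℕ) : ℤ)) = (((l : ℕ) : ℝ))⁻¹ := by
    rw [Nat.cast_one, _root_.zpow_neg, zpow_one]
  rw [e]
  rfl

/-- the diagonal entries -/
noncomputable def xa (l : Pr) (j : ℕ) (a : Fin n) : ℚ_[(l : ℕ)] :=
  if (a : ℕ) < j then ((l : ℕ) : ℚ_[(l : ℕ)]) else 1

lemma conj_entry (w : LG n l) (j : ℕ) (a b : Fin n) :
    ((td n l j)⁻¹ * w * td n l j).1 a b = (xa l j a)⁻¹ * w.1 a b * xa l j b := by
  have e1 : ((td n l j)⁻¹).1 = diagonal (fun a => (xa l j a)⁻¹) := by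
    show diagonal (fun i : Fin n => if (i : ℕ) < j then (((l : ℕ) : ℚ_[(l : ℕ)]))⁻¹ else 1) = _
    congr 1
    funext i
    unfold xa
    split_ifs
    · rfl
    · rw [inv_one]
  have e2 : (td n l j).1 = diagonal (xa l j) := rfl
  rw [Units.val_mul, Units.val_mul, e1, e2, mul_diagonal, diagonal_mul]

lemma norm_l (l : Pr) : ‖((l : ℕ) : ℚ_[(l : ℕ)])‖ = (((l : ℕ) : ℝ))⁻¹ := Padic.norm_p

lemma linv_le (l : Pr) : (((l : ℕ) : ℝ))⁻¹ ≤ 1 := by
  apply inv_le_one_of_one_le₀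
  exact_mod_cast l.2.one_lt.le

lemma lpos (l : Pr) : (0 : ℝ) < ((l : ℕ) : ℝ) := by exact_mod_cast l.2.pos

lemma conj_bd (w : U n l) (j : ℕ) : Bd ((td n l j)⁻¹ * w.1 * td n l j).1 1 ↔
    ∀ a b : Fin n, (a : ℕ) < j → j ≤ (b : ℕ) → red w a b = 0 := by
  constructor
  · intro h a b ha hb
    have h1 := h a b
    rw [conj_entry] at h1
    unfold xa at h1
    rw [if_pos ha, if_neg (not_lt.mpr hb), mul_one, norm_mul, norm_inv, norm_l, inv_inv] at h1
    rw [red_zero_iff]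
    rwa [← mul_le_mul_iff_right₀ (lpos l), mul_inv_cancel₀ (lpos l).ne']
  · intro h a b
    rw [conj_entry]
    unfold xa
    have hw := w.2.1 a b
    have hl0 : ((l : ℕ) : ℚ_[(l : ℕ)]) ≠ 0 := by exact_mod_cast l.2.ne_zero
    split_ifs with ha hb hb
    · rw [mul_comm, ← mul_assoc, mul_inv_cancel₀ hl0, one_mul]; exact hw
    · rw [mul_one, norm_mul, norm_inv, norm_l, inv_inv]
      have h1 := (red_zero_iff w a b).mp (h a b ha (not_lt.mp hb))
      calc ((l : ℕ) : ℝ) * ‖w.1.1 a b‖ ≤ ((l : ℕ) : ℝ) * (((l : ℕ) : ℝ))⁻¹ :=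
            mul_le_mul_of_nonneg_left h1 (lpos l).le
        _ = 1 := mul_inv_cancel₀ (lpos l).ne'
    · rw [inv_one, one_mul, norm_mul, norm_l]
      exact mul_le_one₀ hw (inv_nonneg.mpr (lpos l).le) (linv_le l)
    · rw [inv_one, one_mul, mul_one]; exact hw

/-- the indices from `j` on -/
def Sj (n j : ℕ) : Finset (Fin n) := Finset.univ.filter (fun i => j ≤ (i : ℕ))

lemma mem_Sj {j : ℕ} {i : Fin n} : i ∈ Sj n j ↔ j ≤ (i : ℕ) := by
  unfold Sj; simp

lemma card_Sj {j : ℕ} : (Sj n j).card = n - j := by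
  have h : (Sj n j).card = (Finset.Ico j n).card := by
    apply Finset.card_bij (fun (i : Fin n) _ => (i : ℕ))
    · intro i hi
      rw [Finset.mem_Ico]
      exact ⟨mem_Sj.mp hi, i.2⟩
    · intro a _ b _ h
      exact Fin.ext h
    · intro b hb
      rw [Finset.mem_Ico] at hb
      exact ⟨⟨b, hb.2⟩, mem_Sj.mpr hb.1, rfl⟩
  rw [h, Nat.card_Ico]

/-- the linear map of a reduction -/
noncomputable def Mr (w : U n l) : (Fin n → ZMod (l : ℕ)) →ₗ[ZMod (l : ℕ)] (Fin n → ZMod (l : ℕ)) :=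
  Matrix.toLin' (red w)

lemma Mr_mul (g h : U n l) : Mr (g * h) = Mr g ∘ₗ Mr h := by
  unfold Mr
  rw [red_mul, Matrix.toLin'_mul]

lemma Mr_one : Mr (1 : U n l) = LinearMap.id := by
  unfold Mr
  rw [red_one, Matrix.toLin'_one]

lemma Mr_preserve (w : U n l) (j : ℕ) :
    (CS (Sj n j)).map (Mr w) ≤ CS (Sj n j) ↔
      ∀ a b : Fin n, (a : ℕ) < j → j ≤ (b : ℕ) → red w a b = 0 := by
  constructor
  · intro h a b ha hb
    have h1 : Mr w (Pi.single b 1) ∈ CS (Sj n j) := by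
      apply h
      refine ⟨_, ?_, rfl⟩
      intro i hi
      rw [Pi.single_eq_of_ne]
      rintro rfl
      exact hi (mem_Sj.mpr hb)
    have h2 := h1 a (fun h => absurd (mem_Sj.mp h) (not_le.mpr ha))
    unfold Mr at h2
    rw [Matrix.toLin'_apply, Matrix.mulVec_single_one] at h2
    exact h2
  · intro h
    rintro _ ⟨v, hv, rfl⟩ a ha
    rw [mem_Sj, not_le] at ha
    unfold Mr
    rw [Matrix.toLin'_apply]
    show ∑ b, red w a b * v b = 0
    apply Finset.sum_eq_zero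
    intro b _
    by_cases hb : j ≤ (b : ℕ)
    · rw [h a b ha hb, zero_mul]
    · rw [hv b (fun h => hb (mem_Sj.mp h)), mul_zero]

lemma Mr_inv_map (u : U n l) (V : Submodule (ZMod (l : ℕ)) (Fin n → ZMod (l : ℕ))) :
    (V.map (Mr u)).map (Mr u⁻¹) = V := by
  rw [← Submodule.map_comp, ← Mr_mul, inv_mul_cancel, Mr_one, Submodule.map_id]

lemma Mr_map_inv (u : U n l) (V : Submodule (ZMod (l : ℕ)) (Fin n → ZMod (l : ℕ))) :
    (V.map (Mr u⁻¹)).map (Mr u) = V := by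
  rw [← Submodule.map_comp, ← Mr_mul, mul_inv_cancel, Mr_one, Submodule.map_id]

lemma stab_iff (w : U n l) (j : ℕ) : (CS (Sj n j)).map (Mr w) = CS (Sj n j) ↔
    (td n l j)⁻¹ * w.1 * td n l j ∈ U n l := by
  have e : ((td n l j)⁻¹ * w.1 * td n l j)⁻¹ = (td n l j)⁻¹ * (w⁻¹).1 * td n l j := by
    rw [Subgroup.coe_inv]; group
  rw [mem_U, e, conj_bd, conj_bd, ← Mr_preserve, ← Mr_preserve]
  constructor
  · intro h
    refine ⟨h.le, ?_⟩
    have := Mr_inv_map w (CS (Sj n j))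
    rw [h] at this
    exact this.le
  · rintro ⟨h1, h2⟩
    apply le_antisymm h1
    have h3 := Submodule.map_mono (f := Mr w) h2
    rwa [Mr_map_inv] at h3

lemma coset_iff (u u' : U n l) (j : ℕ) :
    (CS (Sj n j)).map (Mr u) = (CS (Sj n j)).map (Mr u') ↔
      ((u.1 * td n l j : LG n l) : LG n l ⧸ U n l) = ((u'.1 * td n l j : LG n l) : LG n l ⧸ U n l) := by
  rw [QuotientGroup.eq]
  have e : (u.1 * td n l j)⁻¹ * (u'.1 * td n l j) = (td n l j)⁻¹ * (u⁻¹ * u').1 * td n l j := by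
    rw [Subgroup.coe_mul, Subgroup.coe_inv]; group
  rw [e, ← stab_iff, Mr_mul, Submodule.map_comp]
  constructor
  · intro h
    rw [← h, Mr_inv_map]
  · intro h
    have := congrArg (Submodule.map (Mr u)) h
    rw [Mr_map_inv] at this
    exact this.symm

lemma exists_lift (G : Matrix (Fin n) (Fin n) (ZMod (l : ℕ))) (hG : G.det ≠ 0) :
    ∃ u : U n l, red u = G := by
  let Z : Matrix (Fin n) (Fin n) ℤ_[(l : ℕ)] := G.map (fun a => ((a.val : ℕ) : ℤ_[(l : ℕ)]))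
  have hZ : Z.map (PadicInt.toZMod (p := (l : ℕ))) = G := by
    ext i j
    show PadicInt.toZMod (((G i j).val : ℕ) : ℤ_[(l : ℕ)]) = G i j
    rw [map_natCast, ZMod.natCast_zmod_val]
  have hdet : IsUnit Z.det := by
    by_contra h
    have h1 : Z.det ∈ IsLocalRing.maximalIdeal ℤ_[(l : ℕ)] := h
    rw [← PadicInt.ker_toZMod, RingHom.mem_ker, RingHom.map_det, RingHom.mapMatrix_apply, hZ] at h1
    exact hG h1
  have h1 : Z * Z⁻¹ = 1 := Matrix.mul_nonsing_inv Z hdet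
  have h2 : Z⁻¹ * Z = 1 := Matrix.nonsing_inv_mul Z hdet
  let c : ℤ_[(l : ℕ)] →+* ℚ_[(l : ℕ)] := PadicInt.Coe.ringHom
  let g : LG n l := ⟨Z.map c, (Z⁻¹).map c, by
    rw [← Matrix.map_mul, h1, Matrix.map_one _ (map_zero _) (map_one _)], by
    rw [← Matrix.map_mul, h2, Matrix.map_one _ (map_zero _) (map_one _)]⟩
  have hg : g ∈ U n l := by
    refine ⟨fun i j => ?_, fun i j => ?_⟩
    · exact PadicInt.norm_le_one (Z i j)
    · exact PadicInt.norm_le_one (Z⁻¹ i j)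
  refine ⟨⟨g, hg⟩, ?_⟩
  rw [← hZ]
  rfl

/-- **The cosets in the double coset of `diag(l, …, l, 1, …, 1)` are the subspaces.** -/
theorem deg_eq (n : ℕ) (l : Pr) (j : ℕ) :
    deg n l j = Nat.card {V : Submodule (ZMod (l : ℕ)) (Fin n → ZMod (l : ℕ)) //
      finrank (ZMod (l : ℕ)) V = n - j} := by
  unfold deg
  have hch : ∀ c : HC n l (td n l j), ∃ u : U n l,
      c.1 = ((u.1 * td n l j : LG n l) : LG n l ⧸ U n l) := by
    rintro ⟨c, u, hu, hc⟩
    exact ⟨⟨u, hu⟩, hc⟩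
  choose u hu using hch
  have hrank : ∀ w : U n l, finrank (ZMod (l : ℕ)) ((CS (Sj n j)).map (Mr w)) = n - j := by
    intro w
    rw [← card_Sj (n := n) (j := j), ← finrank_CS (F := ZMod (l : ℕ)) (Sj n j)]
    let e : (Fin n → ZMod (l : ℕ)) ≃ₗ[ZMod (l : ℕ)] (Fin n → ZMod (l : ℕ)) :=
      LinearEquiv.ofLinearMap (Mr w) (Mr w⁻¹) (by rw [← Mr_mul, mul_inv_cancel, Mr_one])
        (by rw [← Mr_mul, inv_mul_cancel, Mr_one])
    exact LinearEquiv.finrank_map_eq e _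
  apply Nat.card_congr
  apply Equiv.ofBijective (fun c : HC n l (td n l j) =>
    (⟨(CS (Sj n j)).map (Mr (u c)), hrank _⟩ :
      {V : Submodule (ZMod (l : ℕ)) (Fin n → ZMod (l : ℕ)) // finrank (ZMod (l : ℕ)) V = n - j}))
  constructor
  · intro c c' h
    apply Subtype.ext
    rw [hu c, hu c', ← coset_iff]
    exact congrArg Subtype.val h
  · rintro ⟨V, hV⟩
    have h1 : finrank (ZMod (l : ℕ)) (CS (F := ZMod (l : ℕ)) (Sj n j)) = finrank (ZMod (l : ℕ)) V := by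
      rw [finrank_CS, card_Sj, hV]
    obtain ⟨g, hg⟩ := Submodule.exists_linearEquiv_restrict_eq (LinearEquiv.ofFinrankEq _ _ h1)
    have hgV : (CS (F := ZMod (l : ℕ)) (Sj n j)).map g.toLinearMap = V := by
      ext v
      constructor
      · rintro ⟨w, hw, rfl⟩
        show g w ∈ V
        rw [← hg ⟨w, hw⟩]
        exact Subtype.coe_prop _
      · intro hv
        obtain ⟨w, hw⟩ := (LinearEquiv.ofFinrankEq _ _ h1).surjective ⟨v, hv⟩
        refine ⟨w.1, w.2, ?_⟩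
        show g w = v
        rw [← hg w, hw]
    have hdet : (LinearMap.toMatrix' g.toLinearMap).det ≠ 0 := by
      rw [LinearMap.det_toMatrix']
      exact (LinearEquiv.isUnit_det' g).ne_zero
    obtain ⟨w, hw⟩ := exists_lift _ hdet
    have hMw : Mr w = g.toLinearMap := by
      unfold Mr
      rw [hw, Matrix.toLin'_toMatrix']
    refine ⟨⟨((w.1 * td n l j : LG n l) : LG n l ⧸ U n l), w.1, w.2, rfl⟩, ?_⟩
    apply Subtype.ext
    show (CS (Sj n j)).map (Mr (u _)) = V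
    rw [← hgV, ← hMw, coset_iff]
    exact (hu _).symm

theorem deg_mod (n : ℕ) (l p : Pr) {j : ℕ} (hj : j ≤ n) (hp : ((p : ℕ) : ℤ) ∣ (l : ℕ) - 1) :
    deg n l j ≡ n.choose j [MOD (p : ℕ)] := by
  have hcard : (p : ℕ) ∣ Fintype.card (ZMod (l : ℕ))ˣ := by
    rw [ZMod.card_units]
    have h1 : (((l : ℕ) - 1 : ℕ) : ℤ) = ((l : ℕ) : ℤ) - 1 := by
      rw [Nat.cast_sub l.2.one_lt.le, Nat.cast_one]
    rw [← h1] at hp
    exact_mod_cast hp
  obtain ⟨ζ, hζ⟩ := exists_prime_orderOf_dvd_card (p : ℕ) hcard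
  rw [deg_eq n l j, ← Nat.choose_symm hj]
  exact card_subspaces hζ (n - j)

end Pool.Agent.L0h47.CG
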