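import Mathlib

/-!
# The finite adelic points of `GL_n`, levels, coefficients and Hecke operators
-/

set_option autoImplicit false

namespace Pool.Agent.L0h47.CG

open Matrix

/-- the prime numbers -/
abbrev Pr := {l : ℕ // l.Prime}

instance instFactPr (l : Pr) : Fact (l : ℕ).Prime := ⟨l.2⟩

variable (n : ℕ)

/-- `GL_n(Q_l)` -/
abbrev LG (l : Pr) := GL (Fin n) ℚ_[(l : ℕ)]

lemma norm_mul_entry {l : Pr} {A B : Matrix (Fin n) (Fin n) ℚ_[(l : ℕ)]}
    (hA : ∀ i j, ‖A i j‖ ≤ 1) (hB : ∀ i j, ‖B i j‖ ≤ 1) (i j : Fin n) : ‖(A * B) i j‖ ≤ 1 := by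
  rw [Matrix.mul_apply]
  apply IsUltrametricDist.norm_sum_le_of_forall_le_of_nonneg zero_le_one
  intro k _
  rw [norm_mul]
  exact mul_le_one₀ (hA i k) (norm_nonneg _) (hB k j)

/-- `GL_n(Z_l)`: the matrices `g` such that all entries of `g` and of `g⁻¹` are `l`-adic
integers. -/
def U (l : Pr) : Subgroup (LG n l) where
  carrier := {g | (∀ i j, ‖g.1 i j‖ ≤ 1) ∧ ∀ i j, ‖(g⁻¹).1 i j‖ ≤ 1}
  one_mem' := by
    have h : ∀ i j : Fin n, ‖(1 : Matrix (Fin n) (Fin n) ℚ_[(l : ℕ)]) i j‖ ≤ 1 := by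
      intro i j
      rw [Matrix.one_apply]
      split_ifs <;> simp
    exact ⟨h, by rw [inv_one]; exact h⟩
  mul_mem' := by
    rintro a b ⟨ha, ha'⟩ ⟨hb, hb'⟩
    refine ⟨?_, ?_⟩
    · intro i j
      rw [Units.val_mul]
      exact norm_mul_entry n ha hb i j
    · intro i j
      rw [_root_.mul_inv_rev, Units.val_mul]
      exact norm_mul_entry n hb' ha' i j
  inv_mem' := by
    rintro a ⟨ha, ha'⟩
    exact ⟨ha', by rw [inv_inv]; exact ha⟩

/-- `GL_n(A_f)`, `A_f` the finite adeles of `Q`: families of elements of `GL_n(Q_l)` almost all of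
which lie in `GL_n(Z_l)`. -/
def AG : Subgroup (∀ l : Pr, LG n l) where
  carrier := {g | {l | g l ∉ U n l}.Finite}
  one_mem' := by
    have h : {l | (1 : ∀ l : Pr, LG n l) l ∉ U n l} = ∅ := by
      apply Set.eq_empty_of_forall_notMem
      intro l hl
      exact hl (one_mem _)
    show {l | (1 : ∀ l : Pr, LG n l) l ∉ U n l}.Finite
    rw [h]
    exact Set.finite_empty
  mul_mem' := by
    intro a b ha hb
    apply (Set.Finite.union ha hb).subset
    intro l hl
    by_contra h
    simp only [Set.mem_union, Set.mem_ofPred_eq, not_or, not_not] at h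
    exact hl (mul_mem h.1 h.2)
  inv_mem' := by
    intro a ha
    apply Set.Finite.subset ha
    intro l hl h
    exact hl (inv_mem h)

/-- `GL_n(Q)⁺`, the rational matrices of positive determinant. -/
abbrev GQ := Matrix.GLPos (Fin n) ℚ

lemma finite_bad (q : ℚ) : {l : Pr | ¬ ‖((q : ℚ) : ℚ_[(l : ℕ)])‖ ≤ 1}.Finite := by
  by_cases hq : q.den = 0
  · exact absurd hq q.den_nz
  have h : {l : Pr | ¬ ‖((q : ℚ) : ℚ_[(l : ℕ)])‖ ≤ 1} ⊆
      (fun l : Pr => (l : ℕ)) ⁻¹' (↑(q.den.primeFactors) : Set ℕ) := by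
    intro l hl
    simp only [Set.mem_ofPred_eq] at hl
    simp only [Set.mem_preimage, Finset.mem_coe, Nat.mem_primeFactors]
    refine ⟨l.2, ?_, hq⟩
    by_contra hdvd
    exact hl (Padic.norm_rat_le_one hdvd)
  apply Set.Finite.subset _ h
  apply Set.Finite.preimage
  · intro a _ b _ hab
    exact Subtype.ext hab
  · exact Finset.finite_toSet _

/-- The image of a rational matrix in `GL_n(Q_l)`. -/
noncomputable def loc (l : Pr) : GL (Fin n) ℚ →* LG n l :=
  Matrix.GeneralLinearGroup.map (algebraMap ℚ ℚ_[(l : ℕ)])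

/-- The diagonal embedding of `GL_n(Q)⁺` in `GL_n(A_f)`. -/
noncomputable def dg : GQ n →* AG n where
  toFun γ := ⟨fun l => loc n l γ.1, by
    have h : {l : Pr | loc n l γ.1 ∉ U n l} ⊆
        (⋃ i, ⋃ j, {l : Pr | ¬ ‖((γ.1.1 i j : ℚ) : ℚ_[(l : ℕ)])‖ ≤ 1}) ∪
        (⋃ i, ⋃ j, {l : Pr | ¬ ‖(((γ.1⁻¹).1 i j : ℚ) : ℚ_[(l : ℕ)])‖ ≤ 1}) := by
      intro l hl
      by_contra hcon
      simp only [Set.mem_union, Set.mem_iUnion, not_or, not_exists, Set.mem_ofPred_eq,
        not_not] at hcon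
      apply hl
      refine ⟨hcon.1, ?_⟩
      rw [← map_inv]
      exact hcon.2
    exact Set.Finite.subset ((Set.finite_iUnion fun i => Set.finite_iUnion fun j => finite_bad _).union
      (Set.finite_iUnion fun i => Set.finite_iUnion fun j => finite_bad _)) h⟩
  map_one' := by
    apply Subtype.ext
    funext l
    exact map_one _
  map_mul' a b := by
    apply Subtype.ext
    funext l
    exact map_mul _ _ _

/-- The embedding of `GL_n(Q_l)` in `GL_n(A_f)`. -/
noncomputable def inc (l : Pr) : LG n l →* AG n where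
  toFun x := ⟨Pi.mulSingle l x, by
    apply (Set.finite_singleton l).subset
    intro m hm
    by_contra h
    apply hm
    rw [Pi.mulSingle_eq_of_ne (fun e => h (by rw [e]; exact Set.mem_singleton _))]
    exact one_mem _⟩
  map_one' := by
    apply Subtype.ext
    exact Pi.mulSingle_one l
  map_mul' a b := by
    apply Subtype.ext
    exact Pi.mulSingle_mul l a b

/-- `g` is congruent to the identity modulo `l ^ r`. -/
def Near (l : Pr) (r : ℕ) (g : LG n l) : Prop :=
  ∀ i j, ‖g.1 i j - (1 : Matrix (Fin n) (Fin n) ℚ_[(l : ℕ)]) i j‖ ≤ ((l : ℕ) : ℝ) ^ (-(r : ℤ))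

/-- A level: the compact open subgroup `K_f = ∏ K_l` of `GL_n(A_f)`; here `K_l` is an open subgroup
of `GL_n(Z_l)` and it is `GL_n(Z_l)` for the `l` outside of the finite set `Sg`. -/
structure Level (Sg : Finset Pr) where
  /-- the local groups -/
  K : ∀ l : Pr, Subgroup (LG n l)
  le : ∀ l, K l ≤ U n l
  isOpen : ∀ l, ∃ r : ℕ, ∀ g ∈ U n l, Near n l r g → g ∈ K l
  full : ∀ l, l ∉ Sg → K l = U n l

variable {n} {Sg : Finset Pr}

/-- the group `K_f` -/
def Level.Kf (L : Level n Sg) : Subgroup (AG n) where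
  carrier := {g | ∀ l, g.1 l ∈ L.K l}
  one_mem' _ := one_mem _
  mul_mem' ha hb l := mul_mem (ha l) (hb l)
  inv_mem' ha l := inv_mem (ha l)

/-- The arithmetic groups `GL_n(Q)⁺ ∩ g K_f g⁻¹` are torsion free.  Every neat level has this
property. -/
def Level.TorsionFree (L : Level n Sg) : Prop :=
  ∀ (g : AG n) (γ : GQ n), g⁻¹ * dg n γ * g ∈ L.Kf → IsOfFinOrder γ → γ = 1

/-- A coefficient module: an `O`-module `W` with a continuous `O`-linear action of `K_p`. -/
structure Coef (L : Level n Sg) (p : Pr) (O : Type) [CommRing O] (W : Type) [AddCommGroup W]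
    [Module O W] where
  /-- the action of `K_p` -/
  act : Representation O (L.K p) W
  cont : ∀ r : ℕ, ∃ s : ℕ, ∀ k : L.K p, Near n p s k.1 →
    ∀ w, ∃ w', act k w - w = ((p : ℕ) : O) ^ r • w'

variable {L : Level n Sg} {p : Pr} {O : Type} [CommRing O] {W : Type} [AddCommGroup W] [Module O W]

/-- the `p`-component of an element of `K_f` -/
def Level.pc (L : Level n Sg) (p : Pr) (k : L.Kf) : L.K p := ⟨k.1.1 p, k.2 p⟩

/-- The module of the functions `F : GL_n(A_f) → W` with `F (g k) = k_p⁻¹ F(g)` for `k` in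
`K_f`. -/
def Coef.Fn (C : Coef L p O W) : Submodule O (AG n → W) where
  carrier := {F | ∀ (g : AG n) (k : L.Kf), F (g * k.1) = C.act (L.pc p k)⁻¹ (F g)}
  add_mem' := by
    intro F F' h h' g k
    rw [Pi.add_apply, Pi.add_apply, h, h', map_add]
  zero_mem' := by
    intro g k
    simp
  smul_mem' := by
    intro c F h g k
    rw [Pi.smul_apply, Pi.smul_apply, h, map_smul]

/-- The representation of `GL_n(Q)⁺` by left translations. -/
noncomputable def Coef.rep (C : Coef L p O W) : Representation O (GQ n) C.Fn where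
  toFun γ :=
    { toFun F := ⟨fun g => F.1 ((dg n γ)⁻¹ * g), fun g k => by
        show F.1 ((dg n γ)⁻¹ * (g * k.1)) = _
        rw [← mul_assoc]; exact F.2 _ k⟩
      map_add' F F' := rfl
      map_smul' c F := rfl }
  map_one' := by
    apply LinearMap.ext
    intro F
    apply Subtype.ext
    funext g
    show F.1 ((dg n 1)⁻¹ * g) = F.1 g
    rw [map_one, inv_one, one_mul]
  map_mul' a b := by
    apply LinearMap.ext
    intro F
    apply Subtype.ext
    funext g
    show F.1 ((dg n (a * b))⁻¹ * g) = F.1 ((dg n b)⁻¹ * ((dg n a)⁻¹ * g))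
    rw [map_mul, _root_.mul_inv_rev, mul_assoc]

/-- The cosets `y GL_n(Z_l)` contained in the double coset `GL_n(Z_l) x GL_n(Z_l)`. -/
abbrev HC (n : ℕ) (l : Pr) (x : LG n l) : Type :=
  {c : LG n l ⧸ U n l // ∃ u ∈ U n l, c = ((u * x : LG n l) : LG n l ⧸ U n l)}

/-- The Hecke operator of the double coset of `x` on functions:
`(T F)(g) = ∑ F (g y)`, the sum over the cosets `y GL_n(Z_l)` in the double coset. -/
noncomputable def hecke (l : Pr) (x : LG n l) (F : AG n → W) (g : AG n) : W :=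
  ∑ᶠ c : HC n l x, F (g * inc n l c.1.out)

end Pool.Agent.L0h47.CG
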