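import Pool.Agent.L0h47.CG.Bridge

/-!
# Hecke eigenvalues in degrees zero and one
-/

set_option autoImplicit false

namespace Pool.Agent.L0h47.CG

open Matrix Polynomial

variable {n : ℕ} {Sg : Finset Pr} {L : Level n Sg} {p : Pr} {O : Type} [CommRing O] {W : Type}
  [AddCommGroup W] [Module O W]

/-- the eigenvalue of an operator that is congruent to an integer modulo `p` -/
theorem theta_of_div (C : Coef L p O W) (hp : p ∈ Sg) (i : ℕ) [Module.Finite O (C.H i)] {k : Type}
    [Field k] [Algebra O k] [CharP k (p : ℕ)] (θ : FreeAlgebra O (HI n Sg) →ₐ[O] k)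
    (h : C.LocNe hp i θ) (a : HI n Sg) (D : ℕ)
    (hdiv : ∀ h : C.H i, ∃ h' : C.H i, C.T hp i a h - D • h = ((p : ℕ) : O) • h') :
    θ (FreeAlgebra.ι O a) = (D : k) := by
  let x : FreeAlgebra O (HI n Sg) := FreeAlgebra.ι O a - (D : FreeAlgebra O (HI n Sg))
  have hx : C.hAct hp i x = C.T hp i a - (D : Module.End O (C.H i)) := by
    show C.hAct hp i (FreeAlgebra.ι O a - (D : FreeAlgebra O (HI n Sg))) = _
    rw [map_sub, map_natCast]
    congr 1
    unfold Coef.hAct
    rw [FreeAlgebra.lift_ι_apply]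
  have hrange : LinearMap.range (C.hAct hp i x) ≤
      Ideal.span {((p : ℕ) : O)} • (⊤ : Submodule O (C.H i)) := by
    rintro _ ⟨y, rfl⟩
    obtain ⟨y', hy'⟩ := hdiv y
    have e : C.hAct hp i x y = ((p : ℕ) : O) • y' := by
      rw [hx, ← hy']
      show C.T hp i a y - (D : Module.End O (C.H i)) y = _
      rw [Module.End.natCast_apply]
    rw [e]
    exact Submodule.smul_mem_smul (Ideal.mem_span_singleton_self _) Submodule.mem_top
  obtain ⟨Q, hQm, -, hQc, hQ0⟩ :=
    LinearMap.exists_monic_and_natDegree_eq_and_coeff_mem_pow_and_aeval_eq_zero O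
      (C.hAct hp i x) _ hrange
  obtain ⟨v, hv⟩ := h
  have hP : C.hAct hp i (aeval x Q) = 0 := by
    rw [← hQ0, ← Polynomial.aeval_algHom_apply]
  have h1 : θ (aeval x Q) = 0 := by
    apply hv
    rw [hP]
    rfl
  rw [← Polynomial.aeval_algHom_apply] at h1
  have hmap : Q.map (algebraMap O k) = X ^ Q.natDegree := by
    ext j
    rw [coeff_map, coeff_X_pow]
    split_ifs with hj
    · rw [hj, hQm.coeff_natDegree, map_one]
    · by_cases hj2 : j < Q.natDegree
      · have h2 := hQc j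
        have h3 : Q.coeff j ∈ Ideal.span {((p : ℕ) : O)} := by
          have h4 : Q.natDegree - j ≠ 0 := by omega
          exact Ideal.pow_le_self h4 h2
        rw [Ideal.mem_span_singleton] at h3
        obtain ⟨c, hc⟩ := h3
        rw [hc, map_mul, map_natCast, CharP.cast_eq_zero, zero_mul]
      · rw [Polynomial.coeff_eq_zero_of_natDegree_lt (by omega), map_zero]
  rw [← Polynomial.eval_map_algebraMap, hmap, eval_pow, eval_X] at h1
  have h2 : θ x = 0 := eq_zero_of_pow_eq_zero h1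
  have h3 : θ x = θ (FreeAlgebra.ι O a) - (D : k) := by
    show θ (FreeAlgebra.ι O a - (D : FreeAlgebra O (HI n Sg))) = _
    rw [map_sub, map_natCast]
  rw [h3] at h2
  exact sub_eq_zero.mp h2

/-- **The Hecke eigenvalues in degrees zero and one.** -/
theorem theta_low (hn : 3 ≤ n) (hp : p ∈ Sg) (C : Coef L p O W) [IsNoetherian O W] {k : Type}
    [Field k] [Algebra O k] [CharP k (p : ℕ)] (θ : FreeAlgebra O (HI n Sg) →ₐ[O] k) {i : ℕ}
    (hi : i < 2) (h : C.LocNe hp i θ) :
    ∃ N : ℕ, N ≠ 0 ∧ ∀ l : {l : Pr // l ∉ Sg}, ((N : ℕ) : ℤ) ∣ (l.1 : ℕ) - 1 → ∀ j : ℕ,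
      θ (FreeAlgebra.ι O ⟨l, td n l.1 j⟩) = (deg n l.1 j : k) := by
  have : NeZero n := ⟨by omega⟩
  interval_cases i
  · have := finite_zero C
    obtain ⟨N, hN, H⟩ := H_zero_div hn hp C
    exact ⟨N, hN, fun l hl j => theta_of_div C hp 0 θ h _ _ (H l hl j)⟩
  · have := finite_one C
    obtain ⟨N, hN, H⟩ := H_one_div hn hp C
    exact ⟨N, hN, fun l hl j => theta_of_div C hp 1 θ h _ _ (H l hl j)⟩

end Pool.Agent.L0h47.CG
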