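import Pool.Agent.L0h47.CG.Gen

/-!
# Finiteness: double cosets and arithmetic groups
-/

set_option autoImplicit false

namespace Pool.Agent.L0h47.CG

open Matrix

variable {n : ℕ}

/-- there is a map to a finite set that separates the cosets of the congruence subgroup -/
lemma exists_sep {N : ℕ} (hN : N ≠ 0) : ∃ (X : Type) (_ : Finite X) (f : KN n 1 → X),
    ∀ a b, f a = f b → (a⁻¹ * b).1 ∈ KN n N := by
  have hfin : {l : Pr | N.factorization l ≠ 0}.Finite := finite_primes hN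
  have hU : ∀ (a : KN n 1) (l : Pr), a.1.1 l ∈ U n l := fun a => mem_KN_one.mp a.2
  have : Finite {l : Pr | N.factorization l ≠ 0} := hfin
  have hne : ∀ l : Pr, NeZero ((l : ℕ) ^ (N.factorization l)) := fun l =>
    ⟨pow_ne_zero _ l.2.ne_zero⟩
  refine ⟨∀ l : {l : Pr | N.factorization l ≠ 0},
    Matrix (Fin n) (Fin n) (ZMod ((l.1 : ℕ) ^ (N.factorization l.1))), ?_,
    fun a l => rd (N.factorization l.1) ⟨a.1.1 l.1, hU a l.1⟩, ?_⟩
  · have : ∀ l : {l : Pr | N.factorization l ≠ 0},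
        Finite (Matrix (Fin n) (Fin n) (ZMod ((l.1 : ℕ) ^ (N.factorization l.1)))) := by
      intro l
      have := hne l.1
      infer_instance
    exact Pi.finite
  · intro a b h l
    by_cases hl : N.factorization l = 0
    · rw [hl, Cg_zero]
      exact mul_mem (inv_mem (hU a l)) (hU b l)
    · have h1 : rd (N.factorization l) ⟨a.1.1 l, hU a l⟩ =
          rd (N.factorization l) ⟨b.1.1 l, hU b l⟩ := congrFun h ⟨l, hl⟩
      have h2 := rd_eq h1
      have e : (a⁻¹ * b).1.1 l = (a.1.1 l)⁻¹ * b.1.1 l := rfl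
      rw [e]
      exact h2

variable {Sg : Finset Pr} {L : Level n Sg}

/-- finitely many representatives of the double cosets -/
theorem exists_finite_rep [NeZero n] (L : Level n Sg) {N : ℕ} (hN : N ≠ 0) (hle : KN n N ≤ L.Kf) :
    ∃ R : Set (AG n), R.Finite ∧
      (∀ x, ∃ γ, ∃ r ∈ R, ∃ κ : L.Kf, x = dg n γ * r * κ) ∧
      (∀ r ∈ R, ∀ r' ∈ R, ∀ γ, ∀ κ : L.Kf, r' = dg n γ * r * κ → r' = r) := by
  obtain ⟨R, hR, hR'⟩ := exists_rep L.Kf
  refine ⟨R, ?_, hR, hR'⟩
  obtain ⟨X, hX, f, hf⟩ := exists_sep (n := n) hN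
  choose γ u hu hdec using fun r : AG n => class_one r
  have : Finite R := by
    apply Finite.of_injective (fun r : R => f ⟨u r.1, hu r.1⟩)
    intro r r' h
    have h1 := hf _ _ h
    apply Subtype.ext
    refine (hR' r.1 r.2 r'.1 r'.2 (γ r'.1 * (γ r.1)⁻¹) ⟨_, hle h1⟩ ?_).symm
    conv_lhs => rw [hdec r'.1]
    have e : dg n (γ r'.1 * (γ r.1)⁻¹) * r.1 = dg n (γ r'.1) * u r.1 := by
      calc dg n (γ r'.1 * (γ r.1)⁻¹) * r.1
          = dg n (γ r'.1) * (dg n (γ r.1))⁻¹ * (dg n (γ r.1) * u r.1) := by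
            rw [← hdec r.1, map_mul, map_inv]
        _ = _ := by group
    rw [e]
    simp only [Subgroup.coe_mul, Subgroup.coe_inv]
    group
  exact this

lemma fg_int : Group.FG (SpecialLinearGroup (Fin n) ℤ) := by
  rw [Group.fg_def]
  have hfin : (Set.range fun q : Fin n × Fin n =>
      if h : q.1 ≠ q.2 then tvr q.1 q.2 h (1 : ℤ) else 1).Finite := Set.finite_range _
  rw [Subgroup.fg_iff]
  refine ⟨_, ?_, hfin⟩
  rw [eq_top_iff]
  intro a _
  have ha := ele_top ev_int n a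
  have hle : Ele n ℤ ≤ Subgroup.closure (Set.range fun q : Fin n × Fin n =>
      if h : q.1 ≠ q.2 then tvr q.1 q.2 h (1 : ℤ) else 1) := by
    unfold Ele
    rw [Subgroup.closure_le]
    rintro _ ⟨i, j, h, t, rfl⟩
    have e : tvr i j h t = (tvr i j h 1) ^ t := by
      have := Pool.Agent.Helper460_CSP.tv_mul_zpow i j h 1 t
      rw [one_mul] at this
      exact this
    rw [e]
    apply Subgroup.zpow_mem
    apply Subgroup.subset_closure
    refine ⟨(i, j), ?_⟩
    simp only [ne_eq]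
    rw [dif_pos h]
  exact hle ha

/-- the arithmetic group of an open compact subgroup, at `r` -/
def Ar (K' : Subgroup (AG n)) (r : AG n) : Subgroup (GQ n) where
  carrier := {γ | r⁻¹ * dg n γ * r ∈ K'}
  one_mem' := by
    show r⁻¹ * dg n 1 * r ∈ K'
    rw [map_one, mul_one, inv_mul_cancel]
    exact one_mem _
  mul_mem' := by
    intro a b ha hb
    have := K'.mul_mem (show r⁻¹ * dg n a * r ∈ K' from ha) (show r⁻¹ * dg n b * r ∈ K' from hb)
    have e : r⁻¹ * dg n a * r * (r⁻¹ * dg n b * r) = r⁻¹ * dg n (a * b) * r := by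
      rw [map_mul]; group
    rwa [e] at this
  inv_mem' := by
    intro a ha
    have := K'.inv_mem (show r⁻¹ * dg n a * r ∈ K' from ha)
    have e : (r⁻¹ * dg n a * r)⁻¹ = r⁻¹ * dg n a⁻¹ * r := by
      rw [map_inv]; group
    rwa [e] at this

lemma mem_Ar {K' : Subgroup (AG n)} {r : AG n} {γ : GQ n} :
    γ ∈ Ar K' r ↔ r⁻¹ * dg n γ * r ∈ K' := Iff.rfl

lemma Ar_fg_one [NeZero n] (r : AG n) : Group.FG (Ar (KN n 1) r) := by
  obtain ⟨γ₀, u, hu, hr⟩ := class_one r
  have := fg_int (n := n)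
  let f : SpecialLinearGroup (Fin n) ℤ →* Ar (KN n 1) r :=
    { toFun a := ⟨γ₀ * sZ a * γ₀⁻¹, by
        rw [mem_Ar]
        have e : r⁻¹ * dg n (γ₀ * sZ a * γ₀⁻¹) * r = u⁻¹ * dg n (sZ a) * u := by
          rw [hr, map_mul, map_mul, map_inv]; group
        rw [e]
        refine mul_mem (mul_mem (inv_mem hu) ?_) hu
        rw [mem_KN_one]
        exact sZ_U a⟩
      map_one' := by
        apply Subtype.ext
        show γ₀ * sZ 1 * γ₀⁻¹ = 1
        rw [map_one]; group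
      map_mul' a b := by
        apply Subtype.ext
        show γ₀ * sZ (a * b) * γ₀⁻¹ = γ₀ * sZ a * γ₀⁻¹ * (γ₀ * sZ b * γ₀⁻¹)
        rw [map_mul]; group }
  apply Group.fg_of_surjective (f := f)
  rintro ⟨γ, hγ⟩
  rw [mem_Ar] at hγ
  have h1 : dg n (γ₀⁻¹ * γ * γ₀) ∈ KN n 1 := by
    have e : dg n (γ₀⁻¹ * γ * γ₀) = u * (r⁻¹ * dg n γ * r) * u⁻¹ := by
      rw [hr, map_mul, map_mul, map_inv]; group
    rw [e]
    exact mul_mem (mul_mem hu hγ) (inv_mem hu)
  obtain ⟨a, ha⟩ := exists_sZ h1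
  refine ⟨a, ?_⟩
  apply Subtype.ext
  show γ₀ * sZ a * γ₀⁻¹ = γ
  rw [← ha]
  group

/-- the arithmetic groups are finitely generated -/
theorem Ar_fg [NeZero n] (L : Level n Sg) {N : ℕ} (hN : N ≠ 0) (hle : KN n N ≤ L.Kf) (r : AG n) :
    ∃ S : Finset (GQ n), Subgroup.closure (S : Set (GQ n)) = Ar L.Kf r := by
  have h1 := Ar_fg_one (n := n) r
  obtain ⟨X, hX, f, hf⟩ := exists_sep (n := n) hN
  have hsub : Ar L.Kf r ≤ Ar (KN n 1) r := by
    intro γ hγ
    rw [mem_Ar] at hγ ⊢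
    exact Kf_le L hγ
  let H := (Ar L.Kf r).subgroupOf (Ar (KN n 1) r)
  have hfin : Finite (Ar (KN n 1) r ⧸ H) := by
    apply Finite.of_injective (fun q => f ⟨_, q.out.2⟩)
    intro q q' h
    have h2 := hf _ _ h
    rw [← QuotientGroup.out_eq' q, ← QuotientGroup.out_eq' q', QuotientGroup.eq]
    rw [Subgroup.mem_subgroupOf, mem_Ar]
    apply hle
    convert h2 using 1
    show r⁻¹ * dg n ((q.out.1)⁻¹ * q'.out.1) * r =
      (r⁻¹ * dg n q.out.1 * r)⁻¹ * (r⁻¹ * dg n q'.out.1 * r)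
    rw [map_mul, map_inv]
    group
  have hidx : H.FiniteIndex := Subgroup.finiteIndex_of_finite_quotient
  have hFG : Group.FG H := Subgroup.fg_of_index_ne_zero H
  have hFG2 : Group.FG (Ar L.Kf r) := by
    have e := Subgroup.subgroupOfEquivOfLe hsub
    exact Group.fg_of_surjective (f := e.toMonoidHom) e.surjective
  rw [Group.fg_iff_subgroup_fg] at hFG2
  exact hFG2

end Pool.Agent.L0h47.CG
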