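import Pool.Agent.L0h47.CG.Orient2

/-!
# The complex of the cells of one ternary lattice
-/

set_option autoImplicit false

namespace Pool.Agent.L0h47.CG

open Matrix

/-- symmetric matrices (rays) -/
abbrev Ray := Matrix (Fin 3) (Fin 3) ℚ

/-- ordered cells of the lattice with the frame `β` -/
def OCb (β : Ray) {m : ℕ} (v : Fin m → Ray) : Prop :=
  Function.Injective v ∧ Spn (Finset.univ.image v) ∧
    ∃ δ : GL (Fin 3) ℤ, Finset.univ.image v ⊆ tl β δ

variable {W : Type} [AddCommGroup W]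

/-- alternating functions on the ordered cells -/
def IsAltB (β : Ray) (m : ℕ) (f : (Fin m → Ray) → W) : Prop :=
  (∀ (v : Fin m → Ray) (σ : Equiv.Perm (Fin m)), f (v ∘ σ) = (Equiv.Perm.sign σ : ℤ) • f v) ∧
    ∀ v, ¬ OCb β v → f v = 0

open scoped Classical in
/-- the differential -/
noncomputable def dB (β : Ray) {m : ℕ} (f : (Fin (m + 1) → Ray) → W) (v : Fin m → Ray) : W :=
  if OCb β v then ∑ᶠ r, f (Fin.cons r v : Fin (m + 1) → Ray) else 0

/-- the orientation -/
noncomputable def eps (v : Fin 6 → Ray) : ℤ := ((SignType.sign (DD v) : SignType) : ℤ)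

lemma OC_iff {β : Ray} (hβ : IsUnit β) {S : Matrix (Fin 3) (Fin 3) ℝ} (hS : Gen S) {m : ℕ}
    (v : Fin m → Ray) : (selling hβ hS).OC v ↔ OCb β v := by
  constructor
  · rintro ⟨h1, h2, F, ⟨δ, rfl⟩, h3⟩
    exact ⟨h1, h2, δ, h3⟩
  · rintro ⟨h1, h2, δ, h3⟩
    exact ⟨h1, h2, _, ⟨δ, rfl⟩, h3⟩

lemma alt_iff {β : Ray} (hβ : IsUnit β) {S : Matrix (Fin 3) (Fin 3) ℝ} (hS : Gen S) {m : ℕ}
    (f : (Fin m → Ray) → W) : (selling hβ hS).IsAlt m f ↔ IsAltB β m f := by
  unfold Shell.IsAlt IsAltB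
  simp only [OC_iff hβ hS]

lemma OC_cons {β : Ray} {S : Matrix (Fin 3) (Fin 3) ℝ} (hβ : IsUnit β) (hS : Gen S) {m : ℕ}
    {v : Fin m → Ray} (hv : (selling hβ hS).OC v) (r : Ray) :
    (selling hβ hS).OC (Fin.cons r v : Fin (m + 1) → Ray) ↔
      r ∈ (selling hβ hS).cof (Finset.univ.image v) := by
  have him : Finset.univ.image (Fin.cons r v : Fin (m + 1) → Ray) =
      insert r (Finset.univ.image v) := by
    ext s
    simp only [Finset.mem_image, Finset.mem_univ, true_and, Finset.mem_insert, Fin.exists_fin_succ,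
      Fin.cons_zero, Fin.cons_succ, eq_comm]
  rw [Shell.mem_cof hv.2]
  unfold Shell.OC
  rw [him, Fin.cons_injective_iff]
  constructor
  · rintro ⟨⟨h1, h2⟩, h3⟩
    refine ⟨?_, h3⟩
    intro h4
    obtain ⟨i, -, hi⟩ := Finset.mem_image.mp h4
    exact h1 ⟨i, hi⟩
  · rintro ⟨h1, h2⟩
    refine ⟨⟨?_, hv.1⟩, h2⟩
    rintro ⟨i, hi⟩
    exact h1 (Finset.mem_image.mpr ⟨i, Finset.mem_univ _, hi⟩)

lemma dA_eq {β : Ray} {S : Matrix (Fin 3) (Fin 3) ℝ} (hβ : IsUnit β) (hS : Gen S) {m : ℕ}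
    {f : (Fin (m + 1) → Ray) → W} (hf : IsAltB β (m + 1) f) :
    (selling hβ hS).dA f = dB β f := by
  classical
  funext v
  unfold dB
  by_cases hv : OCb β v
  · have hv' := (OC_iff hβ hS v).mpr hv
    rw [if_pos hv]
    unfold Shell.dA
    rw [if_pos hv.1]
    symm
    apply finsum_eq_sum_of_support_subset
    intro r hr
    rw [Function.mem_support] at hr
    by_contra h
    apply hr
    apply hf.2
    intro h2
    apply h
    exact (OC_cons hβ hS hv' r).mp ((OC_iff hβ hS _).mpr h2)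
  · rw [if_neg hv]
    unfold Shell.dA
    split_ifs with hi
    · rw [Shell.cof_eq_empty, Finset.sum_empty]
      intro hc
      exact hv ((OC_iff hβ hS v).mp ⟨hi, hc⟩)
    · rfl

lemma dB_alt {β : Ray} (hβ : IsUnit β) {m : ℕ} {f : (Fin (m + 1) → Ray) → W}
    (hf : IsAltB β (m + 1) f) : IsAltB β m (dB β f) := by
  obtain ⟨S, hS⟩ := exists_gen
  rw [← dA_eq hβ hS hf, ← alt_iff hβ hS]
  classical
  have hf' := (alt_iff hβ hS f).mpr hf
  constructor
  · intro v σ
    have h1 : Finset.univ.image (v ∘ σ) = Finset.univ.image v := by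
      ext r
      simp only [Finset.mem_image, Finset.mem_univ, true_and, Function.comp]
      constructor
      · rintro ⟨a, h⟩; exact ⟨σ a, h⟩
      · rintro ⟨a, h⟩; exact ⟨σ.symm a, by simpa using h⟩
    unfold Shell.dA
    by_cases hv : Function.Injective v
    · rw [if_pos hv, if_pos (hv.comp σ.injective), h1, Finset.smul_sum]
      apply Finset.sum_congr rfl
      intro r _
      have h2 : (Fin.cons r (v ∘ σ) : Fin (m + 1) → Ray) =
          (Fin.cons r v : Fin (m + 1) → Ray) ∘ (Equiv.Perm.decomposeFin.symm (0, σ)) := by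
        funext i
        refine Fin.cases ?_ (fun j => ?_) i
        · simp [Equiv.Perm.decomposeFin_symm_apply_zero]
        · simp [Equiv.Perm.decomposeFin_symm_apply_succ]
      rw [h2, hf.1, Equiv.Perm.decomposeFin.symm_sign]
      simp
    · rw [if_neg hv, if_neg, smul_zero]
      intro h
      apply hv
      have := h.comp σ.symm.injective
      rwa [Function.comp_assoc, Equiv.self_comp_symm, Function.comp_id] at this
  · intro v hv
    unfold Shell.dA
    by_cases hi : Function.Injective v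
    · rw [if_pos hi, Shell.cof_eq_empty (fun hc => hv ⟨hi, hc⟩), Finset.sum_empty]
    · rw [if_neg hi]

/-- exactness in the middle -/
theorem fiber_mid {β : Ray} (hβ : IsUnit β) {m : ℕ} (hm : m + 1 < 6)
    {f : (Fin (m + 1) → Ray) → W} (hf : IsAltB β (m + 1) f) (hd : dB β f = 0) :
    ∃ h : (Fin (m + 2) → Ray) → W, IsAltB β (m + 2) h ∧ dB β h = f := by
  obtain ⟨S, hS⟩ := exists_gen
  obtain ⟨h, h1, h2⟩ := Shell.exact_mid (selling hβ hS) hm ((alt_iff hβ hS f).mpr hf)
    (by rw [dA_eq hβ hS hf]; exact hd)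
  have h1' := (alt_iff hβ hS h).mp h1
  exact ⟨h, h1', by rw [← dA_eq hβ hS h1']; exact h2⟩

lemma cross_ne (e f : Fin 6) (h : e ≠ f) :
    ∃ y : Fin 3 → ℤ, y ≠ 0 ∧ y ⬝ᵥ uu e = 0 ∧ y ⬝ᵥ uu f = 0 := by
  refine ⟨![uu e 1 * uu f 2 - uu e 2 * uu f 1, uu e 2 * uu f 0 - uu e 0 * uu f 2,
    uu e 0 * uu f 1 - uu e 1 * uu f 0], ?_, ?_, ?_⟩
  · revert e f; decide
  · revert e f; decide
  · revert e f; decide

lemma spn_card {β : Ray} (hβ : IsUnit β) {G : Finset Ray} (hG : Spn G) {δ : GL (Fin 3) ℤ}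
    (h : G ⊆ tl β δ) : 3 ≤ G.card := by
  by_contra hc
  push Not at hc
  -- `G` is contained in a set of two rays
  obtain ⟨e, f, hef, hs⟩ : ∃ e f : Fin 6, e ≠ f ∧
      G ⊆ {vr β (δ.1 *ᵥ uu e), vr β (δ.1 *ᵥ uu f)} := by
    have h1 : ∀ r ∈ G, ∃ e, vr β (δ.1 *ᵥ uu e) = r := by
      intro r hr
      obtain ⟨e, -, he⟩ := Finset.mem_image.mp (h hr)
      exact ⟨e, he⟩
    have h2 : ∀ e : Fin 6, ∃ f, f ≠ e := by decide
    have h3 : G.card = 0 ∨ G.card = 1 ∨ G.card = 2 := by omega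
    rcases h3 with h3 | h3 | h3
    · rw [Finset.card_eq_zero] at h3
      exact ⟨0, 1, by decide, by rw [h3]; simp⟩
    · obtain ⟨r, hr⟩ := Finset.card_eq_one.mp h3
      obtain ⟨e, he⟩ := h1 r (by rw [hr]; simp)
      obtain ⟨f, hf⟩ := h2 e
      exact ⟨e, f, hf.symm, by rw [hr, he]; simp⟩
    · obtain ⟨r, s, hrs, hr⟩ := Finset.card_eq_two.mp h3
      obtain ⟨e, he⟩ := h1 r (by rw [hr]; simp)
      obtain ⟨f, hf⟩ := h1 s (by rw [hr]; simp)
      refine ⟨e, f, ?_, by rw [hr, he, hf]⟩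
      rintro rfl
      exact hrs (he.symm.trans hf)
  obtain ⟨y, hy, hye, hyf⟩ := cross_ne e f hef
  obtain ⟨b, rfl⟩ := hβ
  obtain ⟨d, hd⟩ := isUnit_map δ
  set x : Fin 3 → ℚ := ((fun i => (y i : ℚ)) ᵥ* (d⁻¹).1) ᵥ* (b⁻¹).1 with hx
  have hx1 : (x ᵥ* b.1) ᵥ* δ.1.map (fun a => (a : ℚ)) = fun i => (y i : ℚ) := by
    rw [hx, ← hd, vecMul_vecMul _ (b⁻¹).1, ← Units.val_mul, inv_mul_cancel, Units.val_one,
      vecMul_one, vecMul_vecMul, ← Units.val_mul, inv_mul_cancel, Units.val_one, vecMul_one]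
  have hdot : ∀ e, y ⬝ᵥ uu e = 0 → x ⬝ᵥ (vr b.1 (δ.1 *ᵥ uu e) *ᵥ x) = 0 := by
    intro e he
    rw [dot_ray, map_mulVec, dotProduct_mulVec, hx1]
    have : (fun i => (y i : ℚ)) ⬝ᵥ (fun i => (uu e i : ℚ)) = ((y ⬝ᵥ uu e : ℤ) : ℚ) := by
      simp [dotProduct]
    rw [this, he]; simp
  have h0 := hG x (by
    intro r hr
    have := hs hr
    rw [Finset.mem_insert, Finset.mem_singleton] at this
    rcases this with rfl | rfl
    · exact hdot e hye
    · exact hdot f hyf)
  apply hy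
  rw [h0, zero_vecMul, zero_vecMul] at hx1
  funext i
  have := congrFun hx1 i
  simp only [Pi.zero_apply] at this ⊢
  exact_mod_cast this.symm

/-- exactness at the end -/
theorem fiber_end {β : Ray} (hβ : IsUnit β)
    {f : (Fin 3 → Ray) → W} (hf : IsAltB β 3 f) :
    ∃ h : (Fin 4 → Ray) → W, IsAltB β 4 h ∧ dB β h = f := by
  obtain ⟨S, hS⟩ := exists_gen
  obtain ⟨h, h1, h2⟩ := Shell.exact_end (selling hβ hS) (m := 3) (by norm_num) (by
    rintro G ⟨h1, F, ⟨δ, rfl⟩, h2⟩
    exact spn_card hβ h1 h2) ((alt_iff hβ hS f).mpr hf)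
  have h1' := (alt_iff hβ hS h).mp h1
  exact ⟨h, h1', by rw [← dA_eq hβ hS h1']; exact h2⟩

/-- the functions which come from the orientation -/
noncomputable def ori (β : Ray) (w : W) (v : Fin 6 → Ray) : W :=
  open scoped Classical in if OCb β v then eps v • w else 0

lemma eps_perm (v : Fin 6 → Ray) (σ : Equiv.Perm (Fin 6)) :
    eps (v ∘ σ) = (Equiv.Perm.sign σ : ℤ) * eps v := by
  unfold eps
  rw [DD_perm]
  rcases Int.units_eq_one_or (Equiv.Perm.sign σ) with h | h
  · rw [h]; simp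
  · rw [h]
    simp [Left.sign_neg]

lemma OCb_perm {β : Ray} {m : ℕ} {v : Fin m → Ray} (σ : Equiv.Perm (Fin m)) :
    OCb β (v ∘ σ) ↔ OCb β v := by
  have h1 : Finset.univ.image (v ∘ σ) = Finset.univ.image v := by
    ext r
    simp only [Finset.mem_image, Finset.mem_univ, true_and, Function.comp]
    constructor
    · rintro ⟨a, h⟩; exact ⟨σ a, h⟩
    · rintro ⟨a, h⟩; exact ⟨σ.symm a, by simpa using h⟩
  unfold OCb
  rw [h1]
  constructor
  · rintro ⟨h, h'⟩
    refine ⟨?_, h'⟩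
    have := h.comp σ.symm.injective
    rwa [Function.comp_assoc, Equiv.self_comp_symm, Function.comp_id] at this
  · rintro ⟨h, h'⟩
    exact ⟨h.comp σ.injective, h'⟩

lemma ori_alt (β : Ray) (w : W) : IsAltB β 6 (ori β w) := by
  classical
  constructor
  · intro v σ
    unfold ori
    by_cases hv : OCb β v
    · rw [if_pos hv, if_pos ((OCb_perm σ).mpr hv), eps_perm, mul_smul]
    · rw [if_neg hv, if_neg (fun h => hv ((OCb_perm σ).mp h)), smul_zero]
  · intro v hv
    unfold ori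
    rw [if_neg hv]

/-- an ordered cell with six elements is an ordered tile -/
lemma OCb_six {β : Ray} (hβ : IsUnit β) {v : Fin 6 → Ray} (hv : OCb β v) :
    ∃ δ : GL (Fin 3) ℤ, Finset.univ.image v = tl β δ := by
  obtain ⟨h1, h2, δ, h3⟩ := hv
  refine ⟨δ, Finset.eq_of_subset_of_card_le h3 ?_⟩
  rw [tl_card hβ, Finset.card_image_of_injective _ h1, Finset.card_fin]

lemma DD_ne {β : Ray} (hβ : IsUnit β) {v : Fin 6 → Ray} (hv : OCb β v) : DD v ≠ 0 := by
  obtain ⟨δ, hδ⟩ := OCb_six hβ hv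
  have h3 : ∀ i : Fin 6, ∃ e, vr β (δ.1 *ᵥ uu e) = v i := by
    intro i
    have h4 : v i ∈ tl β δ := by
      rw [← hδ]; exact Finset.mem_image_of_mem _ (Finset.mem_univ _)
    obtain ⟨e, -, he⟩ := Finset.mem_image.mp h4
    exact ⟨e, he⟩
  choose s hs using h3
  have hs' : Function.Injective s := by
    intro i j hij
    apply hv.1
    rw [← hs i, ← hs j, hij]
  have hb : Function.Bijective s := Finite.injective_iff_bijective.mp hs'
  have h6 : v = (fun e => vr β (δ.1 *ᵥ uu e)) ∘ (Equiv.ofBijective s hb) := by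
    funext i
    exact (hs i).symm
  rw [h6, DD_perm]
  apply mul_ne_zero _ (DD_frame hβ δ)
  rcases Int.units_eq_one_or (Equiv.Perm.sign (Equiv.ofBijective s hb)) with h | h <;> rw [h] <;>
    simp

lemma eps_cases {β : Ray} (hβ : IsUnit β) {v : Fin 6 → Ray} (hv : OCb β v) :
    eps v = 1 ∨ eps v = -1 := by
  unfold eps
  rcases lt_or_gt_of_ne (DD_ne hβ hv) with h | h
  · right; rw [sign_neg h]; rfl
  · left; rw [sign_pos h]; rfl

lemma eps_opp {u v : Fin 6 → Ray} (h : DD u * DD v < 0) : eps v = -eps u := by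
  unfold eps
  rcases mul_neg_iff.mp h with ⟨h1, h2⟩ | ⟨h1, h2⟩
  · rw [sign_pos h1, sign_neg h2]; rfl
  · rw [sign_neg h1, sign_pos h2]; rfl

theorem ori_d {β : Ray} (hβ : IsUnit β) (w : W) : dB β (ori β w) = 0 := by
  classical
  obtain ⟨S, hS⟩ := exists_gen
  rw [← dA_eq hβ hS (ori_alt β w)]
  funext v
  unfold Shell.dA
  by_cases hi : Function.Injective v
  swap
  · rw [if_neg hi]; rfl
  rw [if_pos hi]
  by_cases hc : (selling hβ hS).Cell (Finset.univ.image v)
  swap
  · rw [Shell.cof_eq_empty hc]; rfl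
  have hOC : (selling hβ hS).OC v := ⟨hi, hc⟩
  -- the elements of `cof`
  have hcof : ∀ r ∈ (selling hβ hS).cof (Finset.univ.image v), r ∉ Finset.univ.image v ∧
      OCb β (Fin.cons r v : Fin 6 → Ray) ∧ ∃ δ, insert r (Finset.univ.image v) = tl β δ := by
    intro r hr
    have h1 := (OC_iff hβ hS _).mp ((OC_cons hβ hS hOC r).mpr hr)
    obtain ⟨δ, hδ⟩ := OCb_six hβ h1
    refine ⟨((Shell.mem_cof hc).mp hr).1, h1, δ, ?_⟩
    rw [← hδ]
    ext s
    simp only [Finset.mem_image, Finset.mem_univ, true_and, Finset.mem_insert, Fin.exists_fin_succ,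
      Fin.cons_zero, Fin.cons_succ, eq_comm]
  have hopp : ∀ r ∈ (selling hβ hS).cof (Finset.univ.image v),
      ∀ s ∈ (selling hβ hS).cof (Finset.univ.image v), r ≠ s →
      eps (Fin.cons s v : Fin 6 → Ray) = -eps (Fin.cons r v : Fin 6 → Ray) := by
    intro r hr s hs hrs
    obtain ⟨h1, h2, δ, h3⟩ := hcof r hr
    obtain ⟨h4, h5, δ', h6⟩ := hcof s hs
    apply eps_opp
    apply sign_wall hβ hi h1 h3 h6
    rw [← h3, ← h6]
    intro h7
    have h8 : r ∈ insert s (Finset.univ.image v) := by rw [← h7]; exact Finset.mem_insert_self _ _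
    rw [Finset.mem_insert] at h8
    rcases h8 with h8 | h8
    · exact hrs h8
    · exact h1 h8
  -- two elements of `cof`
  obtain ⟨r, s, hr, hs, hrs⟩ : ∃ r s, r ∈ (selling hβ hS).cof (Finset.univ.image v) ∧
      s ∈ (selling hβ hS).cof (Finset.univ.image v) ∧ r ≠ s := by
    obtain ⟨h1, F, hF, h2⟩ := hc
    have hc' : (selling hβ hS).Cell (Finset.univ.image v) := ⟨h1, F, hF, h2⟩
    have hcard : (Finset.univ.image v).card = 5 := by
      rw [Finset.card_image_of_injective _ hi, Finset.card_fin]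
    have key : ∀ F' ∈ (selling hβ hS).Tile, Finset.univ.image v ⊆ F' →
        ∃ r, r ∉ Finset.univ.image v ∧ F' = insert r (Finset.univ.image v) := by
      intro F' hF' h3
      have h4 : (F' \ Finset.univ.image v).card = 1 := by
        rw [Finset.card_sdiff_of_subset h3, (selling hβ hS).card F' hF', hcard]
      obtain ⟨r, hr⟩ := Finset.card_eq_one.mp h4
      refine ⟨r, ?_, ?_⟩
      · have : r ∈ F' \ Finset.univ.image v := by rw [hr]; simp
        exact (Finset.mem_sdiff.mp this).2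
      · rw [← Finset.sdiff_union_of_subset h3, hr]; rfl
    obtain ⟨r, hr, hFr⟩ := key F hF h2
    obtain ⟨F', hF', hne, h3⟩ := (selling hβ hS).flip F hF r
      (by rw [hFr]; exact Finset.mem_insert_self _ _)
    rw [hFr, Finset.erase_insert hr] at h3
    obtain ⟨s, hs, hFs⟩ := key F' hF' h3
    refine ⟨r, s, ?_, ?_, ?_⟩
    · rw [Shell.mem_cof hc']
      refine ⟨hr, (selling hβ hS).sp_mono _ _ h1 (Finset.subset_insert _ _), F, hF, ?_⟩
      rw [hFr]
    · rw [Shell.mem_cof hc']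
      refine ⟨hs, (selling hβ hS).sp_mono _ _ h1 (Finset.subset_insert _ _), F', hF', ?_⟩
      rw [hFs]
    · rintro rfl
      exact hne (hFs.trans hFr.symm)
  have hall : (selling hβ hS).cof (Finset.univ.image v) = {r, s} := by
    apply Finset.Subset.antisymm
    · intro t ht
      rw [Finset.mem_insert, Finset.mem_singleton]
      by_contra hcon
      push Not at hcon
      have e1 := hopp r hr s hs hrs
      have e2 := hopp r hr t ht (Ne.symm hcon.1)
      have e3 := hopp s hs t ht (Ne.symm hcon.2)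
      rcases eps_cases hβ (hcof r hr).2.1 with h | h <;> omega
    · intro t ht
      rw [Finset.mem_insert, Finset.mem_singleton] at ht
      rcases ht with rfl | rfl
      · exact hr
      · exact hs
  rw [hall, Finset.sum_pair hrs]
  unfold ori
  rw [if_pos (hcof r hr).2.1, if_pos (hcof s hs).2.1, hopp r hr s hs hrs, neg_smul]
  simp

/-- exactness at the beginning -/
theorem fiber_beg {β : Ray} (hβ : IsUnit β) {f : (Fin 6 → Ray) → W} (hf : IsAltB β 6 f)
    (hd : dB β f = 0) : ∃ w, f = ori β w := by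
  classical
  obtain ⟨S, hS⟩ := exists_gen
  obtain ⟨v, hv, hv0⟩ : ∃ v : Fin 6 → Ray, Function.Injective v ∧
      Finset.univ.image v = (selling hβ hS).F0 := by
    obtain ⟨δ, hδ⟩ := (Shell.F0_mem : (selling hβ hS).F0 ∈ _)
    exact ⟨fun e => vr β (δ.1 *ᵥ uu e), vr_tile_inj hβ δ, hδ⟩
  have hOC : OCb β v := by
    apply (OC_iff hβ hS v).mp
    refine ⟨hv, ?_⟩
    rw [hv0]
    refine ⟨?_, _, Shell.F0_mem, Finset.Subset.refl _⟩
    exact (selling hβ hS).sp_mono _ _ ((selling hβ hS).pos _ Shell.F0_mem)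
      (Finset.filter_subset _ _)
  refine ⟨eps v • f v, ?_⟩
  have h1 : IsAltB β 6 (f - ori β (eps v • f v)) := by
    have h2 := ori_alt β (eps v • f v)
    constructor
    · intro u σ
      rw [Pi.sub_apply, Pi.sub_apply, hf.1, h2.1, smul_sub]
    · intro u hu
      rw [Pi.sub_apply, hf.2 u hu, h2.2 u hu, sub_zero]
  have h3 : f - ori β (eps v • f v) = 0 := by
    apply Shell.exact_beg (selling hβ hS) (m := 5) rfl ((alt_iff hβ hS _).mpr h1) _ hv hv0
    · rw [Pi.sub_apply]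
      unfold ori
      rw [if_pos hOC, smul_smul]
      rcases eps_cases hβ hOC with h | h <;> rw [h] <;> simp
    · have e1 := dA_eq hβ hS hf
      have e2 := dA_eq hβ hS (ori_alt β (eps v • f v))
      rw [hd] at e1
      rw [ori_d hβ] at e2
      funext u
      have e1u := congrFun e1 u
      have e2u := congrFun e2 u
      unfold Shell.dA at e1u e2u ⊢
      by_cases hu : Function.Injective u
      · rw [if_pos hu] at e1u e2u ⊢
        simp only [Pi.sub_apply, Finset.sum_sub_distrib]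
        rw [e1u, e2u]; simp
      · rw [if_neg hu]; rfl
  rw [sub_eq_zero] at h3
  exact h3

lemma ori_inj {β : Ray} (hβ : IsUnit β) {w : W} (h : ori β w = 0) : w = 0 := by
  obtain ⟨S, hS⟩ := exists_gen
  have hOC : OCb β (fun e => vr β ((1 : GL (Fin 3) ℤ).1 *ᵥ uu e)) := by
    refine ⟨vr_tile_inj hβ 1, ?_, 1, Finset.Subset.refl _⟩
    exact (selling hβ hS).sp_mono _ _ ((selling hβ hS).pos (tl β 1) ⟨1, rfl⟩)
      (Finset.filter_subset _ _)
  have h1 := congrFun h (fun e => vr β ((1 : GL (Fin 3) ℤ).1 *ᵥ uu e))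
  unfold ori at h1
  rw [if_pos hOC] at h1
  rcases eps_cases hβ hOC with h2 | h2 <;> rw [h2] at h1 <;> simpa using h1

end Pool.Agent.L0h47.CG
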