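import Pool.Agent.L0h47.CG.Cell

/-!
# Torsion free arithmetic groups act freely on the cells
-/

set_option autoImplicit false

namespace Pool.Agent.L0h47.CG

open Matrix

/-- an integral matrix that fixes all the rays of a spanning set is an involution -/
lemma sq_one {β : Ray} (hβ : IsUnit β) {a : SpecialLinearGroup (Fin 3) ℤ} {m : ℕ}
    {v : Fin m → Ray} (hv : OCb β v) (h : ∀ i, ∃ x : Fin 3 → ℤ, v i = vr β x ∧
      vr β ((sG a).1 *ᵥ x) = vr β x) : a * a = 1 := by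
  choose x hx hax using h
  have h1 : ∀ i, (sG a).1 *ᵥ ((sG a).1 *ᵥ x i) = x i := by
    intro i
    rcases vr_inj hβ (hax i) with h | h
    · rw [h, h]
    · rw [h, mulVec_neg, h, neg_neg]
  obtain ⟨b, rfl⟩ := hβ
  -- the rows of `a ^ 2 - 1` vanish
  have key : ∀ y : Fin 3 → ℤ, (∀ i, y ⬝ᵥ x i = 0) → y = 0 := by
    intro y hy
    have h2 : (fun i => (y i : ℚ)) ᵥ* (b⁻¹).1 = 0 := by
      apply hv.2.1
      intro r hr
      obtain ⟨i, -, rfl⟩ := Finset.mem_image.mp hr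
      rw [hx i, dot_ray, vecMul_vecMul, ← Units.val_mul, inv_mul_cancel, Units.val_one, vecMul_one]
      have : (fun i => (y i : ℚ)) ⬝ᵥ (fun j => (x i j : ℚ)) = ((y ⬝ᵥ x i : ℤ) : ℚ) := by
        simp [dotProduct]
      rw [this, hy i]; simp
    have h3 : ((fun i => (y i : ℚ)) ᵥ* (b⁻¹).1) ᵥ* b.1 = fun i => (y i : ℚ) := by
      rw [vecMul_vecMul, ← Units.val_mul, inv_mul_cancel, Units.val_one, vecMul_one]
    rw [h2, zero_vecMul] at h3
    funext i
    have := congrFun h3 i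
    simp only [Pi.zero_apply] at this ⊢
    exact_mod_cast this.symm
  have h2 : (sG a).1 * (sG a).1 - 1 = 0 := by
    ext i j
    have h3 : (fun j => ((sG a).1 * (sG a).1 - 1) i j) = 0 := by
      apply key
      intro k
      have h4 : (((sG a).1 * (sG a).1 - 1) *ᵥ x k) i = 0 := by
        rw [sub_mulVec, ← mulVec_mulVec, h1, one_mulVec, sub_self]
        rfl
      exact h4
    exact congrFun h3 j
  apply mtr_inj
  rw [mtr_mul, mtr_one]
  exact sub_eq_zero.mp h2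

variable {Sg : Finset Pr} {L : Level 3 Sg}

/-- **Freeness of the action on the cells.** -/
theorem free_cell (hTF : L.TorsionFree) {o : AG 3} {m : ℕ} {w : Fin m → Ray} (hw : OCg o w)
    {η : GQ 3} (κ : L.Kf) (τ : Equiv.Perm (Fin m)) (h1 : dg 3 η * o = o * κ)
    (h2 : ac η ∘ w = w ∘ τ) : η = 1 := by
  apply hTF o η
  · rw [mul_assoc, h1, inv_mul_cancel_left]
    exact κ.2
  -- a power fixes the rays
  have hpow : ∀ N : ℕ, ac (η ^ N) ∘ w = w ∘ (τ ^ N : Equiv.Perm (Fin m)) := by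
    intro N
    induction N with
    | zero =>
      funext i
      show ac (η ^ 0) (w i) = w ((τ ^ 0 : Equiv.Perm (Fin m)) i)
      rw [pow_zero, pow_zero, ac_one]
      rfl
    | succ N ih =>
      funext i
      show ac (η ^ (N + 1)) (w i) = w ((τ ^ (N + 1) : Equiv.Perm (Fin m)) i)
      rw [pow_succ, ac_mul]
      have h3 : ac η (w i) = w (τ i) := congrFun h2 i
      rw [h3]
      have h4 : ac (η ^ N) (w (τ i)) = w ((τ ^ N : Equiv.Perm (Fin m)) (τ i)) := congrFun ih (τ i)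
      rw [h4, pow_succ]
      rfl
  have hN := orderOf_pos τ
  set N := orderOf τ with hNdef
  have hfix : ∀ i, ac (η ^ N) (w i) = w i := by
    intro i
    have h3 : ac (η ^ N) (w i) = w ((τ ^ N : Equiv.Perm (Fin m)) i) := congrFun (hpow N) i
    rw [h3, hNdef, pow_orderOf_eq_one]
    rfl
  have hpowK : ∀ N : ℕ, dg 3 (η ^ N) * o = o * ((κ ^ N : L.Kf) : AG 3) := by
    intro N
    induction N with
    | zero => simp
    | succ N ih =>
      rw [pow_succ, map_mul, mul_assoc, h1, ← mul_assoc, ih, pow_succ, Subgroup.coe_mul, mul_assoc]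
  -- the power is integral in the frame
  have hfr := fr_spec o
  unfold IsFr at hfr
  have h3 : dg 3 ((fr o)⁻¹ * η ^ N * fr o) ∈ KN 3 1 := by
    have e : dg 3 ((fr o)⁻¹ * η ^ N * fr o) =
        ((dg 3 (fr o))⁻¹ * o) * ((κ ^ N : L.Kf) : AG 3) * ((dg 3 (fr o))⁻¹ * o)⁻¹ := by
      rw [map_mul, map_mul, map_inv]
      have h4 := hpowK N
      have h5 : dg 3 (η ^ N) = o * ((κ ^ N : L.Kf) : AG 3) * o⁻¹ := by
        rw [← h4, mul_inv_cancel_right]
      rw [h5]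
      group
    rw [e]
    exact mul_mem (mul_mem hfr (Kf_le L (κ ^ N).2)) (inv_mem hfr)
  obtain ⟨a, ha⟩ := exists_sZ h3
  have haa : a * a = 1 := by
    apply sq_one (mat_unit (fr o)) hw
    intro i
    obtain ⟨δ, hδ⟩ := hw.2.2
    have h4 : w i ∈ tl (mat (fr o)) δ := hδ (Finset.mem_image_of_mem _ (Finset.mem_univ _))
    obtain ⟨e, -, he⟩ := Finset.mem_image.mp h4
    refine ⟨δ.1 *ᵥ uu e, he.symm, ?_⟩
    have h5 := hfix i
    rw [← he, ac_vr] at h5
    rw [vr_comp, ← mat_sZ, ← mat_mul, ← ha]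
    have e2 : fr o * ((fr o)⁻¹ * η ^ N * fr o) = η ^ N * fr o := by group
    rw [e2, mat_mul]
    exact h5
  rw [isOfFinOrder_iff_pow_eq_one]
  refine ⟨N + N, by omega, ?_⟩
  have e3 : η ^ (N + N) = fr o * (((fr o)⁻¹ * η ^ N * fr o) * ((fr o)⁻¹ * η ^ N * fr o)) *
      (fr o)⁻¹ := by
    rw [pow_add]; group
  rw [e3, ha, ← map_mul, haa, map_one]
  group

/-- **An equivariant map from the cells to the group.** -/
theorem exists_sec (hTF : L.TorsionFree) (m : ℕ) : ∃ s : AG 3 → (Fin m → Ray) → GQ 3,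
    (∀ g v γ, OCg g v → s (dg 3 γ * g) (ac γ ∘ v) = γ * s g v) ∧
    (∀ g v (κ : L.Kf), OCg g v → s (g * κ) v = s g v) ∧
    (∀ g v (σ : Equiv.Perm (Fin m)), OCg g v → s g (v ∘ σ) = s g v) := by
  let rel : Setoid (AG 3 × (Fin m → Ray)) :=
    { r := fun x y => ∃ (γ : GQ 3) (κ : L.Kf) (σ : Equiv.Perm (Fin m)),
        y = (dg 3 γ * x.1 * κ, ac γ ∘ x.2 ∘ σ)
      iseqv := by
        refine ⟨fun x => ⟨1, 1, 1, ?_⟩, ?_, ?_⟩
        · apply Prod.ext
          · show x.1 = dg 3 1 * x.1 * ((1 : L.Kf) : AG 3)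
            rw [map_one, one_mul, Subgroup.coe_one, mul_one]
          · funext i
            show x.2 i = ac 1 (x.2 i)
            rw [ac_one]
        · rintro x y ⟨γ, κ, σ, rfl⟩
          refine ⟨γ⁻¹, κ⁻¹, σ⁻¹, ?_⟩
          apply Prod.ext
          · show x.1 = dg 3 γ⁻¹ * (dg 3 γ * x.1 * κ) * ((κ⁻¹ : L.Kf) : AG 3)
            rw [map_inv, Subgroup.coe_inv]; group
          · funext i
            show x.2 i = ac γ⁻¹ (ac γ (x.2 (σ (σ.symm i))))
            rw [ac_inv, Equiv.apply_symm_apply]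
        · rintro x y z ⟨γ, κ, σ, rfl⟩ ⟨γ', κ', σ', rfl⟩
          refine ⟨γ' * γ, κ * κ', σ * σ', ?_⟩
          apply Prod.ext
          · show dg 3 γ' * (dg 3 γ * x.1 * κ) * κ' = dg 3 (γ' * γ) * x.1 * ((κ * κ' : L.Kf) : AG 3)
            rw [map_mul, Subgroup.coe_mul]; group
          · funext i
            show ac γ' (ac γ (x.2 (σ (σ' i)))) = ac (γ' * γ) (x.2 ((σ * σ') i))
            rw [ac_mul]; rfl }
  have hout : ∀ z : AG 3 × (Fin m → Ray), ∃ (γ : GQ 3) (κ : L.Kf) (σ : Equiv.Perm (Fin m)),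
      z = (dg 3 γ * (Quotient.mk rel z).out.1 * κ, ac γ ∘ (Quotient.mk rel z).out.2 ∘ σ) := by
    intro z
    have h : rel.r (Quotient.mk rel z).out z := Quotient.exact (Quotient.out_eq (Quotient.mk rel z))
    exact h
  choose γ₀ κ₀ σ₀ h₀ using hout
  -- cells go to cells
  have hcell : ∀ (x : AG 3 × (Fin m → Ray)) (γ : GQ 3) (κ : L.Kf) (σ : Equiv.Perm (Fin m)),
      OCg (dg 3 γ * x.1 * κ) (ac γ ∘ x.2 ∘ σ) ↔ OCg x.1 x.2 := by
    intro x γ κ σ
    rw [OCg_right (Kf_le L κ.2), OCg_left, OCg_perm]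
  have huniq : ∀ (z : AG 3 × (Fin m → Ray)), OCg z.1 z.2 → ∀ (γ : GQ 3) (κ : L.Kf)
      (σ : Equiv.Perm (Fin m)), z = (dg 3 γ * (Quotient.mk rel z).out.1 * κ,
        ac γ ∘ (Quotient.mk rel z).out.2 ∘ σ) → γ₀ z = γ := by
    intro z hz γ κ σ hzz
    set o := (Quotient.mk rel z).out with ho
    have ho' : OCg o.1 o.2 := by
      rw [← hcell o γ κ σ]
      have e1 := congrArg Prod.fst hzz
      have e2 := congrArg Prod.snd hzz
      simp only at e1 e2
      rw [← e1, ← e2]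
      exact hz
    have h3 : (dg 3 (γ₀ z) * o.1 * κ₀ z, ac (γ₀ z) ∘ o.2 ∘ σ₀ z) =
        (dg 3 γ * o.1 * κ, ac γ ∘ o.2 ∘ σ) := by
      rw [← hzz]
      exact (h₀ z).symm
    have e1 := congrArg Prod.fst h3
    have e2 := congrArg Prod.snd h3
    simp only at e1 e2
    have h4 := free_cell hTF ho' (η := γ⁻¹ * γ₀ z) (κ * (κ₀ z)⁻¹) (σ * (σ₀ z)⁻¹)
      (by
        rw [map_mul, map_inv, Subgroup.coe_mul, Subgroup.coe_inv]
        have e3 : dg 3 (γ₀ z) * o.1 = dg 3 γ * o.1 * κ * (κ₀ z : AG 3)⁻¹ := by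
          rw [← e1, mul_inv_cancel_right]
        rw [mul_assoc, e3]
        group)
      (by
        funext i
        show ac (γ⁻¹ * γ₀ z) (o.2 i) = o.2 ((σ * (σ₀ z)⁻¹) i)
        have e4 : ac (γ₀ z) (o.2 (σ₀ z ((σ₀ z).symm i))) = ac γ (o.2 (σ ((σ₀ z).symm i))) :=
          congrFun e2 ((σ₀ z).symm i)
        rw [Equiv.apply_symm_apply] at e4
        rw [ac_mul, e4, ac_inv]
        rfl)
    rw [inv_mul_eq_one] at h4
    exact h4.symm
  refine ⟨fun g v => γ₀ (g, v), ?_, ?_, ?_⟩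
  · intro g v γ hgv
    have hq : Quotient.mk rel (dg 3 γ * g, ac γ ∘ v) = Quotient.mk rel (g, v) := by
      apply Quotient.sound
      apply rel.symm
      refine ⟨γ, 1, 1, Prod.ext ?_ rfl⟩
      show dg 3 γ * g = dg 3 γ * g * ((1 : L.Kf) : AG 3)
      rw [Subgroup.coe_one, mul_one]
    apply huniq (dg 3 γ * g, ac γ ∘ v) ((OCg_left γ g v).mpr hgv) _ (κ₀ (g, v)) (σ₀ (g, v))
    rw [hq]
    have e := h₀ (g, v)
    set o := (Quotient.mk rel (g, v)).out
    have e1 : g = dg 3 (γ₀ (g, v)) * o.1 * κ₀ (g, v) := congrArg Prod.fst e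
    have e2 : v = ac (γ₀ (g, v)) ∘ o.2 ∘ σ₀ (g, v) := congrArg Prod.snd e
    apply Prod.ext
    · show dg 3 γ * g = dg 3 (γ * γ₀ (g, v)) * o.1 * κ₀ (g, v)
      rw [map_mul, mul_assoc (dg 3 γ), mul_assoc (dg 3 γ), ← e1]
    · show ac γ ∘ v = ac (γ * γ₀ (g, v)) ∘ o.2 ∘ σ₀ (g, v)
      funext i
      have e3 := congrFun e2 i
      show ac γ (v i) = ac (γ * γ₀ (g, v)) (o.2 (σ₀ (g, v) i))
      rw [ac_mul, e3]
      rfl
  · intro g v κ hgv
    have hq : Quotient.mk rel (g * κ, v) = Quotient.mk rel (g, v) := by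
      apply Quotient.sound
      apply rel.symm
      refine ⟨1, κ, 1, ?_⟩
      apply Prod.ext
      · show g * κ = dg 3 1 * g * κ
        rw [map_one, one_mul]
      · funext i
        show v i = ac 1 (v i)
        rw [ac_one]
    apply huniq (g * κ, v) ((OCg_right (Kf_le L κ.2) v).mpr hgv) _ (κ₀ (g, v) * κ) (σ₀ (g, v))
    rw [hq]
    have e := h₀ (g, v)
    set o := (Quotient.mk rel (g, v)).out
    have e1 : g = dg 3 (γ₀ (g, v)) * o.1 * κ₀ (g, v) := congrArg Prod.fst e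
    have e2 : v = ac (γ₀ (g, v)) ∘ o.2 ∘ σ₀ (g, v) := congrArg Prod.snd e
    apply Prod.ext
    · show g * κ = dg 3 (γ₀ (g, v)) * o.1 * ((κ₀ (g, v) * κ : L.Kf) : AG 3)
      rw [Subgroup.coe_mul, ← mul_assoc, ← e1]
    · exact e2
  · intro g v σ hgv
    have hq : Quotient.mk rel (g, v ∘ σ) = Quotient.mk rel (g, v) := by
      apply Quotient.sound
      apply rel.symm
      refine ⟨1, 1, σ, ?_⟩
      apply Prod.ext
      · show g = dg 3 1 * g * ((1 : L.Kf) : AG 3)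
        rw [map_one, one_mul, Subgroup.coe_one, mul_one]
      · funext i
        show v (σ i) = ac 1 (v (σ i))
        rw [ac_one]
    apply huniq (g, v ∘ σ) ((OCg_perm σ).mpr hgv) _ (κ₀ (g, v)) (σ₀ (g, v) * σ)
    rw [hq]
    have e := h₀ (g, v)
    set o := (Quotient.mk rel (g, v)).out
    have e1 : g = dg 3 (γ₀ (g, v)) * o.1 * κ₀ (g, v) := congrArg Prod.fst e
    have e2 : v = ac (γ₀ (g, v)) ∘ o.2 ∘ σ₀ (g, v) := congrArg Prod.snd e
    apply Prod.ext
    · exact e1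
    · funext i
      exact congrFun e2 (σ i)

end Pool.Agent.L0h47.CG
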