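import Pool.Agent.L0h47.CG.RepTh
import Pool.Agent.W401.Cheb.Main

/-!
# Non-Eisenstein eigensystems and primes congruent to one
-/

set_option autoImplicit false

namespace Pool.Agent.L0h47.CG

open Matrix Polynomial NumberField Pool.Agent.W401.Cheb

/-- a Frobenius element that fixes the roots of unity of order `N` -/
lemma frob_cong {L' : Type} [Field L'] [NumberField L'] {N : ℕ} [NeZero N] {ζ : L'}
    (hζ : IsPrimitiveRoot ζ N) {l : ℕ} [hl : Fact l.Prime] (hlN : ¬ l ∣ N)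
    (φ : 𝓞 L' →+* AlgebraicClosure (ZMod l)) (σ : Gal(L'/ℚ)) (h : HasFrob l φ σ)
    (hσ : hζ.autToPow ℚ σ = 1) : N ∣ l - 1 := by
  have hζ' : IsPrimitiveRoot hζ.toInteger N := hζ.toInteger_isPrimitiveRoot
  have hfix : σ ζ = ζ := by
    rw [← hζ.autToPow_spec ℚ σ, hσ, Units.val_one]
    by_cases hN : N = 1
    · subst hN
      have : ζ = 1 := IsPrimitiveRoot.one_right_iff.mp hζ
      rw [this, one_pow]
    · have : Fact (1 < N) := ⟨by have := NeZero.ne N; omega⟩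
      rw [ZMod.val_one, pow_one]
  have h1 : σ • hζ.toInteger = hζ.toInteger := by
    apply RingOfIntegers.ext
    exact hfix
  have h2 := h hζ.toInteger
  rw [h1] at h2
  have hNl : NeZero ((N : ℕ) : AlgebraicClosure (ZMod l)) := by
    refine ⟨fun h0 => hlN ?_⟩
    exact (CharP.cast_eq_zero_iff (AlgebraicClosure (ZMod l)) l N).mp h0
  have hprim : IsPrimitiveRoot (φ hζ.toInteger) N := by
    rw [← isRoot_cyclotomic_iff]
    have h3 : IsRoot (cyclotomic N (𝓞 L')) hζ.toInteger := hζ'.isRoot_cyclotomic (NeZero.pos N)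
    have h4 := h3.map (f := φ)
    rwa [map_cyclotomic] at h4
  have hne : φ hζ.toInteger ≠ 0 := hprim.ne_zero (NeZero.ne N)
  apply hprim.dvd_of_pow_eq_one
  have hpos : l = (l - 1) + 1 := (Nat.succ_pred_eq_of_pos hl.out.pos).symm
  apply mul_right_cancel₀ hne
  rw [one_mul, ← pow_succ, ← hpos, ← h2]

variable {n : ℕ} {Sg : Finset Pr} {O : Type} [CommRing O]

/-- **A non-Eisenstein system of eigenvalues does not look like the trivial one at the primes
congruent to one.** -/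
theorem not_eisen (hn : 2 ≤ n) {k : Type} [Field k] [Finite k] [Algebra O k] (p : Pr)
    [CharP k (p : ℕ)] (θ : FreeAlgebra O (HI n Sg) →ₐ[O] k) {e t : ℤ} (he : e = 1 ∨ e = -1)
    {F : Type} [Field F] [NumberField F] [IsGalois ℚ F] (ρ : Gal(F/ℚ) →* GL (Fin n) k)
    (hatt : Attached θ e t ρ) (hirr : AbsIrr ρ) {N : ℕ} (hN : N ≠ 0)
    (hsat : ∀ l : {l : Pr // l ∉ Sg}, ((N : ℕ) : ℤ) ∣ (l.1 : ℕ) - 1 →
      satake θ t l = (X - 1) ^ n) : False := by
  have : NeZero N := ⟨hN⟩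
  let L' := CyclotomicField N F
  have hNF : NumberField L' := IsCyclotomicExtension.numberField {N} F L'
  have hζ : IsPrimitiveRoot (IsCyclotomicExtension.zeta N F L') N :=
    IsCyclotomicExtension.zeta_spec N F L'
  have hnor : Normal ℚ L' := Pool.Agent.W540.CH.normal_gen ℚ F L' N _ hζ
  have hG : IsGalois ℚ L' := ⟨⟩
  have hee : e * e = 1 := by rcases he with h | h <;> rw [h] <;> norm_num
  refine no_irr hn (p : ℕ) ρ hirr (AlgEquiv.restrictNormalHom F : Gal(L'/ℚ) →* Gal(F/ℚ))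
    (AlgEquiv.restrictNormalHom_surjective L') (hζ.autToPow ℚ) ?_
  intro g hg
  -- a prime with Frobenius `g ^ e`
  have hinf := infinite_frob L' (g ^ e)
  have hfin : ({l : ℕ | l ∣ N} ∪ ((fun l : Pr => (l : ℕ)) '' (Sg : Set Pr))).Finite := by
    apply Set.Finite.union
    · exact (Nat.divisors N).finite_toSet.subset (fun l hl => by
        rw [Finset.mem_coe, Nat.mem_divisors]; exact ⟨hl, hN⟩)
    · exact Sg.finite_toSet.image _
  obtain ⟨l, ⟨hl, hx⟩, hbad⟩ := (hinf.sdiff hfin).nonempty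
  rw [Set.mem_union, not_or] at hbad
  have hlf : Fact l.Prime := ⟨hl⟩
  have hlS : (⟨l, hl⟩ : Pr) ∉ Sg := fun h => hbad.2 ⟨⟨l, hl⟩, h, rfl⟩
  unfold xp at hx
  rw [dif_pos hl] at hx
  obtain ⟨⟨φ, hφ⟩⟩ : Nonempty {φ : 𝓞 L' →+* AlgebraicClosure (ZMod l) // HasFrob l φ (g ^ e)} := by
    by_contra h
    rw [not_nonempty_iff] at h
    exact hx Nat.card_of_isEmpty
  have hdvd := frob_cong hζ hbad.1 φ (g ^ e) hφ (by rw [map_zpow, hg, _root_.one_zpow])
  have hdvd' : ((N : ℕ) : ℤ) ∣ ((l : ℕ) : ℤ) - 1 := by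
    have h1 : ((l - 1 : ℕ) : ℤ) = (l : ℤ) - 1 := by
      rw [Nat.cast_sub hl.one_lt.le, Nat.cast_one]
    rw [← h1]
    exact_mod_cast hdvd
  have hs := hsat ⟨⟨l, hl⟩, hlS⟩ hdvd'
  have hφ' := hasFrob_rs (L := F) (L' := L') (AlgEquiv.restrictNormalHom F)
    (fun σ x => AlgEquiv.restrictNormal_commutes σ F x) hφ
  have hP : (RingHom.ker (rs (L := F) φ)).IsPrime := RingHom.ker_isPrime _
  have hch := hatt.frob ⟨⟨l, hl⟩, hlS⟩ (RingHom.ker (rs (L := F) φ)) hP (by
    rw [RingHom.mem_ker, map_natCast]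
    exact CharP.cast_eq_zero _ l) (AlgEquiv.restrictNormalHom F (g ^ e)) (by
    intro x
    rw [RingHom.mem_ker, map_sub, map_pow, hφ' x, sub_self])
  rw [hs] at hch
  have e1 : ((AlgEquiv.restrictNormalHom F (g ^ e) : Gal(F/ℚ))) ^ e =
      (AlgEquiv.restrictNormalHom F g : Gal(F/ℚ)) := by
    rw [← map_zpow, ← _root_.zpow_mul, hee, zpow_one]
  rw [e1] at hch
  exact hch

end Pool.Agent.L0h47.CG
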