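import Pool.Agent.L0h47.CG.Low

/-!
# Hecke operators in degrees zero and one, general coefficients
-/

set_option autoImplicit false

namespace Pool.Agent.L0h47.CG

open Matrix

variable {n : ℕ} {Sg : Finset Pr} {L : Level n Sg} {p : Pr} {O : Type} [CommRing O] {W : Type}
  [AddCommGroup W] [Module O W] {W' : Type} [AddCommGroup W'] [Module O W']

/-- multiplication by a power of `p` -/
def mp (p : Pr) (O : Type) [CommRing O] (W : Type) [AddCommGroup W] [Module O W] (r : ℕ) :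
    W →ₗ[O] W := LinearMap.lsmul O W (((p : ℕ) : O) ^ r)

lemma mp_apply (r : ℕ) (w : W) : mp p O W r w = ((p : ℕ) : O) ^ r • w := rfl

/-- the action on the coefficients modulo `p ^ r` -/
noncomputable def Coef.quotAct (C : Coef L p O W) (r : ℕ) :
    Representation O (L.K p) (W ⧸ LinearMap.range (mp p O W r)) where
  toFun k := Submodule.mapQ _ _ (C.act k) (by
    rintro _ ⟨w, rfl⟩
    exact ⟨C.act k w, by rw [mp_apply, mp_apply, map_smul]⟩)
  map_one' := by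
    apply LinearMap.ext
    intro w
    obtain ⟨w, rfl⟩ := Submodule.mkQ_surjective _ w
    rw [Submodule.mkQ_apply, Submodule.mapQ_apply, map_one]
    rfl
  map_mul' a b := by
    apply LinearMap.ext
    intro w
    obtain ⟨w, rfl⟩ := Submodule.mkQ_surjective _ w
    rw [Submodule.mkQ_apply, Submodule.mapQ_apply, map_mul]
    rfl

lemma Coef.quotAct_mk (C : Coef L p O W) (r : ℕ) (k : L.K p) (w : W) :
    C.quotAct r k (Submodule.mkQ (LinearMap.range (mp p O W r)) w) =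
      Submodule.mkQ (LinearMap.range (mp p O W r)) (C.act k w) := rfl

lemma Coef.quot_cont (C : Coef L p O W) (r s : ℕ) : ∃ t : ℕ, ∀ k : L.K p, Near n p t k.1 →
    ∀ w, ∃ w', C.quotAct r k w - w = ((p : ℕ) : O) ^ s • w' := by
  obtain ⟨t, ht⟩ := C.cont s
  refine ⟨t, fun k hk w => ?_⟩
  obtain ⟨w, rfl⟩ := Submodule.mkQ_surjective _ w
  obtain ⟨w', hw'⟩ := ht k hk w
  refine ⟨Submodule.mkQ _ w', ?_⟩
  rw [C.quotAct_mk, ← map_sub, hw', map_smul]

/-- the coefficients modulo `p ^ r` -/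
noncomputable def Coef.quot (C : Coef L p O W) (r : ℕ) :
    Coef L p O (W ⧸ LinearMap.range (mp p O W r)) where
  act := C.quotAct r
  cont := C.quot_cont r

/-- lifting of equivariant functions -/
theorem lift_Fn (C : Coef L p O W) (C' : Coef L p O W') (φ : W →ₗ[O] W')
    (hφ : ∀ k w, φ (C.act k w) = C'.act k (φ w)) {F' : AG n → W'} (hF' : F' ∈ C'.Fn)
    (hr : ∀ g, ∃ w, φ w = F' g) : ∃ F ∈ C.Fn, ∀ g, φ (F g) = F' g := by
  choose ψ hψ using hr
  have hk : ∀ g : AG n, (((g : AG n ⧸ L.Kf).out)⁻¹ * g) ∈ L.Kf := by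
    intro g
    rw [← QuotientGroup.eq, QuotientGroup.out_eq']
  let κ : AG n → L.Kf := fun g => ⟨_, hk g⟩
  refine ⟨fun g => C.act (L.pc p (κ g))⁻¹ (ψ ((g : AG n ⧸ L.Kf).out)), ?_, ?_⟩
  · intro g k
    have e1 : ((g * k.1 : AG n) : AG n ⧸ L.Kf) = (g : AG n ⧸ L.Kf) := by
      rw [QuotientGroup.eq]
      have : (g * k.1)⁻¹ * g = k.1⁻¹ := by group
      rw [this]
      exact inv_mem k.2
    have e2 : κ (g * k.1) = κ g * k := by
      apply Subtype.ext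
      show (((g * k.1 : AG n) : AG n ⧸ L.Kf).out)⁻¹ * (g * k.1) = ((g : AG n ⧸ L.Kf).out)⁻¹ * g * k.1
      rw [e1, mul_assoc]
    have e3 : L.pc p (κ g * k) = L.pc p (κ g) * L.pc p k := rfl
    show C.act (L.pc p (κ (g * k.1)))⁻¹ (ψ (((g * k.1 : AG n) : AG n ⧸ L.Kf).out)) =
      C.act (L.pc p k)⁻¹ (C.act (L.pc p (κ g))⁻¹ (ψ ((g : AG n ⧸ L.Kf).out)))
    rw [e1, e2, e3, _root_.mul_inv_rev, map_mul]
    rfl
  · intro g
    show φ (C.act (L.pc p (κ g))⁻¹ (ψ ((g : AG n ⧸ L.Kf).out))) = F' g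
    rw [hφ, hψ, ← hF' _ (κ g)]
    congr 1
    show (g : AG n ⧸ L.Kf).out * (((g : AG n ⧸ L.Kf).out)⁻¹ * g) = g
    group

/-- the torsion of a noetherian module is bounded -/
lemma exists_tor [IsNoetherian O W] (p : Pr) : ∃ r : ℕ, ∀ (m : ℕ) (w : W),
    ((p : ℕ) : O) ^ m • w = 0 → ((p : ℕ) : O) ^ r • w = 0 := by
  let f : ℕ →o Submodule O W :=
    { toFun m := LinearMap.ker (mp p O W m)
      monotone' := by
        intro a b hab w hw
        rw [LinearMap.mem_ker, mp_apply] at hw ⊢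
        obtain ⟨c, rfl⟩ := Nat.exists_eq_add_of_le hab
        rw [pow_add, mul_comm, mul_smul, hw, smul_zero] }
  obtain ⟨r, hr⟩ := (monotone_stabilizes_iff_noetherian (R := O) (M := W)).mpr inferInstance f
  refine ⟨r, fun m w hw => ?_⟩
  have h1 : w ∈ f m := hw
  have h2 : w ∈ f (max r m) := f.monotone (le_max_right _ _) h1
  rw [← hr _ (le_max_left _ _)] at h2
  exact h2

lemma hecke_coc {l : Pr} (x : LG n l) {c : GQ n → AG n → W} (hc : IsCoc c) :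
    IsCoc (fun γ => hecke l x (c γ)) := by
  intro γ δ g
  show hecke l x (c (γ * δ)) g = hecke l x (c γ) g + hecke l x (c δ) ((dg n γ)⁻¹ * g)
  have e : c (γ * δ) = c γ + fun g => c δ ((dg n γ)⁻¹ * g) := by
    funext g
    exact hc γ δ g
  rw [e, hecke_add, hecke_left]

lemma rep_mem {C : Coef L p O W} {F : AG n → W} (hF : F ∈ C.Fn) (γ : GQ n) :
    (fun g => F ((dg n γ)⁻¹ * g)) ∈ C.Fn := (C.rep γ ⟨F, hF⟩).2

lemma hecke_mem {C : Coef L p O W} {l : Pr} (hl : l ∉ Sg) (hp : p ∈ Sg) (x : LG n l)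
    {F : AG n → W} (hF : F ∈ C.Fn) : hecke l x F ∈ C.Fn := (C.heckeFn l hl hp x ⟨F, hF⟩).2

lemma quot_kill (r : ℕ) (a : W ⧸ LinearMap.range (mp p O W r)) : (p : ℕ) ^ r • a = 0 := by
  obtain ⟨w, rfl⟩ := Submodule.mkQ_surjective _ a
  rw [← map_nsmul, Submodule.mkQ_apply, Submodule.Quotient.mk_eq_zero]
  refine ⟨w, ?_⟩
  rw [mp_apply, ← Nat.cast_pow, Nat.cast_smul_eq_nsmul]

/-- **Hecke operators in degree one.** -/
theorem one_div (hn : 3 ≤ n) (hp : p ∈ Sg) (C : Coef L p O W) [IsNoetherian O W] :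
    ∃ N : ℕ, N ≠ 0 ∧ ∀ l : Pr, l ∉ Sg → ((N : ℕ) : ℤ) ∣ (l : ℕ) - 1 → ∀ k : ℕ,
      ∀ c : GQ n → AG n → W, IsCoc c → (∀ γ, c γ ∈ C.Fn) →
      ∃ F ∈ C.Fn, ∃ c' : GQ n → AG n → W, IsCoc c' ∧ (∀ γ, c' γ ∈ C.Fn) ∧
        ∀ γ x, hecke l (td n l k) (c γ) x - deg n l k • c γ x =
          (F ((dg n γ)⁻¹ * x) - F x) + ((p : ℕ) : O) • c' γ x := by
  obtain ⟨r₀, hr₀⟩ := exists_tor (O := O) (W := W) p
  obtain ⟨N, hN, hle, htr⟩ := exists_triv C (r₀ + 1)
  have hpr : (p : ℕ) ^ (r₀ + 1) ≠ 0 := pow_ne_zero _ p.2.ne_zero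
  refine ⟨N * (p : ℕ) ^ (r₀ + 1), mul_ne_zero hN hpr, ?_⟩
  intro l hlS hl k c hc hcF
  set π := Submodule.mkQ (LinearMap.range (mp p O W (r₀ + 1))) with hπ
  obtain ⟨Fb, hFb, hFb'⟩ := tors_one hn (C.quot (r₀ + 1)) hN hpr (quot_kill (r₀ + 1)) hle
    (by
      intro κ hκ w
      obtain ⟨w, rfl⟩ := Submodule.mkQ_surjective _ w
      obtain ⟨w', hw'⟩ := htr κ hκ w
      show π (C.act (L.pc p ⟨κ, hle hκ⟩) w) = π w
      rw [← sub_eq_zero, ← map_sub, hw']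
      exact (Submodule.Quotient.mk_eq_zero _).mpr ⟨w', rfl⟩)
    (c := fun γ x => π (c γ x))
    (by
      intro γ δ x
      show π (c (γ * δ) x) = π (c γ x) + π (c δ ((dg n γ)⁻¹ * x))
      rw [hc, map_add])
    (by
      intro γ g κ
      show π (c γ (g * κ.1)) = (C.quot (r₀ + 1)).act (L.pc p κ)⁻¹ (π (c γ g))
      rw [hcF γ g κ]
      rfl)
    l hl k
  obtain ⟨F, hF, hFF⟩ := lift_Fn C (C.quot (r₀ + 1)) π (fun _ _ => rfl) hFb
    (fun g => Submodule.mkQ_surjective _ _)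
  let E : GQ n → AG n → W := fun γ x => hecke l (td n l k) (c γ) x - deg n l k • c γ x -
    (F ((dg n γ)⁻¹ * x) - F x)
  have hEF : ∀ γ, E γ ∈ C.Fn := by
    intro γ
    have h1 := C.Fn.sub_mem (C.Fn.sub_mem (hecke_mem hlS hp (td n l k) (hcF γ))
      (C.Fn.nsmul_mem (hcF γ) (deg n l k))) (C.Fn.sub_mem (rep_mem hF γ) hF)
    exact h1
  have hEc : IsCoc E := by
    intro γ δ x
    have h1 := hecke_coc (td n l k) hc γ δ x
    simp only at h1
    show hecke l (td n l k) (c (γ * δ)) x - deg n l k • c (γ * δ) x -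
      (F ((dg n (γ * δ))⁻¹ * x) - F x) = (hecke l (td n l k) (c γ) x - deg n l k • c γ x -
      (F ((dg n γ)⁻¹ * x) - F x)) + (hecke l (td n l k) (c δ) ((dg n γ)⁻¹ * x) -
      deg n l k • c δ ((dg n γ)⁻¹ * x) - (F ((dg n δ)⁻¹ * ((dg n γ)⁻¹ * x)) - F ((dg n γ)⁻¹ * x)))
    rw [h1, hc γ δ x, map_mul, _root_.mul_inv_rev, mul_assoc, smul_add]
    abel
  have hEr : ∀ γ x, ∃ w, mp p O W (r₀ + 1) w = E γ x := by
    intro γ x
    have h1 : π (E γ x) = 0 := by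
      show π (hecke l (td n l k) (c γ) x - deg n l k • c γ x - (F ((dg n γ)⁻¹ * x) - F x)) = 0
      have h2 := hFb' γ x
      have h3 : hecke l (td n l k) (fun x => π (c γ x)) x = π (hecke l (td n l k) (c γ) x) :=
        hecke_map π.toAddMonoidHom (c γ) (td n l k) x
      rw [h3, ← hFF, ← hFF] at h2
      rw [map_sub, map_sub, map_sub, map_nsmul, h2, sub_self]
    exact (Submodule.Quotient.mk_eq_zero _).mp h1
  have hlift : ∀ γ, ∃ f ∈ C.Fn, ∀ x, mp p O W (r₀ + 1) (f x) = E γ x := fun γ =>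
    lift_Fn C C (mp p O W (r₀ + 1)) (fun k w => by rw [mp_apply, mp_apply, map_smul]) (hEF γ)
      (hEr γ)
  choose c'' hc''F hc'' using hlift
  refine ⟨F, hF, fun γ x => ((p : ℕ) : O) ^ r₀ • c'' γ x, ?_, ?_, ?_⟩
  · intro γ δ x
    show ((p : ℕ) : O) ^ r₀ • c'' (γ * δ) x = ((p : ℕ) : O) ^ r₀ • c'' γ x +
      ((p : ℕ) : O) ^ r₀ • c'' δ ((dg n γ)⁻¹ * x)
    rw [← sub_eq_zero, ← smul_add, ← smul_sub]
    apply hr₀ (r₀ + 1)
    rw [smul_sub, smul_add, ← mp_apply, ← mp_apply, ← mp_apply, hc'', hc'', hc'', hEc γ δ x,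
      sub_self]
  · intro γ
    exact C.Fn.smul_mem _ (hc''F γ)
  · intro γ x
    have h1 : ((p : ℕ) : O) • ((p : ℕ) : O) ^ r₀ • c'' γ x = E γ x := by
      rw [smul_smul, ← pow_succ', ← mp_apply, hc'']
    rw [h1]
    show _ = (F ((dg n γ)⁻¹ * x) - F x) + (hecke l (td n l k) (c γ) x - deg n l k • c γ x -
    (F ((dg n γ)⁻¹ * x) - F x))
    abel

/-- **Hecke operators in degree zero.** -/
theorem zero_div (hn : 3 ≤ n) (hp : p ∈ Sg) (C : Coef L p O W) [IsNoetherian O W] :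
    ∃ N : ℕ, N ≠ 0 ∧ ∀ l : Pr, l ∉ Sg → ((N : ℕ) : ℤ) ∣ (l : ℕ) - 1 → ∀ k : ℕ,
      ∀ F ∈ C.Fn, (∀ γ g, F (dg n γ * g) = F g) →
      ∃ F' ∈ C.Fn, (∀ γ g, F' (dg n γ * g) = F' g) ∧
        ∀ x, hecke l (td n l k) F x - deg n l k • F x = ((p : ℕ) : O) • F' x := by
  obtain ⟨r₀, hr₀⟩ := exists_tor (O := O) (W := W) p
  obtain ⟨N, hN, hle, htr⟩ := exists_triv C (r₀ + 1)
  refine ⟨N, hN, ?_⟩
  intro l hlS hl k F hF hG
  set π := Submodule.mkQ (LinearMap.range (mp p O W (r₀ + 1))) with hπ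
  have h0 := tors_zero hn (C.quot (r₀ + 1)) hN hle
    (by
      intro κ hκ w
      obtain ⟨w, rfl⟩ := Submodule.mkQ_surjective _ w
      obtain ⟨w', hw'⟩ := htr κ hκ w
      show π (C.act (L.pc p ⟨κ, hle hκ⟩) w) = π w
      rw [← sub_eq_zero, ← map_sub, hw']
      exact (Submodule.Quotient.mk_eq_zero _).mpr ⟨w', rfl⟩)
    (F := fun x => π (F x))
    (by
      intro g κ
      show π (F (g * κ.1)) = (C.quot (r₀ + 1)).act (L.pc p κ)⁻¹ (π (F g))
      rw [hF g κ]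
      rfl)
    (by
      intro γ g
      show π (F (dg n γ * g)) = π (F g)
      rw [hG]) l hl k
  let E : AG n → W := fun x => hecke l (td n l k) F x - deg n l k • F x
  have hEF : E ∈ C.Fn := C.Fn.sub_mem (hecke_mem hlS hp (td n l k) hF)
    (C.Fn.nsmul_mem hF (deg n l k))
  have hEG : ∀ γ g, E (dg n γ * g) = E g := by
    intro γ g
    show hecke l (td n l k) F (dg n γ * g) - deg n l k • F (dg n γ * g) =
      hecke l (td n l k) F g - deg n l k • F g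
    rw [hG, ← hecke_left]
    congr 2
    funext g
    exact hG γ g
  have hEr : ∀ x, ∃ w, mp p O W (r₀ + 1) w = E x := by
    intro x
    have h1 : π (E x) = 0 := by
      show π (hecke l (td n l k) F x - deg n l k • F x) = 0
      have h2 := h0 x
      have h3 : hecke l (td n l k) (fun x => π (F x)) x = π (hecke l (td n l k) F x) :=
        hecke_map π.toAddMonoidHom F (td n l k) x
      rw [h3] at h2
      rw [map_sub, map_nsmul, h2, sub_self]
    exact (Submodule.Quotient.mk_eq_zero _).mp h1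
  obtain ⟨f, hf, hfE⟩ := lift_Fn C C (mp p O W (r₀ + 1))
    (fun k w => by rw [mp_apply, mp_apply, map_smul]) hEF hEr
  refine ⟨fun x => ((p : ℕ) : O) ^ r₀ • f x, C.Fn.smul_mem _ hf, ?_, ?_⟩
  · intro γ g
    show ((p : ℕ) : O) ^ r₀ • f (dg n γ * g) = ((p : ℕ) : O) ^ r₀ • f g
    rw [← sub_eq_zero, ← smul_sub]
    apply hr₀ (r₀ + 1)
    rw [smul_sub, ← mp_apply, ← mp_apply, hfE, hfE, hEG, sub_self]
  · intro x
    rw [smul_smul, ← pow_succ', ← mp_apply, hfE]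

end Pool.Agent.L0h47.CG
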