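import Pool.Agent.L0h47.CG.Coset

/-!
# Hecke operators on the module of functions and on cohomology
-/

set_option autoImplicit false

namespace Pool.Agent.L0h47.CG

open Matrix

variable {n : ℕ} {l : Pr} {A : Type}

lemma inc_same (l : Pr) (y : LG n l) : (inc n l y).1 l = y := Pi.mulSingle_eq_same l y

lemma inc_ne {l m : Pr} (h : m ≠ l) (y : LG n l) : (inc n l y).1 m = 1 :=
  Pi.mulSingle_eq_of_ne h y

lemma AG_ext {g h : AG n} (H : ∀ m, g.1 m = h.1 m) : g = h := Subtype.ext (funext H)

lemma mul_apply' (g h : AG n) (m : Pr) : (g * h).1 m = g.1 m * h.1 m := rfl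

lemma inv_apply' (g : AG n) (m : Pr) : (g⁻¹).1 m = (g.1 m)⁻¹ := rfl

/-- the part of an adelic matrix outside of `l` -/
noncomputable def offl (l : Pr) (κ : AG n) : AG n := κ * (inc n l (κ.1 l))⁻¹

lemma offl_same (l : Pr) (κ : AG n) : (offl l κ).1 l = 1 := by
  unfold offl
  rw [mul_apply', inv_apply', inc_same, mul_inv_cancel]

lemma offl_ne {l m : Pr} (h : m ≠ l) (κ : AG n) : (offl l κ).1 m = κ.1 m := by
  unfold offl
  rw [mul_apply', inv_apply', inc_ne h, inv_one, mul_one]

lemma offl_comm (l : Pr) (κ : AG n) (y : LG n l) : offl l κ * inc n l y = inc n l y * offl l κ := by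
  apply AG_ext
  intro m
  rw [mul_apply', mul_apply']
  by_cases h : m = l
  · subst h
    rw [offl_same, one_mul, mul_one]
  · rw [inc_ne h, one_mul, mul_one]

lemma offl_mul (l : Pr) (κ : AG n) : offl l κ * inc n l (κ.1 l) = κ := by
  unfold offl
  rw [inv_mul_cancel_right]

/-- right invariance under `GL_n(Z_l)` -/
def RU (l : Pr) (F : AG n → A) : Prop := ∀ g, ∀ u ∈ U n l, F (g * inc n l u) = F g

lemma RU.coset {F : AG n → A} (h : RU l F) (g : AG n) {x y : LG n l}
    (hxy : (x : LG n l ⧸ U n l) = (y : LG n l ⧸ U n l)) :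
    F (g * inc n l x) = F (g * inc n l y) := by
  rw [QuotientGroup.eq] at hxy
  have e : y = x * (x⁻¹ * y) := by group
  rw [e, map_mul, ← mul_assoc, h _ _ hxy]

lemma RU.offl {F : AG n → A} (h : RU l F) (κ : AG n) : RU l (fun g => F (g * offl l κ)) := by
  intro g u hu
  show F (g * inc n l u * CG.offl l κ) = F (g * CG.offl l κ)
  rw [mul_assoc, ← offl_comm, ← mul_assoc, h _ _ hu]

/-- left multiplication by an element of `GL_n(Z_l)` on the cosets in a double coset -/
noncomputable def shift (x : LG n l) (u : U n l) : HC n l x ≃ HC n l x where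
  toFun c := ⟨u.1 • c.1, by
    obtain ⟨v, hv, e⟩ := c.2
    refine ⟨u.1 * v, mul_mem u.2 hv, ?_⟩
    rw [e, mul_assoc]
    rfl⟩
  invFun c := ⟨(u⁻¹).1 • c.1, by
    obtain ⟨v, hv, e⟩ := c.2
    refine ⟨(u⁻¹).1 * v, mul_mem (u⁻¹).2 hv, ?_⟩
    rw [e, mul_assoc]
    rfl⟩
  left_inv c := by
    apply Subtype.ext
    show (u⁻¹).1 • u.1 • c.1 = c.1
    rw [smul_smul, ← Subgroup.coe_mul, inv_mul_cancel, Subgroup.coe_one, one_smul]
  right_inv c := by
    apply Subtype.ext
    show u.1 • (u⁻¹).1 • c.1 = c.1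
    rw [smul_smul, ← Subgroup.coe_mul, mul_inv_cancel, Subgroup.coe_one, one_smul]

lemma shift_out (x : LG n l) (u : U n l) (c : HC n l x) :
    (((shift x u c).1.out : LG n l) : LG n l ⧸ U n l) = ((u.1 * c.1.out : LG n l) : LG n l ⧸ U n l) := by
  rw [QuotientGroup.out_eq']
  show u.1 • c.1 = _
  conv_lhs => rw [← QuotientGroup.out_eq' c.1]
  rfl

section
variable [AddCommGroup A]

/-- the effect of right translations on Hecke operators -/
lemma hecke_shift {F : AG n → A} (h : RU l F) (x : LG n l) (κ : AG n) (hκ : κ.1 l ∈ U n l)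
    (g : AG n) : hecke l x F (g * κ) = hecke l x (fun g => F (g * offl l κ)) g := by
  unfold hecke
  symm
  rw [← finsum_comp_equiv (shift x ⟨κ.1 l, hκ⟩)]
  apply finsum_congr
  intro c
  have h1 := (h.offl κ).coset g (shift_out x ⟨κ.1 l, hκ⟩ c)
  refine h1.trans ?_
  show F _ = F _
  congr 1
  conv_rhs => rw [← offl_mul l κ]
  rw [mul_assoc g, mul_assoc g, mul_assoc (offl l κ), ← map_mul, offl_comm]

lemma hecke_RU {F : AG n → A} (h : RU l F) (x : LG n l) : RU l (hecke l x F) := by
  intro g u hu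
  rw [hecke_shift h x (inc n l u) (by rw [inc_same]; exact hu)]
  congr 1
  funext g
  have : offl l (inc n l u) = 1 := by
    unfold offl
    rw [inc_same, mul_inv_cancel]
  rw [this, mul_one]

lemma hecke_left (F : AG n → A) (x : LG n l) (a g : AG n) :
    hecke l x (fun g => F (a * g)) g = hecke l x F (a * g) := by
  unfold hecke
  apply finsum_congr
  intro c
  rw [mul_assoc]

lemma hecke_add (F F' : AG n → A) (x : LG n l) (g : AG n) :
    hecke l x (F + F') g = hecke l x F g + hecke l x F' g := by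
  unfold hecke
  exact finsum_add_distrib (Set.toFinite _) (Set.toFinite _)

lemma hecke_map {B : Type} [AddCommGroup B] (φ : A →+ B) (F : AG n → A) (x : LG n l) (g : AG n) :
    hecke l x (fun g => φ (F g)) g = φ (hecke l x F g) := by
  unfold hecke
  exact (φ.map_finsum (Set.toFinite _)).symm

end

section
variable {Sg : Finset Pr} {L : Level n Sg} {p : Pr} {O : Type} [CommRing O] {W : Type}
  [AddCommGroup W] [Module O W]

lemma inc_mem (L : Level n Sg) (hl : l ∉ Sg) {u : LG n l} (hu : u ∈ U n l) : inc n l u ∈ L.Kf := by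
  intro m
  by_cases h : m = l
  · subst h
    rw [inc_same, L.full _ hl]
    exact hu
  · rw [inc_ne h]
    exact one_mem _

lemma offl_mem {L : Level n Sg} {κ : AG n} (h : κ ∈ L.Kf) : offl l κ ∈ L.Kf := by
  intro m
  by_cases hm : m = l
  · subst hm
    rw [offl_same]
    exact one_mem _
  · rw [offl_ne hm]
    exact h m

lemma Fn_RU (C : Coef L p O W) (hl : l ∉ Sg) (hp : p ∈ Sg) (F : C.Fn) : RU l F.1 := by
  intro g u hu
  have hne : p ≠ l := fun e => hl (e ▸ hp)
  have h1 := F.2 g ⟨inc n l u, inc_mem L hl hu⟩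
  rw [h1]
  have h2 : L.pc p ⟨inc n l u, inc_mem L hl hu⟩ = 1 := by
    apply Subtype.ext
    exact inc_ne hne u
  rw [h2, inv_one, map_one]
  rfl

/-- the Hecke operator on the module of functions -/
noncomputable def Coef.heckeFn (C : Coef L p O W) (l : Pr) (hl : l ∉ Sg) (hp : p ∈ Sg)
    (x : LG n l) : C.Fn →ₗ[O] C.Fn where
  toFun F := ⟨hecke l x F.1, fun g k => by
    have hne : p ≠ l := fun e => hl (e ▸ hp)
    rw [hecke_shift (Fn_RU C hl hp F) x k.1 (L.le l (k.2 l)) g]
    have h1 : (fun g => F.1 (g * offl l k.1)) = fun g => (C.act (L.pc p k)⁻¹).toAddMonoidHom (F.1 g) := by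
      funext g
      rw [F.2 g ⟨offl l k.1, offl_mem k.2⟩]
      have h2 : L.pc p ⟨offl l k.1, offl_mem k.2⟩ = L.pc p k := Subtype.ext (offl_ne hne k.1)
      rw [h2]
      rfl
    rw [h1, hecke_map]
    rfl⟩
  map_add' F F' := by
    apply Subtype.ext
    funext g
    exact hecke_add F.1 F'.1 x g
  map_smul' c F := by
    apply Subtype.ext
    funext g
    exact hecke_map (DistribSMul.toAddMonoidHom W c) F.1 x g

lemma heckeFn_apply (C : Coef L p O W) (hl : l ∉ Sg) (hp : p ∈ Sg)
    (x : LG n l) (F : C.Fn) (g : AG n) : (C.heckeFn l hl hp x F).1 g = hecke l x F.1 g := rfl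

/-- the Hecke operator as an endomorphism of the representation of `GL_n(Q)⁺` -/
noncomputable def Coef.heckeRep (C : Coef L p O W) (l : Pr) (hl : l ∉ Sg) (hp : p ∈ Sg)
    (x : LG n l) : Rep.of C.rep ⟶ Rep.of C.rep :=
  Rep.ofHom (LinearMap.intertwiningMap_of_isIntertwiningMap C.rep C.rep (C.heckeFn l hl hp x)
    fun γ F => by
      apply Subtype.ext
      funext g
      exact hecke_left F.1 x (dg n γ)⁻¹ g)

end

end Pool.Agent.L0h47.CG
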