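import Pool.Agent.L0h47.CG.Eigen
import Pool.Agent.L0h47.CG.Count
import Pool.Agent.L0h47.CG.Galois

/-!
# Non-Eisenstein classes do not occur in degrees zero and one
-/

set_option autoImplicit false

namespace Pool.Agent.L0h47.CG

open Matrix Polynomial NumberField

variable {n : ℕ} {Sg : Finset Pr} {L : Level n Sg} {p : Pr} {O : Type} [CommRing O] {W : Type}
  [AddCommGroup W] [Module O W]

lemma satake_triv {k : Type} [Field k] [Algebra O k] (p : Pr) [CharP k (p : ℕ)]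
    (θ : FreeAlgebra O (HI n Sg) →ₐ[O] k) (t : ℤ) (l : {l : Pr // l ∉ Sg})
    (hl : ((p : ℕ) : ℤ) ∣ (l.1 : ℕ) - 1)
    (hθ : ∀ j : ℕ, j ≤ n → θ (FreeAlgebra.ι O ⟨l, td n l.1 j⟩) = (n.choose j : k)) :
    satake θ t l = (X - 1) ^ n := by
  have h1 : ((l.1 : ℕ) : k) = 1 := by
    have h2 : (((l.1 : ℕ) : ℤ) - 1 : ℤ) = (((l.1 : ℕ) : ℤ) - 1) := rfl
    have h3 : ((((l.1 : ℕ) : ℤ) - 1 : ℤ) : k) = 0 := (CharP.intCast_eq_zero_iff k (p : ℕ) _).mpr hl
    push_cast at h3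
    exact sub_eq_zero.mp h3
  unfold satake
  rw [sub_eq_add_neg, add_comm (X : k[X]) (-1), add_pow]
  apply Finset.sum_congr rfl
  intro j hj
  rw [Finset.mem_range] at hj
  rw [h1, _root_.one_zpow, mul_one, hθ j (by omega), C_mul, C_pow, C_neg, C_1]
  rw [show (C ((n.choose j : ℕ) : k) : k[X]) = ((n.choose j : ℕ) : k[X]) from C_eq_natCast _]
  ring

/-- **Degrees zero and one.** -/
theorem low_main (hn : 3 ≤ n) (hp : p ∈ Sg) (C : Coef L p O W) [IsNoetherian O W] {k : Type}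
    [Field k] [Finite k] [Algebra O k] [CharP k (p : ℕ)] (θ : FreeAlgebra O (HI n Sg) →ₐ[O] k)
    {e t : ℤ} (he : e = 1 ∨ e = -1) {F : Type} [Field F] [NumberField F] [IsGalois ℚ F]
    (ρ : Gal(F/ℚ) →* GL (Fin n) k) (hatt : Attached θ e t ρ) (hirr : AbsIrr ρ) {i : ℕ}
    (h : C.LocNe hp i θ) : 2 ≤ i := by
  by_contra hi
  obtain ⟨N, hN, H⟩ := theta_low hn hp C θ (by omega : i < 2) h
  refine not_eisen (by omega) p θ he ρ hatt hirr (N := N * (p : ℕ))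
    (mul_ne_zero hN p.2.ne_zero) ?_
  intro l hl
  have h1 : ((N : ℕ) : ℤ) ∣ (l.1 : ℕ) - 1 := dvd_trans (by push_cast; exact dvd_mul_right _ _) hl
  have h2 : ((p : ℕ) : ℤ) ∣ (l.1 : ℕ) - 1 := dvd_trans (by push_cast; exact dvd_mul_left _ _) hl
  apply satake_triv p θ t l h2
  intro j hj
  rw [H l h1 j]
  exact (CharP.cast_eq_iff_mod_eq k (p : ℕ)).mpr (deg_mod n l.1 p hj h2)

end Pool.Agent.L0h47.CG
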