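import Pool.Agent.L0h47.CG.Sell4

/-!
# The orientation of the tiles
-/

set_option autoImplicit false

namespace Pool.Agent.L0h47.CG

open Matrix

/-- the coordinates of a symmetric matrix -/
def kap : Matrix (Fin 3) (Fin 3) ℚ →ₗ[ℚ] (Fin 6 → ℚ) where
  toFun r := ![r 0 0, r 1 1, r 2 2, r 0 1, r 0 2, r 1 2]
  map_add' r s := by
    funext i; fin_cases i <;> rfl
  map_smul' a r := by
    funext i; fin_cases i <;> rfl

/-- the symmetric matrix with given coordinates -/
def kin : (Fin 6 → ℚ) →ₗ[ℚ] Matrix (Fin 3) (Fin 3) ℚ where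
  toFun x := !![x 0, x 3, x 4; x 3, x 1, x 5; x 4, x 5, x 2]
  map_add' r s := by
    funext i j; fin_cases i <;> fin_cases j <;> rfl
  map_smul' a r := by
    funext i j; fin_cases i <;> fin_cases j <;> rfl

lemma kap_kin (x : Fin 6 → ℚ) : kap (kin x) = x := by
  funext i; fin_cases i <;> rfl

lemma kin_symm (x : Fin 6 → ℚ) : (kin x)ᵀ = kin x := by
  funext i j; fin_cases i <;> fin_cases j <;> rfl

lemma kin_kap {r : Matrix (Fin 3) (Fin 3) ℚ} (hr : rᵀ = r) : kin (kap r) = r := by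
  have h : ∀ i j, r i j = r j i := fun i j => congrFun (congrFun hr j) i
  funext i j
  fin_cases i <;> fin_cases j <;> first | rfl | exact h _ _

/-- the action of a matrix on the coordinates -/
def Lg (γ : Matrix (Fin 3) (Fin 3) ℚ) : (Fin 6 → ℚ) →ₗ[ℚ] (Fin 6 → ℚ) where
  toFun x := kap (γ * kin x * γᵀ)
  map_add' x y := by simp [Matrix.mul_add, Matrix.add_mul]
  map_smul' a x := by simp

lemma Lg_kap (γ : Matrix (Fin 3) (Fin 3) ℚ) {r : Matrix (Fin 3) (Fin 3) ℚ} (hr : rᵀ = r) :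
    Lg γ (kap r) = kap (γ * r * γᵀ) := by
  show kap (γ * kin (kap r) * γᵀ) = _
  rw [kin_kap hr]

lemma Lg_mul (γ γ' : Matrix (Fin 3) (Fin 3) ℚ) : Lg (γ * γ') = Lg γ ∘ₗ Lg γ' := by
  apply LinearMap.ext
  intro x
  show kap (γ * γ' * kin x * (γ * γ')ᵀ) = Lg γ (kap (γ' * kin x * γ'ᵀ))
  rw [Lg_kap]
  · rw [transpose_mul]; simp only [Matrix.mul_assoc]
  · rw [transpose_mul, transpose_mul, transpose_transpose, kin_symm, Matrix.mul_assoc]

lemma Lg_one : Lg 1 = LinearMap.id := by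
  apply LinearMap.ext
  intro x
  show kap (1 * kin x * 1ᵀ) = x
  rw [transpose_one, Matrix.one_mul, Matrix.mul_one, kap_kin]

lemma det_Lg_mul (γ γ' : Matrix (Fin 3) (Fin 3) ℚ) :
    LinearMap.det (Lg (γ * γ')) = LinearMap.det (Lg γ) * LinearMap.det (Lg γ') := by
  rw [Lg_mul, LinearMap.det_comp]

lemma det_Lg_diag (d : Fin 3 → ℚ) :
    LinearMap.det (Lg (diagonal d)) = (d 0 * d 1 * d 2) ^ 4 := by
  have h : Lg (diagonal d) = Matrix.toLin' (diagonal
      ![d 0 * d 0, d 1 * d 1, d 2 * d 2, d 0 * d 1, d 0 * d 2, d 1 * d 2]) := by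
    apply LinearMap.ext
    intro x
    rw [Matrix.toLin'_apply]
    funext i
    rw [mulVec_diagonal]
    show kap (diagonal d * kin x * (diagonal d)ᵀ) i = _
    rw [diagonal_transpose]
    have h2 : ∀ i j, (diagonal d * kin x * diagonal d) i j = d i * kin x i j * d j := by
      intro i j
      rw [mul_diagonal, diagonal_mul]
    fin_cases i
    · show (diagonal d * kin x * diagonal d) 0 0 = d 0 * d 0 * x 0
      rw [h2]; show d 0 * x 0 * d 0 = _; ring
    · show (diagonal d * kin x * diagonal d) 1 1 = d 1 * d 1 * x 1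
      rw [h2]; show d 1 * x 1 * d 1 = _; ring
    · show (diagonal d * kin x * diagonal d) 2 2 = d 2 * d 2 * x 2
      rw [h2]; show d 2 * x 2 * d 2 = _; ring
    · show (diagonal d * kin x * diagonal d) 0 1 = d 0 * d 1 * x 3
      rw [h2]; show d 0 * x 3 * d 1 = _; ring
    · show (diagonal d * kin x * diagonal d) 0 2 = d 0 * d 2 * x 4
      rw [h2]; show d 0 * x 4 * d 2 = _; ring
    · show (diagonal d * kin x * diagonal d) 1 2 = d 1 * d 2 * x 5
      rw [h2]; show d 1 * x 5 * d 2 = _; ring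
  rw [h, LinearMap.det_toLin', det_diagonal]
  simp [Fin.prod_univ_six]
  ring

theorem det_Lg_pos {γ : Matrix (Fin 3) (Fin 3) ℚ} (hγ : γ.det ≠ 0) : 0 < LinearMap.det (Lg γ) := by
  refine Matrix.diagonal_transvection_induction_of_det_ne_zero
    (fun γ => 0 < LinearMap.det (Lg γ)) γ hγ ?_ ?_ ?_
  · intro d hd
    rw [det_Lg_diag]
    rw [det_diagonal, Fin.prod_univ_three] at hd
    positivity
  · intro t
    have h1 : t.toMatrix = transvection t.i t.j (t.c / 2) * transvection t.i t.j (t.c / 2) := by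
      rw [transvection_mul_transvection_same t.i t.j t.hij, add_halves]; rfl
    rw [h1, det_Lg_mul]
    have h2 : LinearMap.det (Lg (transvection t.i t.j (t.c / 2))) ≠ 0 := by
      have h3 : transvection t.i t.j (t.c / 2) * transvection t.i t.j (-(t.c / 2)) = 1 := by
        rw [transvection_mul_transvection_same t.i t.j t.hij]; simp
      have h4 := det_Lg_mul (transvection t.i t.j (t.c / 2)) (transvection t.i t.j (-(t.c / 2)))
      rw [h3, Lg_one, LinearMap.det_id] at h4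
      intro h5
      rw [h5, zero_mul] at h4
      exact one_ne_zero h4
    exact mul_self_pos.mpr h2
  · intro A B _ _ hA hB
    rw [det_Lg_mul]
    exact mul_pos hA hB

/-- the determinant of six symmetric matrices -/
noncomputable def DD (v : Fin 6 → Matrix (Fin 3) (Fin 3) ℚ) : ℚ :=
  (Pi.basisFun ℚ (Fin 6)).det fun i => kap (v i)

lemma DD_act {γ : Matrix (Fin 3) (Fin 3) ℚ} {v : Fin 6 → Matrix (Fin 3) (Fin 3) ℚ}
    (hv : ∀ i, (v i)ᵀ = v i) :
    DD (fun i => γ * v i * γᵀ) = LinearMap.det (Lg γ) * DD v := by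
  unfold DD
  have : (fun i => kap (γ * v i * γᵀ)) = (Lg γ) ∘ fun i => kap (v i) := by
    funext i
    simp only [Function.comp]
    rw [Lg_kap γ (hv i)]
  rw [this, Module.Basis.det_comp]

lemma DD_perm (v : Fin 6 → Matrix (Fin 3) (Fin 3) ℚ) (σ : Equiv.Perm (Fin 6)) :
    DD (v ∘ σ) = (Equiv.Perm.sign σ : ℤ) * DD v := by
  unfold DD
  have := (Pi.basisFun ℚ (Fin 6)).det.map_perm (fun i => kap (v i)) σ
  rw [show (fun i => kap ((v ∘ σ) i)) = (fun i => kap (v i)) ∘ σ from rfl, this]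
  rw [Units.smul_def, zsmul_eq_mul]

lemma DD_sum (v : Fin 5 → Matrix (Fin 3) (Fin 3) ℚ) {ι : Type} (s : Finset ι) (a : ι → ℚ)
    (r : ι → Matrix (Fin 3) (Fin 3) ℚ) :
    DD (Fin.cons (∑ e ∈ s, a e • r e) v : Fin 6 → Matrix (Fin 3) (Fin 3) ℚ) =
      ∑ e ∈ s, a e * DD (Fin.cons (r e) v : Fin 6 → Matrix (Fin 3) (Fin 3) ℚ) := by
  unfold DD
  have h : ∀ r : Matrix (Fin 3) (Fin 3) ℚ,
      (fun i => kap ((Fin.cons r v : Fin 6 → Matrix (Fin 3) (Fin 3) ℚ) i)) =
      Function.update (fun i => kap ((Fin.cons 0 v : Fin 6 → Matrix (Fin 3) (Fin 3) ℚ) i)) 0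
        (kap r) := by
    intro r
    funext i
    refine Fin.cases ?_ (fun j => ?_) i
    · simp
    · rw [Function.update_of_ne (Fin.succ_ne_zero j)]; simp
  rw [h]
  simp_rw [h (r _)]
  rw [map_sum]
  simp_rw [map_smul]
  have := (Pi.basisFun ℚ (Fin 6)).det.map_update_sum s 0 (fun e => a e • kap (r e))
    (fun i => kap ((Fin.cons 0 v : Fin 6 → Matrix (Fin 3) (Fin 3) ℚ) i))
  rw [this]
  apply Finset.sum_congr rfl
  intro e _
  rw [AlternatingMap.map_update_smul, smul_eq_mul]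

lemma DD_eq_zero (v : Fin 5 → Matrix (Fin 3) (Fin 3) ℚ) {r : Matrix (Fin 3) (Fin 3) ℚ}
    (h : ∃ i, v i = r) : DD (Fin.cons r v : Fin 6 → Matrix (Fin 3) (Fin 3) ℚ) = 0 := by
  obtain ⟨i, hi⟩ := h
  unfold DD
  apply AlternatingMap.map_eq_zero_of_eq _ _ (i := 0) (j := i.succ)
  · simp [hi]
  · exact (Fin.succ_ne_zero i).symm

end Pool.Agent.L0h47.CG
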