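import Pool.Agent.L0h47.CG.Orient

/-!
# The orientation of the tiles, part 2
-/

set_option autoImplicit false

namespace Pool.Agent.L0h47.CG

open Matrix

lemma vr_symm (β : Matrix (Fin 3) (Fin 3) ℚ) (v : Fin 3 → ℤ) : (vr β v)ᵀ = vr β v := by
  unfold vr; rw [transpose_vecMulVec]

lemma vr_act (γ β : Matrix (Fin 3) (Fin 3) ℚ) (v : Fin 3 → ℤ) :
    γ * vr β v * γᵀ = vr (γ * β) v := by
  unfold vr
  rw [mul_vecMulVec, vecMulVec_mul, vecMul_transpose, mulVec_mulVec]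

lemma vr_comp (β : Matrix (Fin 3) (Fin 3) ℚ) (D : Matrix (Fin 3) (Fin 3) ℤ) (v : Fin 3 → ℤ) :
    vr β (D *ᵥ v) = vr (β * D.map (fun a => (a : ℚ))) v := by
  unfold vr
  rw [map_mulVec, mulVec_mulVec]

/-- the standard ordered tile -/
def r0 (e : Fin 6) : Matrix (Fin 3) (Fin 3) ℚ := vr 1 (uu e)

/-- the coordinates of the standard tile -/
def m0 : Matrix (Fin 6) (Fin 6) ℤ :=
  !![1, 0, 0, 0, 0, 0; 1, 1, 0, 1, 0, 0; 1, 1, 1, 1, 1, 1; 0, 1, 0, 0, 0, 0; 0, 1, 1, 0, 0, 1;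
    0, 0, 1, 0, 0, 0]

/-- its inverse -/
def m0i : Matrix (Fin 6) (Fin 6) ℤ :=
  !![1, 0, 0, 0, 0, 0; 0, 0, 0, 1, 0, 0; 0, 0, 0, 0, 0, 1; -1, 1, 0, -1, 0, 0;
    0, -1, 1, 1, -1, 0; 0, 0, 0, -1, 1, -1]

lemma m0_mul : m0 * m0i = 1 := by decide

lemma DD_r0 : DD r0 ≠ 0 := by
  unfold DD
  rw [Pi.basisFun_det]
  have h : (fun i => kap (r0 i)) = m0.map (fun a => (a : ℚ)) := by
    funext i j
    unfold r0 vr
    rw [one_mulVec]
    fin_cases i <;> fin_cases j <;> simp [kap, uu, m0, vecMulVec_apply]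
  show Matrix.det (fun i => kap (r0 i)) ≠ 0
  rw [h]
  have h2 : m0.map (fun a => (a : ℚ)) * m0i.map (fun a => (a : ℚ)) = 1 := by
    have : (Int.castRingHom ℚ).mapMatrix (m0 * m0i) = 1 := by rw [m0_mul]; simp
    rw [map_mul] at this
    exact this
  exact Matrix.det_ne_zero_of_right_inverse h2

lemma DD_frame {β : Matrix (Fin 3) (Fin 3) ℚ} (hβ : IsUnit β) (δ : GL (Fin 3) ℤ) :
    DD (fun e => vr β (δ.1 *ᵥ uu e)) ≠ 0 := by
  have h1 : (fun e => vr β (δ.1 *ᵥ uu e)) = fun e => (β * δ.1.map (fun a => (a : ℚ))) * r0 e *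
      (β * δ.1.map (fun a => (a : ℚ)))ᵀ := by
    funext e
    rw [vr_comp]
    unfold r0
    rw [vr_act, Matrix.mul_one]
  rw [h1, DD_act (v := r0) (fun i => vr_symm _ _)]
  apply mul_ne_zero _ DD_r0
  apply ne_of_gt
  apply det_Lg_pos
  exact ((Matrix.isUnit_iff_isUnit_det _).mp (hβ.mul (isUnit_map δ))).ne_zero

lemma exp_vec (v : Fin 3 → ℤ) (i j : Fin 3) :
    v i * v j = ∑ e, (-((ww (p1 e) ⬝ᵥ v) * (ww (p2 e) ⬝ᵥ v))) * (uu e i * uu e j) := by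
  fin_cases i <;> fin_cases j <;>
  · simp [Fin.sum_univ_six, ww, uu, p1, p2, dotProduct, Fin.sum_univ_three]
    try ring

lemma exp_q (A : Matrix (Fin 3) (Fin 3) ℤ) (v : Fin 3 → ℤ) :
    q (A *ᵥ v) = ∑ e, (-((ww (p1 e) ⬝ᵥ v) * (ww (p2 e) ⬝ᵥ v))) * q (A *ᵥ uu e) := by
  simp only [Fin.sum_univ_six, ww, uu, p1, p2, dotProduct, Fin.sum_univ_three, q, mulVec]
  simp
  ring

lemma exp_ray (β : Matrix (Fin 3) (Fin 3) ℚ) (v : Fin 3 → ℤ) :
    vr β v = ∑ e, ((-((ww (p1 e) ⬝ᵥ v) * (ww (p2 e) ⬝ᵥ v)) : ℤ) : ℚ) • vr β (uu e) := by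
  have h1 : ∀ v, vr β v = β * vr 1 v * βᵀ := by
    intro v; rw [vr_act, Matrix.mul_one]
  simp_rw [h1 (uu _)]
  rw [h1 v]
  have h2 : vr 1 v = ∑ e, ((-((ww (p1 e) ⬝ᵥ v) * (ww (p2 e) ⬝ᵥ v)) : ℤ) : ℚ) • vr 1 (uu e) := by
    funext i j
    rw [Matrix.sum_apply]
    simp only [Matrix.smul_apply, smul_eq_mul, vr, one_mulVec, vecMulVec_apply]
    exact_mod_cast exp_vec v i j
  rw [h2, Matrix.mul_sum, Matrix.sum_mul]
  apply Finset.sum_congr rfl
  intro e _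
  rw [Matrix.mul_smul, Matrix.smul_mul]

/-- **Two tiles with a common wall lie on different sides of the wall.** -/
theorem sign_wall {β : Matrix (Fin 3) (Fin 3) ℚ} (hβ : IsUnit β) {δ δ' : GL (Fin 3) ℤ}
    {v : Fin 5 → Matrix (Fin 3) (Fin 3) ℚ} (hv : Function.Injective v)
    {r1 r2 : Matrix (Fin 3) (Fin 3) ℚ} (hr1 : r1 ∉ Finset.univ.image v)
    (h1 : insert r1 (Finset.univ.image v) = tl β δ)
    (h2 : insert r2 (Finset.univ.image v) = tl β δ') (hne : tl β δ ≠ tl β δ') :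
    DD (Fin.cons r1 v : Fin 6 → Matrix (Fin 3) (Fin 3) ℚ) *
      DD (Fin.cons r2 v : Fin 6 → Matrix (Fin 3) (Fin 3) ℚ) < 0 := by
  -- `r1` and `r2` are rays
  obtain ⟨e1, -, he1⟩ := Finset.mem_image.mp
    (show r1 ∈ tl β δ by rw [← h1]; exact Finset.mem_insert_self _ _)
  obtain ⟨e2, -, he2⟩ := Finset.mem_image.mp
    (show r2 ∈ tl β δ' by rw [← h2]; exact Finset.mem_insert_self _ _)
  set x : Fin 3 → ℤ := δ'.1 *ᵥ uu e2 with hx
  set y : Fin 3 → ℤ := (δ⁻¹).1 *ᵥ x with hy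
  set a : Fin 6 → ℤ := fun e => -((ww (p1 e) ⬝ᵥ y) * (ww (p2 e) ⬝ᵥ y)) with ha
  have hr2 : r2 = ∑ e, (a e : ℚ) • vr β (δ.1 *ᵥ uu e) := by
    rw [← he2]
    have h3 : x = δ.1 *ᵥ y := (mulVec_inv δ x).symm
    rw [h3, vr_comp, exp_ray]
    apply Finset.sum_congr rfl
    intro e _
    rw [vr_comp]
  have hD : DD (Fin.cons r2 v : Fin 6 → Matrix (Fin 3) (Fin 3) ℚ) =
      a e1 * DD (Fin.cons r1 v : Fin 6 → Matrix (Fin 3) (Fin 3) ℚ) := by
    rw [hr2, DD_sum, Finset.sum_eq_single e1, he1]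
    · intro e _ he
      rw [DD_eq_zero, mul_zero]
      have h3 : vr β (δ.1 *ᵥ uu e) ∈ tl β δ := Finset.mem_image.mpr ⟨e, Finset.mem_univ _, rfl⟩
      rw [← h1, Finset.mem_insert] at h3
      rcases h3 with h3 | h3
      · rw [← he1] at h3
        exact absurd (vr_tile_inj hβ δ h3) he
      · obtain ⟨i, -, hi⟩ := Finset.mem_image.mp h3
        exact ⟨i, hi⟩
    · simp
  -- the sign of `a e1`
  have hr2F : r2 ∉ tl β δ := by
    intro h3
    apply hne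
    symm
    apply Finset.eq_of_subset_of_card_le
    · rw [← h2]
      apply Finset.insert_subset h3
      rw [← h1]; exact Finset.subset_insert _ _
    · rw [tl_card hβ, tl_card hβ]
  have hr1F : r1 ∉ tl β δ' := by
    intro h3
    apply hne
    apply Finset.eq_of_subset_of_card_le
    · rw [← h1]
      apply Finset.insert_subset h3
      rw [← h2]; exact Finset.subset_insert _ _
    · rw [tl_card hβ, tl_card hβ]
  have q1 : q y ≠ 1 := by
    intro h3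
    apply hr2F
    rw [← he2, mem_tl hβ]
    exact h3
  have q1' : 1 ≤ q y := q_ge δ' δ e2
  have q2 : q ((δ'⁻¹).1 *ᵥ (δ.1 *ᵥ uu e1)) ≠ 1 := by
    intro h3
    apply hr1F
    rw [← he1, mem_tl hβ]
    exact h3
  have q2' := q_ge δ δ' e1
  have q3 : q ((δ'⁻¹).1 *ᵥ (δ.1 *ᵥ y)) = 1 := by
    rw [hy, mulVec_inv, hx, inv_mulVec, q_uu]
  have i1 : q y = ∑ e, a e := by
    have := exp_q 1 y
    simp only [one_mulVec, q_uu, mul_one] at this
    exact this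
  have i2 : q ((δ'⁻¹).1 *ᵥ (δ.1 *ᵥ y)) = ∑ e, a e * q ((δ'⁻¹).1 *ᵥ (δ.1 *ᵥ uu e)) := by
    have := exp_q ((δ'⁻¹).1 * δ.1) y
    simp only [← mulVec_mulVec] at this
    exact this
  have i3 : q ((δ'⁻¹).1 *ᵥ (δ.1 *ᵥ y)) - q y =
      a e1 * (q ((δ'⁻¹).1 *ᵥ (δ.1 *ᵥ uu e1)) - 1) := by
    rw [i1, i2, ← Finset.sum_sub_distrib, Finset.sum_eq_single e1]
    · ring
    · intro e _ he
      have h3 : vr β (δ.1 *ᵥ uu e) ∈ tl β δ := Finset.mem_image.mpr ⟨e, Finset.mem_univ _, rfl⟩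
      rw [← h1, Finset.mem_insert] at h3
      rcases h3 with h3 | h3
      · rw [← he1] at h3
        exact absurd (vr_tile_inj hβ δ h3) he
      · have h4 : vr β (δ.1 *ᵥ uu e) ∈ tl β δ' := by
          rw [← h2]; exact Finset.mem_insert_of_mem h3
        rw [mem_tl hβ] at h4
        rw [h4]; ring
    · simp
  rw [q3] at i3
  have i4 : a e1 < 0 := by
    have h5 : 1 < q y := lt_of_le_of_ne q1' (Ne.symm q1)
    have h6 : 1 < q ((δ'⁻¹).1 *ᵥ (δ.1 *ᵥ uu e1)) := lt_of_le_of_ne q2' (Ne.symm q2)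
    by_contra h7
    push Not at h7
    nlinarith
  have hD1 : DD (Fin.cons r1 v : Fin 6 → Matrix (Fin 3) (Fin 3) ℚ) ≠ 0 := by
    -- the tuple is a permutation of the frame
    have h3 : ∀ i : Fin 6, ∃ e, vr β (δ.1 *ᵥ uu e) =
        (Fin.cons r1 v : Fin 6 → Matrix (Fin 3) (Fin 3) ℚ) i := by
      intro i
      have h4 : (Fin.cons r1 v : Fin 6 → Matrix (Fin 3) (Fin 3) ℚ) i ∈ tl β δ := by
        rw [← h1]
        refine Fin.cases ?_ (fun j => ?_) i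
        · simp
        · rw [Fin.cons_succ]
          exact Finset.mem_insert_of_mem (Finset.mem_image_of_mem _ (Finset.mem_univ _))
      obtain ⟨e, -, he⟩ := Finset.mem_image.mp h4
      exact ⟨e, he⟩
    choose s hs using h3
    have hs' : Function.Injective s := by
      intro i j hij
      have h4 : (Fin.cons r1 v : Fin 6 → Matrix (Fin 3) (Fin 3) ℚ) i =
          (Fin.cons r1 v : Fin 6 → Matrix (Fin 3) (Fin 3) ℚ) j := by
        rw [← hs i, ← hs j, hij]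
      have h5 : Function.Injective (Fin.cons r1 v : Fin 6 → Matrix (Fin 3) (Fin 3) ℚ) := by
        rw [Fin.cons_injective_iff]
        refine ⟨?_, hv⟩
        rintro ⟨k, hk⟩
        exact hr1 (Finset.mem_image.mpr ⟨k, Finset.mem_univ _, hk⟩)
      exact h5 h4
    have hb : Function.Bijective s := Finite.injective_iff_bijective.mp hs'
    have h6 : (Fin.cons r1 v : Fin 6 → Matrix (Fin 3) (Fin 3) ℚ) =
        (fun e => vr β (δ.1 *ᵥ uu e)) ∘ (Equiv.ofBijective s hb) := by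
      funext i
      exact (hs i).symm
    rw [h6, DD_perm]
    apply mul_ne_zero _ (DD_frame hβ δ)
    rcases Int.units_eq_one_or (Equiv.Perm.sign (Equiv.ofBijective s hb)) with h | h <;> rw [h] <;>
      simp
  rw [hD]
  have i5 : (a e1 : ℚ) < 0 := by exact_mod_cast i4
  have : DD (Fin.cons r1 v : Fin 6 → Matrix (Fin 3) (Fin 3) ℚ) *
      (a e1 * DD (Fin.cons r1 v : Fin 6 → Matrix (Fin 3) (Fin 3) ℚ)) =
      a e1 * (DD (Fin.cons r1 v : Fin 6 → Matrix (Fin 3) (Fin 3) ℚ) *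
        DD (Fin.cons r1 v : Fin 6 → Matrix (Fin 3) (Fin 3) ℚ)) := by ring
  rw [this]
  exact mul_neg_of_neg_of_pos i5 (mul_self_pos.mpr hD1)

end Pool.Agent.L0h47.CG
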