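import Pool.Agent.L0h47.CG.Stmt

/-!
# Absolutely irreducible representations in characteristic `p` with many unipotent elements
-/

set_option autoImplicit false

namespace Pool.Agent.L0h47.CG

open Matrix Polynomial

variable {n : ℕ} {k : Type} [Field k] {Γ : Type} [Group Γ]

lemma unip_pow (p : ℕ) [Fact p.Prime] [CharP k p] {A : Matrix (Fin n) (Fin n) k}
    (h : A.charpoly = (X - 1) ^ n) : A ^ p ^ n = 1 := by
  have h1 : (A - 1) ^ n = 0 := by
    have h2 := Matrix.aeval_self_charpoly A
    rw [h, map_pow, map_sub, aeval_X, map_one] at h2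
    exact h2
  have h2 : (A - 1) ^ p ^ n = 0 := by
    have hle : n ≤ p ^ n := (Nat.lt_pow_self (Fact.out (p := p.Prime)).one_lt).le
    obtain ⟨c, hc⟩ := Nat.exists_eq_add_of_le hle
    rw [hc, pow_add, h1, zero_mul]
  have : CharP (Matrix (Fin n) (Fin n) k) p ∨ n = 0 := by
    rcases Nat.eq_zero_or_pos n with h | h
    · exact Or.inr h
    · left
      have : Nonempty (Fin n) := ⟨⟨0, h⟩⟩
      infer_instance
  rcases this with h3 | h3
  · have h4 : ExpChar (Matrix (Fin n) (Fin n) k) p := ExpChar.prime Fact.out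
    rw [sub_pow_expChar_pow_of_commute p n (Commute.one_right A), one_pow] at h2
    exact sub_eq_zero.mp h2
  · subst h3
    exact Subsingleton.elim _ _

/-- the action of a group of matrices on vectors -/
@[reducible] def vecAct (Q : Subgroup (GL (Fin n) k)) : MulAction Q (Fin n → k) where
  smul g v := g.1.1 *ᵥ v
  one_smul v := Matrix.one_mulVec v
  mul_smul g h v := by
    show (g.1.1 * h.1.1) *ᵥ v = g.1.1 *ᵥ (h.1.1 *ᵥ v)
    rw [Matrix.mulVec_mulVec]

/-- commuting with everything in an absolutely irreducible representation means scalar -/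
lemma scalar_of_comm (hn : n ≠ 0) (ρ : Γ →* GL (Fin n) k) (hirr : AbsIrr ρ)
    (A : Matrix (Fin n) (Fin n) k) (hA : ∀ σ, (ρ σ).1 * A = A * (ρ σ).1) :
    (∀ i j, i ≠ j → A i j = 0) := by
  let k' := SplittingField A.charpoly
  let f := algebraMap k k'
  have hdeg : (A.charpoly.map f).degree ≠ 0 := by
    rw [degree_map, Matrix.charpoly_degree_eq_dim]
    simpa using hn
  obtain ⟨μ, hμ⟩ := (SplittingField.splits A.charpoly).exists_eval_eq_zero hdeg
  let B : Matrix (Fin n) (Fin n) k' := A.map f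
  have hB : (B - Matrix.scalar (Fin n) μ).det = 0 := by
    have h1 : B.charpoly = A.charpoly.map f := by
      rw [← Matrix.charpoly_map]
    have h2 : B.charpoly.eval μ = 0 := by rw [h1]; exact hμ
    rw [Matrix.eval_charpoly] at h2
    have h3 : B - Matrix.scalar (Fin n) μ = -(Matrix.scalar (Fin n) μ - B) := by abel
    rw [h3, Matrix.det_neg, h2, mul_zero]
  obtain ⟨v, hv, hv0⟩ := Matrix.exists_mulVec_eq_zero_iff.mpr hB
  let S : Submodule k' (Fin n → k') := LinearMap.ker (Matrix.toLin' (B - Matrix.scalar (Fin n) μ))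
  have hmem : ∀ w, w ∈ S ↔ (B - Matrix.scalar (Fin n) μ) *ᵥ w = 0 := by
    intro w
    rw [LinearMap.mem_ker, Matrix.toLin'_apply]
  have hS := hirr k' S (by
    intro σ w hw
    rw [hmem] at hw ⊢
    have hc : (B - Matrix.scalar (Fin n) μ) * ((ρ σ).1.map f) =
        ((ρ σ).1.map f) * (B - Matrix.scalar (Fin n) μ) := by
      rw [Matrix.sub_mul, Matrix.mul_sub, ← Matrix.map_mul, ← Matrix.map_mul, hA]
      congr 1
      exact (Matrix.scalar_commute μ (fun r => mul_comm _ _) _)
    rw [Matrix.mulVec_mulVec, hc, ← Matrix.mulVec_mulVec, hw, Matrix.mulVec_zero])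
  rcases hS with h | h
  · exfalso
    have h1 : v ∈ S := (hmem v).mpr hv0
    rw [h, Submodule.mem_bot] at h1
    exact hv h1
  · intro i j hij
    have h1 : (Pi.single j (1 : k') : Fin n → k') ∈ S := by rw [h]; exact Submodule.mem_top
    rw [hmem, Matrix.mulVec_single_one] at h1
    have h2 := congrFun h1 i
    have h3 : (B - Matrix.scalar (Fin n) μ) i j = 0 := h2
    rw [Matrix.sub_apply, Matrix.scalar_apply, Matrix.diagonal_apply_ne _ hij, sub_zero] at h3
    exact (map_eq_zero_iff f f.injective).mp h3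

/-- **No absolutely irreducible representation is unipotent on the kernel of an abelian
character.** -/
theorem no_irr (hn : 2 ≤ n) [Finite k] (p : ℕ) [Fact p.Prime] [CharP k p] {A : Type} [CommGroup A]
    (ρ : Γ →* GL (Fin n) k) (hirr : AbsIrr ρ) {Γ' : Type} [Group Γ'] (res : Γ' →* Γ)
    (hres : Function.Surjective res) (χ : Γ' →* A)
    (hu : ∀ g, χ g = 1 → ((ρ (res g)).1).charpoly = (X - 1) ^ n) : False := by
  have hn0 : n ≠ 0 := by omega
  -- the image of the kernel is a `p`-group
  let Q : Subgroup (GL (Fin n) k) := (χ.ker.map res).map ρ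
  have hQ : ∀ g ∈ Q, ∃ τ, χ τ = 1 ∧ ρ (res τ) = g := by
    rintro _ ⟨_, ⟨τ, hτ, rfl⟩, rfl⟩
    exact ⟨τ, hτ, rfl⟩
  have hP : IsPGroup p Q := by
    rintro ⟨g, hg⟩
    obtain ⟨τ, hτ, rfl⟩ := hQ g hg
    refine ⟨n, ?_⟩
    apply Subtype.ext
    apply Units.ext
    show ((ρ (res τ)).1) ^ p ^ n = 1
    exact unip_pow p (hu τ hτ)
  let _ := vecAct Q
  have hcard : p ∣ Nat.card (Fin n → k) := by
    have := Fintype.ofFinite k
    rw [Nat.card_fun, Nat.card_eq_fintype_card (α := Fin n), Fintype.card_fin]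
    obtain ⟨m, hm⟩ := FiniteField.card k p
    rw [Nat.card_eq_fintype_card, hm.2, ← pow_mul]
    exact dvd_pow_self p (mul_ne_zero m.ne_zero hn0)
  obtain ⟨v, hv, hv0⟩ := hP.exists_fixed_point_of_prime_dvd_card_of_fixed_point (Fin n → k) hcard
    (a := 0) (fun g => Matrix.mulVec_zero _)
  have hvfix : ∀ τ, χ τ = 1 → (ρ (res τ)).1 *ᵥ v = v := by
    intro τ hτ
    exact hv ⟨ρ (res τ), ⟨res τ, ⟨τ, hτ, rfl⟩, rfl⟩⟩
  let S : Submodule k (Fin n → k) :=
    { carrier := {w | ∀ τ, χ τ = 1 → (ρ (res τ)).1 *ᵥ w = w}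
      add_mem' := by
        intro a b ha hb τ hτ
        rw [Matrix.mulVec_add, ha τ hτ, hb τ hτ]
      zero_mem' := fun τ _ => Matrix.mulVec_zero _
      smul_mem' := by
        intro c a ha τ hτ
        rw [Matrix.mulVec_smul, ha τ hτ] }
  have hid : ∀ M : Matrix (Fin n) (Fin n) k, M.map (algebraMap k k) = M := by
    intro M; ext i j; rfl
  have hStop : S = ⊤ := by
    have hst := hirr k S (by
      intro σ w hw τ hτ
      rw [hid]
      obtain ⟨σ', rfl⟩ := hres σ
      have e1 : (ρ (res τ)).1 * (ρ (res σ')).1 =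
          (ρ (res σ')).1 * (ρ (res (σ'⁻¹ * τ * σ'))).1 := by
        rw [← Units.val_mul, ← Units.val_mul, ← map_mul, ← map_mul, ← map_mul, ← map_mul]
        congr 3
        group
      rw [Matrix.mulVec_mulVec, e1, ← Matrix.mulVec_mulVec, hw _ (by
        rw [map_mul, map_mul, hτ, mul_one, ← map_mul, inv_mul_cancel, map_one])])
    rcases hst with h | h
    · exfalso
      have : v ∈ S := hvfix
      rw [h, Submodule.mem_bot] at this
      exact hv0 this.symm
    · exact h
  have hone : ∀ τ, χ τ = 1 → ρ (res τ) = 1 := by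
    intro τ hτ
    apply Units.ext
    ext i j
    have h1 : (Pi.single j (1 : k) : Fin n → k) ∈ S := by rw [hStop]; exact Submodule.mem_top
    have h2 := congrFun (h1 τ hτ) i
    rw [Matrix.mulVec_single_one] at h2
    have h3 : (ρ (res τ)).1 i j = (Pi.single j (1 : k) : Fin n → k) i := h2
    rw [h3, Units.val_one, Matrix.one_apply, Pi.single_apply]
  have hcomm : ∀ σ τ, ρ σ * ρ τ = ρ τ * ρ σ := by
    intro σ τ
    obtain ⟨σ', rfl⟩ := hres σ
    obtain ⟨τ', rfl⟩ := hres τ
    have h1 := hone (σ' * τ' * σ'⁻¹ * τ'⁻¹) (by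
      rw [map_mul, map_mul, map_mul, map_inv, map_inv, mul_comm (χ σ'), mul_inv_cancel_right,
        mul_inv_cancel])
    have h2 : σ' * τ' = (σ' * τ' * σ'⁻¹ * τ'⁻¹) * (τ' * σ') := by group
    rw [← map_mul, ← map_mul, h2, map_mul, map_mul, h1, one_mul, map_mul, map_mul]
  have hsc : ∀ σ, ∀ i j, i ≠ j → (ρ σ).1 i j = 0 := by
    intro σ
    apply scalar_of_comm hn0 ρ hirr
    intro τ
    rw [← Units.val_mul, ← Units.val_mul, hcomm]
  -- the first coordinate line is invariant
  let i0 : Fin n := ⟨0, by omega⟩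
  let i1 : Fin n := ⟨1, by omega⟩
  have h01 : i1 ≠ i0 := by
    intro h
    have := congrArg Fin.val h
    exact absurd this one_ne_zero
  let D : Submodule k (Fin n → k) :=
    { carrier := {w | w i1 = 0}
      add_mem' := by
        intro a b ha hb
        show a i1 + b i1 = 0
        rw [show a i1 = 0 from ha, show b i1 = 0 from hb, add_zero]
      zero_mem' := rfl
      smul_mem' := by
        intro c a ha
        show c * a i1 = 0
        rw [show a i1 = 0 from ha, mul_zero] }
  have hD := hirr k D (by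
    intro σ w hw
    rw [hid]
    show ∑ j, (ρ σ).1 i1 j * w j = 0
    apply Finset.sum_eq_zero
    intro j _
    by_cases hj : j = i1
    · rw [hj, show w i1 = 0 from hw, mul_zero]
    · rw [hsc σ i1 j (Ne.symm hj), zero_mul])
  rcases hD with h | h
  · have h1 : (Pi.single i0 (1 : k) : Fin n → k) ∈ D := by
      show (Pi.single i0 (1 : k) : Fin n → k) i1 = 0
      rw [Pi.single_eq_of_ne h01]
    rw [h, Submodule.mem_bot] at h1
    have := congrFun h1 i0
    rw [Pi.single_eq_same] at this
    exact one_ne_zero this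
  · have h1 : (Pi.single i1 (1 : k) : Fin n → k) ∈ D := by rw [h]; exact Submodule.mem_top
    have h2 : (Pi.single i1 (1 : k) : Fin n → k) i1 = 0 := h1
    rw [Pi.single_eq_same] at h2
    exact one_ne_zero h2

end Pool.Agent.L0h47.CG
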