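import Pool.Agent.L0h47.CG.Alt

/-!
# Selling's reduction of ternary forms
-/

set_option autoImplicit false

namespace Pool.Agent.L0h47.CG

open Matrix

/-- the six vectors of the tile -/
def uu : Fin 6 → Fin 3 → ℤ :=
  ![![1, 0, 0], ![1, 1, 0], ![1, 1, 1], ![0, 1, 0], ![0, 1, 1], ![0, 0, 1]]

/-- the superbase -/
def ww : Fin 4 → Fin 3 → ℤ := ![![1, 0, 0], ![-1, 1, 0], ![0, -1, 1], ![0, 0, -1]]

/-- the first index of a pair -/
def p1 : Fin 6 → Fin 4 := ![0, 0, 0, 1, 1, 2]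

/-- the second index of a pair -/
def p2 : Fin 6 → Fin 4 := ![1, 2, 3, 2, 3, 3]

/-- the perfect form -/
def q (v : Fin 3 → ℤ) : ℤ := v 0 ^ 2 + v 1 ^ 2 + v 2 ^ 2 - v 0 * v 1 - v 1 * v 2

lemma q_pos {v : Fin 3 → ℤ} (hv : v ≠ 0) : 1 ≤ q v := by
  by_contra h
  push Not at h
  apply hv
  have h1 : 2 * q v = v 0 ^ 2 + (v 0 - v 1) ^ 2 + (v 1 - v 2) ^ 2 + v 2 ^ 2 := by unfold q; ring
  have h2 : q v ≤ 0 := by omega
  have h3 := sq_nonneg (v 0)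
  have h4 := sq_nonneg (v 0 - v 1)
  have h5 := sq_nonneg (v 1 - v 2)
  have h6 := sq_nonneg (v 2)
  have h7 : v 0 = 0 := pow_eq_zero_iff (two_ne_zero) |>.mp (by omega)
  have h8 : v 2 = 0 := pow_eq_zero_iff (two_ne_zero) |>.mp (by omega)
  have h9 : v 0 - v 1 = 0 := pow_eq_zero_iff (two_ne_zero) |>.mp (by omega)
  funext i
  fin_cases i
  · exact h7
  · show v 1 = 0; omega
  · exact h8

lemma q_one {v : Fin 3 → ℤ} (hv : q v = 1) : ∃ e, v = uu e ∨ v = -uu e := by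
  have h1 : 2 * q v = v 0 ^ 2 + (v 0 - v 1) ^ 2 + (v 1 - v 2) ^ 2 + v 2 ^ 2 := by unfold q; ring
  rw [hv] at h1
  have h3 := sq_nonneg (v 0)
  have h4 := sq_nonneg (v 0 - v 1)
  have h5 := sq_nonneg (v 1 - v 2)
  have h6 := sq_nonneg (v 2)
  have b0 : -1 ≤ v 0 ∧ v 0 ≤ 1 := by constructor <;> nlinarith
  have b2 : -1 ≤ v 2 ∧ v 2 ≤ 1 := by constructor <;> nlinarith
  have b1 : -1 ≤ v 0 - v 1 ∧ v 0 - v 1 ≤ 1 := by constructor <;> nlinarith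
  have hv' : v = ![v 0, v 1, v 2] := by
    funext i; fin_cases i <;> rfl
  have hd : ∀ a b c : ℤ, -1 ≤ a → a ≤ 1 → -1 ≤ c → c ≤ 1 → -1 ≤ a - b → a - b ≤ 1 →
      a ^ 2 + (a - b) ^ 2 + (b - c) ^ 2 + c ^ 2 = 2 →
      ∃ e, (![a, b, c] : Fin 3 → ℤ) = uu e ∨ (![a, b, c] : Fin 3 → ℤ) = -uu e := by
    intro a b c h1 h2 h3 h4 h5 h6 h7
    have hb1 : -2 ≤ b := by omega
    have hb2 : b ≤ 2 := by omega
    interval_cases a <;> interval_cases c <;> interval_cases b <;>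
      first
        | (exfalso; omega)
        | (exfalso; revert h7; decide)
        | decide
  rw [hv']
  exact hd _ _ _ b0.1 b0.2 b2.1 b2.2 b1.1 b1.2 (by linarith)

lemma q_neg (v : Fin 3 → ℤ) : q (-v) = q v := by unfold q; simp

lemma q_uu (e : Fin 6) : q (uu e) = 1 := by revert e; decide

/-- the bilinear form -/
def bf (S : Matrix (Fin 3) (Fin 3) ℝ) (x y : Fin 3 → ℝ) : ℝ := ∑ i, ∑ j, x i * S i j * y j

/-- the cast of an integral vector -/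
def cs (x : Fin 3 → ℤ) : Fin 3 → ℝ := fun i => (x i : ℝ)

/-- the Gram matrix of the rows -/
def gr (S : Matrix (Fin 3) (Fin 3) ℝ) (M : Matrix (Fin 3) (Fin 3) ℤ) :
    Matrix (Fin 3) (Fin 3) ℝ := Matrix.of fun i j => bf S (cs (M i)) (cs (M j))

lemma bf_gr (S : Matrix (Fin 3) (Fin 3) ℝ) (M : Matrix (Fin 3) (Fin 3) ℤ) (x y : Fin 3 → ℤ) :
    bf S (cs (x ᵥ* M)) (cs (y ᵥ* M)) = bf (gr S M) (cs x) (cs y) := by
  simp only [bf, gr, cs, vecMul, dotProduct, Fin.sum_univ_three, Matrix.of_apply]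
  push_cast
  ring

/-- the coordinates -/
noncomputable def cc (S : Matrix (Fin 3) (Fin 3) ℝ) (M : Matrix (Fin 3) (Fin 3) ℤ) (e : Fin 6) : ℝ :=
  -bf S (cs (ww (p1 e) ᵥ* M)) (cs (ww (p2 e) ᵥ* M))

/-- the energy -/
noncomputable def en (S : Matrix (Fin 3) (Fin 3) ℝ) (M : Matrix (Fin 3) (Fin 3) ℤ) : ℝ :=
  (∑ i, bf S (cs (ww i ᵥ* M)) (cs (ww i ᵥ* M))) / 2

lemma en_mul {S : Matrix (Fin 3) (Fin 3) ℝ} (hS : ∀ i j, S i j = S j i)
    (A M : Matrix (Fin 3) (Fin 3) ℤ) :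
    en S (A * M) = ∑ e, cc S M e * (q (A *ᵥ uu e) : ℝ) := by
  unfold en cc
  simp_rw [← Matrix.vecMul_vecMul, bf_gr S M]
  have hT : ∀ i j, gr S M i j = gr S M j i := by
    intro i j
    simp only [gr, bf, Matrix.of_apply, Fin.sum_univ_three, hS 1 0, hS 2 0, hS 2 1]
    ring
  generalize gr S M = T at hT
  have h10 := hT 1 0
  have h20 := hT 2 0
  have h21 := hT 2 1
  simp only [Fin.sum_univ_four, Fin.sum_univ_six, bf, cs, Fin.sum_univ_three, ww, uu, p1, p2, q,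
    vecMul, mulVec, dotProduct]
  simp [h10, h20, h21]
  ring

end Pool.Agent.L0h47.CG
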