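import Pool.Agent.L0h47.CG.Sell

/-!
# A generic positive definite form
-/

set_option autoImplicit false

namespace Pool.Agent.L0h47.CG

open Matrix

/-- generic positive definite forms -/
structure Gen (S : Matrix (Fin 3) (Fin 3) ℝ) : Prop where
  symm : ∀ i j, S i j = S j i
  pd : ∀ x : Fin 3 → ℝ, (x 0 ^ 2 + x 1 ^ 2 + x 2 ^ 2) / 2 ≤ bf S x x
  gen : ∀ x y : Fin 3 → ℤ, x ≠ 0 → y ≠ 0 → bf S (cs x) (cs y) ≠ 0

lemma exists_trans : ∃ t : ℝ, 0 < t ∧ t < 1 / 10 ∧ Transcendental ℤ t := by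
  by_contra h
  push Not at h
  have h1 : Set.Ioo (0 : ℝ) (1 / 10) ⊆ {x : ℝ | IsAlgebraic ℤ x} := by
    intro x hx
    have := h x hx.1 hx.2
    unfold Transcendental at this
    exact not_not.mp this
  have h2 := (Algebraic.countable ℤ ℝ).mono h1
  rw [Cardinal.Real.Ioo_countable_iff] at h2
  norm_num at h2

lemma poly_zero {t : ℝ} (ht : Transcendental ℤ t) {a b c d e f : ℤ}
    (h : (a : ℝ) + b * t + c * t ^ 2 + d * t ^ 3 + e * t ^ 4 + f * t ^ 5 = 0) :
    a = 0 ∧ b = 0 ∧ c = 0 ∧ d = 0 ∧ e = 0 ∧ f = 0 := by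
  open Polynomial in
  have hP : (C a + C b * X + C c * X ^ 2 + C d * X ^ 3 + C e * X ^ 4 + C f * X ^ 5 : ℤ[X]) = 0 := by
    by_contra hne
    apply ht
    refine ⟨_, hne, ?_⟩
    simpa using h
  have hc := fun n => congrArg (fun P : Polynomial ℤ => P.coeff n) hP
  have h0 := hc 0
  have h1 := hc 1
  have h2 := hc 2
  have h3 := hc 3
  have h4 := hc 4
  have h5 := hc 5
  simp only [Polynomial.coeff_add, Polynomial.coeff_C_mul, Polynomial.coeff_X_pow,
    Polynomial.coeff_X, Polynomial.coeff_C, Polynomial.coeff_zero] at h0 h1 h2 h3 h4 h5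
  norm_num at h0 h1 h2 h3 h4 h5
  exact ⟨h0, h1, h2, h3, h4, h5⟩

theorem exists_gen : ∃ S : Matrix (Fin 3) (Fin 3) ℝ, Gen S := by
  obtain ⟨t, h0, h1, ht⟩ := exists_trans
  refine ⟨!![1, t, t ^ 2; t, 1 + t ^ 3, t ^ 4; t ^ 2, t ^ 4, 1 + t ^ 5], ?_, ?_, ?_⟩
  · intro i j
    fin_cases i <;> fin_cases j <;> rfl
  · intro x
    simp only [bf, Fin.sum_univ_three]
    simp
    have a1 : t ^ 2 ≤ 1 / 10 := by nlinarith
    have a2 : t ^ 4 ≤ 1 / 10 := by
      have : t ^ 4 = t ^ 2 * t ^ 2 := by ring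
      nlinarith [sq_nonneg t]
    have a3 : 0 ≤ t ^ 3 := by positivity
    have a5 : 0 ≤ t ^ 5 := by positivity
    have a4 : 0 ≤ t ^ 4 := by positivity
    have a6 : 0 ≤ t ^ 2 := by positivity
    have e1 : 2 * t * (x 0 * x 1) ≥ -(1 / 10) * (x 0 ^ 2 + x 1 ^ 2) := by
      nlinarith [sq_nonneg (x 0 + x 1), sq_nonneg (x 0 - x 1),
        mul_nonneg h0.le (sq_nonneg (x 0 + x 1)),
        mul_nonneg (sub_nonneg.mpr h1.le) (add_nonneg (sq_nonneg (x 0)) (sq_nonneg (x 1)))]
    have e2 : 2 * t ^ 2 * (x 0 * x 2) ≥ -(1 / 10) * (x 0 ^ 2 + x 2 ^ 2) := by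
      nlinarith [sq_nonneg (x 0 + x 2), sq_nonneg (x 0 - x 2),
        mul_nonneg a6 (sq_nonneg (x 0 + x 2)),
        mul_nonneg (sub_nonneg.mpr a1) (add_nonneg (sq_nonneg (x 0)) (sq_nonneg (x 2)))]
    have e3 : 2 * t ^ 4 * (x 1 * x 2) ≥ -(1 / 10) * (x 1 ^ 2 + x 2 ^ 2) := by
      nlinarith [sq_nonneg (x 1 + x 2), sq_nonneg (x 1 - x 2),
        mul_nonneg a4 (sq_nonneg (x 1 + x 2)),
        mul_nonneg (sub_nonneg.mpr a2) (add_nonneg (sq_nonneg (x 1)) (sq_nonneg (x 2)))]
    nlinarith [mul_nonneg a3 (sq_nonneg (x 1)), mul_nonneg a5 (sq_nonneg (x 2)),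
      sq_nonneg (x 0), sq_nonneg (x 1), sq_nonneg (x 2)]
  · intro x y hx hy h
    have h2 := poly_zero ht (a := x 0 * y 0 + x 1 * y 1 + x 2 * y 2)
      (b := x 0 * y 1 + x 1 * y 0) (c := x 0 * y 2 + x 2 * y 0) (d := x 1 * y 1)
      (e := x 1 * y 2 + x 2 * y 1) (f := x 2 * y 2) (by
        rw [← h]
        simp only [bf, cs, Fin.sum_univ_three]
        simp
        ring)
    obtain ⟨c1, c2, c3, c4, c5, c6⟩ := h2
    have c7 : x 0 * y 0 = 0 := by linarith
    -- if one of the coordinates of `x` does not vanish, then `y = 0`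
    have key : ∀ a b c a' b' c' : ℤ, a * a' = 0 → a * b' + b * a' = 0 → a * c' + c * a' = 0 →
        a ≠ 0 → a' = 0 ∧ b' = 0 ∧ c' = 0 := by
      intro a b c a' b' c' h1 h2 h3 ha
      have e1 : a' = 0 := by
        rcases mul_eq_zero.mp h1 with h | h
        · exact absurd h ha
        · exact h
      subst e1
      simp only [mul_zero, add_zero, mul_eq_zero] at h2 h3
      exact ⟨rfl, h2.resolve_left ha, h3.resolve_left ha⟩
    by_cases x0 : x 0 = 0
    · by_cases x1 : x 1 = 0
      · by_cases x2 : x 2 = 0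
        · apply hx
          funext i; fin_cases i
          · exact x0
          · exact x1
          · exact x2
        · obtain ⟨e1, e2, e3⟩ := key (x 2) (x 0) (x 1) (y 2) (y 0) (y 1) c6 (by linarith)
            (by linarith) x2
          apply hy
          funext i; fin_cases i
          · exact e2
          · exact e3
          · exact e1
      · obtain ⟨e1, e2, e3⟩ := key (x 1) (x 0) (x 2) (y 1) (y 0) (y 2) c4 (by linarith)
          (by linarith) x1
        apply hy
        funext i; fin_cases i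
        · exact e2
        · exact e1
        · exact e3
    · obtain ⟨e1, e2, e3⟩ := key (x 0) (x 1) (x 2) (y 0) (y 1) (y 2) c7 (by linarith)
        (by linarith) x0
      apply hy
      funext i; fin_cases i
      · exact e1
      · exact e2
      · exact e3

/-! ### Rays -/

/-- the ray of a vector -/
def vr (β : Matrix (Fin 3) (Fin 3) ℚ) (v : Fin 3 → ℤ) : Matrix (Fin 3) (Fin 3) ℚ :=
  vecMulVec (β *ᵥ fun i => (v i : ℚ)) (β *ᵥ fun i => (v i : ℚ))

lemma vecMulVec_inj {a b : Fin 3 → ℚ} (h : vecMulVec a a = vecMulVec b b) : a = b ∨ a = -b := by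
  have h1 : ∀ i j, a i * a j = b i * b j := fun i j => by
    have := congrFun (congrFun h i) j
    simpa [vecMulVec_apply] using this
  by_cases ha : a = 0
  · left
    funext i
    have := h1 i i
    rw [ha] at this ⊢
    simp only [Pi.zero_apply, mul_zero] at this ⊢
    exact (mul_self_eq_zero.mp this.symm).symm
  · obtain ⟨i, hi⟩ : ∃ i, a i ≠ 0 := by
      by_contra hcon
      push Not at hcon
      exact ha (funext hcon)
    rcases mul_self_eq_mul_self_iff.mp (h1 i i) with h2 | h2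
    · left
      funext j
      have h3 := h1 i j
      rw [← h2] at h3
      exact mul_left_cancel₀ hi h3
    · right
      funext j
      have h3 := h1 i j
      have h4 : b i = -a i := by linarith
      rw [h4] at h3
      have : a i * a j = a i * (-b j) := by linarith
      exact mul_left_cancel₀ hi this

lemma vr_neg (β : Matrix (Fin 3) (Fin 3) ℚ) (v : Fin 3 → ℤ) : vr β (-v) = vr β v := by
  have : (fun i => (((-v) i : ℤ) : ℚ)) = -(fun i => (v i : ℚ)) := by funext i; simp
  unfold vr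
  rw [this, mulVec_neg, vecMulVec_neg, neg_vecMulVec, neg_neg]

lemma vr_inj {β : Matrix (Fin 3) (Fin 3) ℚ} (hβ : IsUnit β) {v v' : Fin 3 → ℤ}
    (h : vr β v = vr β v') : v = v' ∨ v = -v' := by
  have hinj : Function.Injective β.mulVec := Matrix.mulVec_injective_iff_isUnit.mpr hβ
  rcases vecMulVec_inj h with h1 | h1
  · left
    have := hinj h1
    funext i
    exact_mod_cast congrFun this i
  · right
    rw [← mulVec_neg] at h1
    have := hinj h1
    funext i
    have h2 := congrFun this i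
    simp only [Pi.neg_apply] at h2 ⊢
    exact_mod_cast h2

end Pool.Agent.L0h47.CG
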