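import Pool.Agent.L0h47.CG.Sell2

/-!
# The shelling of the tiles of a ternary lattice
-/

set_option autoImplicit false

namespace Pool.Agent.L0h47.CG

open Matrix

/-- the tile of a frame -/
def tl (β : Matrix (Fin 3) (Fin 3) ℚ) (δ : GL (Fin 3) ℤ) : Finset (Matrix (Fin 3) (Fin 3) ℚ) :=
  Finset.univ.image fun e => vr β (δ.1 *ᵥ uu e)

/-- large sets of rays -/
def Spn (G : Finset (Matrix (Fin 3) (Fin 3) ℚ)) : Prop :=
  ∀ x : Fin 3 → ℚ, (∀ r ∈ G, x ⬝ᵥ (r *ᵥ x) = 0) → x = 0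

lemma inv_mulVec (δ : GL (Fin 3) ℤ) (v : Fin 3 → ℤ) : (δ⁻¹).1 *ᵥ (δ.1 *ᵥ v) = v := by
  rw [mulVec_mulVec, ← Units.val_mul, inv_mul_cancel]; simp

lemma mulVec_inv (δ : GL (Fin 3) ℤ) (v : Fin 3 → ℤ) : δ.1 *ᵥ ((δ⁻¹).1 *ᵥ v) = v := by
  rw [mulVec_mulVec, ← Units.val_mul, mul_inv_cancel]; simp

lemma uu_inj {e f : Fin 6} (h : uu e = uu f ∨ uu e = -uu f) : e = f := by
  revert e f; decide

lemma vr_tile_inj {β : Matrix (Fin 3) (Fin 3) ℚ} (hβ : IsUnit β) (δ : GL (Fin 3) ℤ) :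
    Function.Injective fun e => vr β (δ.1 *ᵥ uu e) := by
  intro e f h
  apply uu_inj
  rcases vr_inj hβ h with h1 | h1
  · left
    have := congrArg (fun v => (δ⁻¹).1 *ᵥ v) h1
    simpa [inv_mulVec] using this
  · right
    have := congrArg (fun v => (δ⁻¹).1 *ᵥ v) h1
    simpa [inv_mulVec, mulVec_neg] using this

lemma tl_card {β : Matrix (Fin 3) (Fin 3) ℚ} (hβ : IsUnit β) (δ : GL (Fin 3) ℤ) :
    (tl β δ).card = 6 := by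
  unfold tl
  rw [Finset.card_image_of_injective _ (vr_tile_inj hβ δ), Finset.card_fin]

lemma mem_tl {β : Matrix (Fin 3) (Fin 3) ℚ} (hβ : IsUnit β) (δ : GL (Fin 3) ℤ) (v : Fin 3 → ℤ) :
    vr β v ∈ tl β δ ↔ q ((δ⁻¹).1 *ᵥ v) = 1 := by
  unfold tl
  rw [Finset.mem_image]
  constructor
  · rintro ⟨e, -, h⟩
    rcases vr_inj hβ h with h1 | h1
    · rw [← h1, inv_mulVec, q_uu]
    · have : v = -(δ.1 *ᵥ uu e) := by rw [h1, neg_neg]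
      rw [this, mulVec_neg, inv_mulVec, q_neg, q_uu]
  · intro h
    obtain ⟨e, he⟩ := q_one h
    refine ⟨e, Finset.mem_univ _, ?_⟩
    rcases he with he | he
    · rw [← he, mulVec_inv]
    · have : uu e = -((δ⁻¹).1 *ᵥ v) := by rw [he, neg_neg]
      rw [this, mulVec_neg, mulVec_inv, vr_neg]

/-- the inverses of the flips -/
def zz : Fin 6 → Matrix (Fin 3) (Fin 3) ℤ :=
  ![!![-1, 0, 1; -2, 1, 0; -1, 1, 0], !![-1, 0, 1; -1, 1, 0; 0, 1, 0],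
    !![0, 0, 1; -1, 1, 0; 0, 1, 0], !![0, -1, 1; -1, 0, 0; -1, 1, 0],
    !![-1, 0, 1; -1, 0, 0; -1, 1, 0], !![-1, 1, -1; -1, 0, 0; -1, 0, 1]]

/-- the flips -/
def zi : Fin 6 → Matrix (Fin 3) (Fin 3) ℤ :=
  ![!![0, -1, 1; 0, -1, 2; 1, -1, 1], !![0, -1, 1; 0, 0, 1; 1, -1, 1],
    !![0, -1, 1; 0, 0, 1; 1, 0, 0], !![0, -1, 0; 0, -1, 1; 1, -1, 1],
    !![0, -1, 0; 0, -1, 1; 1, -1, 0], !![0, -1, 0; 1, -2, 1; 0, -1, 1]]

lemma zz_zi (e : Fin 6) : zz e * zi e = 1 := by revert e; decide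

lemma zi_zz (e : Fin 6) : zi e * zz e = 1 := by revert e; decide

/-- the flips -/
def zu (e : Fin 6) : GL (Fin 3) ℤ := ⟨zi e, zz e, zi_zz e, zz_zi e⟩

lemma zz_q (e f : Fin 6) (h : f ≠ e) : q (zz e *ᵥ uu f) = 1 := by
  revert e f; decide

lemma zz_q' (e : Fin 6) : q (zz e *ᵥ uu e) ≠ 1 := by
  revert e; decide

lemma tl_flip {β : Matrix (Fin 3) (Fin 3) ℚ} (hβ : IsUnit β) (δ : GL (Fin 3) ℤ) (e : Fin 6) :
    tl β (δ * zu e) ≠ tl β δ ∧ (tl β δ).erase (vr β (δ.1 *ᵥ uu e)) ⊆ tl β (δ * zu e) := by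
  have h1 : ∀ f, (δ * zu e)⁻¹.1 *ᵥ (δ.1 *ᵥ uu f) = zz e *ᵥ uu f := by
    intro f
    rw [_root_.mul_inv_rev, Units.val_mul, ← mulVec_mulVec, inv_mulVec]
    rfl
  constructor
  · intro h
    have h2 : vr β (δ.1 *ᵥ uu e) ∈ tl β (δ * zu e) := by
      rw [h]; exact Finset.mem_image.mpr ⟨e, Finset.mem_univ _, rfl⟩
    rw [mem_tl hβ, h1] at h2
    exact zz_q' e h2
  · intro r hr
    rw [Finset.mem_erase] at hr
    obtain ⟨f, -, rfl⟩ := Finset.mem_image.mp hr.2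
    rw [mem_tl hβ, h1]
    apply zz_q
    rintro rfl
    exact hr.1 rfl

open scoped Classical in
/-- a frame of a tile -/
noncomputable def dl (β : Matrix (Fin 3) (Fin 3) ℚ) (F : Finset (Matrix (Fin 3) (Fin 3) ℚ)) :
    GL (Fin 3) ℤ := if h : ∃ δ, tl β δ = F then h.choose else 1

lemma dl_spec {β : Matrix (Fin 3) (Fin 3) ℚ} {F : Finset (Matrix (Fin 3) (Fin 3) ℚ)}
    (h : ∃ δ, tl β δ = F) : tl β (dl β F) = F := by
  unfold dl; rw [dif_pos h]; exact h.choose_spec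

/-- the coordinates of a tile -/
noncomputable def cF (β : Matrix (Fin 3) (Fin 3) ℚ) (S : Matrix (Fin 3) (Fin 3) ℝ)
    (F : Finset (Matrix (Fin 3) (Fin 3) ℚ)) (r : Matrix (Fin 3) (Fin 3) ℚ) : ℝ :=
  ∑ e, if vr β ((dl β F).1 *ᵥ uu e) = r then cc S ((dl β F)⁻¹).1 e else 0

/-- the energy of a tile -/
noncomputable def eF (β : Matrix (Fin 3) (Fin 3) ℚ) (S : Matrix (Fin 3) (Fin 3) ℝ)
    (F : Finset (Matrix (Fin 3) (Fin 3) ℚ)) : ℝ := en S ((dl β F)⁻¹).1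

lemma cF_eq {β : Matrix (Fin 3) (Fin 3) ℚ} (hβ : IsUnit β) (S : Matrix (Fin 3) (Fin 3) ℝ)
    (F : Finset (Matrix (Fin 3) (Fin 3) ℚ)) (e : Fin 6) :
    cF β S F (vr β ((dl β F).1 *ᵥ uu e)) = cc S ((dl β F)⁻¹).1 e := by
  unfold cF
  rw [Finset.sum_eq_single e]
  · rw [if_pos rfl]
  · intro f _ hf
    rw [if_neg]
    intro h
    exact hf (vr_tile_inj hβ _ h)
  · simp

lemma mem_F {β : Matrix (Fin 3) (Fin 3) ℚ} {F : Finset (Matrix (Fin 3) (Fin 3) ℚ)}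
    (h : ∃ δ, tl β δ = F) {r : Matrix (Fin 3) (Fin 3) ℚ} :
    r ∈ F ↔ ∃ e, vr β ((dl β F).1 *ᵥ uu e) = r := by
  constructor
  · intro hr
    rw [← dl_spec h] at hr
    obtain ⟨e, -, he⟩ := Finset.mem_image.mp hr
    exact ⟨e, he⟩
  · rintro ⟨e, rfl⟩
    have : vr β ((dl β F).1 *ᵥ uu e) ∈ tl β (dl β F) :=
      Finset.mem_image.mpr ⟨e, Finset.mem_univ _, rfl⟩
    rwa [dl_spec h] at this

lemma eF_sub {β : Matrix (Fin 3) (Fin 3) ℚ} {S : Matrix (Fin 3) (Fin 3) ℝ}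
    (hS : Gen S) (F F' : Finset (Matrix (Fin 3) (Fin 3) ℚ)) :
    eF β S F' - eF β S F = ∑ e, cc S ((dl β F)⁻¹).1 e *
      ((q (((dl β F')⁻¹).1 *ᵥ ((dl β F).1 *ᵥ uu e)) : ℝ) - 1) := by
  have h1 : eF β S F' = ∑ e, cc S ((dl β F)⁻¹).1 e *
      (q (((dl β F')⁻¹).1 *ᵥ ((dl β F).1 *ᵥ uu e)) : ℝ) := by
    unfold eF
    have : ((dl β F')⁻¹).1 = (((dl β F')⁻¹).1 * (dl β F).1) * ((dl β F)⁻¹).1 := by
      rw [Matrix.mul_assoc, ← Units.val_mul, mul_inv_cancel]; simp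
    have key := en_mul hS.symm (((dl β F')⁻¹).1 * (dl β F).1) ((dl β F)⁻¹).1
    rw [← this] at key
    rw [key]
    simp only [mulVec_mulVec]
  have h2 : eF β S F = ∑ e, cc S ((dl β F)⁻¹).1 e := by
    unfold eF
    have : ((dl β F)⁻¹).1 = 1 * ((dl β F)⁻¹).1 := by simp
    rw [this, en_mul hS.symm]
    simp [q_uu]
  rw [h1, h2, ← Finset.sum_sub_distrib]
  apply Finset.sum_congr rfl
  intro e _
  ring

lemma mem_F' {β : Matrix (Fin 3) (Fin 3) ℚ} (hβ : IsUnit β)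
    {F' : Finset (Matrix (Fin 3) (Fin 3) ℚ)} (h : ∃ δ, tl β δ = F') (v : Fin 3 → ℤ) :
    vr β v ∈ F' ↔ q (((dl β F')⁻¹).1 *ᵥ v) = 1 := by
  conv_lhs => rw [← dl_spec h]
  exact mem_tl hβ _ _

lemma uu_ne (e : Fin 6) : uu e ≠ 0 := by revert e; decide

lemma ww_ne (i : Fin 4) : ww i ≠ 0 := by revert i; decide

lemma q_ge (δ δ' : GL (Fin 3) ℤ) (e : Fin 6) : 1 ≤ q ((δ'⁻¹).1 *ᵥ (δ.1 *ᵥ uu e)) := by
  apply q_pos
  intro h
  have h1 := congrArg (fun v => (δ⁻¹).1 *ᵥ (δ'.1 *ᵥ v)) h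
  simp only [mulVec_inv, inv_mulVec, mulVec_zero] at h1
  exact uu_ne e h1

/-- the comparison of two tiles -/
lemma compare {β : Matrix (Fin 3) (Fin 3) ℚ} (hβ : IsUnit β) {S : Matrix (Fin 3) (Fin 3) ℝ}
    (hS : Gen S) {F F' : Finset (Matrix (Fin 3) (Fin 3) ℚ)} (hF : ∃ δ, tl β δ = F)
    (hF' : ∃ δ, tl β δ = F') (hne : F ≠ F') (s : ℝ)
    (h : ∀ r ∈ F, r ∉ F' → 0 < s * cF β S F r) : 0 < s * (eF β S F' - eF β S F) := by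
  rw [eF_sub hS, Finset.mul_sum]
  have hnn : ∀ e, 0 ≤ s * (cc S ((dl β F)⁻¹).1 e *
      ((q (((dl β F')⁻¹).1 *ᵥ ((dl β F).1 *ᵥ uu e)) : ℝ) - 1)) := by
    intro e
    by_cases h1 : vr β ((dl β F).1 *ᵥ uu e) ∈ F'
    · rw [mem_F' hβ hF'] at h1
      rw [h1]; simp
    · have h2 := h _ ((mem_F hF).mpr ⟨e, rfl⟩) h1
      rw [cF_eq hβ] at h2
      have h3 : (1 : ℝ) ≤ (q (((dl β F')⁻¹).1 *ᵥ ((dl β F).1 *ᵥ uu e)) : ℝ) := by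
        exact_mod_cast q_ge _ _ e
      have := mul_nonneg h2.le (sub_nonneg.mpr h3)
      linarith [mul_assoc s (cc S ((dl β F)⁻¹).1 e)
        ((q (((dl β F')⁻¹).1 *ᵥ ((dl β F).1 *ᵥ uu e)) : ℝ) - 1)]
  obtain ⟨r, hr, hr'⟩ : ∃ r ∈ F, r ∉ F' := by
    by_contra hcon
    push Not at hcon
    apply hne
    apply Finset.eq_of_subset_of_card_le hcon
    obtain ⟨δ, rfl⟩ := hF
    obtain ⟨δ', rfl⟩ := hF'
    rw [tl_card hβ, tl_card hβ]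
  obtain ⟨e, rfl⟩ := (mem_F hF).mp hr
  apply Finset.sum_pos' (fun e _ => hnn e) ⟨e, Finset.mem_univ _, ?_⟩
  have h2 := h _ hr hr'
  rw [cF_eq hβ] at h2
  rw [mem_F' hβ hF'] at hr'
  have h3 := q_ge (dl β F) (dl β F') e
  have h4 : (1 : ℤ) < q (((dl β F')⁻¹).1 *ᵥ ((dl β F).1 *ᵥ uu e)) :=
    lt_of_le_of_ne h3 (Ne.symm hr')
  have h5 : (1 : ℝ) < (q (((dl β F')⁻¹).1 *ᵥ ((dl β F).1 *ᵥ uu e)) : ℝ) := by exact_mod_cast h4
  have := mul_pos h2 (sub_pos.mpr h5)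
  linarith [mul_assoc s (cc S ((dl β F)⁻¹).1 e)
        ((q (((dl β F')⁻¹).1 *ᵥ ((dl β F).1 *ᵥ uu e)) : ℝ) - 1)]

lemma cc_ne {S : Matrix (Fin 3) (Fin 3) ℝ} (hS : Gen S) (δ : GL (Fin 3) ℤ) (e : Fin 6) :
    cc S (δ⁻¹).1 e ≠ 0 := by
  unfold cc
  rw [neg_ne_zero]
  have h1 : ∀ i, ww i ᵥ* (δ⁻¹).1 ≠ 0 := by
    intro i h
    have h2 := congrArg (fun v => v ᵥ* δ.1) h
    simp only [vecMul_vecMul, zero_vecMul] at h2
    rw [← Units.val_mul, inv_mul_cancel] at h2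
    simp only [Units.val_one, vecMul_one] at h2
    exact ww_ne i h2
  exact hS.gen _ _ (h1 _) (h1 _)

end Pool.Agent.L0h47.CG
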