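import Pool.Agent.L0h47.CG.Sell3

/-!
# The shelling of the tiles of a ternary lattice, part 2
-/

set_option autoImplicit false

namespace Pool.Agent.L0h47.CG

open Matrix

lemma bf_expand {S : Matrix (Fin 3) (Fin 3) ℝ} (hS : ∀ i j, S i j = S j i)
    (M : Matrix (Fin 3) (Fin 3) ℤ) (z : Fin 3 → ℝ) :
    bf S (z ᵥ* M.map (fun a => (a : ℝ))) (z ᵥ* M.map (fun a => (a : ℝ))) =
      ∑ e, cc S M e * (z ⬝ᵥ cs (uu e)) ^ 2 := by
  have h1 : bf S (z ᵥ* M.map (fun a => (a : ℝ))) (z ᵥ* M.map (fun a => (a : ℝ))) =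
      bf (gr S M) z z := by
    simp only [bf, gr, cs, vecMul, dotProduct, Fin.sum_univ_three, Matrix.of_apply, Matrix.map_apply]
    ring
  rw [h1]
  unfold cc
  simp_rw [bf_gr S M]
  have hT : ∀ i j, gr S M i j = gr S M j i := by
    intro i j
    simp only [gr, bf, Matrix.of_apply, Fin.sum_univ_three, hS 1 0, hS 2 0, hS 2 1]
    ring
  generalize gr S M = T at hT
  have h10 := hT 1 0
  have h20 := hT 2 0
  have h21 := hT 2 1
  simp only [Fin.sum_univ_six, bf, cs, Fin.sum_univ_three, ww, uu, p1, p2, dotProduct]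
  simp [h10, h20, h21]
  ring

lemma dot_ray (β : Matrix (Fin 3) (Fin 3) ℚ) (v : Fin 3 → ℤ) (x : Fin 3 → ℚ) :
    x ⬝ᵥ (vr β v *ᵥ x) = ((x ᵥ* β) ⬝ᵥ fun i => (v i : ℚ)) ^ 2 := by
  unfold vr
  rw [vecMulVec_mulVec, ← dotProduct_mulVec]
  simp only [op_smul_eq_smul, dotProduct_smul, smul_eq_mul]
  rw [dotProduct_comm (β *ᵥ fun i => (v i : ℚ)) x]
  ring

lemma map_mulVec (D : Matrix (Fin 3) (Fin 3) ℤ) (v : Fin 3 → ℤ) :
    (fun i => ((D *ᵥ v) i : ℚ)) = D.map (fun a => (a : ℚ)) *ᵥ fun i => (v i : ℚ) := by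
  funext i
  simp [mulVec, dotProduct]

lemma isUnit_map (δ : GL (Fin 3) ℤ) : IsUnit (δ.1.map (fun a => (a : ℚ))) := by
  have : δ.1.map (fun a => (a : ℚ)) = ((Int.castRingHom ℚ).mapMatrix δ.1) := rfl
  rw [this]
  exact (Units.isUnit δ).map _

theorem pos_spn {β : Matrix (Fin 3) (Fin 3) ℚ} (hβ : IsUnit β) {S : Matrix (Fin 3) (Fin 3) ℝ}
    (hS : Gen S) {F : Finset (Matrix (Fin 3) (Fin 3) ℚ)} (hF : ∃ δ, tl β δ = F) :
    Spn (F.filter fun r => 0 < cF β S F r) := by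
  intro x hx
  set δ := dl β F with hδ
  set y : Fin 3 → ℚ := (x ᵥ* β) ᵥ* δ.1.map (fun a => (a : ℚ)) with hy
  have h1 : ∀ e, 0 < cc S (δ⁻¹).1 e → y ⬝ᵥ (fun i => (uu e i : ℚ)) = 0 := by
    intro e he
    have h2 := hx (vr β (δ.1 *ᵥ uu e)) (by
      rw [Finset.mem_filter]
      refine ⟨(mem_F hF).mpr ⟨e, rfl⟩, ?_⟩
      rw [cF_eq hβ]; exact he)
    rw [dot_ray, map_mulVec, dotProduct_mulVec] at h2
    exact pow_eq_zero_iff (two_ne_zero) |>.mp h2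
  set z : Fin 3 → ℝ := fun i => (y i : ℝ) with hz
  have h2 := bf_expand hS.symm (δ⁻¹).1 z
  have h3 : ∑ e, cc S (δ⁻¹).1 e * (z ⬝ᵥ cs (uu e)) ^ 2 ≤ 0 := by
    apply Finset.sum_nonpos
    intro e _
    by_cases he : 0 < cc S (δ⁻¹).1 e
    · have h4 : z ⬝ᵥ cs (uu e) = 0 := by
        have h5 : z ⬝ᵥ cs (uu e) = ((y ⬝ᵥ (fun i => (uu e i : ℚ)) : ℚ) : ℝ) := by
          simp [z, cs, dotProduct]
        rw [h5, h1 e he]; simp
      rw [h4]; simp
    · exact mul_nonpos_of_nonpos_of_nonneg (not_lt.mp he) (sq_nonneg _)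
  rw [← h2] at h3
  have h4 := hS.pd (z ᵥ* ((δ⁻¹).1.map (fun a => (a : ℝ))))
  set z' := z ᵥ* ((δ⁻¹).1.map (fun a => (a : ℝ))) with hz'
  have h5 : z' = 0 := by
    have a0 := sq_nonneg (z' 0)
    have a1 := sq_nonneg (z' 1)
    have a2 := sq_nonneg (z' 2)
    funext i
    fin_cases i
    · exact pow_eq_zero_iff (two_ne_zero) |>.mp (show z' 0 ^ 2 = 0 by linarith)
    · exact pow_eq_zero_iff (two_ne_zero) |>.mp (show z' 1 ^ 2 = 0 by linarith)
    · exact pow_eq_zero_iff (two_ne_zero) |>.mp (show z' 2 ^ 2 = 0 by linarith)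
  have h6 : z = 0 := by
    have h7 : z' ᵥ* (δ.1.map (fun a => (a : ℝ))) = z := by
      rw [hz', vecMul_vecMul]
      have h8 : (δ⁻¹).1.map (fun a => (a : ℝ)) * δ.1.map (fun a => (a : ℝ)) = 1 := by
        have : (Int.castRingHom ℝ).mapMatrix ((δ⁻¹).1 * δ.1) = 1 := by
          rw [← Units.val_mul, inv_mul_cancel]; simp
        rw [map_mul] at this
        exact this
      rw [h8, vecMul_one]
    rw [← h7, h5, zero_vecMul]
  have h7 : y = 0 := by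
    funext i
    have := congrFun h6 i
    simp only [z, Pi.zero_apply] at this ⊢
    exact_mod_cast this
  have h8 : Function.Injective (fun x : Fin 3 → ℚ => x ᵥ* (β * δ.1.map (fun a => (a : ℚ)))) :=
    Matrix.vecMul_injective_iff_isUnit.mpr (hβ.mul (isUnit_map δ))
  apply h8
  show x ᵥ* (β * δ.1.map (fun a => (a : ℚ))) = 0 ᵥ* _
  rw [← vecMul_vecMul, zero_vecMul]
  exact h7

lemma finite_bounded (B : ℤ) : {δ : GL (Fin 3) ℤ | ∀ i j, |(δ⁻¹).1 i j| ≤ B}.Finite := by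
  have h1 : (Set.pi Set.univ (fun _ : Fin 3 => Set.pi Set.univ
      (fun _ : Fin 3 => Set.Icc (-B) B))).Finite :=
    Set.Finite.pi fun _ => Set.Finite.pi fun _ => Set.finite_Icc _ _
  apply Set.Finite.of_finite_image (f := fun δ : GL (Fin 3) ℤ => fun i j => (δ⁻¹).1 i j)
  · apply h1.subset
    rintro _ ⟨δ, hδ, rfl⟩
    simp only [Set.mem_pi, Set.mem_univ, Set.mem_Icc, true_imp_iff]
    intro i j
    exact abs_le.mp (hδ i j)
  · intro δ _ δ' _ h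
    have : (δ⁻¹).1 = (δ'⁻¹).1 := by
      funext i j
      exact congrFun (congrFun h i) j
    have := Units.ext this
    exact inv_injective this

lemma int_bound {a : ℤ} {C : ℝ} {K : ℤ} (hK : 4 * C ≤ K) (h : (a : ℝ) ^ 2 ≤ 4 * C) : |a| ≤ K := by
  have h1 : (a ^ 2 : ℤ) ≤ K := by
    have : ((a ^ 2 : ℤ) : ℝ) ≤ (K : ℝ) := by push_cast; linarith
    exact_mod_cast this
  have h2 : |a| ≤ a ^ 2 := by
    rcases abs_cases a with ⟨h, h'⟩ | ⟨h, h'⟩ <;> rw [h] <;> nlinarith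
  linarith

theorem fin_tiles {β : Matrix (Fin 3) (Fin 3) ℚ} {S : Matrix (Fin 3) (Fin 3) ℝ} (hS : Gen S)
    (C : ℝ) : {F | (∃ δ, tl β δ = F) ∧ eF β S F ≤ C}.Finite := by
  obtain ⟨K, hK⟩ := exists_int_gt (4 * C)
  apply ((finite_bounded (2 * K)).image (tl β)).subset
  rintro F ⟨hF, hE⟩
  refine ⟨dl β F, ?_, dl_spec hF⟩
  unfold eF en at hE
  set M := ((dl β F)⁻¹).1 with hM
  have hrow : ∀ i j, ((ww i ᵥ* M) j : ℝ) ^ 2 ≤ 4 * C := by
    intro i j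
    have h1 : ∀ i, ((cs (ww i ᵥ* M)) 0 ^ 2 + (cs (ww i ᵥ* M)) 1 ^ 2 + (cs (ww i ᵥ* M)) 2 ^ 2) / 2 ≤
        bf S (cs (ww i ᵥ* M)) (cs (ww i ᵥ* M)) := fun i => hS.pd _
    have h2 : bf S (cs (ww i ᵥ* M)) (cs (ww i ᵥ* M)) ≤ 2 * C := by
      have h3 : bf S (cs (ww i ᵥ* M)) (cs (ww i ᵥ* M)) ≤
          ∑ i, bf S (cs (ww i ᵥ* M)) (cs (ww i ᵥ* M)) := by
        apply Finset.single_le_sum (f := fun i => bf S (cs (ww i ᵥ* M)) (cs (ww i ᵥ* M)))
          (fun i _ => ?_) (Finset.mem_univ i)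
        exact le_trans (by positivity) (h1 i)
      linarith
    have h3 := h1 i
    have a0 := sq_nonneg (cs (ww i ᵥ* M) 0)
    have a1 := sq_nonneg (cs (ww i ᵥ* M) 1)
    have a2 := sq_nonneg (cs (ww i ᵥ* M) 2)
    fin_cases j
    · show cs (ww i ᵥ* M) 0 ^ 2 ≤ _; linarith
    · show cs (ww i ᵥ* M) 1 ^ 2 ≤ _; linarith
    · show cs (ww i ᵥ* M) 2 ^ 2 ≤ _; linarith
  have hb : ∀ i j, |(ww i ᵥ* M) j| ≤ K := fun i j => int_bound hK.le (hrow i j)
  show ∀ i j, |M i j| ≤ 2 * K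
  have e0 : ∀ j, M 0 j = (ww 0 ᵥ* M) j := by
    intro j; simp [ww, vecMul, dotProduct, Fin.sum_univ_three]
  have e1 : ∀ j, M 1 j = (ww 1 ᵥ* M) j + (ww 0 ᵥ* M) j := by
    intro j; simp [ww, vecMul, dotProduct, Fin.sum_univ_three]
  have e2 : ∀ j, M 2 j = -(ww 3 ᵥ* M) j := by
    intro j; simp [ww, vecMul, dotProduct, Fin.sum_univ_three]
  have hK0 : 0 ≤ K := le_trans (abs_nonneg _) (hb 0 0)
  intro i j
  fin_cases i
  · show |M 0 j| ≤ _
    rw [e0]; have := hb 0 j; linarith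
  · show |M 1 j| ≤ _
    rw [e1]
    have := abs_add_le ((ww 1 ᵥ* M) j) ((ww 0 ᵥ* M) j)
    have h1 := hb 0 j
    have h2 := hb 1 j
    linarith
  · show |M 2 j| ≤ _
    rw [e2, abs_neg]; have := hb 3 j; linarith

lemma ww_uu (i : Fin 4) (e : Fin 6) : ww i ⬝ᵥ uu e = 0 ∨ ww i ⬝ᵥ uu e = 1 ∨ ww i ⬝ᵥ uu e = -1 := by
  revert i e; decide

theorem loc_tiles {β : Matrix (Fin 3) (Fin 3) ℚ} (hβ : IsUnit β)
    {G : Finset (Matrix (Fin 3) (Fin 3) ℚ)} (hG : Spn G) :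
    {F | (∃ δ, tl β δ = F) ∧ G ⊆ F}.Finite := by
  by_cases hex : ∃ δ, G ⊆ tl β δ
  swap
  · convert Set.finite_empty
    ext F
    simp only [Set.mem_ofPred_eq, Set.mem_empty_iff_false, iff_false, not_and]
    rintro ⟨δ, rfl⟩ h
    exact hex ⟨δ, h⟩
  obtain ⟨δ1, hδ1⟩ := hex
  classical
  -- the finite set of rows
  set φ : (Fin 3 → ℤ) → (Fin 6 → ℤ) := fun y e =>
    if vr β (δ1.1 *ᵥ uu e) ∈ G then y ⬝ᵥ (δ1.1 *ᵥ uu e) else 0 with hφ
  have hinj : Function.Injective φ := by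
    intro y y' h
    obtain ⟨βi, hβi⟩ : ∃ βi : Matrix (Fin 3) (Fin 3) ℚ, βi * β = 1 := by
      obtain ⟨b, rfl⟩ := hβ
      exact ⟨b⁻¹.1, by rw [← Units.val_mul]; simp⟩
    have h1 := hG ((fun i => ((y i - y' i : ℤ) : ℚ)) ᵥ* βi) (by
      intro r hr
      obtain ⟨e, -, rfl⟩ := Finset.mem_image.mp (hδ1 hr)
      rw [dot_ray, vecMul_vecMul, hβi, vecMul_one]
      have h2 := congrFun h e
      simp only [φ, if_pos hr] at h2
      have h3 : (fun i => ((y i - y' i : ℤ) : ℚ)) ⬝ᵥ (fun i => ((δ1.1 *ᵥ uu e) i : ℚ)) =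
          ((y ⬝ᵥ (δ1.1 *ᵥ uu e) - y' ⬝ᵥ (δ1.1 *ᵥ uu e) : ℤ) : ℚ) := by
        simp [dotProduct, Fin.sum_univ_three]; ring
      rw [h3, h2]; simp)
    have h2 := congrArg (fun v => v ᵥ* β) h1
    simp only [vecMul_vecMul, hβi, vecMul_one, zero_vecMul] at h2
    funext i
    have h3 := congrFun h2 i
    simp only [Pi.zero_apply] at h3
    have : y i - y' i = 0 := by exact_mod_cast h3
    omega
  set Y : Set (Fin 3 → ℤ) := φ ⁻¹' (Set.pi Set.univ (fun _ : Fin 6 => Set.Icc (-1) 1)) with hY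
  have hYf : Y.Finite :=
    Set.Finite.preimage (hinj.injOn) (Set.Finite.pi fun _ => Set.finite_Icc _ _)
  -- the rows of the frames are in `Y`
  have hrow : ∀ δ, G ⊆ tl β δ → ∀ i, ww i ᵥ* (δ⁻¹).1 ∈ Y := by
    intro δ hδ i
    simp only [Y, Set.mem_preimage, Set.mem_pi, Set.mem_univ, true_imp_iff, φ]
    intro e
    split_ifs with he
    · have h1 := hδ he
      obtain ⟨f, -, hf⟩ := Finset.mem_image.mp h1
      have h2 : (ww i ᵥ* (δ⁻¹).1) ⬝ᵥ (δ.1 *ᵥ uu f) = ww i ⬝ᵥ uu f := by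
        rw [← dotProduct_mulVec, inv_mulVec]
      rcases vr_inj hβ hf with h3 | h3
      · rw [← h3, h2]
        rcases ww_uu i f with h | h | h <;> rw [h] <;> simp
      · have h4 : δ1.1 *ᵥ uu e = -(δ.1 *ᵥ uu f) := by rw [h3, neg_neg]
        rw [h4, dotProduct_neg, h2]
        rcases ww_uu i f with h | h | h <;> rw [h] <;> simp
    · simp
  have hfin : {δ : GL (Fin 3) ℤ | G ⊆ tl β δ}.Finite := by
    apply Set.Finite.of_finite_image (f := fun δ : GL (Fin 3) ℤ => fun i => ww i ᵥ* (δ⁻¹).1)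
    · apply (Set.Finite.pi' (t := fun _ : Fin 4 => Y) fun _ => hYf).subset
      rintro _ ⟨δ, hδ, rfl⟩ i
      exact hrow δ hδ i
    · intro δ _ δ' _ h
      have : (δ⁻¹).1 = (δ'⁻¹).1 := by
        have e : ∀ M : Matrix (Fin 3) (Fin 3) ℤ, M = Matrix.of ![ww 0 ᵥ* M,
            ww 1 ᵥ* M + ww 0 ᵥ* M, -(ww 3 ᵥ* M)] := by
          intro M
          funext i j
          fin_cases i <;> simp [ww, vecMul, dotProduct, Fin.sum_univ_three]
        rw [e (δ⁻¹).1, e (δ'⁻¹).1]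
        have h0 := congrFun h 0
        have h1 := congrFun h 1
        have h3 := congrFun h 3
        simp only at h0 h1 h3
        rw [h0, h1, h3]
      exact inv_injective (Units.ext this)
  apply (hfin.image (tl β)).subset
  rintro F ⟨⟨δ, rfl⟩, h⟩
  exact ⟨δ, h, rfl⟩

/-- **The shelling of the tiles of a ternary lattice.** -/
noncomputable def selling {β : Matrix (Fin 3) (Fin 3) ℚ} (hβ : IsUnit β)
    {S : Matrix (Fin 3) (Fin 3) ℝ} (hS : Gen S) : Shell (Matrix (Fin 3) (Fin 3) ℚ) 6 where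
  Tile := {F | ∃ δ, tl β δ = F}
  Sp := Spn
  E := eF β S
  c := cF β S
  sp_mono G G' h hs x hx := h x fun r hr => hx r (hs hr)
  lt F hF F' hF' hne h := by
    have := compare hβ hS hF hF' hne (-1) (fun r hr hr' => by
      have := h r hr hr'
      linarith)
    linarith
  gt F hF F' hF' hne h := by
    have := compare hβ hS hF hF' hne 1 (fun r hr hr' => by
      have := h r hr hr'
      linarith)
    linarith
  ne F hF r hr := by
    obtain ⟨e, rfl⟩ := (mem_F hF).mp hr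
    rw [cF_eq hβ]
    exact cc_ne hS _ _
  flip F hF r hr := by
    obtain ⟨e, rfl⟩ := (mem_F hF).mp hr
    have h := tl_flip hβ (dl β F) e
    rw [dl_spec hF] at h
    exact ⟨_, ⟨_, rfl⟩, h.1, h.2⟩
  pos F hF := pos_spn hβ hS hF
  fin C := fin_tiles hS C
  loc G hG := loc_tiles hβ hG
  nonempty := ⟨tl β 1, 1, rfl⟩
  card F hF := by
    obtain ⟨δ, rfl⟩ := hF
    exact tl_card hβ δ

end Pool.Agent.L0h47.CG
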