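import Mathlib

/-!
# Shellings of locally finite families of simplices

A family of finite sets (the tiles) of one cardinality, with an energy function which is controlled
by coordinates.  The complex of the cells (the subsets of the tiles which are large enough) is exact.
-/

set_option autoImplicit false

namespace Pool.Agent.L0h47.CG

/-- The data of a shelling. -/
structure Shell (R : Type) [DecidableEq R] (N : ℕ) where
  /-- the tiles -/
  Tile : Set (Finset R)
  /-- the large sets -/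
  Sp : Finset R → Prop
  /-- the energy -/
  E : Finset R → ℝ
  /-- the coordinates -/
  c : Finset R → R → ℝ
  sp_mono : ∀ G G', Sp G → G ⊆ G' → Sp G'
  lt : ∀ F ∈ Tile, ∀ F' ∈ Tile, F ≠ F' → (∀ r ∈ F, r ∉ F' → c F r < 0) → E F' < E F
  gt : ∀ F ∈ Tile, ∀ F' ∈ Tile, F ≠ F' → (∀ r ∈ F, r ∉ F' → 0 < c F r) → E F < E F'
  ne : ∀ F ∈ Tile, ∀ r ∈ F, c F r ≠ 0
  flip : ∀ F ∈ Tile, ∀ r ∈ F, ∃ F' ∈ Tile, F' ≠ F ∧ F.erase r ⊆ F'
  pos : ∀ F ∈ Tile, Sp (F.filter fun r => 0 < c F r)
  fin : ∀ C, {F | F ∈ Tile ∧ E F ≤ C}.Finite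
  loc : ∀ G, Sp G → {F | F ∈ Tile ∧ G ⊆ F}.Finite
  nonempty : Tile.Nonempty
  card : ∀ F ∈ Tile, F.card = N

variable {R : Type} [DecidableEq R] {N : ℕ} (S : Shell R N)

namespace Shell

/-- the cells -/
def Cell (G : Finset R) : Prop := S.Sp G ∧ ∃ F ∈ S.Tile, G ⊆ F

variable {S}

lemma exists_last {G : Finset R} (hG : S.Cell G) : ∃ F ∈ S.Tile, G ⊆ F ∧
    (∀ r ∈ F, r ∉ G → S.c F r < 0) ∧ ∀ F' ∈ S.Tile, G ⊆ F' → F' ≠ F → S.E F' < S.E F := by
  obtain ⟨h1, F1, hF1, hGF1⟩ := hG
  have hne : (S.loc G h1).toFinset.Nonempty := ⟨F1, by simpa using ⟨hF1, hGF1⟩⟩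
  obtain ⟨F, hF, hmax⟩ := Finset.exists_max_image _ S.E hne
  simp only [Set.Finite.mem_toFinset, Set.mem_ofPred_eq] at hF hmax
  have hneg : ∀ r ∈ F, r ∉ G → S.c F r < 0 := by
    intro r hr hrG
    by_contra hc
    have hc' : 0 < S.c F r := lt_of_le_of_ne (not_lt.mp hc) (S.ne F hF.1 r hr).symm
    obtain ⟨F', hF', hne', hsub⟩ := S.flip F hF.1 r hr
    have h2 := S.gt F hF.1 F' hF' hne'.symm (by
      intro r' hr' hr'F'
      have : r' = r := by
        by_contra hrr
        exact hr'F' (hsub (Finset.mem_erase.mpr ⟨hrr, hr'⟩))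
      rw [this]; exact hc')
    have h3 := hmax F' ⟨hF', fun x hx => hsub (Finset.mem_erase.mpr
      ⟨fun h => hrG (h ▸ hx), hF.2 hx⟩)⟩
    linarith
  refine ⟨F, hF.1, hF.2, hneg, ?_⟩
  intro F' hF' hGF' hne'
  exact S.lt F hF.1 F' hF' hne'.symm fun r hr hr' => hneg r hr fun h => hr' (hGF' h)

variable (S) in
open scoped Classical in
/-- the last tile of a cell -/
noncomputable def lam (G : Finset R) : Finset R :=
  if h : S.Cell G then (exists_last h).choose else ∅

lemma lam_mem {G : Finset R} (hG : S.Cell G) : S.lam G ∈ S.Tile := by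
  unfold lam; rw [dif_pos hG]; exact (exists_last hG).choose_spec.1

lemma sub_lam {G : Finset R} (hG : S.Cell G) : G ⊆ S.lam G := by
  unfold lam; rw [dif_pos hG]; exact (exists_last hG).choose_spec.2.1

lemma lam_neg {G : Finset R} (hG : S.Cell G) : ∀ r ∈ S.lam G, r ∉ G → S.c (S.lam G) r < 0 := by
  unfold lam; rw [dif_pos hG]; exact (exists_last hG).choose_spec.2.2.1

lemma lam_last {G : Finset R} (hG : S.Cell G) : ∀ F' ∈ S.Tile, G ⊆ F' → F' ≠ S.lam G →
    S.E F' < S.E (S.lam G) := by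
  unfold lam; rw [dif_pos hG]; exact (exists_last hG).choose_spec.2.2.2

lemma lam_filter {G : Finset R} (hG : S.Cell G) :
    ((S.lam G).filter fun r => 0 < S.c (S.lam G) r) ⊆ G := by
  intro r hr
  rw [Finset.mem_filter] at hr
  by_contra h
  have := lam_neg hG r hr.1 h
  linarith [hr.2]

lemma lam_eq {G F : Finset R} (hG : S.Cell G) (hF : F ∈ S.Tile) (hGF : G ⊆ F)
    (h : (F.filter fun r => 0 < S.c F r) ⊆ G) : S.lam G = F := by
  by_contra hne
  have h1 := lam_last hG F hF hGF (Ne.symm hne)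
  have h2 := S.lt F hF (S.lam G) (lam_mem hG) (Ne.symm hne) (by
    intro r hr hr'
    by_contra hc
    have hc' : 0 < S.c F r := lt_of_le_of_ne (not_lt.mp hc) (S.ne F hF r hr).symm
    exact hr' (sub_lam hG (h (Finset.mem_filter.mpr ⟨hr, hc'⟩))))
  linarith

variable (S) in
/-- the first tile -/
lemma exists_first : ∃ F0 ∈ S.Tile, (∀ F ∈ S.Tile, F ≠ F0 → ∃ r ∈ F, S.c F r < 0) ∧
    ∀ r ∈ F0, 0 < S.c F0 r := by
  obtain ⟨F1, hF1⟩ := S.nonempty
  have hne : (S.fin (S.E F1)).toFinset.Nonempty := ⟨F1, by simpa using hF1⟩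
  obtain ⟨F, hF, hmin⟩ := Finset.exists_min_image _ S.E hne
  simp only [Set.Finite.mem_toFinset, Set.mem_ofPred_eq] at hF hmin
  have hmin' : ∀ F' ∈ S.Tile, S.E F ≤ S.E F' := by
    intro F' hF'
    by_cases h : S.E F' ≤ S.E F1
    · exact hmin F' ⟨hF', h⟩
    · linarith [hF.2]
  refine ⟨F, hF.1, ?_, ?_⟩
  · intro F' hF' hne'
    by_contra hcon
    push Not at hcon
    have := S.gt F' hF' F hF.1 hne' fun r hr _ =>
      lt_of_le_of_ne (hcon r hr) (S.ne F' hF' r hr).symm
    linarith [hmin' F' hF']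
  · intro r hr
    by_contra hc
    have hc' : S.c F r < 0 := lt_of_le_of_ne (not_lt.mp hc) (S.ne F hF.1 r hr)
    obtain ⟨F', hF', hne', hsub⟩ := S.flip F hF.1 r hr
    have h2 := S.lt F hF.1 F' hF' hne'.symm (by
      intro r' hr' hr'F'
      have : r' = r := by
        by_contra hrr
        exact hr'F' (hsub (Finset.mem_erase.mpr ⟨hrr, hr'⟩))
      rw [this]; exact hc')
    linarith [hmin' F' hF']

variable (S) in
/-- the first tile -/
noncomputable def F0 : Finset R := S.exists_first.choose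

lemma F0_mem : S.F0 ∈ S.Tile := S.exists_first.choose_spec.1

lemma F0_pos : ∀ r ∈ S.F0, 0 < S.c S.F0 r := S.exists_first.choose_spec.2.2

variable (S) in
open scoped Classical in
/-- a negative ray of a tile -/
noncomputable def jj (F : Finset R) : Option R :=
  if h : F ∈ S.Tile ∧ F ≠ S.F0 then some (S.exists_first.choose_spec.2.1 F h.1 h.2).choose
  else none

lemma jj_spec {F : Finset R} (h1 : F ∈ S.Tile) (h2 : F ≠ S.F0) :
    ∃ j ∈ F, S.jj F = some j ∧ S.c F j < 0 := by
  unfold jj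
  rw [dif_pos ⟨h1, h2⟩]
  exact ⟨_, (S.exists_first.choose_spec.2.1 F h1 h2).choose_spec.1, rfl,
    (S.exists_first.choose_spec.2.1 F h1 h2).choose_spec.2⟩

lemma lam_F0 {G : Finset R} (hG : S.Cell G) (h : S.lam G = S.F0) : G = S.F0 := by
  apply Finset.Subset.antisymm
  · rw [← h]; exact sub_lam hG
  · intro r hr
    apply lam_filter hG
    rw [h]
    exact Finset.mem_filter.mpr ⟨hr, F0_pos r hr⟩

/-- enlarging a cell inside its last tile -/
lemma lam_insert_mem {G : Finset R} (hG : S.Cell G) {r : R} (hr : r ∈ S.lam G) :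
    S.Cell (insert r G) ∧ S.lam (insert r G) = S.lam G := by
  have hsub : insert r G ⊆ S.lam G := Finset.insert_subset hr (sub_lam hG)
  have hc : S.Cell (insert r G) :=
    ⟨S.sp_mono _ _ hG.1 (Finset.subset_insert _ _), _, lam_mem hG, hsub⟩
  exact ⟨hc, lam_eq hc (lam_mem hG) hsub ((lam_filter hG).trans (Finset.subset_insert _ _))⟩

/-- enlarging a cell outside of its last tile -/
lemma lam_insert_notMem {G : Finset R} (hG : S.Cell G) {r : R} (hr : r ∉ S.lam G)
    (hc : S.Cell (insert r G)) : S.E (S.lam (insert r G)) < S.E (S.lam G) := by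
  apply lam_last hG _ (lam_mem hc) ((Finset.subset_insert _ _).trans (sub_lam hc))
  intro h
  exact hr (h ▸ sub_lam hc (Finset.mem_insert_self _ _))

/-- removing a negative ray from a cell -/
lemma lam_erase {G : Finset R} (hG : S.Cell G) {j : R} (hj : S.c (S.lam G) j < 0) :
    S.Cell (G.erase j) ∧ S.lam (G.erase j) = S.lam G := by
  have hf : ((S.lam G).filter fun r => 0 < S.c (S.lam G) r) ⊆ G.erase j := by
    intro r hr
    refine Finset.mem_erase.mpr ⟨?_, lam_filter hG hr⟩
    rintro rfl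
    rw [Finset.mem_filter] at hr
    linarith [hr.2]
  have hsub : G.erase j ⊆ S.lam G := (Finset.erase_subset _ _).trans (sub_lam hG)
  have hc : S.Cell (G.erase j) :=
    ⟨S.sp_mono _ _ (S.pos _ (lam_mem hG)) hf, _, lam_mem hG, hsub⟩
  exact ⟨hc, lam_eq hc (lam_mem hG) hsub hf⟩

variable (S) in
open scoped Classical in
/-- the rays which enlarge a cell -/
noncomputable def cof (G : Finset R) : Finset R :=
  if h : S.Cell G then ((S.loc G h.1).toFinset.biUnion id).filter fun r => r ∉ G else ∅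

lemma mem_cof {G : Finset R} (hG : S.Cell G) {r : R} :
    r ∈ S.cof G ↔ r ∉ G ∧ S.Cell (insert r G) := by
  unfold cof
  rw [dif_pos hG, Finset.mem_filter, Finset.mem_biUnion]
  constructor
  · rintro ⟨⟨F, hF, hr⟩, hrG⟩
    simp only [Set.Finite.mem_toFinset, Set.mem_ofPred_eq, id_eq] at hF hr
    exact ⟨hrG, S.sp_mono _ _ hG.1 (Finset.subset_insert _ _), F, hF.1,
      Finset.insert_subset hr hF.2⟩
  · rintro ⟨hrG, -, F, hF, hsub⟩
    refine ⟨⟨F, ?_, hsub (Finset.mem_insert_self _ _)⟩, hrG⟩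
    simp only [Set.Finite.mem_toFinset, Set.mem_ofPred_eq]
    exact ⟨hF, (Finset.subset_insert _ _).trans hsub⟩

lemma cof_eq_empty {G : Finset R} (hG : ¬ S.Cell G) : S.cof G = ∅ := by
  unfold cof; rw [dif_neg hG]

lemma card_le {G : Finset R} (hG : S.Cell G) : G.card ≤ N := by
  obtain ⟨_, F, hF, h⟩ := hG
  rw [← S.card F hF]
  exact Finset.card_le_card h

variable (S) in
/-- the number of tiles of smaller energy -/
noncomputable def mu (G : Finset R) : ℕ := {F | F ∈ S.Tile ∧ S.E F < S.E (S.lam G)}.ncard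

lemma mu_lt {G G' : Finset R} (hG : S.Cell G') (h : S.E (S.lam G') < S.E (S.lam G)) :
    S.mu G' < S.mu G := by
  unfold mu
  apply Set.ncard_lt_ncard
  · refine ⟨fun F hF => ⟨hF.1, hF.2.trans h⟩, fun hcon => ?_⟩
    have := hcon (a := S.lam G') ⟨lam_mem hG, h⟩
    exact lt_irrefl _ this.2
  · exact (S.fin (S.E (S.lam G))).subset fun F hF => ⟨hF.1, hF.2.le⟩

end Shell

/-! ### Signs -/

section
variable [LinearOrder R]

/-- the number of elements below `r` -/
def below (r : R) (G : Finset R) : ℕ := (G.filter fun s => s < r).card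

/-- the sign of `r` with respect to `G` -/
def sg (r : R) (G : Finset R) : ℤ := (-1) ^ below r G

lemma sg_mul_self (r : R) (G : Finset R) : sg r G * sg r G = 1 := by
  unfold sg; rw [← mul_pow]; simp

lemma below_insert {r s : R} {G : Finset R} (hs : s ∉ G) :
    below r (insert s G) = below r G + if s < r then 1 else 0 := by
  unfold below
  rw [Finset.filter_insert]
  split_ifs with h
  · rw [Finset.card_insert_of_notMem (by simp [hs])]
  · simp

lemma sg_swap {r s : R} {G : Finset R} (hr : r ∉ G) (hs : s ∉ G) (h : r ≠ s) :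
    sg r G * sg s (insert r G) = -(sg s G * sg r (insert s G)) := by
  unfold sg
  rw [below_insert hr, below_insert hs]
  rcases lt_or_gt_of_ne h with h1 | h1
  · rw [if_pos h1, if_neg (not_lt.mpr h1.le), pow_add]
    ring
  · rw [if_neg (not_lt.mpr h1.le), if_pos h1, pow_add]
    ring

end

end Pool.Agent.L0h47.CG
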