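import Pool.Agent.L0h47.CG.Shell

/-!
# Exactness of the complex of a shelling
-/

set_option autoImplicit false

namespace Pool.Agent.L0h47.CG

variable {R : Type} [LinearOrder R] {N : ℕ} {S : Shell R N} {W : Type} [AddCommGroup W]

namespace Shell

variable (S) in
/-- functions on the cells with `m` elements -/
def Supp (m : ℕ) (f : Finset R → W) : Prop := ∀ G, ¬ (S.Cell G ∧ G.card = m) → f G = 0

variable (S) in
open scoped Classical in
/-- the differential -/
noncomputable def df (f : Finset R → W) (G : Finset R) : W :=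
  ∑ r ∈ S.cof G, sg r G • f (insert r G)

lemma df_not {f : Finset R → W} {G : Finset R} (hG : ¬ S.Cell G) : S.df f G = 0 := by
  unfold df; rw [cof_eq_empty hG]; simp

lemma df_supp {m : ℕ} {f : Finset R → W} (hf : S.Supp (m + 1) f) : S.Supp m (S.df f) := by
  intro G hG
  by_cases hc : S.Cell G
  · unfold df
    apply Finset.sum_eq_zero
    intro r hr
    rw [mem_cof hc] at hr
    rw [hf, smul_zero]
    rintro ⟨-, h⟩
    rw [Finset.card_insert_of_notMem hr.1] at h
    exact hG ⟨hc, by omega⟩
  · exact df_not hc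

lemma df_sub (f g : Finset R → W) : S.df (f - g) = S.df f - S.df g := by
  funext G
  unfold df
  simp only [Pi.sub_apply, smul_sub, Finset.sum_sub_distrib]

lemma df_df (f : Finset R → W) : S.df (S.df f) = 0 := by
  classical
  funext G
  by_cases hG : S.Cell G
  · show ∑ r ∈ S.cof G, sg r G • ∑ s ∈ S.cof (insert r G), sg s (insert r G) •
      f (insert s (insert r G)) = 0
    simp_rw [Finset.smul_sum]
    rw [Finset.sum_sigma']
    have key : ∀ p : (_ : R) × R, p ∈ (S.cof G).sigma (fun r => S.cof (insert r G)) ↔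
        p.1 ∉ G ∧ p.2 ∉ G ∧ p.1 ≠ p.2 ∧ S.Cell (insert p.2 (insert p.1 G)) := by
      rintro ⟨r, s⟩
      simp only [Finset.mem_sigma]
      rw [mem_cof hG]
      constructor
      · rintro ⟨⟨h1, h2⟩, h3⟩
        rw [mem_cof h2, Finset.mem_insert, not_or] at h3
        exact ⟨h1, h3.1.2, fun h => h3.1.1 h.symm, h3.2⟩
      · rintro ⟨h1, h2, h3, h4⟩
        have h5 : S.Cell (insert r G) := by
          obtain ⟨_, F, hF, hs⟩ := h4
          exact ⟨S.sp_mono _ _ hG.1 (Finset.subset_insert _ _), F, hF,
            (Finset.subset_insert _ _).trans hs⟩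
        refine ⟨⟨h1, h5⟩, ?_⟩
        rw [mem_cof h5, Finset.mem_insert, not_or]
        exact ⟨⟨fun h => h3 h.symm, h2⟩, h4⟩
    refine Finset.sum_involution (fun p _ => ⟨p.2, p.1⟩) ?_ ?_ ?_ ?_
    · rintro ⟨r, s⟩ hp
      rw [key] at hp
      obtain ⟨h1, h2, h3, h4⟩ := hp
      simp only at h1 h2 h3 h4 ⊢
      rw [Finset.insert_comm r s G, smul_smul, smul_smul, sg_swap h1 h2 h3, neg_smul]
      simp
    · rintro ⟨r, s⟩ hp _ heq
      rw [key] at hp
      simp only [Sigma.mk.injEq, heq_eq_eq] at heq
      exact hp.2.2.1 heq.2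
    · rintro ⟨r, s⟩ hp
      rw [key] at hp ⊢
      refine ⟨hp.2.1, hp.1, hp.2.2.1.symm, ?_⟩
      simp only
      rw [Finset.insert_comm r s G]
      exact hp.2.2.2
    · rintro ⟨r, s⟩ hp
      rfl
  · exact df_not hG

/-- **Uniqueness.** -/
theorem uniq {m : ℕ} {e : Finset R → W} (he : S.Supp m e) (hd : S.df e = 0) (h0 : e S.F0 = 0)
    (hj : ∀ G, S.Cell G → G.card = m → S.lam G ≠ S.F0 → (∀ j, S.jj (S.lam G) = some j → j ∉ G) → e G = 0) :
    e = 0 := by
  suffices h : ∀ (k : ℕ) (G : Finset R), S.mu G = k → S.Cell G → e G = 0 by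
    funext G
    by_cases hG : S.Cell G
    · exact h _ G rfl hG
    · exact he G fun h => hG h.1
  intro k
  induction k using Nat.strong_induction_on with
  | _ k ih =>
    intro G hk hG
    by_cases hcard : G.card = m
    swap
    · exact he G fun h => hcard h.2
    by_cases hF : S.lam G = S.F0
    · rw [lam_F0 hG hF]; exact h0
    obtain ⟨j, hjF, hjj, hneg⟩ := jj_spec (lam_mem hG) hF
    by_cases hjG : j ∈ G
    swap
    · apply hj G hG hcard hF
      intro j' hj'
      rw [hjj] at hj'
      cases hj'
      exact hjG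
    obtain ⟨hG', hlam⟩ := lam_erase hG hneg
    have h1 : S.df e (G.erase j) = 0 := by rw [hd]; rfl
    have hjG' : j ∉ G.erase j := Finset.notMem_erase j G
    have hins : insert j (G.erase j) = G := Finset.insert_erase hjG
    have hjc : j ∈ S.cof (G.erase j) := by
      rw [mem_cof hG', hins]; exact ⟨hjG', hG⟩
    unfold df at h1
    rw [Finset.sum_eq_single_of_mem j hjc, hins] at h1
    · have := congrArg (fun w => sg j (G.erase j) • w) h1
      simpa [smul_smul, sg_mul_self] using this
    · intro r hr hrj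
      rw [mem_cof hG'] at hr
      by_cases hrF : r ∈ S.lam G
      · rw [← hlam] at hrF
        obtain ⟨hc, hl⟩ := lam_insert_mem hG' hrF
        have : (insert r (G.erase j)).card = m := by
          rw [Finset.card_insert_of_notMem hr.1, Finset.card_erase_of_mem hjG, hcard]
          have := Finset.card_pos.mpr ⟨j, hjG⟩
          omega
        rw [hj _ hc this (by rw [hl, hlam]; exact hF), smul_zero]
        intro j' hj'
        rw [hl, hlam, hjj] at hj'
        cases hj'
        simp [hrj.symm]
      · rw [← hlam] at hrF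
        have hlt := lam_insert_notMem hG' hrF hr.2
        rw [ih (S.mu (insert r (G.erase j))) ?_ _ rfl hr.2, smul_zero]
        rw [← hk]
        have : S.mu (G.erase j) = S.mu G := by unfold mu; rw [hlam]
        rw [← this]
        exact mu_lt hr.2 hlt

/-- the condition under which the solution is not `0` -/
def Cond (S : Shell R N) (G : Finset R) (j : R) : Prop :=
  S.Cell G ∧ S.jj (S.lam G) = some j ∧ j ∈ G

lemma Cond.ne {G : Finset R} {j : R} (h : S.Cond G j) : S.lam G ≠ S.F0 := by
  intro h2
  have := h.2.1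
  unfold jj at this
  rw [dif_neg (by rw [h2]; simp)] at this
  cases this

lemma Cond.neg {G : Finset R} {j : R} (h : S.Cond G j) : S.c (S.lam G) j < 0 := by
  obtain ⟨j', _, h2, h3⟩ := jj_spec (lam_mem h.1) h.ne
  rw [h.2.1] at h2
  cases h2
  exact h3

lemma Cond.erase {G : Finset R} {j : R} (h : S.Cond G j) :
    S.Cell (G.erase j) ∧ S.lam (G.erase j) = S.lam G := lam_erase h.1 h.neg

open scoped Classical in
/-- the solution of `dh = f` -/
noncomputable def sol (f : Finset R → W) (G : Finset R) : W :=
  if h : ∃ j, S.Cond G j then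
    sg h.choose (G.erase h.choose) • (f (G.erase h.choose) -
      ∑ r ∈ (S.cof (G.erase h.choose)).attach, if hr : (r : R) ∉ S.lam G then
        sg (r : R) (G.erase h.choose) • sol f (insert (r : R) (G.erase h.choose)) else 0)
  else 0
termination_by S.mu G
decreasing_by
  have h1 := h.choose_spec
  obtain ⟨hG', hlam⟩ := h1.erase
  have hr2 := r.2
  rw [mem_cof hG'] at hr2
  have : S.mu (G.erase h.choose) = S.mu G := by unfold mu; rw [hlam]
  rw [← this]
  apply mu_lt hr2.2
  rw [← hlam] at hr
  exact lam_insert_notMem hG' hr hr2.2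

lemma sol_not {f : Finset R → W} {G : Finset R} (h : ¬ ∃ j, S.Cond G j) :
    sol (S := S) f G = 0 := by
  rw [sol, dif_neg h]

lemma sol_eq {f : Finset R → W} {G : Finset R} {j : R} (h : S.Cond G j) :
    sol (S := S) f G = sg j (G.erase j) • (f (G.erase j) -
      ∑ r ∈ S.cof (G.erase j), if r ∉ S.lam G then
        sg r (G.erase j) • sol (S := S) f (insert r (G.erase j)) else 0) := by
  classical
  have hex : ∃ j, S.Cond G j := ⟨j, h⟩
  have hj : hex.choose = j := by
    have := hex.choose_spec.2.1
    rw [h.2.1] at this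
    exact (Option.some.inj this).symm
  rw [sol, dif_pos hex, hj]
  congr 2
  rw [← Finset.sum_attach (S.cof (G.erase j))]
  apply Finset.sum_congr rfl
  intro r _
  split_ifs <;> rfl

lemma sol_supp {m : ℕ} {f : Finset R → W} (hf : S.Supp m f) :
    S.Supp (m + 1) (sol (S := S) f) := by
  suffices h : ∀ (k : ℕ) (G : Finset R), S.mu G = k → G.card ≠ m + 1 → sol (S := S) f G = 0 by
    intro G hG
    by_cases hc : S.Cell G
    · exact h _ G rfl fun h => hG ⟨hc, h⟩
    · exact sol_not fun ⟨j, hj⟩ => hc hj.1
  intro k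
  induction k using Nat.strong_induction_on with
  | _ k ih =>
    intro G hk hcard
    by_cases hex : ∃ j, S.Cond G j
    swap
    · exact sol_not hex
    obtain ⟨j, hj⟩ := hex
    obtain ⟨hG', hlam⟩ := hj.erase
    have hpos := Finset.card_pos.mpr ⟨j, hj.2.2⟩
    rw [sol_eq hj, hf, Finset.sum_eq_zero, sub_zero, smul_zero]
    · intro r hr
      rw [mem_cof hG'] at hr
      by_cases hrF : r ∈ S.lam G
      · rw [if_neg (not_not.mpr hrF)]
      · rw [if_pos hrF, ih (S.mu (insert r (G.erase j))) ?_ _ rfl ?_, smul_zero]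
        · rw [← hk]
          have : S.mu (G.erase j) = S.mu G := by unfold mu; rw [hlam]
          rw [← this]
          rw [← hlam] at hrF
          exact mu_lt hr.2 (lam_insert_notMem hG' hrF hr.2)
        · rw [Finset.card_insert_of_notMem hr.1, Finset.card_erase_of_mem hj.2.2]
          omega
    · rintro ⟨-, h⟩
      rw [Finset.card_erase_of_mem hj.2.2] at h
      omega

/-- **Existence.** -/
theorem exists_sol {m : ℕ} (hm : m < N) {f : Finset R → W} (hf : S.Supp m f) (hd : S.df f = 0) :
    ∃ h : Finset R → W, S.Supp (m + 1) h ∧ S.df h = f := by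
  refine ⟨sol (S := S) f, sol_supp hf, ?_⟩
  suffices h : f - S.df (sol (S := S) f) = 0 by
    rw [sub_eq_zero] at h; exact h.symm
  have hsupp : S.Supp m (f - S.df (sol (S := S) f)) := by
    intro G hG
    rw [Pi.sub_apply, hf G hG, df_supp (sol_supp hf) G hG, sub_zero]
  apply uniq hsupp
  · rw [df_sub, hd, df_df, sub_zero]
  · apply hsupp
    rintro ⟨-, h⟩
    rw [S.card _ F0_mem] at h
    omega
  · intro G hG hcard hF hjG
    obtain ⟨j, hjF, hjj, hneg⟩ := jj_spec (lam_mem hG) hF
    have hjG' := hjG j hjj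
    obtain ⟨hc, hl⟩ := lam_insert_mem hG hjF
    have hcond : S.Cond (insert j G) j := ⟨hc, by rw [hl]; exact hjj, Finset.mem_insert_self _ _⟩
    have her : (insert j G).erase j = G := Finset.erase_insert hjG'
    have hjc : j ∈ S.cof G := by rw [mem_cof hG]; exact ⟨hjG', hc⟩
    rw [Pi.sub_apply, sub_eq_zero]
    unfold df
    rw [← Finset.add_sum_erase _ _ hjc, sol_eq hcond, her, smul_smul, sg_mul_self, one_smul, hl,
      ← Finset.add_sum_erase _ _ hjc, if_neg (not_not.mpr hjF), zero_add]
    have : ∑ x ∈ (S.cof G).erase j, (if x ∉ S.lam G then sg x G • sol (S := S) f (insert x G)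
        else 0) = ∑ x ∈ (S.cof G).erase j, sg x G • sol (S := S) f (insert x G) := by
      apply Finset.sum_congr rfl
      intro r hr
      rw [Finset.mem_erase] at hr
      by_cases hrF : r ∈ S.lam G
      swap
      · rw [if_pos hrF]
      · rw [if_neg (not_not.mpr hrF)]
        obtain ⟨hc2, hl2⟩ := lam_insert_mem hG hrF
        rw [sol_not, smul_zero]
        rintro ⟨j', hj'⟩
        have h3 := hj'.2.1
        rw [hl2, hjj] at h3
        cases h3
        have h4 := hj'.2.2
        rw [Finset.mem_insert] at h4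
        rcases h4 with h4 | h4
        · exact hr.1 h4.symm
        · exact hjG' h4
    rw [this]
    abel

/-- **Injectivity at the tiles.** -/
theorem eq_zero_of_F0 {f : Finset R → W} (hf : S.Supp N f) (hd : S.df f = 0) (h0 : f S.F0 = 0) :
    f = 0 := by
  apply uniq hf hd h0
  intro G hG hcard hF hjG
  obtain ⟨j, hjF, hjj, hneg⟩ := jj_spec (lam_mem hG) hF
  exfalso
  apply hjG j hjj
  have : G = S.lam G := Finset.eq_of_subset_of_card_le (sub_lam hG) (by
    rw [S.card _ (lam_mem hG), hcard])
  rw [this]; exact hjF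

end Shell

end Pool.Agent.L0h47.CG
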